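import Pool.Agent.P.MP_1672e2_an.Cx.Defs

/-! Definitions for the counterexample. -/

set_option autoImplicit false

namespace Pool.Agent.P.MP_1672e2_an.Cq

open MeasureTheory Set

export Pool.Agent.P.MP_1672e2_an.Cx (Ent win PU PB ix)

/-! ### The hierarchy -/

/-- Periods. -/
def T : ℕ → ℕ
  | 0 => 1
  | j + 1 => (2 ^ (3 * j + 9) + 2 ^ (j + 3) + 1) * T j + 2

theorem T_realize : True := by have := @T.eq_def; trivial

/-- Gaps. -/
def m : ℕ → ℕ
  | 0 => 1
  | j + 1 => 2 ^ (2 * j + 6) * T j + 1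

theorem m_realize : True := by have := @m.eq_def; trivial

/-- Number of bits chosen at a star of a given level. -/
def be : ℕ → ℕ
  | 0 => 0
  | j + 1 => 10 * (m (j + 1) - m j) - (j + 14)

theorem be_realize : True := by have := @be.eq_def; trivial

/-- Types of times: a step near the fixed point, or a passage with the levels of its left and
right gaps. -/
abbrev Ty : Type := Option (ℕ × ℕ)

/-- The skeleton of a block of level `j`. -/
def sk : ℕ → ℕ → Ty
  | 0, _ => some (0, 0)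
  | j + 1, s =>
    if s = 0 then some (j + 1, j + 1) else if s < m (j + 1) then none
    else if s = m (j + 1) then some (j + 1, j)
    else if s < T (j + 1) - m (j + 1) then sk j ((s - m (j + 1)) % T j)
    else if s = T (j + 1) - m (j + 1) then some (j, j + 1) else none

theorem sk_realize : True := by have := @sk.eq_def; trivial

/-- Bits chosen at a time of a given type. -/
def bt : Ty → ℕ
  | none => 0
  | some p => if p.1 = p.2 then be p.1 else 0

/-- The symbol written at a time of a given type, with choice `n`. -/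
def code : Ty → ℕ → ℕ × ℕ
  | none, _ => (0, 0)
  | some p, n => if n = 0 then (1, 0) else (p.1 + 1, 2 * n)

/-- Admissible choices in a block. -/
def Adm (j : ℕ) (c : ℕ → ℕ) : Prop := ∀ s, 0 < s → s < T j → c s < 2 ^ bt (sk j s)

/-- Bits per period. -/
def FF (j : ℕ) : ℕ := ∑ s ∈ Finset.range (T j), bt (sk j s)

/-- The entropy of the example. -/
noncomputable def hh : ℝ := Real.log 2 * ⨆ j, (FF j : ℝ) / T j

/-- Growth rate (in bits) of the words of level at most `J`. -/
noncomputable def pJ (J : ℕ) : ℝ := if J = 0 then 1 else (FF J : ℝ) / T J + (1 / 2) ^ (J + 2)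

/-- Constraints satisfied by all names. -/
def Lang (y : Om) : Prop :=
  ∀ τ : ℤ, y τ = (0, 0) ∨ y τ = (1, 0) ∨ ∃ (j n : ℕ) (c : ℕ → ℕ), 1 ≤ j ∧ n < 2 * 2 ^ be j ∧
    y τ = (j + 1, n) ∧ Adm j c ∧ ∀ s, 0 < s → s < T j → y (τ + s) = code (sk j s) (c s)

/-- Designated names. -/
def Des (y : Om) : Prop :=
  ∃ (ty : ℤ → Ty) (c : ℤ → ℕ), (∀ t, y t = code (ty t) (c t)) ∧ ∀ n : ℕ, ∃ (J : ℕ) (τ : ℤ),
    τ < -n ∧ (n : ℤ) < τ + T J ∧ ty τ ≠ none ∧ ty (τ + T J) ≠ none ∧
      ∀ s, 0 < s → s < T J → ty (τ + s) = sk J s ∧ c (τ + s) < 2 ^ bt (sk J s)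

/-- Number of blocks of level `j` in a block of the next level. -/
def NN (j : ℕ) : ℕ := 2 ^ (3 * j + 9) + 2 ^ (j + 3) + 1 - 2 ^ (2 * j + 7)

/-- The position in a block of level `j` (or `T j` if there is none) read from the position in a
block of the next level. -/
def dn (j s : ℕ) : ℕ :=
  if m (j + 1) ≤ s ∧ s + m (j + 1) < T (j + 1) then (s - m (j + 1)) % T j else T j

/-- The point is not in a zone of level above `J`. -/
def gd {G : Type*} (pos : ℕ → G → ℕ) (J : ℕ) (g : G) : Prop :=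
  ∀ j, J < j → m j < pos j g ∧ pos j g < T j - m j

open Classical in
/-- The type of a point of the odometer. -/
noncomputable def ty {G : Type*} (pos : ℕ → G → ℕ) (g : G) : Ty :=
  if h : ∃ J, gd pos J g then sk (Nat.find h) (pos (Nat.find h) g) else none

/-! ### Elementary functions -/

/-- Square of the positive part. -/
noncomputable def pp (t : ℝ) : ℝ := (max t 0) ^ 2

/-- A step from `0` to `1`, affine in the middle. -/
noncomputable def Psi (t : ℝ) : ℝ := 25 / 8 * (pp t - pp (t - 1 / 5) - pp (t - 4 / 5) + pp (t - 1))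

/-- A ramp. -/
noncomputable def rp (t : ℝ) : ℝ := (pp t - pp (t - 2)) / 4

/-- A cutoff. -/
noncomputable def chi (t : ℝ) : ℝ := Psi (4 * t + 2) - Psi (4 * t - 1)

/-- The drops of the zigzag. -/
noncomputable def DD (b : ℕ) (t : ℝ) : ℝ :=
  8 * ∑ i ∈ Finset.range b, Psi ((t - 8 * i - 3) / 2) - 8 * b * Psi ((t - 8 * b - 3) / (8 * b))

/-! ### Scales -/

/-- The multiplier at the fixed point. -/
noncomputable def lam : ℝ := 2 ^ 20

/-- The trace at the fixed point. -/
noncomputable def av : ℝ := lam + lam⁻¹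

/-- Scale of the values. -/
noncomputable def sc (k : ℕ) : ℝ := lam / lam ^ k

/-- Scale of the positions. -/
noncomputable def ell (k : ℕ) : ℝ := (1 / 1024) ^ k

/-- Left end of step `k`. -/
noncomputable def aa (k : ℕ) : ℝ := ell (m (Nat.findGreatest (fun j => m j ≤ k) k)) + 2 * ell k

/-- The affine part of step `k`. -/
def II (k : ℕ) : Set ℝ := Icc (aa k + ell k / 5) (aa k + 4 * ell k / 5)

/-- Height of step `k`. -/
noncomputable def De (k : ℕ) : ℝ := 3 * sc k - 3 * sc (k + 1)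

/-- Slope of step `k`. -/
noncomputable def ss (k : ℕ) : ℝ := 5 / 4 * De k / ell k

/-- The affine extension of step `k`. -/
noncomputable def Af (k : ℕ) (a : ℝ) : ℝ := 3 * sc (k + 1) + ss k * (a - aa k - ell k / 10)

/-- The staircase. -/
noncomputable def gam (a : ℝ) : ℝ := ∑' k, De (k + 1) * Psi ((a - aa (k + 1)) / ell (k + 1))

/-- Positions of level at least `j` are below `de j`. -/
noncomputable def de (j : ℕ) : ℝ := 4 * ell (m j)

/-- Positions of level less than `j` are above `de' j`. -/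
noncomputable def de' (j : ℕ) : ℝ := ell (m (j - 1))

/-- The band of values after a gap of length `k`. -/
def Bd (k : ℕ) (y : ℝ) : Prop := 49 / 100 * sc k ≤ y ∧ y ≤ 51 / 100 * sc k

/-- The linear recurrence holds inside a gap of length `r`. -/
def ZR (X : ℕ → ℝ) (r : ℕ) : Prop := ∀ s, 0 < s → s < r → X (s + 1) + X (s - 1) = av * X s

/-! ### Formal orbits -/

/-- Slopes of the formal recurrence. -/
noncomputable def sl : Ty → ℝ
  | none => av
  | some p => 2 / lam - ss (m (min p.1 p.2))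

/-- Solution of a second order recurrence. -/
def fw (L : ℕ → ℝ → ℝ) (x₀ x₁ : ℝ) : ℕ → ℝ
  | 0 => x₀
  | 1 => x₁
  | s + 2 => L (s + 1) (fw L x₀ x₁ (s + 1)) - fw L x₀ x₁ s

theorem fw_realize : True := by have := @fw.eq_def; trivial

/-- First homogeneous solution. -/
noncomputable def PP (j : ℕ) : ℝ := fw (fun s x => sl (sk j s) * x) 0 1 (T j)

/-- Second homogeneous solution. -/
noncomputable def PP' (j : ℕ) : ℝ := fw (fun s x => sl (sk j s) * x) 1 0 (T j)

/-- Influence of the far end of a block. -/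
noncomputable def rho (j : ℕ) : ℝ := -1 / PP j

/-- Influence of the near end of a block. -/
noncomputable def kap (j : ℕ) : ℝ := PP' j / PP j + 1 / lam

/-- The unit of the zigzag. -/
noncomputable def uu (j : ℕ) : ℝ := 2 * |rho j| * de j

/-- Intercepts of the formal recurrence. -/
noncomputable def ic : Ty → ℕ → ℝ
  | none, _ => 0
  | some p, n => Af (m (min p.1 p.2)) (1 / 2) - 8 * n * uu (min p.1 p.2)

/-- Formal orbits in a block. -/
def Sol (j : ℕ) (c : ℕ → ℕ) (X : ℕ → ℝ) : Prop :=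
  ∀ s, 0 < s → s < T j → X (s + 1) + X (s - 1) = sl (sk j s) * X s + ic (sk j s) (c s)

/-- The centre of a block. -/
noncomputable def yv (j : ℕ) (c : ℕ → ℕ) : ℝ :=
  (1 / 2 - PP' j / 2 - fw (fun s x => sl (sk j s) * x + ic (sk j s) (c s)) 0 0 (T j)) / PP j -
    1 / 2 / lam

open Classical in
/-- The centres of level `j`. -/
noncomputable def Yset (j : ℕ) : Finset ℝ :=
  (Fintype.piFinset fun s : Fin (T j) => Finset.range (2 ^ bt (sk j s))).image
    fun c => yv j fun s => if h : s < T j then c ⟨s, h⟩ else 0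

/-- The centres of level `j` are separated. -/
def Sep (j : ℕ) : Prop :=
  ∀ y ∈ Yset j, ∀ y' ∈ Yset j, |y - y'| ≤ 2 * |rho j| * de' j → y = y'

/-! ### The map -/

/-- Formal position at the far end of the past block. -/
noncomputable def om (j : ℕ) (y : ℝ) (p : ℝ × ℝ) : ℝ :=
  (p.1 - p.2 / lam - y - kap j * (1 / 2 - p.2)) / rho j

/-- Coordinate along the zigzag. -/
noncomputable def tt (j : ℕ) (y y' : ℝ) (p : ℝ × ℝ) : ℝ :=
  (Af (m j) (1 / 2 - p.2) - 2 * kap j * (1 / 2 - p.2) - y - y') / uu j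

/-- One wiggle. -/
noncomputable def xi (j : ℕ) (y y' : ℝ) (p : ℝ × ℝ) : ℝ :=
  -(uu j * chi (om j y p / de' j) * DD (2 ^ be j - 1) (tt j y y' p))

/-- A region containing the support of one wiggle. -/
def Rg (j : ℕ) (y y' : ℝ) : Set (ℝ × ℝ) :=
  {p | |om j y p| ≤ de' j / 2 ∧ -2 ≤ tt j y y' p ∧ tt j y y' p ≤ 16 * 2 ^ be j}

/-- The wiggles of one level. -/
noncomputable def Xj (j : ℕ) (p : ℝ × ℝ) : ℝ := ∑ y ∈ Yset j ×ˢ Yset j, xi j y.1 y.2 p

/-- All wiggles. -/
noncomputable def Xi (p : ℝ × ℝ) : ℝ := ∑' j, Xj j p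

/-- Saturation. -/
noncomputable def phi (t : ℝ) : ℝ := t - rp (t - 2) + rp (-t - 8)

/-- The nonlinearity. -/
noncomputable def GG (x : ℝ) : ℝ :=
  phi (av * x) + (gam (1 / 2 - x) - 3) + 2 * x / lam * (Psi (8 * x - 2) - Psi (8 * x - 6)) -
    9 * Psi (10 * (x - 1 / 2))

/-- The circle diffeomorphism, on a fundamental domain. -/
noncomputable def al (x : ℝ) : ℝ :=
  x - 3 / 4 * rp (x - 1) + 3 / 4 * rp (-x - 1) + 27 * Psi ((x - 16) / 7)

/-- The map is `(x, y) ↦ (y, HH (x, y))`. -/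
noncomputable def HH (p : ℝ × ℝ) : ℝ := GG p.2 - al p.1 + Xi p

/-- Some wiggle is active. -/
def Act (p : ℝ × ℝ) : Prop := ∃ j, ∃ y ∈ Yset j, ∃ y' ∈ Yset j, xi j y y' p ≠ 0

/-- The branch `n` of an active wiggle of level `j`. -/
def Cell (j n : ℕ) : Set (ℝ × ℝ) :=
  {p | ∃ y ∈ Yset j, ∃ y' ∈ Yset j, xi j y y' p ≠ 0 ∧ ⌊(tt j y y' p + 2) / 4⌋₊ = n}

open Classical in
/-- The symbol of a point. -/
noncomputable def sym (p : ℝ × ℝ) : ℕ × ℕ :=
  if p.2 < 1 / 4 then (0, 0)
  else if h : ∃ a : ℕ × ℕ, p ∈ Cell a.1 a.2 then (h.choose.1 + 1, h.choose.2) else (1, 0)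

/-- Orbits in the core. -/
def Orb (x : ℤ → ℝ) : Prop :=
  ∀ t, 0 ≤ x t ∧ x t ≤ 1 ∧ x (t + 1) + x (t - 1) = GG (x t) + Xi (x (t - 1), x t)

/-- Infinitely many passages in the future and in the past. -/
def Rc (x : ℤ → ℝ) : Prop := ∀ n : ℤ, (∃ t, n ≤ t ∧ 1 / 4 ≤ x t) ∧ ∃ t, t ≤ n ∧ 1 / 4 ≤ x t

/-- The name of an orbit. -/
noncomputable def nm (x : ℤ → ℝ) : Om := fun t => sym (x (t - 1), x t)

/-- The first escape region. -/
def N1 : Set (ℝ × ℝ) := {p | p.1 ≤ 16 ∧ p.2 < 0 ∧ (p.2 ≤ p.1 ∨ av * p.2 ≤ -10)}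

/-- The second escape region. -/
def N2 : Set (ℝ × ℝ) := {p | p.1 ≤ 16 ∧ av * p.2 ≤ -10}

/-- Orbits on the torus, read in a fundamental domain. -/
def GOrb (x : ℤ → ℝ) : Prop :=
  ∀ t, -16 ≤ x t ∧ x t < 24 ∧ ∃ n : ℤ, x (t + 1) = HH (x (t - 1), x t) + 40 * n

end Pool.Agent.P.MP_1672e2_an.Cq
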