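import Pool.Agent.P.MP_1672e2_an.Cq.Defs

set_option autoImplicit false

namespace Pool.Agent.P.MP_1672e2_an.Cq

section PsiPart

/-! Elementary functions. -/


open MeasureTheory Set Filter Topology

lemma psi_pp_neg {t : ℝ} (h : t ≤ 0) : pp t = 0 := by
  unfold pp; rw [max_eq_right h]; norm_num

lemma psi_pp_pos {t : ℝ} (h : 0 ≤ t) : pp t = t ^ 2 := by
  unfold pp; rw [max_eq_left h]

lemma psi_hasDerivAt_pp (t : ℝ) : HasDerivAt pp (2 * max t 0) t := by
  rcases lt_trichotomy t 0 with h | h | h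
  · rw [max_eq_right h.le, mul_zero]
    refine (hasDerivAt_const t (0 : ℝ)).congr_of_eventuallyEq ?_
    filter_upwards [Iio_mem_nhds h] with s hs using psi_pp_neg (le_of_lt hs)
  · subst h
    rw [max_self, mul_zero, hasDerivAt_iff_isLittleO_nhds_zero]
    have h1 : (fun h : ℝ => h ^ 2) =o[𝓝 0] fun h => h :=
      Asymptotics.isLittleO_pow_id (by norm_num)
    refine (Asymptotics.IsBigO.of_bound 1 (Eventually.of_forall fun s => ?_)).trans_isLittleO h1
    rw [psi_pp_neg (le_refl (0 : ℝ))]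
    rcases le_total s 0 with hs | hs
    · simp [psi_pp_neg hs]; positivity
    · simp [psi_pp_pos hs]
  · rw [max_eq_left h.le]
    have := hasDerivAt_pow 2 t
    simp only [Nat.cast_ofNat, Nat.add_one_sub_one, pow_one] at this
    refine this.congr_of_eventuallyEq ?_
    filter_upwards [Ioi_mem_nhds h] with s hs using psi_pp_pos (le_of_lt hs)

lemma contDiff_pp : ContDiff ℝ 1 pp := by
  rw [contDiff_one_iff_deriv]
  refine ⟨fun t => (psi_hasDerivAt_pp t).differentiableAt, ?_⟩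
  have : deriv pp = fun t => 2 * max t 0 := funext fun t => (psi_hasDerivAt_pp t).deriv
  rw [this]; fun_prop

lemma psi_contDiff_shift (c : ℝ) : ContDiff ℝ 1 fun t => pp (t - c) :=
  contDiff_pp.comp (contDiff_id.sub contDiff_const)

lemma psi_hasDerivAt_shift (c t : ℝ) : HasDerivAt (fun t => pp (t - c)) (2 * max (t - c) 0) t :=
  (psi_hasDerivAt_pp (t - c)).comp_sub_const t c

lemma contDiff_Psi : ContDiff ℝ 1 Psi :=
  contDiff_const.mul (((contDiff_pp.sub (psi_contDiff_shift _)).sub (psi_contDiff_shift _)).add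
    (psi_contDiff_shift _))

lemma psi_hasDerivAt (t : ℝ) : HasDerivAt Psi (25 / 8 * (2 * max t 0 - 2 * max (t - 1 / 5) 0 -
    2 * max (t - 4 / 5) 0 + 2 * max (t - 1) 0)) t :=
  ((((psi_hasDerivAt_pp t).sub (psi_hasDerivAt_shift _ t)).sub (psi_hasDerivAt_shift _ t)).add
    (psi_hasDerivAt_shift _ t)).const_mul _

lemma Psi_zero {t : ℝ} (h : t ≤ 0) : Psi t = 0 := by
  unfold Psi
  rw [psi_pp_neg h, psi_pp_neg (by linarith), psi_pp_neg (by linarith), psi_pp_neg (by linarith)]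
  norm_num

lemma Psi_one {t : ℝ} (h : 1 ≤ t) : Psi t = 1 := by
  unfold Psi
  rw [psi_pp_pos (by linarith), psi_pp_pos (by linarith), psi_pp_pos (by linarith),
    psi_pp_pos (by linarith)]
  ring

lemma Psi_mid {t : ℝ} (h : 1 / 5 ≤ t) (h' : t ≤ 4 / 5) : Psi t = 5 / 4 * (t - 1 / 10) := by
  unfold Psi
  rw [psi_pp_pos (t := t) (by linarith), psi_pp_pos (t := t - 1 / 5) (by linarith),
    psi_pp_neg (by linarith), psi_pp_neg (by linarith)]
  ring

lemma deriv_Psi_nonneg (t : ℝ) : 0 ≤ deriv Psi t := by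
  rw [(psi_hasDerivAt t).deriv]
  simp only [max_def]
  split_ifs <;> linarith

lemma deriv_Psi_le (t : ℝ) : deriv Psi t ≤ 5 / 4 := by
  rw [(psi_hasDerivAt t).deriv]
  simp only [max_def]
  split_ifs <;> linarith

lemma deriv_Psi_zero {t : ℝ} (h : t ≤ 0 ∨ 1 ≤ t) : deriv Psi t = 0 := by
  rw [(psi_hasDerivAt t).deriv]
  simp only [max_def]
  rcases h with h | h <;> split_ifs <;> linarith

lemma Psi_mono : Monotone Psi :=
  monotone_of_deriv_nonneg (fun t => (psi_hasDerivAt t).differentiableAt) deriv_Psi_nonneg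

lemma Psi_nonneg (t : ℝ) : 0 ≤ Psi t := by
  rcases le_total t 0 with h | h
  · rw [Psi_zero h]
  · rw [← Psi_zero le_rfl]; exact Psi_mono h

lemma Psi_le_one (t : ℝ) : Psi t ≤ 1 := by
  rcases le_total 1 t with h | h
  · rw [Psi_one h]
  · rw [← Psi_one le_rfl]; exact Psi_mono h

lemma Psi_low {t : ℝ} (h : t ≤ 1 / 5) : Psi t ≤ 1 / 8 := by
  have := Psi_mono h
  rw [Psi_mid (t := 1 / 5) le_rfl (by norm_num)] at this
  linarith

lemma Psi_high {t : ℝ} (h : 4 / 5 ≤ t) : 7 / 8 ≤ Psi t := by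
  have := Psi_mono h
  rw [Psi_mid (t := 4 / 5) (by norm_num) le_rfl] at this
  linarith

lemma contDiff_rp : ContDiff ℝ 1 rp :=
  (contDiff_pp.sub (psi_contDiff_shift _)).div_const _

lemma psi_hasDerivAt_rp (t : ℝ) : HasDerivAt rp ((2 * max t 0 - 2 * max (t - 2) 0) / 4) t :=
  ((psi_hasDerivAt_pp t).sub (psi_hasDerivAt_shift _ t)).div_const _

lemma rp_zero {t : ℝ} (h : t ≤ 0) : rp t = 0 := by
  unfold rp
  rw [psi_pp_neg h, psi_pp_neg (by linarith)]; norm_num

lemma rp_mid {t : ℝ} (h : 0 ≤ t) (h' : t ≤ 2) : rp t = t ^ 2 / 4 := by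
  unfold rp
  rw [psi_pp_pos h, psi_pp_neg (by linarith)]; ring

lemma rp_top {t : ℝ} (h : 2 ≤ t) : rp t = t - 1 := by
  unfold rp
  rw [psi_pp_pos (by linarith), psi_pp_pos (by linarith)]; ring

lemma rp_mono : Monotone rp := by
  refine monotone_of_deriv_nonneg (fun t => (psi_hasDerivAt_rp t).differentiableAt) fun t => ?_
  rw [(psi_hasDerivAt_rp t).deriv]
  simp only [max_def]
  split_ifs <;> linarith

lemma rp_lip {s t : ℝ} (h : s ≤ t) : rp t - rp s ≤ t - s := by
  have hd : ∀ t : ℝ, HasDerivAt (fun t => t - rp t) (1 - (2 * max t 0 - 2 * max (t - 2) 0) / 4) t :=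
    fun t => (hasDerivAt_id' t).sub (psi_hasDerivAt_rp t)
  have : Monotone fun t => t - rp t := by
    refine monotone_of_deriv_nonneg (fun t => (hd t).differentiableAt) fun t => ?_
    rw [(hd t).deriv]
    simp only [max_def]
    split_ifs <;> linarith
  have := this h
  simp only at this
  linarith

lemma contDiff_chi : ContDiff ℝ 1 chi :=
  (contDiff_Psi.comp ((contDiff_const.mul contDiff_id).add contDiff_const)).sub
    (contDiff_Psi.comp ((contDiff_const.mul contDiff_id).sub contDiff_const))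

lemma chi_one {t : ℝ} (h : |t| ≤ 1 / 4) : chi t = 1 := by
  obtain ⟨h1, h2⟩ := abs_le.1 h
  unfold chi
  rw [Psi_one (by linarith), Psi_zero (by linarith), sub_zero]

lemma chi_zero {t : ℝ} (h : 1 / 2 ≤ |t|) : chi t = 0 := by
  unfold chi
  rcases le_abs.1 h with h | h
  · rw [Psi_one (by linarith), Psi_one (by linarith), sub_self]
  · rw [Psi_zero (by linarith), Psi_zero (by linarith), sub_self]

lemma chi_nonneg (t : ℝ) : 0 ≤ chi t :=
  sub_nonneg.2 (Psi_mono (by linarith))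

lemma chi_le_one (t : ℝ) : chi t ≤ 1 := by
  unfold chi
  linarith [Psi_le_one (4 * t + 2), Psi_nonneg (4 * t - 1)]

lemma abs_deriv_chi (t : ℝ) : |deriv chi t| ≤ 5 := by
  have d : ∀ s, HasDerivAt Psi (deriv Psi s) s := fun s =>
    (psi_hasDerivAt s).differentiableAt.hasDerivAt
  have h1 : HasDerivAt (fun t : ℝ => 4 * t + 2) 4 t := by
    simpa using ((hasDerivAt_id' t).const_mul 4).add_const 2
  have h2 : HasDerivAt (fun t : ℝ => 4 * t - 1) 4 t := by
    simpa using ((hasDerivAt_id' t).const_mul 4).sub_const 1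
  have h3 : HasDerivAt chi (deriv Psi (4 * t + 2) * 4 - deriv Psi (4 * t - 1) * 4) t :=
    ((d _).comp t h1).sub ((d _).comp t h2)
  rw [h3.deriv, abs_le]
  constructor <;> linarith [deriv_Psi_nonneg (4 * t + 2), deriv_Psi_le (4 * t + 2),
    deriv_Psi_nonneg (4 * t - 1), deriv_Psi_le (4 * t - 1)]

end PsiPart

section ZigPart

/-! The zigzag. -/


open MeasureTheory Set Filter Topology

lemma zig_one {i n : ℕ} {t : ℝ} (h : i < n) (ht : 8 * (n : ℝ) - 3 ≤ t) :
    Psi ((t - 8 * i - 3) / 2) = 1 := by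
  have h1 : (i : ℝ) + 1 ≤ n := by exact_mod_cast h
  exact Psi_one (by linarith)

lemma zig_zero {i n : ℕ} {t : ℝ} (h : n ≤ i) (ht : t ≤ 8 * (n : ℝ) + 3) :
    Psi ((t - 8 * i - 3) / 2) = 0 := by
  have h1 : (n : ℝ) ≤ i := by exact_mod_cast h
  exact Psi_zero (by linarith)

lemma zig_top {n : ℕ} {t : ℝ} (ht : 8 * (n : ℝ) - 3 ≤ t) :
    ∑ i ∈ Finset.range n, Psi ((t - 8 * i - 3) / 2) = n := by
  rw [Finset.sum_congr rfl fun i hi => zig_one (Finset.mem_range.1 hi) ht]
  simp

lemma zig_cut {b n : ℕ} {t : ℝ} (h : n ≤ b) (ht : t ≤ 8 * (n : ℝ) + 3) :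
    ∑ i ∈ Finset.range b, Psi ((t - 8 * i - 3) / 2) =
      ∑ i ∈ Finset.range n, Psi ((t - 8 * i - 3) / 2) := by
  refine (Finset.sum_subset (Finset.range_mono h) fun i _ hi => ?_).symm
  exact zig_zero (not_lt.1 fun e => hi (Finset.mem_range.2 e)) ht

lemma zig_climb {b : ℕ} {t : ℝ} (ht : t ≤ 8 * (b : ℝ) + 3) :
    Psi ((t - 8 * b - 3) / (8 * b)) = 0 :=
  Psi_zero (div_nonpos_of_nonpos_of_nonneg (by linarith) (by positivity))

lemma contDiff_DD (b : ℕ) : ContDiff ℝ 1 (DD b) := by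
  unfold DD
  refine (contDiff_const.mul (ContDiff.sum fun i _ => contDiff_Psi.comp ?_)).sub
    (contDiff_const.mul (contDiff_Psi.comp ?_))
  · fun_prop
  · fun_prop

lemma DD_zero (t : ℝ) : DD 0 t = 0 := by
  simp [DD]

lemma DD_out {b : ℕ} {t : ℝ} (h : t ≤ 3 ∨ 16 * b + 3 ≤ t) : DD b t = 0 := by
  have hb : (0 : ℝ) ≤ b := Nat.cast_nonneg b
  rcases h with h | h
  · rw [DD, zig_climb (by linarith), zig_cut (Nat.zero_le b) (by simpa using h)]
    simp
  · rcases Nat.eq_zero_or_pos b with rfl | h0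
    · exact DD_zero t
    · have h1 : (0 : ℝ) < b := Nat.cast_pos.2 h0
      rw [DD, zig_top (by linarith), Psi_one ((one_le_div (by positivity)).2 (by linarith))]
      ring

lemma DD_nonneg (b : ℕ) (t : ℝ) : 0 ≤ DD b t := by
  have hb : (0 : ℝ) ≤ b := Nat.cast_nonneg b
  rcases le_total t (8 * (b : ℝ) + 3) with h | h
  · rw [DD, zig_climb h, mul_zero, sub_zero]
    exact mul_nonneg (by norm_num) (Finset.sum_nonneg fun i _ => Psi_nonneg _)
  · rw [DD, zig_top (by linarith)]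
    nlinarith [Psi_le_one ((t - 8 * b - 3) / (8 * b))]

lemma DD_le (b : ℕ) (t : ℝ) : DD b t ≤ 8 * b := by
  have hb : (0 : ℝ) ≤ b := Nat.cast_nonneg b
  have h1 : ∑ i ∈ Finset.range b, Psi ((t - 8 * i - 3) / 2) ≤ b := by
    refine (Finset.sum_le_sum fun i _ => Psi_le_one _).trans (le_of_eq ?_)
    simp
  have h2 := mul_nonneg hb (Psi_nonneg ((t - 8 * b - 3) / (8 * b)))
  rw [DD]
  linarith

lemma zig_hasDerivAt (c d t : ℝ) :
    HasDerivAt (fun t => Psi ((t - c - 3) / d)) (deriv Psi ((t - c - 3) / d) * (1 / d)) t := by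
  have h1 : HasDerivAt (fun t : ℝ => (t - c - 3) / d) (1 / d) t :=
    (((hasDerivAt_id' t).sub_const c).sub_const 3).div_const d
  exact ((contDiff_Psi.differentiable one_ne_zero) _).hasDerivAt.comp t h1

lemma abs_deriv_DD (b : ℕ) (t : ℝ) : |deriv (DD b) t| ≤ 7 := by
  have h1 : HasDerivAt (DD b) (8 * ∑ i ∈ Finset.range b, deriv Psi ((t - 8 * i - 3) / 2) * (1 / 2) -
      8 * b * (deriv Psi ((t - 8 * b - 3) / (8 * b)) * (1 / (8 * b)))) t :=
    ((HasDerivAt.fun_sum (u := Finset.range b)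
      fun (i : ℕ) _ => zig_hasDerivAt (8 * (i : ℝ)) 2 t).const_mul 8).sub
      ((zig_hasDerivAt (8 * (b : ℝ)) (8 * b) t).const_mul (8 * (b : ℝ)))
  have h2 : 0 ≤ ∑ i ∈ Finset.range b, deriv Psi ((t - 8 * i - 3) / 2) :=
    Finset.sum_nonneg fun i _ => deriv_Psi_nonneg _
  have h3 : ∑ i ∈ Finset.range b, deriv Psi ((t - 8 * i - 3) / 2) ≤ 5 / 4 := by
    by_cases h : ∃ i : ℕ, deriv Psi ((t - 8 * i - 3) / 2) ≠ 0
    · obtain ⟨i, hi⟩ := h
      have a1 : 0 < (t - 8 * i - 3) / 2 := not_le.1 fun e => hi (deriv_Psi_zero (Or.inl e))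
      have a2 : (t - 8 * i - 3) / 2 < 1 := not_le.1 fun e => hi (deriv_Psi_zero (Or.inr e))
      have a3 : ∀ k : ℕ, k ≠ i → deriv Psi ((t - 8 * k - 3) / 2) = 0 := by
        intro k hk
        rcases lt_or_gt_of_ne hk with e | e
        · have e' : (k : ℝ) + 1 ≤ i := by exact_mod_cast e
          exact deriv_Psi_zero (Or.inr (by linarith))
        · have e' : (i : ℝ) + 1 ≤ k := by exact_mod_cast e
          exact deriv_Psi_zero (Or.inl (by linarith))
      by_cases hb : i ∈ Finset.range b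
      · rw [Finset.sum_eq_single_of_mem i hb fun k _ hk => a3 k hk]
        exact deriv_Psi_le _
      · rw [Finset.sum_eq_zero fun k hk => a3 k fun e => hb (e ▸ hk)]
        norm_num
    · rw [Finset.sum_eq_zero fun k _ => not_not.1 fun e => h ⟨k, e⟩]
      norm_num
  have h4 := deriv_Psi_nonneg ((t - 8 * b - 3) / (8 * b))
  have h5 := deriv_Psi_le ((t - 8 * b - 3) / (8 * b))
  rw [h1.deriv, ← Finset.sum_mul, abs_le]
  rcases Nat.eq_zero_or_pos b with h0 | h0
  · have e : (b : ℝ) = 0 := by exact_mod_cast h0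
    have e' : 8 * (b : ℝ) * (deriv Psi ((t - 8 * b - 3) / (8 * b)) * (1 / (8 * b))) = 0 := by
      rw [e, mul_zero, zero_mul]
    rw [e']
    constructor <;> linarith
  · have e : (b : ℝ) ≠ 0 := Nat.cast_ne_zero.2 h0.ne'
    have e' : 8 * (b : ℝ) * (deriv Psi ((t - 8 * b - 3) / (8 * b)) * (1 / (8 * b))) =
        deriv Psi ((t - 8 * b - 3) / (8 * b)) := by
      field_simp
    rw [e']
    constructor <;> linarith

lemma DD_up {b n : ℕ} {t : ℝ} (h : n ≤ b) (ht : |t - 8 * n| ≤ 3) : DD b t = 8 * n := by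
  have h1 : (n : ℝ) ≤ b := by exact_mod_cast h
  rw [abs_le] at ht
  rw [DD, zig_climb (by linarith), zig_cut h (by linarith), zig_top (by linarith)]
  ring

lemma zig_drop {b n : ℕ} {t : ℝ} (h : n < b) (ht : 8 * (n : ℝ) - 3 ≤ t)
    (ht' : t ≤ 8 * (n : ℝ) + 11) : DD b t = 8 * n + 8 * Psi ((t - 8 * n - 3) / 2) := by
  have h1 : (n : ℝ) + 1 ≤ b := by exact_mod_cast h
  rw [DD, zig_climb (by linarith), zig_cut (n := n + 1) h (by push_cast; linarith),
    Finset.sum_range_succ, zig_top ht]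
  ring

/-- Where the zigzag `t - DD b t` is small, it is on a rising or on a falling affine branch. -/
lemma DD_branch {b : ℕ} {t : ℝ} (h0 : DD b t ≠ 0) (h : |t - DD b t| ≤ 1) :
    (∃ n : ℕ, 1 ≤ n ∧ n ≤ b ∧ |t - 8 * n| ≤ 1 ∧ DD b t = 8 * n) ∨
      ∃ n : ℕ, n < b ∧ |t - 8 * n - 4| ≤ 1 ∧ DD b t = 5 * t - 32 * n - 16 := by
  have h1 : 3 < t := not_le.1 fun e => h0 (DD_out (Or.inl e))
  have h2 := DD_le b t
  have h3 := abs_le.1 h
  obtain ⟨n, a1, a2⟩ : ∃ n : ℕ, (n : ℝ) ≤ (t + 3) / 8 ∧ (t + 3) / 8 < n + 1 :=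
    ⟨⌊(t + 3) / 8⌋₊, Nat.floor_le (by linarith), Nat.lt_floor_add_one _⟩
  rcases le_or_gt t (8 * (n : ℝ) + 3) with e | e
  · left
    have hn : n ≤ b := by
      have : (n : ℝ) < b + 1 := by linarith
      exact Nat.lt_succ_iff.1 (by exact_mod_cast this)
    have e' := DD_up hn (t := t) (abs_le.2 ⟨by linarith, by linarith⟩)
    refine ⟨n, Nat.pos_of_ne_zero fun hz => h0 ?_, hn, e' ▸ h, e'⟩
    rw [e', hz]
    simp
  · right
    have hn : n < b := by
      have : (n : ℝ) < b := by linarith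
      exact_mod_cast this
    have e' := zig_drop hn (t := t) (by linarith) (by linarith)
    refine ⟨n, hn, abs_le.2 ⟨by linarith, by linarith⟩, ?_⟩
    rcases le_total ((t - 8 * n - 3) / 2) (1 / 5) with u | u
    · have := Psi_low u
      linarith
    · rcases le_total (4 / 5) ((t - 8 * n - 3) / 2) with u' | u'
      · have := Psi_high u'
        linarith
      · rw [e', Psi_mid u u']
        ring

end ZigPart

section NumPart

/-! Numerical facts about the parameters. -/


open MeasureTheory Set Filter Topology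

lemma num_T (j : ℕ) : T (j + 1) = (2 ^ (3 * j + 9) + 2 ^ (j + 3) + 1) * T j + 2 := rfl

lemma num_m (j : ℕ) : m (j + 1) = 2 ^ (2 * j + 6) * T j + 1 := rfl

lemma num_be (j : ℕ) : be (j + 1) = 10 * (m (j + 1) - m j) - (j + 14) := rfl

lemma num_lam : lam = 1048576 := by unfold lam; norm_num

lemma num_lam_pos : 0 < lam := by rw [num_lam]; norm_num

lemma T_pos (j : ℕ) : 0 < T j := by
  cases j with
  | zero => exact Nat.one_pos
  | succ j => rw [num_T]; omega

lemma m_pos (j : ℕ) : 0 < m j := by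
  cases j with
  | zero => exact Nat.one_pos
  | succ j => rw [num_m]; omega

lemma NN_add (j : ℕ) : NN j + 2 * 2 ^ (2 * j + 6) = 2 ^ (3 * j + 9) + 2 ^ (j + 3) + 1 := by
  have h1 : 2 ^ (2 * j + 7) ≤ 2 ^ (3 * j + 9) := Nat.pow_le_pow_right (by norm_num) (by omega)
  have h2 : 2 ^ (2 * j + 7) = 2 * 2 ^ (2 * j + 6) := by rw [pow_succ]; ring
  have h3 : 0 ≤ 2 ^ (j + 3) := Nat.zero_le _
  unfold NN
  generalize 2 ^ (j + 3) = c at *
  omega

lemma T_split (j : ℕ) : T (j + 1) = 2 * m (j + 1) + NN j * T j := by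
  rw [num_T, num_m, ← NN_add]
  ring

lemma num_pow (j : ℕ) : 2 ^ (3 * j + 9) = 2 ^ (j + 3) * 2 ^ (2 * j + 6) := by
  rw [← pow_add]
  congr 1
  ring

lemma T_lower (j : ℕ) : 2 ^ (j + 3) * m (j + 1) ≤ T (j + 1) := by
  rw [num_T, num_m, num_pow]
  have h1 : 2 ^ (j + 3) * 1 ≤ 2 ^ (j + 3) * T j := Nat.mul_le_mul_left _ (T_pos j)
  nlinarith [Nat.zero_le (T j)]

lemma T_upper (j : ℕ) : 16 * T (j + 1) ≤ 17 * (2 ^ (j + 3) * m (j + 1)) := by
  rw [num_T, num_m, num_pow]
  have h1 : 64 ≤ 2 ^ (2 * j + 6) := by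
    calc 64 = 2 ^ 6 := by norm_num
      _ ≤ _ := Nat.pow_le_pow_right (by norm_num) (by omega)
  have h2 : 8 ≤ 2 ^ (j + 3) := by
    calc 8 = 2 ^ 3 := by norm_num
      _ ≤ _ := Nat.pow_le_pow_right (by norm_num) (by omega)
  generalize 2 ^ (2 * j + 6) = a at *
  generalize 2 ^ (j + 3) = b at *
  have h3 : b * 64 * T j ≤ b * a * T j := Nat.mul_le_mul_right _ (Nat.mul_le_mul_left _ h1)
  have h4 : 8 * T j ≤ b * T j := Nat.mul_le_mul_right _ h2
  nlinarith

lemma NN_ge (j : ℕ) : 2 ^ (j + 1) ≤ NN j := by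
  have h1 := NN_add j
  have h2 : 2 * 2 ^ (2 * j + 6) ≤ 2 ^ (3 * j + 9) := by
    rw [← pow_succ']
    exact Nat.pow_le_pow_right (by norm_num) (by omega)
  have h3 : 2 ^ (j + 1) ≤ 2 ^ (j + 3) := Nat.pow_le_pow_right (by norm_num) (by omega)
  omega

lemma NN_pos (j : ℕ) : 0 < NN j := lt_of_lt_of_le (by positivity) (NN_ge j)

lemma T_odd (j : ℕ) : T j % 2 = 1 := by
  induction j with
  | zero => rfl
  | succ j ih =>
    rw [num_T]
    have h1 : 2 ^ (3 * j + 9) = 2 * 2 ^ (3 * j + 8) := by rw [pow_succ]; ring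
    have h2 : 2 ^ (j + 3) = 2 * 2 ^ (j + 2) := by rw [pow_succ]; ring
    have h3 : (2 ^ (3 * j + 9) + 2 ^ (j + 3) + 1) * T j + 2 =
        T j + 2 * ((2 ^ (3 * j + 8) + 2 ^ (j + 2)) * T j + 1) := by
      rw [h1, h2]; ring
    rw [h3, Nat.add_mul_mod_self_left, ih]

/-- Consecutive periods are coprime. -/
lemma T_cop {p j : ℕ} (h : p ∣ T j) (h' : p ∣ T (j + 1)) : p = 1 := by
  rw [num_T] at h'
  have h1 : p ∣ 2 := (Nat.dvd_add_right (Dvd.dvd.mul_left h _)).1 h'
  have h2 := T_odd j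
  rcases (Nat.dvd_prime Nat.prime_two).1 h1 with h3 | h3
  · exact h3
  · subst h3
    omega

lemma m_le_T' (j : ℕ) : 8 * m (j + 1) ≤ T (j + 1) := by
  refine le_trans (Nat.mul_le_mul_right _ ?_) (T_lower j)
  calc 8 = 2 ^ 3 := by norm_num
    _ ≤ _ := Nat.pow_le_pow_right (by norm_num) (by omega)

lemma m_le_T (j : ℕ) : m j ≤ T j := by
  cases j with
  | zero => exact le_rfl
  | succ j => have := m_le_T' j; omega

lemma T_le_m (j : ℕ) : 64 * T j ≤ m (j + 1) := by
  rw [num_m]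
  refine le_trans (Nat.mul_le_mul_right _ ?_) (Nat.le_succ _)
  calc 64 = 2 ^ 6 := by norm_num
    _ ≤ _ := Nat.pow_le_pow_right (by norm_num) (by omega)

lemma m_strictMono : StrictMono m := by
  refine strictMono_nat_of_lt_succ fun j => ?_
  have := m_le_T j
  have := T_le_m j
  have := T_pos j
  omega

lemma T_strictMono : StrictMono T := by
  refine strictMono_nat_of_lt_succ fun j => ?_
  have := m_le_T (j + 1)
  have := T_le_m j
  have := T_pos j
  omega

lemma lt_m (j : ℕ) : j < m j := by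
  induction j with
  | zero => exact Nat.one_pos
  | succ j ih =>
    have := m_strictMono (Nat.lt_succ_self j)
    simp only [Nat.succ_eq_add_one] at this
    omega

lemma be_succ (j : ℕ) : be (j + 1) + 10 * m j + (j + 14) = 10 * m (j + 1) := by
  rw [num_be]
  have := m_le_T j
  have := T_le_m j
  have := lt_m j
  omega

lemma av_ge : 1000000 ≤ av := by
  unfold av lam
  norm_num

lemma sc_pos (k : ℕ) : 0 < sc k := by
  unfold sc
  have := num_lam_pos
  positivity

lemma sc_one : sc 1 = 1 := by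
  unfold sc
  rw [pow_one, div_self num_lam_pos.ne']

lemma sc_succ (k : ℕ) : sc (k + 1) = sc k / lam := by
  unfold sc
  rw [pow_succ, div_div]

lemma sc_anti : Antitone sc := by
  refine antitone_nat_of_succ_le fun k => ?_
  rw [sc_succ]
  exact div_le_self (sc_pos k).le (by unfold lam; norm_num)

lemma sc_lt {k k' : ℕ} (h : k < k') : 1000 * sc k' ≤ sc k := by
  have h1 : sc k' ≤ sc (k + 1) := sc_anti h
  rw [sc_succ, num_lam] at h1
  have := sc_pos k
  linarith

lemma ell_pos (k : ℕ) : 0 < ell k := by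
  unfold ell
  positivity

lemma ell_anti : Antitone ell := by
  intro a b h
  exact pow_le_pow_of_le_one (by norm_num) (by norm_num) h

lemma num_ell_le {k : ℕ} (h : 1 ≤ k) : ell k ≤ 1 / 1024 := by
  have h1 : ell k ≤ ell 1 := ell_anti h
  have h2 : ell 1 = 1 / 1024 := pow_one _
  linarith

lemma De_pos (k : ℕ) : 0 < De k := by
  unfold De
  rw [sc_succ, num_lam]
  have := sc_pos k
  linarith

lemma ss_pos (k : ℕ) : 0 < ss k := by
  unfold ss
  have := De_pos k
  have := ell_pos k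
  positivity

lemma ss_ell (k : ℕ) : 37 / 10 * sc k ≤ ss k * ell k ∧ ss k * ell k ≤ 15 / 4 * sc k := by
  have e : ss k * ell k = 5 / 4 * De k := by
    unfold ss
    rw [div_mul_cancel₀ _ (ell_pos k).ne']
  rw [e]
  unfold De
  rw [sc_succ, num_lam]
  have := sc_pos k
  constructor <;> linarith

lemma sc_le_ss {k : ℕ} (h : 1 ≤ k) : 3000 * sc k ≤ ss k := by
  have h1 := (ss_ell k).1
  have h2 := mul_le_mul_of_nonneg_left (num_ell_le h) (ss_pos k).le
  have := sc_pos k
  linarith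

lemma ss_le (k : ℕ) : ss k ≤ 4 * lam * (1 / 2) ^ k := by
  have h1 := (ss_ell k).2
  have e : sc k = lam * (ell k * ell k) := by
    unfold sc ell
    rw [← mul_pow, div_eq_mul_inv, ← inv_pow, num_lam]
    norm_num
  have h2 : ell k ≤ (1 / 2) ^ k := pow_le_pow_left₀ (by norm_num) (by norm_num) k
  have h3 : ss k ≤ 15 / 4 * (lam * ell k) := by
    refine le_of_mul_le_mul_right ?_ (ell_pos k)
    rw [e] at h1
    linarith
  have h4 := mul_le_mul_of_nonneg_left h2 num_lam_pos.le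
  have h5 := mul_pos num_lam_pos (ell_pos k)
  linarith

lemma num_M_le {k : ℕ} (h : 1 ≤ k) : m (Nat.findGreatest (fun j => m j ≤ k) k) ≤ k :=
  Nat.findGreatest_spec (P := fun j => m j ≤ k) (Nat.zero_le k) h

lemma num_le_M {j k : ℕ} (h : m j ≤ k) : m j ≤ m (Nat.findGreatest (fun j => m j ≤ k) k) :=
  m_strictMono.monotone
    (Nat.le_findGreatest (P := fun j => m j ≤ k) ((lt_m j).le.trans h) h)

lemma aa_pos (k : ℕ) : 0 < aa k := by
  unfold aa
  have := ell_pos k
  have := ell_pos (m (Nat.findGreatest (fun j => m j ≤ k) k))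
  linarith

lemma aa_succ {k k' : ℕ} (h : 1 ≤ k) (h' : k < k') : aa k' + ell k' ≤ aa k := by
  have h1 : ell (m (Nat.findGreatest (fun j => m j ≤ k') k'))
      ≤ ell (m (Nat.findGreatest (fun j => m j ≤ k) k)) :=
    ell_anti (num_le_M ((num_M_le h).trans h'.le))
  have h2 : ell k' ≤ ell (k + 1) := ell_anti h'
  have h3 : ell (k + 1) = ell k / 1024 := by
    unfold ell
    rw [pow_succ]; ring
  have := ell_pos k
  unfold aa
  linarith

lemma aa_le_one {k : ℕ} (h : 1 ≤ k) : aa k + ell k ≤ 4 / 1024 := by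
  have h1 := num_ell_le (m_pos (Nat.findGreatest (fun j => m j ≤ k) k))
  have h2 := num_ell_le h
  unfold aa
  linarith

lemma aa_le {k : ℕ} (h : 1 ≤ k) : aa k ≤ 3 / 1024 := by
  have h1 := num_ell_le (m_pos (Nat.findGreatest (fun j => m j ≤ k) k))
  have h2 := num_ell_le h
  unfold aa
  linarith

lemma aa_le_de {j k : ℕ} (h : m j ≤ k) : aa k + ell k ≤ de j := by
  have h1 := ell_anti (num_le_M h)
  have h2 := ell_anti h
  unfold aa de
  linarith

lemma de'_lt_aa {j k : ℕ} (hj : 1 ≤ j) (h : 1 ≤ k) (h' : k < m j) : de' j < aa k := by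
  have h1 : Nat.findGreatest (fun j => m j ≤ k) k < j :=
    m_strictMono.lt_iff_lt.1 ((num_M_le h).trans_lt h')
  have h2 : m (Nat.findGreatest (fun j => m j ≤ k) k) ≤ m (j - 1) :=
    m_strictMono.monotone (by omega)
  have h3 := ell_anti h2
  have := ell_pos k
  unfold aa de'
  linarith

lemma aa_tendsto : Tendsto aa atTop (𝓝 0) := by
  have h0 : Tendsto (fun j : ℕ => 4 * ((1 : ℝ) / 1024) ^ j) atTop (𝓝 (4 * 0)) :=
    (tendsto_pow_atTop_nhds_zero_of_lt_one (by norm_num) (by norm_num)).const_mul 4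
  rw [mul_zero] at h0
  refine tendsto_order.2 ⟨fun a ha => Eventually.of_forall fun k => ha.trans (aa_pos k),
    fun a ha => ?_⟩
  obtain ⟨j, hj⟩ := ((tendsto_order.1 h0).2 a ha).exists
  refine eventually_atTop.2 ⟨m j, fun k hk => ?_⟩
  have h1 := aa_le_de hk
  have h2 : ell (m j) ≤ ell j := ell_anti (lt_m j).le
  have h3 := ell_pos k
  unfold de at h1
  have h4 : ell j = ((1 : ℝ) / 1024) ^ j := rfl
  linarith

lemma II_unique {k k' : ℕ} {a : ℝ} (h : 1 ≤ k) (h' : 1 ≤ k') (ha : a ∈ II k) (ha' : a ∈ II k') :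
    k = k' := by
  have p := ell_pos k
  have p' := ell_pos k'
  obtain ⟨a1, a2⟩ := ha
  obtain ⟨b1, b2⟩ := ha'
  rcases lt_trichotomy k k' with hk | hk | hk
  · have := aa_succ h hk
    linarith
  · exact hk
  · have := aa_succ h' hk
    linarith

lemma II_bound {k : ℕ} {a : ℝ} (h : 1 ≤ k) (ha : a ∈ II k) : 0 < a ∧ a < 4 / 1024 := by
  have p := ell_pos k
  have := aa_pos k
  have := aa_le_one h
  obtain ⟨a1, a2⟩ := ha
  constructor <;> linarith

lemma II_le_de {j k : ℕ} {a : ℝ} (h : m j ≤ k) (ha : a ∈ II k) : |a| ≤ de j := by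
  have p := ell_pos k
  have := aa_pos k
  have := aa_le_de h
  obtain ⟨a1, a2⟩ := ha
  rw [abs_of_pos (by linarith)]
  linarith

/-- No position lies between `de j` and `de' j`. -/
lemma II_gap {j k : ℕ} {a : ℝ} (hj : 1 ≤ j) (h : 1 ≤ k) (ha : a ∈ II k) (h' : |a| ≤ de' j) :
    |a| ≤ de j := by
  rcases le_or_gt (m j) k with hk | hk
  · exact II_le_de hk ha
  · have := de'_lt_aa hj h hk
    have p := ell_pos k
    have := le_abs_self a
    obtain ⟨a1, a2⟩ := ha
    linarith

lemma mem_II {k : ℕ} {a : ℝ} (h : 2 / 5 * sc k ≤ Af k a) (h' : Af k a ≤ 5 / 2 * sc k) :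
    a ∈ II k := by
  obtain ⟨e1, e2⟩ := ss_ell k
  have p := ss_pos k
  have p1 := sc_pos k
  unfold Af at h h'
  rw [sc_succ, num_lam] at h h'
  constructor
  · by_contra hc
    have h1 : a - aa k - ell k / 10 ≤ ell k / 10 := by linarith [not_le.1 hc]
    have h2 := mul_le_mul_of_nonneg_left h1 p.le
    linarith
  · by_contra hc
    have h1 : 7 * ell k / 10 ≤ a - aa k - ell k / 10 := by linarith [not_le.1 hc]
    have h2 := mul_le_mul_of_nonneg_left h1 p.le
    linarith

lemma de_pos (j : ℕ) : 0 < de j := by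
  unfold de
  have := ell_pos (m j)
  linarith

lemma de'_pos (j : ℕ) : 0 < de' j := by
  exact ell_pos _

lemma de'_le (j : ℕ) : de' j ≤ 1 / 1024 := by
  exact num_ell_le (m_pos _)

lemma de_ratio {j : ℕ} (h : 1 ≤ j) : 2 ^ be j * de j = (1 / 2) ^ (j + 11) * de' j := by
  obtain ⟨i, rfl⟩ : ∃ i, j = i + 1 := ⟨j - 1, by omega⟩
  have e : ∀ n : ℕ, ell n = (1 / 2) ^ (10 * n) := fun n => by
    unfold ell
    rw [pow_mul]; norm_num
  unfold de de'
  rw [Nat.add_sub_cancel, e, e, ← be_succ i]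
  generalize be (i + 1) = b
  generalize 10 * m i = c
  have h2 : (2 : ℝ) ^ b * (1 / 2) ^ b = 1 := by rw [← mul_pow]; norm_num
  rw [show i + 14 = (i + 1 + 11) + 2 by ring, pow_add, pow_add, pow_add _ (i + 1 + 11) 2]
  linear_combination (4 * (1 / 2 : ℝ) ^ c * ((1 / 2) ^ (i + 1 + 11) * (1 / 2) ^ 2)) * h2

lemma de_le {j : ℕ} (h : 1 ≤ j) : 1000 * de j ≤ de' j := by
  have h1 := de_ratio h
  have h2 : (1 : ℝ) ≤ 2 ^ be j := one_le_pow₀ (by norm_num)
  have h3 : ((1 : ℝ) / 2) ^ (j + 11) ≤ (1 / 2) ^ 10 :=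
    pow_le_pow_of_le_one (by norm_num) (by norm_num) (by omega)
  have h4 := mul_le_mul_of_nonneg_right h2 (de_pos j).le
  have h5 := mul_le_mul_of_nonneg_right h3 (de'_pos j).le
  have := de'_pos j
  norm_num at h5 h4 h1
  linarith

end NumPart

section GamPart

/-! The staircase. -/


open MeasureTheory Set Filter Topology

lemma gam_sc_tendsto : Tendsto sc atTop (𝓝 0) := by
  have h : (1 : ℝ) < lam := by unfold lam; norm_num
  exact tendsto_const_nhds.div_atTop (tendsto_pow_atTop_atTop_of_one_lt h)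

lemma gam_hasSum (k : ℕ) : HasSum (fun i => De (i + k)) (3 * sc k) := by
  rw [hasSum_iff_tendsto_nat_of_nonneg fun i => (De_pos _).le]
  have h : ∀ n, ∑ i ∈ Finset.range n, De (i + k) = 3 * sc k - 3 * sc (n + k) := by
    intro n
    induction n with
    | zero => simp
    | succ n ih =>
      rw [Finset.sum_range_succ, ih, De, show n + 1 + k = n + k + 1 by ring]
      ring
  simp only [h]
  have h2 := ((tendsto_add_atTop_iff_nat k).2 gam_sc_tendsto).const_mul 3
  simpa using (tendsto_const_nhds (x := 3 * sc k)).sub h2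

lemma gam_term_nonneg (a : ℝ) (k : ℕ) : 0 ≤ De (k + 1) * Psi ((a - aa (k + 1)) / ell (k + 1)) :=
  mul_nonneg (De_pos _).le (Psi_nonneg _)

lemma gam_term_le (a : ℝ) (k : ℕ) :
    De (k + 1) * Psi ((a - aa (k + 1)) / ell (k + 1)) ≤ De (k + 1) :=
  mul_le_of_le_one_right (De_pos _).le (Psi_le_one _)

lemma gam_summable (a : ℝ) :
    Summable fun k => De (k + 1) * Psi ((a - aa (k + 1)) / ell (k + 1)) :=
  Summable.of_nonneg_of_le (gam_term_nonneg a) (gam_term_le a) (gam_hasSum 1).summable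

lemma gam_hasDerivAt_term (k : ℕ) (a : ℝ) :
    HasDerivAt (fun a => De (k + 1) * Psi ((a - aa (k + 1)) / ell (k + 1)))
      (De (k + 1) * (deriv Psi ((a - aa (k + 1)) / ell (k + 1)) * (1 / ell (k + 1)))) a := by
  have h1 : HasDerivAt (fun a : ℝ => (a - aa (k + 1)) / ell (k + 1)) (1 / ell (k + 1)) a :=
    ((hasDerivAt_id a).sub_const _).div_const _
  have h2 := (contDiff_Psi.differentiable one_ne_zero ((a - aa (k + 1)) / ell (k + 1))).hasDerivAt
  exact (h2.comp a h1).const_mul _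

lemma gam_deriv_bound (k : ℕ) (a : ℝ) :
    ‖De (k + 1) * (deriv Psi ((a - aa (k + 1)) / ell (k + 1)) * (1 / ell (k + 1)))‖ ≤
      4 * lam * (1 / 2) ^ (k + 1) := by
  have h1 := De_pos (k + 1)
  have h2 := ell_pos (k + 1)
  have h3 := deriv_Psi_nonneg ((a - aa (k + 1)) / ell (k + 1))
  have h4 := deriv_Psi_le ((a - aa (k + 1)) / ell (k + 1))
  rw [Real.norm_of_nonneg (by positivity)]
  refine le_trans ?_ (ss_le (k + 1))
  calc _ ≤ De (k + 1) * (5 / 4 * (1 / ell (k + 1))) := by gcongr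
    _ = ss (k + 1) := by rw [ss]; ring

lemma contDiff_gam : ContDiff ℝ 1 gam := by
  have hs : Summable fun k : ℕ => 4 * lam * (1 / 2 : ℝ) ^ (k + 1) :=
    ((summable_nat_add_iff 1).2 summable_geometric_two).mul_left _
  have hd : ∀ a, HasDerivAt gam (∑' k, De (k + 1) *
      (deriv Psi ((a - aa (k + 1)) / ell (k + 1)) * (1 / ell (k + 1)))) a := fun a =>
    hasDerivAt_tsum hs gam_hasDerivAt_term gam_deriv_bound (gam_summable 0) a
  rw [contDiff_one_iff_deriv]
  refine ⟨fun a => (hd a).differentiableAt, ?_⟩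
  rw [show deriv gam = _ from funext fun a => (hd a).deriv]
  refine continuous_tsum (fun k => ?_) hs gam_deriv_bound
  have hc : Continuous (deriv Psi) := (contDiff_one_iff_deriv.1 contDiff_Psi).2
  exact continuous_const.mul ((hc.comp ((continuous_id.sub continuous_const).div_const _)).mul
    continuous_const)

lemma gam_mono : Monotone gam := by
  intro a b hab
  refine Summable.tsum_le_tsum (fun k => ?_) (gam_summable a) (gam_summable b)
  refine mul_le_mul_of_nonneg_left (Psi_mono ?_) (De_pos _).le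
  exact div_le_div_of_nonneg_right (by linarith) (ell_pos _).le

lemma gam_zero {a : ℝ} (h : a ≤ 0) : gam a = 0 := by
  have : ∀ k, De (k + 1) * Psi ((a - aa (k + 1)) / ell (k + 1)) = 0 := fun k => by
    rw [Psi_zero (div_nonpos_of_nonpos_of_nonneg (by linarith [aa_pos (k + 1)]) (ell_pos _).le),
      mul_zero]
  simp only [gam, this, tsum_zero]

lemma gam_top {a : ℝ} (h : 4 / 1024 ≤ a) : gam a = 3 := by
  have : ∀ k, De (k + 1) * Psi ((a - aa (k + 1)) / ell (k + 1)) = De (k + 1) := fun k => by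
    rw [Psi_one ((one_le_div (ell_pos _)).2 (by linarith [aa_le_one (k := k + 1) (by omega)])),
      mul_one]
  simp only [gam, this]
  rw [(gam_hasSum 1).tsum_eq, sc_one, mul_one]

lemma gam_nonneg (a : ℝ) : 0 ≤ gam a := tsum_nonneg (gam_term_nonneg a)

lemma gam_le (a : ℝ) : gam a ≤ 3 := by
  have h := Summable.tsum_le_tsum (gam_term_le a) (gam_summable a) (gam_hasSum 1).summable
  rw [(gam_hasSum 1).tsum_eq, sc_one, mul_one] at h
  exact h

lemma gam_step {k : ℕ} {a : ℝ} (h : 1 ≤ k) (h1 : aa k ≤ a) (h2 : a ≤ aa k + ell k) :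
    gam a = 3 * sc (k + 1) + De k * Psi ((a - aa k) / ell k) := by
  obtain ⟨j, rfl⟩ : ∃ j, k = j + 1 := ⟨k - 1, by omega⟩
  have e1 : ∀ i, De (i + (j + 1) + 1) * Psi ((a - aa (i + (j + 1) + 1)) / ell (i + (j + 1) + 1)) =
      De (i + (j + 1 + 1)) := fun i => by
    have := aa_succ (k := j + 1) (k' := i + (j + 1) + 1) h (by omega)
    rw [Psi_one ((one_le_div (ell_pos _)).2 (by linarith)), mul_one, add_assoc]
  rw [gam, ← (gam_summable a).sum_add_tsum_nat_add (j + 1)]
  simp only [e1]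
  rw [(gam_hasSum (j + 1 + 1)).tsum_eq, Finset.sum_range_succ, Finset.sum_eq_zero, zero_add,
    add_comm]
  intro i hi
  have := aa_succ (k := i + 1) (k' := j + 1) (by omega) (by have := Finset.mem_range.1 hi; omega)
  rw [Psi_zero (div_nonpos_of_nonpos_of_nonneg (by linarith) (ell_pos _).le), mul_zero]

lemma gam_eq {k : ℕ} {a : ℝ} (h : 1 ≤ k) (ha : a ∈ II k) : gam a = Af k a := by
  have h0 := ell_pos k
  obtain ⟨h1, h2⟩ := ha
  rw [gam_step h (by linarith) (by linarith), Psi_mid ((le_div_iff₀ h0).2 (by linarith))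
    ((div_le_iff₀ h0).2 (by linarith)), Af, ss]
  field_simp

lemma mem_II_of_gam {k : ℕ} {a : ℝ} (h : 1 ≤ k) (h1 : 2 / 5 * sc k ≤ gam a)
    (h2 : gam a ≤ 6 / 5 * sc k) : a ∈ II k := by
  have h0 := ell_pos k
  have h3 := sc_lt (k := k) (k' := k + 1) (by omega)
  have h4 := sc_pos (k + 1)
  have h5 : ss k * ell k = 5 / 4 * (3 * sc k - 3 * sc (k + 1)) := by
    rw [ss, De]; field_simp
  constructor
  · by_contra hc
    have h6 := gam_mono (not_le.1 hc).le
    rw [gam_eq h (a := aa k + ell k / 5) ⟨le_rfl, by linarith⟩, Af] at h6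
    have h7 : ss k * (aa k + ell k / 5 - aa k - ell k / 10) = ss k * ell k / 10 := by ring
    rw [h7, h5] at h6
    linarith
  · by_contra hc
    have h6 := gam_mono (not_le.1 hc).le
    rw [gam_eq h (a := aa k + 4 * ell k / 5) ⟨by linarith, le_rfl⟩, Af] at h6
    have h7 : ss k * (aa k + 4 * ell k / 5 - aa k - ell k / 10) = ss k * ell k * (7 / 10) := by ring
    rw [h7, h5] at h6
    linarith

end GamPart

section GGPart

/-! The functions of one variable in the map. -/


open MeasureTheory Set Filter Topology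

lemma gg_lam_pos : 0 < lam := by
  unfold lam
  positivity

lemma gg_phi_mid {t : ℝ} (h : -8 ≤ t) (h' : t ≤ 2) : phi t = t := by
  unfold phi
  rw [rp_zero (by linarith), rp_zero (by linarith)]
  ring

lemma gg_phi_top {t : ℝ} (h : 4 ≤ t) : phi t = 3 := by
  unfold phi
  rw [rp_top (t := t - 2) (by linarith), rp_zero (t := -t - 8) (by linarith)]
  ring

lemma gg_phi_bot {t : ℝ} (h : t ≤ -10) : phi t = -9 := by
  unfold phi
  rw [rp_zero (t := t - 2) (by linarith), rp_top (t := -t - 8) (by linarith)]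
  ring

lemma gg_phi_up {t : ℝ} (h : 2 ≤ t) (h' : t ≤ 4) : phi t = t - (t - 2) ^ 2 / 4 := by
  unfold phi
  rw [rp_mid (t := t - 2) (by linarith) (by linarith), rp_zero (t := -t - 8) (by linarith)]
  ring

lemma gg_phi_down {t : ℝ} (h : -10 ≤ t) (h' : t ≤ -8) : phi t = t + (-t - 8) ^ 2 / 4 := by
  unfold phi
  rw [rp_zero (t := t - 2) (by linarith), rp_mid (t := -t - 8) (by linarith) (by linarith)]
  ring

lemma gg_phi_gt {t : ℝ} (h : 2 < t) : 2 < phi t := by
  rcases le_total t 4 with h1 | h1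
  · rw [gg_phi_up h.le h1]
    nlinarith
  · rw [gg_phi_top h1]
    norm_num

lemma gg_phi_low {t : ℝ} (h : -10 ≤ t) (h' : t ≤ -8) : phi t ≤ -8 := by
  rw [gg_phi_down h h']
  nlinarith

lemma gg_phi_bound (t : ℝ) : -9 ≤ phi t ∧ phi t ≤ 3 := by
  rcases le_total t (-10) with h1 | h1
  · rw [gg_phi_bot h1]
    norm_num
  rcases le_total t (-8) with h2 | h2
  · rw [gg_phi_down h1 h2]
    constructor <;> nlinarith [sq_nonneg (t + 10)]
  rcases le_total t 2 with h3 | h3
  · rw [gg_phi_mid h2 h3]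
    constructor <;> linarith
  rcases le_total t 4 with h4 | h4
  · rw [gg_phi_up h3 h4]
    constructor <;> nlinarith [sq_nonneg (t - 4)]
  · rw [gg_phi_top h4]
    norm_num

lemma gg_small {x : ℝ} (h : x ≤ 1 / 4) : GG x = phi (av * x) := by
  unfold GG
  rw [gam_top (by linarith), Psi_zero (t := 8 * x - 2) (by linarith),
    Psi_zero (t := 8 * x - 6) (by linarith), Psi_zero (t := 10 * (x - 1 / 2)) (by linarith)]
  ring

lemma gg_large {x : ℝ} (h : 1 / 4 ≤ x) : GG x = gam (1 / 2 - x)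
    + 2 * x / lam * (Psi (8 * x - 2) - Psi (8 * x - 6)) - 9 * Psi (10 * (x - 1 / 2)) := by
  unfold GG
  rw [gg_phi_top (by nlinarith [av_ge])]
  ring

lemma gg_mid_nonneg {x : ℝ} (h : 0 ≤ x) :
    0 ≤ 2 * x / lam * (Psi (8 * x - 2) - Psi (8 * x - 6)) :=
  mul_nonneg (div_nonneg (by linarith) gg_lam_pos.le) (sub_nonneg.2 (Psi_mono (by linarith)))

lemma gg_mid_le {x : ℝ} (h : 0 ≤ x) :
    2 * x / lam * (Psi (8 * x - 2) - Psi (8 * x - 6)) ≤ 2 * x / lam :=
  mul_le_of_le_one_right (div_nonneg (by linarith) gg_lam_pos.le)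
    (by linarith [Psi_le_one (8 * x - 2), Psi_nonneg (8 * x - 6)])

lemma contDiff_GG : ContDiff ℝ 1 GG := by
  have h1 : ContDiff ℝ 1 phi := by
    unfold phi
    exact (contDiff_id.sub (contDiff_rp.comp (contDiff_id.sub contDiff_const))).add
      (contDiff_rp.comp (contDiff_id.neg.sub contDiff_const))
  unfold GG
  refine (((h1.comp (contDiff_const.mul contDiff_id)).add
    ((contDiff_gam.comp (contDiff_const.sub contDiff_id)).sub contDiff_const)).add
    (((contDiff_const.mul contDiff_id).div_const _).mul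
      ((contDiff_Psi.comp ((contDiff_const.mul contDiff_id).sub contDiff_const)).sub
        (contDiff_Psi.comp ((contDiff_const.mul contDiff_id).sub contDiff_const))))).sub
    (contDiff_const.mul (contDiff_Psi.comp (contDiff_const.mul (contDiff_id.sub contDiff_const))))

lemma GG_left {x : ℝ} (h : av * x ≤ -10) : GG x = -9 := by
  have h1 : x ≤ 1 / 4 := by nlinarith [av_ge]
  rw [gg_small h1, gg_phi_bot h]

lemma GG_right {x : ℝ} (h : 1 ≤ x) : GG x = -9 := by
  rw [gg_large (by linarith), gam_zero (by linarith), Psi_one (by linarith),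
    Psi_one (by linarith), Psi_one (by linarith)]
  ring

lemma GG_bound (x : ℝ) : -9 ≤ GG x ∧ GG x ≤ 4 := by
  rcases le_total x (1 / 4) with h | h
  · rw [gg_small h]
    exact ⟨(gg_phi_bound _).1, (gg_phi_bound _).2.trans (by norm_num)⟩
  rcases le_total 1 x with h' | h'
  · rw [GG_right h']
    norm_num
  rw [gg_large h]
  have h1 := gg_mid_nonneg (x := x) (by linarith)
  have h2 := gg_mid_le (x := x) (by linarith)
  have h3 : 2 * x / lam ≤ 1 := by
    rw [div_le_one gg_lam_pos]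
    unfold lam
    linarith
  constructor
  · linarith [gam_nonneg (1 / 2 - x), Psi_le_one (10 * (x - 1 / 2))]
  · linarith [gam_le (1 / 2 - x), Psi_nonneg (10 * (x - 1 / 2))]

lemma GG_neg {x : ℝ} (h : -10 ≤ av * x) (h' : x ≤ 0) : GG x ≤ 3 * x := by
  rw [gg_small (by linarith)]
  rcases le_total (-8) (av * x) with h1 | h1
  · rw [gg_phi_mid h1 (by nlinarith [av_ge])]
    nlinarith [av_ge]
  · have h2 := gg_phi_low h h1
    have h3 : -8 ≤ 3 * x := by nlinarith [av_ge]
    linarith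

lemma GG_lin {x : ℝ} (h : 0 ≤ x) (h' : av * x ≤ 2) : GG x = av * x := by
  have h1 : x ≤ 1 / 4 := by nlinarith [av_ge]
  rw [gg_small h1, gg_phi_mid (by nlinarith [av_ge]) h']

lemma GG_big {x : ℝ} (h : 2 < av * x) (h' : x ≤ 1 / 2 - 4 / 1024) : 2 < GG x := by
  rcases le_total x (1 / 4) with h1 | h1
  · rw [gg_small h1]
    exact gg_phi_gt h
  · rw [gg_large h1, gam_top (by linarith), Psi_zero (t := 10 * (x - 1 / 2)) (by linarith)]
    linarith [gg_mid_nonneg (x := x) (by linarith)]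

lemma GG_pass {x : ℝ} (h : 3 / 8 ≤ x) (h' : x ≤ 1 / 2) :
    GG x = 2 * x / lam + gam (1 / 2 - x) := by
  rw [gg_large (by linarith), Psi_one (t := 8 * x - 2) (by linarith),
    Psi_zero (t := 8 * x - 6) (by linarith), Psi_zero (t := 10 * (x - 1 / 2)) (by linarith)]
  ring

lemma GG_after {x : ℝ} (h : 1 / 2 ≤ x) : GG x ≤ 2 * x / lam := by
  rw [gg_large (by linarith), gam_zero (by linarith)]
  linarith [gg_mid_le (x := x) (by linarith), Psi_nonneg (10 * (x - 1 / 2))]

lemma contDiff_al : ContDiff ℝ 1 al := by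
  unfold al
  exact ((contDiff_id.sub (contDiff_const.mul
    (contDiff_rp.comp (contDiff_id.sub contDiff_const)))).add (contDiff_const.mul
    (contDiff_rp.comp (contDiff_id.neg.sub contDiff_const)))).add (contDiff_const.mul
    (contDiff_Psi.comp ((contDiff_id.sub contDiff_const).div_const _)))

lemma al_mid {x : ℝ} (h : |x| ≤ 1) : al x = x := by
  obtain ⟨h1, h2⟩ := abs_le.1 h
  unfold al
  rw [rp_zero (by linarith), rp_zero (by linarith), Psi_zero (by linarith)]
  ring

lemma al_slope {x x' : ℝ} (h : x ≤ x') : (x' - x) / 4 ≤ al x' - al x := by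
  have h1 : Psi ((x - 16) / 7) ≤ Psi ((x' - 16) / 7) := Psi_mono (by linarith)
  have h2 : rp (x' - 1) - rp (x - 1) + (rp (-x - 1) - rp (-x' - 1)) ≤ x' - x := by
    rcases le_total 0 x with h3 | h3
    · rw [rp_zero (t := -x - 1) (by linarith), rp_zero (t := -x' - 1) (by linarith)]
      linarith [rp_lip (s := x - 1) (t := x' - 1) (by linarith)]
    rcases le_total x' 0 with h4 | h4
    · rw [rp_zero (t := x - 1) (by linarith), rp_zero (t := x' - 1) (by linarith)]
      linarith [rp_lip (s := -x' - 1) (t := -x - 1) (by linarith)]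
    · rw [rp_zero (t := x - 1) (by linarith), rp_zero (t := -x' - 1) (by linarith)]
      linarith [rp_lip (s := -1) (t := -x - 1) (by linarith),
        rp_lip (s := -1) (t := x' - 1) (by linarith), rp_zero (t := -1) (by norm_num)]
  unfold al
  linarith

lemma al_neg {x : ℝ} (h : x ≤ -3) : al x = x / 4 - 3 / 2 := by
  unfold al
  rw [rp_zero (t := x - 1) (by linarith), rp_top (t := -x - 1) (by linarith),
    Psi_zero (by linarith)]
  ring

lemma al_pos {x : ℝ} (h : 3 ≤ x) : al x = x / 4 + 3 / 2 + 27 * Psi ((x - 16) / 7) := by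
  unfold al
  rw [rp_top (t := x - 1) (by linarith), rp_zero (t := -x - 1) (by linarith)]
  ring

lemma le_al {x : ℝ} (h : x ≤ 0) : x ≤ al x := by
  unfold al
  rw [rp_zero (t := x - 1) (by linarith), Psi_zero (by linarith)]
  have h1 : rp (-1) ≤ rp (-x - 1) := rp_mono (by linarith)
  linarith [rp_zero (t := -1) (by norm_num)]

lemma abs_al {x : ℝ} (h : |x| ≤ 16) : |al x| ≤ 11 / 2 := by
  obtain ⟨h1, h2⟩ := abs_le.1 h
  have h3 := al_slope h1
  have h4 := al_slope h2
  rw [al_neg (x := -16) (by norm_num)] at h3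
  rw [al_pos (x := 16) (by norm_num), Psi_zero (by norm_num)] at h4
  rw [abs_le]
  constructor <;> linarith

lemma al_per {x : ℝ} (h : -17 < x) (h' : x < -15) : al (x + 40) = al x + 40 := by
  rw [al_pos (x := x + 40) (by linarith), al_neg (x := x) (by linarith), Psi_one (by linarith)]
  ring

end GGPart

end Pool.Agent.P.MP_1672e2_an.Cq
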