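import Pool.Agent.P.MP_1672e2_an.Cq.Comb

set_option autoImplicit false

namespace Pool.Agent.P.MP_1672e2_an.Cq

section GapPart

/-! The linear recurrence in a gap. -/


open MeasureTheory Set Filter Topology

lemma gap_lam : lam = 1048576 := by
  rw [lam]; norm_num

lemma gap_lam_pos : 0 < lam := by
  rw [gap_lam]; norm_num

lemma gap_one_le (s : ℕ) : 1 ≤ lam ^ s := one_le_pow₀ (by rw [gap_lam]; norm_num)

lemma gap_sc (s : ℕ) : sc (s + 1) * lam ^ s = 1 := by
  have h := gap_lam_pos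
  rw [sc, pow_succ]
  field_simp

lemma gap_Y {X : ℕ → ℝ} {r : ℕ} (h : ZR X r) (s : ℕ) (hs : s < r) :
    X (s + 1) - X s / lam = lam ^ s * (X 1 - X 0 / lam) := by
  induction s with
  | zero => simp
  | succ s ih =>
    have h0 := gap_lam_pos
    have h1 := h (s + 1) (Nat.succ_pos s) hs
    rw [Nat.add_sub_cancel, av] at h1
    have h2 : X (s + 1 + 1) - X (s + 1) / lam = lam * (X (s + 1) - X s / lam) := by
      rw [eq_sub_of_add_eq h1]
      field_simp
      ring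
    rw [h2, ih (by omega), pow_succ]
    ring

lemma gap_form {X : ℕ → ℝ} {r : ℕ} (h : ZR X r) (s : ℕ) (hs : s < r) :
    ∃ v, 1 ≤ v ∧ v ≤ 1001 / 1000 ∧
      X (s + 1) = X 0 / lam / lam ^ s + (X 1 - X 0 / lam) * v * lam ^ s := by
  induction s with
  | zero => exact ⟨1, le_rfl, by norm_num, by simp⟩
  | succ s ih =>
    obtain ⟨v, h1, h2, h3⟩ := ih (by omega)
    have h0 := gap_lam_pos
    refine ⟨1 + v / lam ^ 2, ?_, ?_, ?_⟩
    · have : 0 ≤ v / lam ^ 2 := by positivity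
      linarith
    · rw [gap_lam]
      norm_num
      linarith
    · rw [eq_add_of_sub_eq (gap_Y h (s + 1) hs), h3]
      field_simp
      ring

lemma gap_abs {X : ℕ → ℝ} {r : ℕ} (hr : 1 ≤ r) (h : ZR X r) :
    |X 1 - X 0 / lam| ≤ sc r * (|X r| + |X 0| / lam) := by
  obtain ⟨s, rfl⟩ : ∃ s, r = s + 1 := ⟨r - 1, by omega⟩
  obtain ⟨v, h1, -, h3⟩ := gap_form h s (Nat.lt_succ_self s)
  have h0 := gap_lam_pos
  have h4 := gap_one_le s
  have h5 : |X 1 - X 0 / lam| * v * lam ^ s = |X (s + 1) - X 0 / lam / lam ^ s| := by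
    rw [h3, add_sub_cancel_left, abs_mul, abs_mul, abs_of_pos (by linarith : 0 < v),
      abs_of_pos (by positivity : 0 < lam ^ s)]
  have h6 : |X 0 / lam / lam ^ s| ≤ |X 0| / lam := by
    rw [abs_div, abs_div, abs_of_pos h0, abs_of_pos (by positivity : 0 < lam ^ s)]
    exact div_le_self (by positivity) h4
  have h7 : |X 1 - X 0 / lam| * lam ^ s ≤ |X (s + 1)| + |X 0| / lam := by
    have h8 := abs_sub (X (s + 1)) (X 0 / lam / lam ^ s)
    have h9 : |X 1 - X 0 / lam| * lam ^ s ≤ |X 1 - X 0 / lam| * v * lam ^ s :=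
      mul_le_mul_of_nonneg_right (le_mul_of_one_le_right (abs_nonneg _) h1) (by positivity)
    linarith
  calc |X 1 - X 0 / lam| = sc (s + 1) * (|X 1 - X 0 / lam| * lam ^ s) := by
        rw [mul_left_comm, gap_sc, mul_one]
    _ ≤ _ := mul_le_mul_of_nonneg_left h7 (sc_pos _).le

lemma gap_band {X : ℕ → ℝ} {r : ℕ} (hr : 1 ≤ r) (h : ZR X r) (h0 : |1 / 2 - X 0| ≤ 5 / 1024)
    (h1 : |1 / 2 - X r| ≤ 5 / 1024) :
    Bd r (X 1 - X 0 / lam) ∧ ∀ s, 0 < s → s < r → 0 ≤ X s ∧ av * X s ≤ 2 := by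
  obtain ⟨n, rfl⟩ : ∃ n, r = n + 1 := ⟨r - 1, by omega⟩
  obtain ⟨a1, a2⟩ := abs_le.1 h0
  obtain ⟨b1, b2⟩ := abs_le.1 h1
  have hl := gap_lam_pos
  have hX : 0 ≤ X 0 / lam := div_nonneg (by linarith) hl.le
  have hX' : X 0 / lam ≤ 51 / 100 / lam := div_le_div_of_nonneg_right (by linarith) hl.le
  have hZ : ∀ s : ℕ, 0 ≤ X 0 / lam / lam ^ s ∧ X 0 / lam / lam ^ s ≤ 51 / 100 / lam := fun s =>
    ⟨by positivity, (div_le_self hX (gap_one_le s)).trans hX'⟩
  obtain ⟨Y, hY⟩ : ∃ Y, Y = X 1 - X 0 / lam := ⟨_, rfl⟩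
  have hB : 49 / 100 ≤ Y * lam ^ n ∧ Y * lam ^ n ≤ 51 / 100 := by
    obtain ⟨v, c1, c2, c3⟩ := gap_form h n (Nat.lt_succ_self n)
    obtain ⟨d1, d2⟩ := hZ n
    have d3 : (51 / 100 / lam : ℝ) ≤ 1 / 1000000 := by
      rw [gap_lam]; norm_num
    rw [← hY, mul_right_comm] at c3
    obtain ⟨W, hW⟩ : ∃ W, W = Y * lam ^ n := ⟨_, rfl⟩
    rw [← hW] at c3 ⊢
    have d4 : 0 < W := by
      by_contra hc
      have : W * v ≤ 0 := mul_nonpos_of_nonpos_of_nonneg (not_lt.1 hc) (by linarith)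
      linarith
    have d5 : W * v ≤ W * (1001 / 1000) := mul_le_mul_of_nonneg_left c2 d4.le
    have d6 : W ≤ W * v := le_mul_of_one_le_right d4.le c1
    constructor <;> linarith
  have hE : Y = sc (n + 1) * (Y * lam ^ n) := by rw [mul_left_comm, gap_sc, mul_one]
  have hp := sc_pos (n + 1)
  have hY0 : 0 ≤ Y := by
    rw [hE]
    exact mul_nonneg hp.le (by linarith [hB.1])
  refine ⟨⟨?_, ?_⟩, fun s hs hs' => ?_⟩
  · rw [← hY, hE, mul_comm]
    exact mul_le_mul_of_nonneg_left hB.1 hp.le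
  · rw [← hY, hE, mul_comm (51 / 100)]
    exact mul_le_mul_of_nonneg_left hB.2 hp.le
  · obtain ⟨t, rfl⟩ : ∃ t, s = t + 1 := ⟨s - 1, by omega⟩
    obtain ⟨v, c1, c2, c3⟩ := gap_form h t (by omega)
    obtain ⟨d1, d2⟩ := hZ t
    rw [← hY, mul_right_comm] at c3
    have d3 : 0 ≤ Y * lam ^ t := by positivity
    have d4 : Y * lam ^ t ≤ 51 / 100 / lam := by
      rw [le_div_iff₀ hl, mul_assoc, ← pow_succ]
      exact (mul_le_mul_of_nonneg_left (pow_le_pow_right₀ (by simpa using gap_one_le 1)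
        (by omega)) hY0).trans hB.2
    have d5 : Y * lam ^ t * v ≤ Y * lam ^ t * (1001 / 1000) := mul_le_mul_of_nonneg_left c2 d3
    have d6 : 0 ≤ Y * lam ^ t * v := mul_nonneg d3 (by linarith)
    refine ⟨by linarith, ?_⟩
    have d7 : X (t + 1) ≤ 51 / 100 / lam + 51 / 100 / lam * (1001 / 1000) := by linarith
    rw [av]
    rw [gap_lam] at d7 ⊢
    norm_num at d7 ⊢
    linarith

lemma gap_abs' {X : ℕ → ℝ} {k r : ℕ} {D : ℝ} (hk : 1 ≤ k) (hr : k ≤ r) (h : ZR X r)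
    (h0 : |X 0| ≤ D) (h1 : |X r| ≤ D) : |X 1 - X 0 / lam| ≤ sc k * (1001 / 1000 * D) := by
  have hD : 0 ≤ D := (abs_nonneg _).trans h0
  have h2 : |X 0| / lam ≤ D / 1000 := by
    rw [gap_lam]
    linarith
  exact (gap_abs (hk.trans hr) h).trans (mul_le_mul (sc_anti hr) (by linarith)
    (add_nonneg (abs_nonneg _) (div_nonneg (abs_nonneg _) gap_lam_pos.le)) (sc_pos k).le)

/-- Local contraction at a passage, for differences of solutions. -/
lemma gap_contr {X X' : ℕ → ℝ} {k r r' : ℕ} {σ D : ℝ} (hk : 1 ≤ k) (hr : k ≤ r) (hr' : k ≤ r')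
    (h : ZR X r) (h' : ZR X' r') (e : X' 0 = X 0) (hσ : ss k ≤ |σ|)
    (he : σ * X 0 = (X 1 - X 0 / lam) + (X' 1 - X 0 / lam)) (h0 : |X 0| ≤ D) (h1 : |X r| ≤ D)
    (h2 : |X' r'| ≤ D) : |X 0| ≤ D / 500 := by
  have hD : 0 ≤ D := (abs_nonneg _).trans h0
  have a1 := gap_abs' hk hr h h0 h1
  have a2 := gap_abs' hk hr' h' (e ▸ h0) h2
  rw [e] at a2
  have a3 := abs_add_le (X 1 - X 0 / lam) (X' 1 - X 0 / lam)
  rw [← he, abs_mul] at a3
  have a4 : 3000 * sc k * |X 0| ≤ |σ| * |X 0| :=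
    mul_le_mul_of_nonneg_right ((sc_le_ss hk).trans hσ) (abs_nonneg _)
  have a5 : sc k * (3000 * |X 0|) ≤ sc k * (2 * (1001 / 1000 * D)) := by linarith
  have a6 := le_of_mul_le_mul_left a5 (sc_pos k)
  linarith

/-- Local a priori bound at a passage. -/
lemma gap_apriori {X X' : ℕ → ℝ} {k r r' : ℕ} {δ D : ℝ} (hk : 1 ≤ k) (hr : k ≤ r) (hr' : k ≤ r')
    (h : ZR X r) (h' : ZR X' r') (e : X' 0 = X 0) (hδ : |δ| ≤ sc k / 100)
    (he : Af k (1 / 2 - X 0) - δ = (X 1 - X 0 / lam) + (X' 1 - X 0 / lam))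
    (h0 : |1 / 2 - X 0| ≤ D) (h1 : |1 / 2 - X r| ≤ D) (h2 : |1 / 2 - X' r'| ≤ D) :
    |1 / 2 - X 0| ≤ 7 / 2 / 1024 + D / 1000 := by
  have hD : 0 ≤ D := (abs_nonneg _).trans h0
  have hb : ∀ x : ℝ, |1 / 2 - x| ≤ D → |x| ≤ 1 / 2 + D := fun x hx => by
    obtain ⟨b1, b2⟩ := abs_le.1 hx
    exact abs_le.2 ⟨by linarith, by linarith⟩
  have a1 := gap_abs' hk hr h (hb _ h0) (hb _ h1)
  have a2 := gap_abs' hk hr' h' (e ▸ hb _ h0) (hb _ h2)
  rw [e] at a2
  obtain ⟨b1, b2⟩ := abs_le.1 a1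
  obtain ⟨b3, b4⟩ := abs_le.1 a2
  obtain ⟨b5, b6⟩ := abs_le.1 hδ
  have c1 := sc_pos (k + 1)
  have c2 := sc_lt (Nat.lt_succ_self k)
  have hp := sc_pos k
  rw [Af] at he
  obtain ⟨z, hz⟩ : ∃ z, z = 1 / 2 - X 0 - aa k - ell k / 10 := ⟨_, rfl⟩
  rw [← hz] at he
  have a3 : |ss k * z| ≤ sc k * (13 / 1000 + 2 * (1001 / 1000 * (1 / 2 + D))) :=
    abs_le.2 ⟨by linarith, by linarith⟩
  rw [abs_mul, abs_of_pos (ss_pos k)] at a3
  have a4 : 3000 * sc k * |z| ≤ ss k * |z| :=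
    mul_le_mul_of_nonneg_right (sc_le_ss hk) (abs_nonneg _)
  have a5 : sc k * (3000 * |z|) ≤ sc k * (13 / 1000 + 2 * (1001 / 1000 * (1 / 2 + D))) := by
    linarith
  have a6 := le_of_mul_le_mul_left a5 hp
  have a7 : ell k ≤ 1 / 1024 := (ell_anti hk).trans_eq (pow_one _)
  have a8 := aa_le hk
  have a9 := aa_pos k
  have a10 := ell_pos k
  have a11 := le_abs_self z
  have a12 := neg_abs_le z
  exact abs_le.2 ⟨by linarith, by linarith⟩

lemma bands_sum {k r r' : ℕ} {y w : ℝ} (hk : k = min r r') (hy : Bd r y) (hw : Bd r' w) :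
    2 / 5 * sc k ≤ y + w ∧ y + w ≤ 6 / 5 * sc k := by
  obtain ⟨a1, a2⟩ := hy
  obtain ⟨b1, b2⟩ := hw
  have c1 := sc_pos r
  have c2 := sc_pos r'
  rcases le_total r r' with h | h
  · have := sc_anti h
    rw [hk, min_eq_left h]
    constructor <;> linarith
  · have := sc_anti h
    rw [hk, min_eq_right h]
    constructor <;> linarith

/-- Two bands locate a position. -/
lemma mem_II_of_bands {k r r' : ℕ} {a y w δ : ℝ} (hk : k = min r r') (hy : Bd r y) (hw : Bd r' w)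
    (h0 : 0 ≤ δ) (hδ : δ ≤ sc k / 100) (he : Af k a - δ = y + w) : a ∈ II k := by
  obtain ⟨a1, a2⟩ := bands_sum hk hy hw
  have := sc_pos k
  exact mem_II (by linarith) (by linarith)

lemma Bd.unique {k k' : ℕ} {y : ℝ} (h : Bd k y) (h' : Bd k' y) : k = k' := by
  obtain ⟨a1, a2⟩ := h
  obtain ⟨b1, b2⟩ := h'
  have c1 := sc_pos k
  have c2 := sc_pos k'
  rcases lt_trichotomy k k' with h | h | h
  · have := sc_lt h
    linarith
  · exact h
  · have := sc_lt h
    linarith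

end GapPart

section LinPart

/-! Linear algebra of formal orbits. -/


open MeasureTheory Set Filter Topology

lemma lin_fw_zero (L : ℕ → ℝ → ℝ) (x₀ x₁ : ℝ) : fw L x₀ x₁ 0 = x₀ := by rw [fw]

lemma lin_fw_one (L : ℕ → ℝ → ℝ) (x₀ x₁ : ℝ) : fw L x₀ x₁ 1 = x₁ := by rw [fw]

lemma lin_fw_rec (L : ℕ → ℝ → ℝ) (x₀ x₁ : ℝ) {s : ℕ} (h : 0 < s) :
    fw L x₀ x₁ (s + 1) + fw L x₀ x₁ (s - 1) = L s (fw L x₀ x₁ s) := by
  obtain ⟨r, rfl⟩ : ∃ r, s = r + 1 := ⟨s - 1, by omega⟩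
  rw [Nat.add_sub_cancel, show r + 1 + 1 = r + 2 from rfl, fw]
  ring

lemma lin_sl_none : sl none = av := rfl

lemma lin_sl_some (i i' : ℕ) : sl (some (i, i')) = 2 / lam - ss (m (min i i')) := rfl

lemma lin_lam_pos : 0 < lam := by unfold lam; positivity

lemma lin_lam_ge : 1000 ≤ lam := by unfold lam; norm_num

/-- The gap to the right of a passage. -/
lemma lin_ZR_right {j : ℕ} {X : ℕ → ℝ}
    (h : ∀ s, 0 < s → s < T j → X (s + 1) + X (s - 1) = sl (sk j s) * X s) {s i i' : ℕ}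
    (hs : s < T j) (e : sk j s = some (i, i')) : ZR (fun r => X (s + r)) (m i') := by
  obtain ⟨h1, h2, _⟩ := sk_right hs e
  intro r hr0 hr
  have h3 := h (s + r) (by omega) (by omega)
  rw [h2 r hr0 hr, lin_sl_none, show s + r - 1 = s + (r - 1) by omega] at h3
  exact h3

/-- The gap to the left of a passage. -/
lemma lin_ZR_left {j : ℕ} {X : ℕ → ℝ}
    (h : ∀ s, 0 < s → s < T j → X (s + 1) + X (s - 1) = sl (sk j s) * X s) {s i i' : ℕ}
    (h0 : 0 < s) (hs : s < T j) (e : sk j s = some (i, i')) : ZR (fun r => X (s - r)) (m i) := by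
  obtain ⟨h1, h2, _⟩ := sk_left h0 hs e
  intro r hr0 hr
  have h3 := h (s - r) (by omega) (by omega)
  rw [h2 r hr0 hr, lin_sl_none, show s - r + 1 = s - (r - 1) by omega,
    show s - r - 1 = s - (r + 1) by omega] at h3
  show X (s - (r + 1)) + X (s - (r - 1)) = av * X (s - r)
  linarith

/-- Maximum principle for the homogeneous recurrence. -/
lemma hom_max {j : ℕ} {X : ℕ → ℝ}
    (h : ∀ s, 0 < s → s < T j → X (s + 1) + X (s - 1) = sl (sk j s) * X s) {D : ℝ}
    (h0 : |X 0| ≤ D) (h1 : |X (T j)| ≤ D) :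
    ∀ s, 0 < s → s < T j → sk j s ≠ none → |X s| ≤ D / 500 := by
  classical
  obtain ⟨s₀, hs₀, hmax⟩ := Finset.exists_max_image
    ((Finset.range (T j + 1)).filter fun s => s = T j ∨ sk j s ≠ none) (fun s => |X s|)
    ⟨T j, Finset.mem_filter.2 ⟨Finset.mem_range.2 (Nat.lt_succ_self _), Or.inl rfl⟩⟩
  have hM : ∀ s, s ≤ T j → (s = T j ∨ sk j s ≠ none) → |X s| ≤ |X s₀| := fun s a b =>
    hmax s (Finset.mem_filter.2 ⟨Finset.mem_range.2 (Nat.lt_succ_of_le a), b⟩)
  have key : ∀ s, 0 < s → s < T j → sk j s ≠ none → |X s| ≤ |X s₀| / 500 := by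
    intro s hs0 hs hne
    obtain ⟨⟨i, i'⟩, e⟩ := Option.ne_none_iff_exists'.1 hne
    obtain ⟨a1, _, a3⟩ := sk_right hs e
    obtain ⟨b1, _, b3⟩ := sk_left hs0 hs e
    have h3 := h s hs0 hs
    rw [e, lin_sl_some] at h3
    refine gap_contr (X := fun r => X (s + r)) (X' := fun r => X (s - r))
      (k := m (min i i')) (σ := -ss (m (min i i'))) (m_pos _)
      (m_strictMono.monotone (min_le_right i i')) (m_strictMono.monotone (min_le_left i i'))
      (lin_ZR_right h hs e) (lin_ZR_left h hs0 hs e) rfl ?_ ?_ ?_ ?_ ?_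
    · rw [abs_neg]; exact le_abs_self _
    · show -ss (m (min i i')) * X s = (X (s + 1) - X s / lam) + (X (s - 1) - X s / lam)
      have h4 : 2 / lam * X s = X s / lam + X s / lam := by ring
      linarith
    · exact hM s hs.le (Or.inr hne)
    · refine hM (s + m i') a1 ?_
      rcases a1.eq_or_lt with h5 | h5
      · exact Or.inl h5
      · exact Or.inr (a3 h5)
    · exact hM (s - m i) (by omega) (Or.inr b3)
  have hD : |X s₀| ≤ D := by
    obtain ⟨c1, c2⟩ := Finset.mem_filter.1 hs₀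
    have c3 : s₀ ≤ T j := Nat.le_of_lt_succ (Finset.mem_range.1 c1)
    rcases Nat.eq_zero_or_pos s₀ with h5 | h5
    · rw [h5]; exact h0
    rcases c3.eq_or_lt with h6 | h6
    · rw [h6]; exact h1
    have h7 := key s₀ h5 h6 (c2.resolve_left h6.ne)
    have h8 := abs_nonneg (X s₀)
    have h9 := abs_nonneg (X 0)
    linarith
  intro s a b c
  have := key s a b c
  linarith

/-- The first gap of a block. -/
lemma lin_first {j : ℕ} {X : ℕ → ℝ}
    (h : ∀ s, 0 < s → s < T j → X (s + 1) + X (s - 1) = sl (sk j s) * X s) {D : ℝ}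
    (h0 : |X 0| ≤ D) (h1 : |X (T j)| ≤ D) :
    |X 1 - X 0 / lam| ≤ sc (m j) * (max |X (T j)| (D / 500) + |X 0| / lam) := by
  obtain ⟨a1, _, a3⟩ := sk_right (T_pos j) (sk_zero j)
  have hz := lin_ZR_right h (T_pos j) (sk_zero j)
  have hg := gap_abs (m_pos j) hz
  simp only [Nat.zero_add] at hg a1 a3
  refine hg.trans (mul_le_mul_of_nonneg_left ?_ (sc_pos _).le)
  have : |X (m j)| ≤ max |X (T j)| (D / 500) := by
    rcases a1.eq_or_lt with h5 | h5
    · rw [h5]; exact le_max_left _ _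
    · exact (hom_max h h0 h1 _ (m_pos j) h5 (a3 h5)).trans (le_max_right _ _)
  linarith

lemma PP_ne (j : ℕ) : PP j ≠ 0 := by
  intro hP
  have hP' : fw (fun s x => sl (sk j s) * x) 0 1 (T j) = 0 := hP
  have h := lin_first (j := j) (X := fw (fun s x => sl (sk j s) * x) 0 1) (D := 0)
    (fun s hs _ => lin_fw_rec _ _ _ hs) (by rw [lin_fw_zero, abs_zero]) (by rw [hP', abs_zero])
  rw [hP', lin_fw_zero, lin_fw_one] at h
  norm_num at h

lemma rho_ne (j : ℕ) : rho j ≠ 0 :=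
  div_ne_zero (by norm_num) (PP_ne j)

lemma abs_rho (j : ℕ) : |rho j| ≤ sc (m j) := by
  have hP := PP_ne j
  have e1 : fw (fun s x => sl (sk j s) * x) 0 1 (T j) / PP j = 1 := div_self hP
  have h := lin_first (j := j) (X := fun s => fw (fun s x => sl (sk j s) * x) 0 1 s / PP j)
    (D := 1) (fun s hs _ => by
      show _ / PP j + _ / PP j = sl (sk j s) * (_ / PP j)
      rw [← add_div, lin_fw_rec _ _ _ hs, mul_div_assoc])
    (by show |_ / PP j| ≤ 1; rw [lin_fw_zero, zero_div, abs_zero]; exact zero_le_one)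
    (by show |_ / PP j| ≤ 1; rw [e1, abs_one])
  simp only [e1, lin_fw_zero, lin_fw_one, zero_div, abs_zero, abs_one, sub_zero, add_zero] at h
  rw [max_eq_left (by norm_num), mul_one] at h
  rw [rho, neg_div, abs_neg]
  exact h

lemma abs_kap (j : ℕ) : |kap j| ≤ sc (m j) / 100 := by
  have hP := PP_ne j
  have e1 : fw (fun s x => sl (sk j s) * x) 1 0 (T j) -
      PP' j / PP j * fw (fun s x => sl (sk j s) * x) 0 1 (T j) = 0 := by
    show PP' j - PP' j / PP j * PP j = 0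
    rw [div_mul_cancel₀ _ hP, sub_self]
  have h := lin_first (j := j) (X := fun s => fw (fun s x => sl (sk j s) * x) 1 0 s -
      PP' j / PP j * fw (fun s x => sl (sk j s) * x) 0 1 s)
    (D := 1) (fun s hs _ => by
      have a := lin_fw_rec (fun s x => sl (sk j s) * x) 1 0 hs
      have b := lin_fw_rec (fun s x => sl (sk j s) * x) 0 1 hs
      linear_combination a - PP' j / PP j * b)
    (by simp only [lin_fw_zero, mul_zero, sub_zero, abs_one, le_refl])
    (by rw [e1, abs_zero]; exact zero_le_one)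
  simp only [e1, lin_fw_zero, lin_fw_one, mul_zero, sub_zero, abs_one, abs_zero, mul_one,
    zero_sub] at h
  rw [max_eq_right (by norm_num)] at h
  have e2 : -(PP' j / PP j) - 1 / lam = -kap j := by rw [kap]; ring
  rw [e2, abs_neg] at h
  have h3 : 1 / lam ≤ 1 / 1000 := one_div_le_one_div_of_le (by norm_num) lin_lam_ge
  have h4 := sc_pos (m j)
  nlinarith

lemma uu_pos (j : ℕ) : 0 < uu j :=
  mul_pos (mul_pos two_pos (abs_pos.2 (rho_ne j))) (de_pos j)

lemma uu_le {j : ℕ} (h : 1 ≤ j) : 2 ^ be j * uu j = (1 / 2) ^ (j + 10) * |rho j| * de' j := by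
  have e := de_ratio h
  rw [show j + 11 = j + 10 + 1 from rfl, pow_succ (1 / 2 : ℝ) (j + 10)] at e
  rw [uu]
  linear_combination 2 * |rho j| * e

lemma shift_le {i n : ℕ} (h : n < 2 ^ be i) : 8 * n * uu i ≤ sc (m i) / 100 := by
  have hs := sc_pos (m i)
  rcases Nat.eq_zero_or_pos i with h0 | h0
  · have hb : be i = 0 := by rw [h0, be]
    rw [hb, pow_zero] at h
    have hn : n = 0 := by omega
    rw [hn, Nat.cast_zero, mul_zero, zero_mul]
    exact div_nonneg hs.le (by norm_num)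
  · have h1 : (n : ℝ) ≤ 2 ^ be i := by exact_mod_cast h.le
    have h2 := mul_le_mul_of_nonneg_right h1 (uu_pos i).le
    rw [uu_le h0] at h2
    have h3 : (1 / 2 : ℝ) ^ (i + 10) ≤ 1 := pow_le_one₀ (by norm_num) (by norm_num)
    have h4 : (1 / 2 : ℝ) ^ (i + 10) * |rho i| ≤ sc (m i) :=
      (mul_le_of_le_one_left (abs_nonneg _) h3).trans (abs_rho i)
    have h5 : (1 / 2 : ℝ) ^ (i + 10) * |rho i| * de' i ≤ sc (m i) * (1 / 1024) :=
      mul_le_mul h4 (de'_le i) (de'_pos i).le hs.le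
    have h6 : 8 * (n : ℝ) * uu i = 8 * (n * uu i) := by ring
    linarith

/-- Superposition. -/
lemma lin_formula {j : ℕ} {c : ℕ → ℕ} {X : ℕ → ℝ} (h : Sol j c X) (s : ℕ) (hs : s ≤ T j) :
    X s = X 1 * fw (fun s x => sl (sk j s) * x) 0 1 s +
      X 0 * fw (fun s x => sl (sk j s) * x) 1 0 s +
      fw (fun s x => sl (sk j s) * x + ic (sk j s) (c s)) 0 0 s := by
  induction s using Nat.twoStepInduction with
  | zero => simp only [lin_fw_zero]; ring
  | one => simp only [lin_fw_one]; ring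
  | more s ih1 ih2 =>
    have a := ih1 (by omega)
    have b := ih2 (by omega)
    have e := h (s + 1) (by omega) (by omega)
    have e1 := lin_fw_rec (fun s x => sl (sk j s) * x) 0 1 (s := s + 1) (by omega)
    have e2 := lin_fw_rec (fun s x => sl (sk j s) * x) 1 0 (s := s + 1) (by omega)
    have e3 := lin_fw_rec (fun s x => sl (sk j s) * x + ic (sk j s) (c s)) 0 0 (s := s + 1)
      (by omega)
    simp only [Nat.add_sub_cancel] at e e1 e2 e3
    show X (s + 1 + 1) = X 1 * fw (fun s x => sl (sk j s) * x) 0 1 (s + 1 + 1) +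
      X 0 * fw (fun s x => sl (sk j s) * x) 1 0 (s + 1 + 1) +
      fw (fun s x => sl (sk j s) * x + ic (sk j s) (c s)) 0 0 (s + 1 + 1)
    linear_combination e - a + sl (sk j (s + 1)) * b - X 1 * e1 - X 0 * e2 - e3

lemma lin_end {j : ℕ} {c : ℕ → ℕ} {X : ℕ → ℝ} (h : Sol j c X) :
    X (T j) = X 1 * PP j + X 0 * PP' j +
      fw (fun s x => sl (sk j s) * x + ic (sk j s) (c s)) 0 0 (T j) :=
  lin_formula h (T j) le_rfl

lemma lin_sol (j : ℕ) (c : ℕ → ℕ) (x₀ x₁ : ℝ) :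
    Sol j c (fw (fun s x => sl (sk j s) * x + ic (sk j s) (c s)) x₀ x₁) :=
  fun _ hs _ => lin_fw_rec _ _ _ hs

lemma Sol.val {j : ℕ} {c : ℕ → ℕ} {X : ℕ → ℝ} (h : Sol j c X) :
    X 1 - X 0 / lam = yv j c + kap j * (1 / 2 - X 0) + rho j * (1 / 2 - X (T j)) := by
  have hP := PP_ne j
  have hl := lin_lam_pos.ne'
  rw [lin_end h, yv, kap, rho]
  field_simp
  ring

lemma exists_sol (j : ℕ) (c : ℕ → ℕ) (a ω : ℝ) :
    ∃ X, Sol j c X ∧ X 0 = 1 / 2 - a ∧ X (T j) = 1 / 2 - ω := by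
  refine ⟨_, lin_sol j c (1 / 2 - a) ((1 / 2 - ω - (1 / 2 - a) * PP' j -
    fw (fun s x => sl (sk j s) * x + ic (sk j s) (c s)) 0 0 (T j)) / PP j),
    lin_fw_zero _ _ _, ?_⟩
  rw [lin_end (lin_sol j c _ _), lin_fw_zero, lin_fw_one, div_mul_cancel₀ _ (PP_ne j)]
  ring

lemma Sol.rev {j : ℕ} {c : ℕ → ℕ} {X : ℕ → ℝ} (h : Sol j c X) :
    Sol j (fun s => c (T j - s)) fun s => X (T j - s) := by
  intro s h0 hs
  have e := h (T j - s) (by omega) (by omega)
  rw [sk_symm h0 hs, sl_swap, ic_swap, show T j - s + 1 = T j - (s - 1) by omega,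
    show T j - s - 1 = T j - (s + 1) by omega] at e
  show X (T j - (s + 1)) + X (T j - (s - 1)) =
    sl (sk j s) * X (T j - s) + ic (sk j s) (c (T j - s))
  linarith

lemma yv_congr {j : ℕ} {c c' : ℕ → ℕ} (h : ∀ s, 0 < s → s < T j → c s = c' s) :
    yv j c = yv j c' := by
  have h1 : Sol j c' (fw (fun s x => sl (sk j s) * x + ic (sk j s) (c s)) 0 0) := by
    intro s h0 hs
    rw [← h s h0 hs]
    exact lin_sol j c 0 0 s h0 hs
  have h2 := lin_end h1
  rw [lin_fw_zero, lin_fw_one, zero_mul, zero_mul, zero_add, zero_add] at h2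
  rw [yv, yv, h2]

lemma mem_Yset {j : ℕ} {y : ℝ} : y ∈ Yset j ↔ ∃ c, Adm j c ∧ y = yv j c := by
  classical
  unfold Yset
  rw [Finset.mem_image]
  constructor
  · rintro ⟨c, hc, rfl⟩
    refine ⟨_, fun s _ hs => ?_, rfl⟩
    have := Finset.mem_range.1 (Fintype.mem_piFinset.1 hc ⟨s, hs⟩)
    simp only [dif_pos hs]
    exact this
  · rintro ⟨c, hc, rfl⟩
    refine ⟨fun s => if (s : ℕ) = 0 then 0 else c s, Fintype.mem_piFinset.2 fun s => ?_, ?_⟩
    · rw [Finset.mem_range]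
      by_cases h0 : (s : ℕ) = 0
      · rw [if_pos h0]; positivity
      · rw [if_neg h0]; exact hc s (Nat.pos_of_ne_zero h0) s.2
    · refine yv_congr fun s h0 hs => ?_
      simp only [dif_pos hs, if_neg h0.ne']

end LinPart

section FormalPart

/-! Bounds for formal orbits. -/


open MeasureTheory Set Filter Topology

lemma formal_right {j s i i' : ℕ} {c : ℕ → ℕ} {X : ℕ → ℝ} (hX : Sol j c X) (hs : s < T j)
    (e : sk j s = some (i, i')) : ZR (fun r => X (s + r)) (m i') := by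
  obtain ⟨h1, h2, -⟩ := sk_right hs e
  intro r hr hr'
  have h := hX (s + r) (by omega) (by omega)
  rw [h2 r hr hr'] at h
  have e1 : s + (r - 1) = s + r - 1 := by omega
  simpa [sl, ic, e1, ← add_assoc] using h

lemma formal_left {j s i i' : ℕ} {c : ℕ → ℕ} {X : ℕ → ℝ} (hX : Sol j c X) (h0 : 0 < s)
    (hs : s < T j) (e : sk j s = some (i, i')) : ZR (fun r => X (s - r)) (m i) := by
  obtain ⟨h1, h2, -⟩ := sk_left h0 hs e
  intro r hr hr'
  have h := hX (s - r) (by omega) (by omega)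
  rw [h2 r hr hr'] at h
  have e1 : s - (r - 1) = s - r + 1 := by omega
  have e2 : s - (r + 1) = s - r - 1 := by omega
  simp only [sl, ic, add_zero] at h
  simp only [e1, e2]
  linarith

lemma formal_law {j s i i' : ℕ} {c : ℕ → ℕ} {X : ℕ → ℝ} (hX : Sol j c X) (h0 : 0 < s)
    (hs : s < T j) (e : sk j s = some (i, i')) :
    Af (m (min i i')) (1 / 2 - X s) - 8 * c s * uu (min i i') =
      (X (s + 1) - X s / lam) + (X (s - 1) - X s / lam) := by
  have h := hX s h0 hs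
  rw [e] at h
  simp only [sl, ic, Af] at h
  simp only [Af]
  linear_combination -h

lemma formal_shift {j s i i' : ℕ} {c : ℕ → ℕ} (hc : Adm j c) (h0 : 0 < s)
    (hs : s < T j) (e : sk j s = some (i, i')) :
    0 ≤ 8 * (c s : ℝ) * uu (min i i') ∧ 8 * (c s : ℝ) * uu (min i i') ≤ sc (m (min i i')) / 100 := by
  have h := hc s h0 hs
  rw [e] at h
  have hu := uu_pos (min i i')
  refine ⟨by positivity, ?_⟩
  by_cases hi : i = i'
  · subst hi
    simp only [bt, if_true] at h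
    rw [min_self]
    exact shift_le h
  · simp only [bt, if_neg hi, pow_zero, Nat.lt_one_iff] at h
    have := sc_pos (m (min i i'))
    rw [h]
    simp only [Nat.cast_zero, mul_zero, zero_mul]
    positivity

lemma formal_all {j : ℕ} {c : ℕ → ℕ} {X : ℕ → ℝ} (hc : Adm j c) (hX : Sol j c X)
    (h0 : |1 / 2 - X 0| ≤ 5 / 1024) (h1 : |1 / 2 - X (T j)| ≤ 5 / 1024) :
    ∀ s, s ≤ T j → (s = T j ∨ sk j s ≠ none) → |1 / 2 - X s| ≤ 5 / 1024 := by
  classical
  obtain ⟨s, hs, hM⟩ := Finset.exists_max_image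
    ((Finset.range (T j + 1)).filter fun s => s = T j ∨ sk j s ≠ none)
    (fun s => |1 / 2 - X s|) ⟨T j, by simp⟩
  have hM' : ∀ t, t ≤ T j → (t = T j ∨ sk j t ≠ none) → |1 / 2 - X t| ≤ |1 / 2 - X s| :=
    fun t ht ht' => hM t (Finset.mem_filter.2 ⟨Finset.mem_range.2 (by omega), ht'⟩)
  suffices h : |1 / 2 - X s| ≤ 5 / 1024 from fun t ht ht' => (hM' t ht ht').trans h
  obtain ⟨hs1, hs2⟩ := Finset.mem_filter.1 hs
  have hs3 := Finset.mem_range.1 hs1
  by_cases e0 : s = 0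
  · rw [e0]; exact h0
  by_cases e1 : s = T j
  · rw [e1]; exact h1
  have hs0 : 0 < s := Nat.pos_of_ne_zero e0
  have hsT : s < T j := by omega
  obtain ⟨⟨i, i'⟩, e⟩ := Option.ne_none_iff_exists'.1 (hs2.resolve_left e1)
  obtain ⟨r1, -, r3⟩ := sk_right hsT e
  obtain ⟨-, -, l3⟩ := sk_left hs0 hsT e
  obtain ⟨d0, d1⟩ := formal_shift hc hs0 hsT e
  have h := gap_apriori (X := fun r => X (s + r)) (X' := fun r => X (s - r))
    (k := m (min i i')) (D := |1 / 2 - X s|) (δ := 8 * (c s : ℝ) * uu (min i i')) (m_pos _)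
    (m_strictMono.monotone (min_le_right i i')) (m_strictMono.monotone (min_le_left i i'))
    (formal_right hX hsT e) (formal_left hX hs0 hsT e) rfl (by rwa [abs_of_nonneg d0])
    (formal_law hX hs0 hsT e) le_rfl
    (hM' _ r1 (by
      rcases r1.eq_or_lt with h | h
      · exact Or.inl h
      · exact Or.inr (r3 h)))
    (hM' _ (by omega) (Or.inr l3))
  simp only [add_zero] at h
  linarith

theorem formal {j : ℕ} {c : ℕ → ℕ} {X : ℕ → ℝ} (hc : Adm j c) (hX : Sol j c X)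
    (h0 : |1 / 2 - X 0| ≤ 5 / 1024) (h1 : |1 / 2 - X (T j)| ≤ 5 / 1024) :
    (∀ s, 0 < s → s < T j → sk j s = none → 0 ≤ X s ∧ av * X s ≤ 2) ∧
      (∀ s i i', 0 < s → s < T j → sk j s = some (i, i') → 1 / 2 - X s ∈ II (m (min i i')) ∧
        Bd (m i') (X (s + 1) - X s / lam) ∧ Bd (m i) (X (s - 1) - X s / lam)) ∧
      Bd (m j) (X 1 - X 0 / lam) := by
  have hall := formal_all hc hX h0 h1
  have hR : ∀ s i i', s < T j → sk j s = some (i, i') → Bd (m i') (X (s + 1) - X s / lam) ∧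
      ∀ r, 0 < r → r < m i' → 0 ≤ X (s + r) ∧ av * X (s + r) ≤ 2 := by
    intro s i i' hs e
    obtain ⟨r1, -, r3⟩ := sk_right hs e
    exact gap_band (m_pos _) (formal_right hX hs e) (hall s hs.le (Or.inr (by rw [e]; simp)))
      (hall _ r1 (by
        rcases r1.eq_or_lt with h | h
        · exact Or.inl h
        · exact Or.inr (r3 h)))
  refine ⟨fun s hs0 hs e => ?_, fun s i i' hs0 hs e => ?_, ?_⟩
  · obtain ⟨s₀, i, i', e0, a1, a2⟩ := sk_gap hs e
    have h := (hR s₀ i i' (by omega) e0).2 (s - s₀) (by omega) (by omega)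
    rwa [show s₀ + (s - s₀) = s by omega] at h
  · obtain ⟨-, -, l3⟩ := sk_left hs0 hs e
    have hb := (hR s i i' hs e).1
    have hb' : Bd (m i) (X (s - 1) - X s / lam) :=
      (gap_band (m_pos _) (formal_left hX hs0 hs e) (hall s hs.le (Or.inr (by rw [e]; simp)))
        (hall _ (by omega) (Or.inr l3))).1
    obtain ⟨d0, d1⟩ := formal_shift hc hs0 hs e
    exact ⟨mem_II_of_bands (by rw [m_strictMono.monotone.map_min, min_comm]) hb hb' d0 d1
      (formal_law hX hs0 hs e), hb, hb'⟩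
  · simpa using (hR 0 j j (T_pos j) (sk_zero j)).1

lemma band_Y {j : ℕ} {y a ω : ℝ} (hy : y ∈ Yset j) (ha : |a| ≤ 5 / 1024) (hω : |ω| ≤ 5 / 1024) :
    Bd (m j) (y + kap j * a + rho j * ω) := by
  obtain ⟨c, hc, rfl⟩ := mem_Yset.1 hy
  obtain ⟨X, hX, e0, e1⟩ := exists_sol j c a ω
  have h := (formal hc hX (by rwa [e0, sub_sub_cancel]) (by rwa [e1, sub_sub_cancel])).2.2
  rwa [hX.val, e0, e1, sub_sub_cancel, sub_sub_cancel] at h

/-- At a star, a formal orbit is on the designated branch of a wiggle. -/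
lemma formal_star {j s i : ℕ} {c : ℕ → ℕ} {X : ℕ → ℝ} (hc : Adm j c) (hX : Sol j c X)
    (h0 : |1 / 2 - X 0| ≤ 5 / 1024) (h1 : |1 / 2 - X (T j)| ≤ 5 / 1024) (hs : 0 < s)
    (hs' : s < T j) (e : sk j s = some (i, i)) : ∃ y ∈ Yset i, ∃ y' ∈ Yset i,
      |om i y (X (s - 1), X s)| ≤ de i ∧ |tt i y y' (X (s - 1), X s) - 8 * c s| ≤ 1 := by
  obtain ⟨-, hp, -⟩ := formal hc hX h0 h1
  obtain ⟨r1, r2, i1, r3, r4⟩ := sk_sub_right hs hs' e
  obtain ⟨l1, l2, i2, l3, l4⟩ := sk_sub_left hs hs' e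
  have hR : Sol i (fun r => c (s + r)) fun r => X (s + r) := by
    intro r hr hr'
    have h := hX (s + r) (by omega) (by omega)
    rw [r2 r hr hr'] at h
    have e1 : s + (r - 1) = s + r - 1 := by omega
    simpa only [e1, ← add_assoc] using h
  have hL : Sol i (fun r => c (s - r)) fun r => X (s - r) := by
    intro r hr hr'
    have h := hX (s - r) (by omega) (by omega)
    rw [l2 r hr hr', sl_swap, ic_swap] at h
    have e1 : s - (r - 1) = s - r + 1 := by omega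
    have e2 : s - (r + 1) = s - r - 1 := by omega
    simp only [e1, e2]
    linarith
  have aR : Adm i fun r => c (s + r) := by
    intro r hr hr'
    have h := hc (s + r) (by omega) (by omega)
    rwa [r2 r hr hr'] at h
  have aL : Adm i fun r => c (s - r) := by
    intro r hr hr'
    have h := hc (s - r) (by omega) (by omega)
    rwa [l2 r hr hr', bt_swap] at h
  have vR := hR.val
  have vL := hL.val
  simp only [add_zero, Nat.sub_zero] at vR vL
  have bR : |1 / 2 - X (s + T i)| ≤ de i := by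
    have h := (hp _ _ _ (by omega) r1 r4).1
    rw [min_eq_left r3] at h
    exact II_le_de le_rfl h
  have bL : |1 / 2 - X (s - T i)| ≤ de i := by
    have h := (hp _ _ _ (by omega) (by omega) l4).1
    rw [min_eq_right l3] at h
    exact II_le_de le_rfl h
  have law := formal_law hX hs hs' e
  rw [min_self] at law
  have hρ := rho_ne i
  have hu := uu_pos i
  refine ⟨_, mem_Yset.2 ⟨_, aL, rfl⟩, _, mem_Yset.2 ⟨_, aR, rfl⟩, ?_, ?_⟩
  · have : om i (yv i fun r => c (s - r)) (X (s - 1), X s) = 1 / 2 - X (s - T i) := by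
      rw [om, div_eq_iff hρ]
      linear_combination vL
    rwa [this]
  · have : tt i (yv i fun r => c (s - r)) (yv i fun r => c (s + r)) (X (s - 1), X s) - 8 * c s =
        rho i * ((1 / 2 - X (s - T i)) + (1 / 2 - X (s + T i))) / uu i := by
      rw [tt, eq_div_iff hu.ne', sub_mul, div_mul_cancel₀ _ hu.ne']
      linear_combination law + vL + vR
    rw [this, abs_div, abs_of_pos hu, div_le_one hu, abs_mul, uu]
    have h2 := (abs_add_le _ _).trans (add_le_add bL bR)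
    nlinarith [abs_nonneg (rho i)]

end FormalPart

section RegPart

/-! The regions carrying the wiggles. -/


open MeasureTheory Set Filter Topology

lemma reg_facts {j : ℕ} {y y' : ℝ} {p : ℝ × ℝ} (hj : 1 ≤ j) (h : p ∈ Rg j y y') :
    ∃ ω v : ℝ, |ω| ≤ de' j / 2 ∧ |v| ≤ de' j / 128 ∧
      p.1 - p.2 / lam = y + kap j * (1 / 2 - p.2) + rho j * ω ∧
      Af (m j) (1 / 2 - p.2) = y + y' + 2 * kap j * (1 / 2 - p.2) + rho j * v := by
  obtain ⟨h1, h2, h3⟩ := h
  have r0 := rho_ne j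
  have r1 : 0 < |rho j| := abs_pos.2 r0
  have u0 := uu_pos j
  have d0 := de'_pos j
  refine ⟨om j y p, uu j * tt j y y' p / rho j, h1, ?_, ?_, ?_⟩
  · have a1 := uu_le hj
    have a2 : ((1 : ℝ) / 2) ^ (j + 10) ≤ (1 / 2) ^ 11 :=
      pow_le_pow_of_le_one (by norm_num) (by norm_num) (by omega)
    have a3 : (1 : ℝ) ≤ 2 ^ be j := one_le_pow₀ (by norm_num)
    generalize (2 : ℝ) ^ be j = B at a1 a3 h3
    have a4 : B * uu j ≤ (1 / 2) ^ 11 * |rho j| * de' j := by rw [a1]; gcongr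
    have a5 : |tt j y y' p| ≤ 16 * B := abs_le.2 ⟨by linarith, h3⟩
    rw [abs_div, abs_mul, abs_of_pos u0, div_le_iff₀ r1]
    have a6 := mul_le_mul_of_nonneg_left a5 u0.le
    linarith
  · rw [om, mul_div_cancel₀ _ r0]; ring
  · rw [mul_div_cancel₀ _ r0, tt, mul_div_cancel₀ _ u0.ne']; ring

lemma Rg_loc {j : ℕ} {y y' : ℝ} {p : ℝ × ℝ} (hj : 1 ≤ j) (hy : y ∈ Yset j) (hy' : y' ∈ Yset j)
    (h : p ∈ Rg j y y') : 1 / 2 - p.2 ∈ II (m j) ∧ Bd (m j) (p.1 - p.2 / lam) ∧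
      Bd (m j) (Af (m j) (1 / 2 - p.2) - (p.1 - p.2 / lam)) := by
  obtain ⟨ω, v, h1, h2, h3, h4⟩ := reg_facts hj h
  generalize 1 / 2 - p.2 = a at h3 h4 ⊢
  have d1 := de'_le j
  have b1 := band_Y (a := 0) (ω := 0) hy (by norm_num) (by norm_num)
  have b2 := band_Y (a := 0) (ω := 0) hy' (by norm_num) (by norm_num)
  simp only [mul_zero, add_zero, Bd] at b1 b2
  have hk : 1 ≤ m j := m_pos j
  have S0 := sc_pos (m j)
  have c1 : |rho j * v| ≤ sc (m j) * (1 / 1000) := by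
    rw [abs_mul]; exact mul_le_mul (abs_rho j) (by linarith) (abs_nonneg _) S0.le
  have c2 : ∀ t, |t| ≤ 5 / 1024 → |kap j * t| ≤ sc (m j) / 100 * (5 / 1024) := fun t ht => by
    rw [abs_mul]; exact mul_le_mul (abs_kap j) ht (abs_nonneg _) (by positivity)
  rw [abs_le] at c1
  have ha : |a| ≤ 5 / 1024 := by
    have e1 := aa_pos (m j)
    have e2 := aa_le_one hk
    have e3 := ell_pos (m j)
    have e4 := sc_lt (Nat.lt_succ_self (m j))
    have e5 := sc_pos (m j + 1)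
    have e6 := sc_le_ss hk
    have e7 := abs_le.1 (abs_kap j)
    have e8 := abs_le.1 (c2 (aa (m j) + ell (m j) / 10) (abs_le.2 ⟨by linarith, by linarith⟩))
    obtain ⟨t, rfl⟩ : ∃ t, a = aa (m j) + ell (m j) / 10 + t := ⟨a - _, (add_sub_cancel _ _).symm⟩
    have e9 : (ss (m j) - 2 * kap j) * t = y + y' + 2 * (kap j * (aa (m j) + ell (m j) / 10)) +
        rho j * v - 3 * sc (m j + 1) := by
      unfold Af at h4
      linear_combination h4
    have f1 : |(ss (m j) - 2 * kap j) * t| ≤ 11 / 10 * sc (m j) := by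
      rw [e9]; exact abs_le.2 ⟨by linarith, by linarith⟩
    have f2 : 2000 * sc (m j) ≤ ss (m j) - 2 * kap j := by linarith
    rw [abs_mul, abs_of_nonneg (by linarith : 0 ≤ ss (m j) - 2 * kap j)] at f1
    have f3 : |t| ≤ 1 / 1024 := by
      by_contra hc
      have := mul_le_mul f2 (not_le.1 hc).le (by norm_num) (by linarith)
      linarith
    rw [abs_le] at f3
    exact abs_le.2 ⟨by linarith, by linarith⟩
  have c3 := abs_le.1 (c2 a ha)
  refine ⟨mem_II (by linarith) (by linarith), h3 ▸ band_Y hy ha (by linarith), ?_⟩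
  rw [show Af (m j) a - (p.1 - p.2 / lam) = y' + kap j * a + rho j * (v - ω) by
    rw [h3, h4]; ring]
  exact band_Y hy' ha ((abs_sub _ _).trans (by linarith))

lemma xi_ne {j : ℕ} {y y' : ℝ} {p : ℝ × ℝ} (h : xi j y y' p ≠ 0) : 1 ≤ j ∧ p ∈ Rg j y y' := by
  have h1 : chi (om j y p / de' j) ≠ 0 := fun e => h (by rw [xi, e]; ring)
  have h2 : DD (2 ^ be j - 1) (tt j y y' p) ≠ 0 := fun e => h (by rw [xi, e]; ring)
  have h3 := mt DD_out h2
  have h4 := mt chi_zero h1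
  have d0 := de'_pos j
  rw [not_or, not_le, not_le, Nat.cast_sub Nat.one_le_two_pow] at h3
  rw [not_le, abs_div, abs_of_pos d0, div_lt_iff₀ d0] at h4
  push_cast at h3
  refine ⟨Nat.pos_of_ne_zero ?_, by linarith, by linarith, by linarith⟩
  rintro rfl
  exact h2 (DD_zero _)

lemma Rg_disj {j : ℕ} {y y' z z' : ℝ} {p : ℝ × ℝ} (hS : Sep j) (hj : 1 ≤ j) (hy : y ∈ Yset j)
    (hy' : y' ∈ Yset j) (hz : z ∈ Yset j) (hz' : z' ∈ Yset j) (h : p ∈ Rg j y y')
    (h' : p ∈ Rg j z z') : y = z ∧ y' = z' := by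
  obtain ⟨ω, v, h1, h2, h3, h4⟩ := reg_facts hj h
  obtain ⟨ω', v', k1, k2, k3, k4⟩ := reg_facts hj h'
  have d0 := de'_pos j
  have key : ∀ s t : ℝ, |s| ≤ de' j → |t| ≤ de' j → |rho j * (s - t)| ≤ 2 * |rho j| * de' j :=
    fun s t hs ht => by
      rw [abs_mul, mul_comm 2, mul_assoc]
      exact mul_le_mul_of_nonneg_left ((abs_sub _ _).trans (by linarith)) (abs_nonneg _)
  obtain rfl : y = z := hS y hy z hz (by
    rw [show y - z = rho j * (ω' - ω) by linarith]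
    exact key _ _ (by linarith) (by linarith))
  exact ⟨rfl, hS y' hy' z' hz' (by
    rw [show y' - z' = rho j * (v' - v) by linarith]
    exact key _ _ (by linarith) (by linarith))⟩

lemma reg_uniq {j i : ℕ} {y y' z z' : ℝ} {p : ℝ × ℝ} (hS : Sep j) (hj : 1 ≤ j) (hy : y ∈ Yset j)
    (hy' : y' ∈ Yset j) (h : p ∈ Rg j y y') (hz : z ∈ Yset i) (hz' : z' ∈ Yset i)
    (h' : xi i z z' p ≠ 0) : j = i ∧ y = z ∧ y' = z' := by
  obtain ⟨hi, h1⟩ := xi_ne h'
  obtain rfl : j = i := m_strictMono.injective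
    (II_unique (m_pos j) (m_pos i) (Rg_loc hj hy hy' h).1 (Rg_loc hi hz hz' h1).1)
  exact ⟨rfl, Rg_disj hS hj hy hy' hz hz' h h1⟩

lemma Act.loc {p : ℝ × ℝ} (h : Act p) : ∃ j, 1 ≤ j ∧ 1 / 2 - p.2 ∈ II (m j) ∧
    Bd (m j) (p.1 - p.2 / lam) ∧ Bd (m j) (Af (m j) (1 / 2 - p.2) - (p.1 - p.2 / lam)) := by
  obtain ⟨j, y, hy, y', hy', h⟩ := h
  exact ⟨j, (xi_ne h).1, Rg_loc (xi_ne h).1 hy hy' (xi_ne h).2⟩

lemma Xi_eq_zero {p : ℝ × ℝ} (h : ¬ Act p) : Xi p = 0 := by
  have : ∀ j, Xj j p = 0 := fun j => Finset.sum_eq_zero fun y hy => by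
    by_contra hc
    exact h ⟨j, _, (Finset.mem_product.1 hy).1, _, (Finset.mem_product.1 hy).2, hc⟩
  simp only [Xi, this, tsum_zero]

/-- Outside the unit square, and away from the passages, nothing is active. -/
lemma not_act {p : ℝ × ℝ} (h : p.1 ≤ 0 ∨ 1 ≤ p.1 ∨ p.2 ≤ 1 / 2 - 4 / 1024 ∨ 1 / 2 ≤ p.2) :
    ¬ Act p := by
  intro hA
  obtain ⟨j, -, h1, ⟨h2, h3⟩, -⟩ := hA.loc
  obtain ⟨h4, h5⟩ := II_bound (m_pos j) h1
  have S0 := sc_pos (m j)
  have S1 : sc (m j) ≤ 1 := sc_one ▸ sc_anti (m_pos j)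
  have l1 : (2 : ℝ) ≤ lam := by norm_num [lam]
  have a1 : 0 ≤ p.2 / lam := div_nonneg (by linarith) (by linarith)
  have a2 : p.2 / lam ≤ 1 / 4 := by rw [div_le_iff₀ (by linarith)]; linarith
  rcases h with h | h | h | h <;> linarith

lemma Xi_eq {j : ℕ} {y y' : ℝ} {p : ℝ × ℝ} (hS : Sep j) (hj : 1 ≤ j) (hy : y ∈ Yset j)
    (hy' : y' ∈ Yset j) (h : p ∈ Rg j y y') : Xi p = xi j y y' p := by
  rw [Xi, tsum_eq_single j, Xj, Finset.sum_eq_single (y, y')]
  · intro z hz hne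
    by_contra hc
    obtain ⟨-, e1, e2⟩ := reg_uniq hS hj hy hy' h (Finset.mem_product.1 hz).1
      (Finset.mem_product.1 hz).2 hc
    exact hne (Prod.ext e1.symm e2.symm)
  · exact fun hn => absurd (Finset.mk_mem_product hy hy') hn
  · intro i hi
    refine Finset.sum_eq_zero fun z hz => ?_
    by_contra hc
    exact hi (reg_uniq hS hj hy hy' h (Finset.mem_product.1 hz).1
      (Finset.mem_product.1 hz).2 hc).1.symm

lemma not_act_of_Rg {j : ℕ} {y y' : ℝ} {p : ℝ × ℝ} (hS : Sep j) (hj : 1 ≤ j) (hy : y ∈ Yset j)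
    (hy' : y' ∈ Yset j) (h : p ∈ Rg j y y') (h0 : xi j y y' p = 0) : ¬ Act p := by
  rintro ⟨i, z, hz, z', hz', hc⟩
  obtain ⟨rfl, rfl, rfl⟩ := reg_uniq hS hj hy hy' h hz hz' hc
  exact hc h0

lemma sym_zero {p : ℝ × ℝ} (h : p.2 < 1 / 4) : sym p = (0, 0) := by
  rw [sym, if_pos h]

lemma sym_eq_zero {p : ℝ × ℝ} : sym p = (0, 0) ↔ p.2 < 1 / 4 := by
  refine ⟨fun h => ?_, sym_zero⟩
  by_contra hc
  rw [sym, if_neg hc] at h
  split_ifs at h
  · exact Nat.succ_ne_zero _ (congrArg Prod.fst h)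
  · exact Nat.succ_ne_zero _ (congrArg Prod.fst h)

lemma sym_base {p : ℝ × ℝ} (h : 1 / 4 ≤ p.2) (h' : ¬ Act p) : sym p = (1, 0) := by
  rw [sym, if_neg (not_lt.2 h), dif_neg]
  rintro ⟨a, y, hy, y', hy', hc, -⟩
  exact h' ⟨_, y, hy, y', hy', hc⟩

lemma sym_act {j : ℕ} {y y' : ℝ} {p : ℝ × ℝ} (hS : Sep j) (hy : y ∈ Yset j) (hy' : y' ∈ Yset j)
    (h : xi j y y' p ≠ 0) : sym p = (j + 1, ⌊(tt j y y' p + 2) / 4⌋₊) := by
  have h1 : ¬ p.2 < 1 / 4 := fun hc =>
    not_act (.inr (.inr (.inl (by linarith)))) ⟨j, y, hy, y', hy', h⟩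
  have h2 : ∃ a : ℕ × ℕ, p ∈ Cell a.1 a.2 := 
    ⟨(j, ⌊(tt j y y' p + 2) / 4⌋₊), y, hy, y', hy', h, rfl⟩
  rw [sym, if_neg h1, dif_pos h2]
  obtain ⟨z, hz, z', hz', hc, e⟩ := h2.choose_spec
  generalize h2.choose = a at hz hz' hc e ⊢
  obtain ⟨rfl, rfl, rfl⟩ := reg_uniq hS (xi_ne h).1 hy hy' (xi_ne h).2 hz hz' hc
  rw [e]

end RegPart

section ValidPart

/-! Formal orbits are true orbits. -/


open MeasureTheory Set Filter Topology

lemma valid_lam_pos : (0 : ℝ) < lam := by unfold lam; norm_num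

lemma valid_pass {k : ℕ} {v : ℝ} (hk : 1 ≤ k) (h : 1 / 2 - v ∈ II k) :
    GG v = 2 * v / lam + Af k (1 / 2 - v) := by
  have h1 := II_bound hk h
  rw [GG_pass (by linarith [h1.2]) (by linarith [h1.1]), gam_eq hk h]

lemma valid_of_sep {j : ℕ} (hS : ∀ i, i < j → Sep i) {c : ℕ → ℕ} {X : ℕ → ℝ} (hc : Adm j c)
    (hX : Sol j c X) (h0 : |1 / 2 - X 0| ≤ 5 / 1024) (h1 : |1 / 2 - X (T j)| ≤ 5 / 1024) {s : ℕ}
    (hs : 0 < s) (hs' : s < T j) :
    X (s + 1) + X (s - 1) = GG (X s) + Xi (X (s - 1), X s) ∧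
      sym (X (s - 1), X s) = code (sk j s) (c s) := by
  obtain ⟨f1, f2, -⟩ := formal hc hX h0 h1
  have e := hX s hs hs'
  have hn := hc s hs hs'
  rcases hk : sk j s with _ | ⟨i, i'⟩
  · obtain ⟨a1, a2⟩ := f1 s hs hs' hk
    have a3 : X s < 1 / 4 := by nlinarith [av_ge]
    rw [hk] at e
    have a4 : ¬ Act (X (s - 1), X s) := not_act (Or.inr (Or.inr (Or.inl (by
      show X s ≤ _; linarith))))
    refine ⟨?_, sym_zero a3⟩
    rw [e, GG_lin a1 a2, Xi_eq_zero a4]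
    simp [sl, ic]
  · obtain ⟨a1, a2, a3⟩ := f2 s i i' hs hs' hk
    have hm : 1 ≤ m (min i i') := m_pos _
    have hb := II_bound hm a1
    have hq : 1 / 4 ≤ X s := by linarith [hb.2]
    have hG := valid_pass hm a1
    rw [hk] at e hn
    have e' : X (s + 1) + X (s - 1) =
        2 * X s / lam + Af (m (min i i')) (1 / 2 - X s) - 8 * c s * uu (min i i') := by
      rw [e]; simp only [sl, ic, Af]; ring
    by_cases hi : i = i' ∧ 1 ≤ i
    · obtain ⟨rfl, hi⟩ := hi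
      rw [min_self] at e' hG
      have hl := (sk_level hs hs' hk).1
      rw [min_self] at hl
      obtain ⟨y, hy, y', hy', b1, b2⟩ := formal_star hc hX h0 h1 hs hs' hk
      have hn' : c s < 2 ^ be i := by simpa [bt] using hn
      have hn2 : (c s : ℝ) + 1 ≤ 2 ^ be i := by exact_mod_cast hn'
      have hd := de_le hi
      have hd0 := de_pos i
      have hd1 := de'_pos i
      have b3 := abs_le.1 b2
      have c0 : (0 : ℝ) ≤ c s := Nat.cast_nonneg _
      have hR : (X (s - 1), X s) ∈ Rg i y y' :=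
        ⟨by linarith, by linarith [b3.1], by linarith [b3.2]⟩
      have hx : xi i y y' (X (s - 1), X s) = -(8 * c s * uu i) := by
        unfold xi
        rw [chi_one, DD_up (n := c s) (by omega) (b2.trans (by norm_num))]
        · ring
        · rw [abs_div, abs_of_pos hd1, div_le_iff₀ hd1]; linarith
      refine ⟨by rw [e', hG, Xi_eq (hS i hl) hi hy hy' hR, hx]; ring, ?_⟩
      by_cases hz : c s = 0
      · rw [sym_base hq (not_act_of_Rg (hS i hl) hi hy hy' hR (by rw [hx, hz]; simp))]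
        simp [code, hz]
      · have hu := uu_pos i
        have c1 : (1 : ℝ) ≤ c s := by exact_mod_cast Nat.one_le_iff_ne_zero.2 hz
        rw [sym_act (hS i hl) hy hy' (by rw [hx]; nlinarith)]
        simp only [code, if_neg hz]
        congr 1
        rw [Nat.floor_eq_iff (by linarith [b3.1])]
        push_cast
        constructor <;> linarith [b3.1, b3.2]
    · have hz : c s = 0 := by
        by_cases h2 : i = i'
        · have : i = 0 := by omega
          subst h2; subst this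
          simpa [bt, be] using hn
        · simpa [bt, h2] using hn
      have ha : ¬ Act (X (s - 1), X s) := by
        intro ha
        obtain ⟨j', b0, b1, b2, b3⟩ := ha.loc
        have b4 : j' = min i i' := m_strictMono.injective (II_unique (m_pos _) hm b1 a1)
        subst b4
        have b5 : Af (m (min i i')) (1 / 2 - X s) - (X (s - 1) - X s / lam) =
            X (s + 1) - X s / lam := by
          rw [hz] at e'
          have : 2 * X s / lam = X s / lam + X s / lam := by ring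
          simp only [Nat.cast_zero, mul_zero, zero_mul, sub_zero] at e'
          linarith
        simp only [b5] at b3
        have b6 := m_strictMono.injective (Bd.unique b2 a3)
        have b7 := m_strictMono.injective (Bd.unique b3 a2)
        omega
      refine ⟨by rw [e', hG, Xi_eq_zero ha, hz]; simp, ?_⟩
      rw [sym_base hq ha]
      simp [code, hz]

theorem sep (j : ℕ) : Sep j := by
  induction j using Nat.strong_induction_on with
  | _ j ih =>
  intro y hy y' hy' h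
  obtain ⟨c, hc, rfl⟩ := mem_Yset.1 hy
  obtain ⟨c', hc', rfl⟩ := mem_Yset.1 hy'
  have hr := rho_ne j
  set ω := (yv j c' - yv j c) / (2 * rho j) with hω
  have hb : |ω| ≤ 5 / 1024 := by
    have h2 : 0 < |rho j| := abs_pos.2 hr
    rw [hω, abs_div, abs_mul, abs_two, div_le_iff₀ (by linarith), abs_sub_comm]
    nlinarith [de'_le j]
  obtain ⟨X, hX, x0, x1⟩ := exists_sol j c 0 ω
  obtain ⟨X', hX', x0', x1'⟩ := exists_sol j c' 0 (-ω)
  have b0 : |1 / 2 - X 0| ≤ 5 / 1024 := by rw [x0]; norm_num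
  have b0' : |1 / 2 - X' 0| ≤ 5 / 1024 := by rw [x0']; norm_num
  have b1 : |1 / 2 - X (T j)| ≤ 5 / 1024 := by rw [x1]; simpa using hb
  have b1' : |1 / 2 - X' (T j)| ≤ 5 / 1024 := by rw [x1']; simpa using hb
  have e0 : X 0 = X' 0 := by rw [x0, x0']
  have e1 : X 1 = X' 1 := by
    have v := hX.val
    have v' := hX'.val
    rw [x1] at v
    rw [x1', ← e0] at v'
    have : rho j * ω = (yv j c' - yv j c) / 2 := by rw [hω]; field_simp
    linarith
  have key : ∀ s, s < T j → X s = X' s ∧ X (s + 1) = X' (s + 1) := by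
    intro s
    induction s with
    | zero => exact fun _ => ⟨e0, e1⟩
    | succ s ihs =>
      intro hs
      obtain ⟨a1, a2⟩ := ihs (by omega)
      have v := (valid_of_sep ih hc hX b0 b1 (Nat.succ_pos s) hs).1
      have v' := (valid_of_sep ih hc' hX' b0' b1' (Nat.succ_pos s) hs).1
      simp only [Nat.succ_eq_add_one, Nat.add_sub_cancel] at v v'
      rw [← a1, ← a2] at v'
      exact ⟨a2, by linarith⟩
  refine yv_congr fun s hs hs' => code_inj (hc s hs hs') (hc' s hs hs') ?_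
  rw [← (valid_of_sep ih hc hX b0 b1 hs hs').2, ← (valid_of_sep ih hc' hX' b0' b1' hs hs').2,
    (key s hs').1, (key (s - 1) (by omega)).1]

theorem valid {j : ℕ} {c : ℕ → ℕ} {X : ℕ → ℝ} (hc : Adm j c)
    (hX : Sol j c X) (h0 : |1 / 2 - X 0| ≤ 5 / 1024) (h1 : |1 / 2 - X (T j)| ≤ 5 / 1024) {s : ℕ}
    (hs : 0 < s) (hs' : s < T j) :
    X (s + 1) + X (s - 1) = GG (X s) + Xi (X (s - 1), X s) ∧
      sym (X (s - 1), X s) = code (sk j s) (c s) :=
  valid_of_sep (fun i _ => sep i) hc hX h0 h1 hs hs'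

end ValidPart

end Pool.Agent.P.MP_1672e2_an.Cq
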