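import Pool.Agent.P.MP_1672e2_an.Cq.Stmt
import Pool.Agent.P.MP_1672e2_an.Cx.Obs

set_option autoImplicit false

namespace Pool.Agent.P.MP_1672e2_an.Cq

section FacPart

/-! Recurrence, mixing and factors. -/

open MeasureTheory Set Filter Topology

variable {X Y : Type} [MeasurableSpace X] [MeasurableSpace Y]

/-- Sets of positive measure come back at times that are not multiples of `p`. -/
def NP (S : X → X) (ν : Measure X) : Prop :=
  ∀ A, MeasurableSet A → ν A ≠ 0 → ∀ p : ℕ, 2 ≤ p → ∃ n : ℕ, ¬ p ∣ n ∧ ν (A ∩ S^[n] ⁻¹' A) ≠ 0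

/-- Mixing. -/
def Mix (S : X → X) (ν : Measure X) : Prop :=
  ∀ A, MeasurableSet A → Tendsto (fun n => ν.real (A ∩ S^[n] ⁻¹' A)) atTop (𝓝 (ν.real A ^ 2))

variable {S : X → X} {U : Y → Y} {ν : Measure X} {μ : Measure Y} {π : X → Y}

omit [MeasurableSpace Y] in
lemma ae_comm_iter (hS : MeasurePreserving S ν ν) (hc : ∀ᵐ x ∂ν, π (S x) = U (π x)) (n : ℕ) :
    ∀ᵐ x ∂ν, π (S^[n] x) = U^[n] (π x) := by
  induction n with
  | zero => exact Eventually.of_forall fun _ => rfl
  | succ n ih =>
    filter_upwards [ih, (hS.iterate n).quasiMeasurePreserving.ae hc] with x h1 h2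
    rw [Function.iterate_succ_apply', Function.iterate_succ_apply', h2, h1]

lemma factor_inter (hS : MeasurePreserving S ν ν) (hπ : MeasurePreserving π ν μ)
    (hU : Measurable U) (hc : ∀ᵐ x ∂ν, π (S x) = U (π x)) {A : Set Y} (hA : MeasurableSet A)
    (n : ℕ) : μ (A ∩ U^[n] ⁻¹' A) = ν (π ⁻¹' A ∩ S^[n] ⁻¹' (π ⁻¹' A)) := by
  rw [← hπ.measure_preimage (hA.inter (hU.iterate n hA)).nullMeasurableSet]
  refine measure_congr ?_
  filter_upwards [ae_comm_iter hS hc n] with x hx
  refine propext ?_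
  show π x ∈ A ∧ U^[n] (π x) ∈ A ↔ π x ∈ A ∧ π (S^[n] x) ∈ A
  rw [hx]

lemma NP.factor (h : NP S ν) (hS : MeasurePreserving S ν ν) (hπ : MeasurePreserving π ν μ)
    (hU : Measurable U) (hc : ∀ᵐ x ∂ν, π (S x) = U (π x)) : NP U μ := by
  intro A hA h0 p hp
  obtain ⟨n, h1, h2⟩ := h _ (hπ.measurable hA)
    (by rwa [hπ.measure_preimage hA.nullMeasurableSet]) p hp
  exact ⟨n, h1, by rwa [factor_inter hS hπ hU hc hA]⟩

lemma Mix.factor (h : Mix S ν) (hS : MeasurePreserving S ν ν) (hπ : MeasurePreserving π ν μ)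
    (hU : Measurable U) (hc : ∀ᵐ x ∂ν, π (S x) = U (π x)) : Mix U μ := by
  intro A hA
  have := h _ (hπ.measurable hA)
  simp only [Measure.real] at this ⊢
  rw [hπ.measure_preimage hA.nullMeasurableSet] at this
  simpa only [factor_inter hS hπ hU hc hA] using this

lemma inter_approx [IsProbabilityMeasure ν] (hS : MeasurePreserving S ν ν) {A C : Set X}
    (hA : MeasurableSet A) (hC : MeasurableSet C) (n : ℕ) :
    |ν.real (C ∩ S^[n] ⁻¹' C) - ν.real (A ∩ S^[n] ⁻¹' A)| ≤ 2 * ν.real (symmDiff C A) := by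
  have hm := hS.iterate n
  refine (abs_measureReal_sub_le_measureReal_symmDiff (hC.inter (hm.measurable hC)).nullMeasurableSet
    (hA.inter (hm.measurable hA)).nullMeasurableSet).trans ?_
  have h1 : symmDiff (C ∩ S^[n] ⁻¹' C) (A ∩ S^[n] ⁻¹' A) ⊆
      symmDiff C A ∪ S^[n] ⁻¹' symmDiff C A := by
    intro x hx
    simp only [mem_symmDiff, mem_inter_iff, mem_preimage, mem_union] at hx ⊢
    tauto
  have h2 : ν.real (S^[n] ⁻¹' symmDiff C A) = ν.real (symmDiff C A) := by
    rw [Measure.real, hm.measure_preimage (hC.symmDiff hA).nullMeasurableSet]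
    rfl
  have h3 := (measureReal_mono h1).trans (measureReal_union_le (μ := ν) _ _)
  linarith

/-- The only period is one. -/
lemma periods_one [IsProbabilityMeasure ν] (h : NP S ν) (hS : MeasurePreserving S ν ν) :
    IsGreatest (periods S ν) 1 := by
  refine ⟨⟨one_pos, fun _ => 1, memLp_const 1, fun h0 => ?_, Eventually.of_forall fun x => ?_⟩, ?_⟩
  · obtain ⟨x, hx⟩ := h0.exists
    exact one_ne_zero hx
  · rw [Nat.cast_one, div_one, Complex.exp_two_pi_mul_I, one_mul]
  rintro p ⟨hp0, g₀, hg₀, h0, he⟩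
  by_contra hp
  have hp2 : 2 ≤ p := by omega
  set lam : ℂ := Complex.exp (2 * Real.pi * Complex.I / p) with hlam
  have hprim : IsPrimitiveRoot lam p := Complex.isPrimitiveRoot_exp p hp0.ne'
  obtain ⟨g, hg, hgg⟩ : ∃ g : X → ℂ, Measurable g ∧ g₀ =ᵐ[ν] g :=
    ⟨_, hg₀.1.aemeasurable.measurable_mk, hg₀.1.aemeasurable.ae_eq_mk⟩
  have he' : ∀ᵐ x ∂ν, g (S x) = (fun z => lam * z) (g x) := by
    filter_upwards [he, hgg, hS.quasiMeasurePreserving.ae hgg] with x h1 h2 h3
    rw [← h2, ← h3, h1]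
  have hn : ∀ n : ℕ, ∀ᵐ x ∂ν, g (S^[n] x) = lam ^ n * g x := fun n => by
    filter_upwards [ae_comm_iter hS he' n] with x hx
    rw [hx, mul_left_iterate]
  obtain ⟨η, hη, hη'⟩ : ∃ η : ℝ, 0 < η ∧ ∀ n : ℕ, ¬ p ∣ n → η ≤ ‖lam ^ n - 1‖ := by
    have hne : (Finset.Ico 1 p).Nonempty := ⟨1, Finset.mem_Ico.2 ⟨le_rfl, hp2⟩⟩
    obtain ⟨r, hr, hmin⟩ := (Finset.Ico 1 p).exists_min_image (fun r => ‖lam ^ r - 1‖) hne
    rw [Finset.mem_Ico] at hr
    refine ⟨‖lam ^ r - 1‖, norm_pos_iff.2 (sub_ne_zero.2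
      (hprim.pow_ne_one_of_pos_of_lt (by omega) hr.2)), fun n hn => ?_⟩
    have h1 : lam ^ n = lam ^ (n % p) := by
      conv_lhs => rw [← Nat.div_add_mod n p, pow_add, pow_mul, hprim.pow_eq_one, one_pow, one_mul]
    rw [h1]
    exact hmin _ (Finset.mem_Ico.2 ⟨Nat.pos_of_ne_zero fun h => hn (Nat.dvd_of_mod_eq_zero h),
      Nat.mod_lt _ hp0⟩)
  have hη2 : η ≤ 2 := by
    refine (hη' 1 (by rw [Nat.dvd_one]; omega)).trans ((norm_sub_le _ _).trans ?_)
    rw [pow_one, hprim.norm'_eq_one hp0.ne', norm_one]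
    norm_num
  refine h0 (hgg.trans ?_)
  have key : (ν.map g) {0}ᶜ = 0 := by
    refine measure_null_of_locally_null _ fun z hz => ?_
    have hz0 : 0 < ‖z‖ := norm_pos_iff.2 hz
    refine ⟨Metric.ball z (η / 8 * ‖z‖),
      mem_nhdsWithin_of_mem_nhds (Metric.ball_mem_nhds z (by positivity)), ?_⟩
    rw [Measure.map_apply hg measurableSet_ball]
    by_contra hpos
    obtain ⟨n, h1, h2⟩ := h _ (hg measurableSet_ball) hpos p hp2
    refine h2 (measure_mono_null (fun x hx => ?_) (ae_iff.1 (hn n)))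
    intro h3
    have h4 : ‖g x - z‖ < η / 8 * ‖z‖ := mem_ball_iff_norm.1 hx.1
    have h5 : ‖g (S^[n] x) - z‖ < η / 8 * ‖z‖ := mem_ball_iff_norm.1 hx.2
    have h6 : ‖lam ^ n - 1‖ * ‖g x‖ ≤ ‖g (S^[n] x) - z‖ + ‖g x - z‖ := by
      rw [← norm_mul, show (lam ^ n - 1) * g x = (g (S^[n] x) - z) - (g x - z) by rw [h3]; ring]
      exact norm_sub_le _ _
    have h7 : ‖z‖ ≤ ‖g x‖ + ‖g x - z‖ := by
      calc ‖z‖ = ‖g x - (g x - z)‖ := by rw [sub_sub_cancel]
        _ ≤ _ := norm_sub_le _ _
    have h8 := mul_le_mul_of_nonneg_right (hη' n h1) (norm_nonneg (g x))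
    have h9 : ‖z‖ / 2 ≤ ‖g x‖ := by nlinarith
    nlinarith
  rw [Measure.map_apply hg (measurableSet_singleton 0).compl] at key
  exact key

end FacPart

section BerPart

/-! Bernoulli shifts. -/

open MeasureTheory Set Filter Topology ProbabilityTheory

variable {A : Type} [MeasurableSpace A] (q : Measure A) [IsProbabilityMeasure q]

lemma ber_mp : MeasurePreserving (sh : (ℤ → A) → ℤ → A) (Measure.infinitePi fun _ : ℤ => q)
    (Measure.infinitePi fun _ : ℤ => q) :=
  ⟨measurable_sh, Measure.map_infinitePi_infinitePi_of_inj (P := fun _ : ℤ => q)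
    (f := fun n : ℤ => n + 1) (add_left_injective 1)⟩

lemma ber_cyl {I : Finset ℤ} {B : Set (I → A)} (hB : MeasurableSet B) : ∀ᶠ n : ℕ in atTop,
    (Measure.infinitePi fun _ : ℤ => q).real
      (cylinder I B ∩ (sh : (ℤ → A) → ℤ → A)^[n] ⁻¹' cylinder I B) =
      (Measure.infinitePi fun _ : ℤ => q).real (cylinder I B) ^ 2 := by
  classical
  obtain ⟨k, hk⟩ : ∃ k : ℕ, ∀ i ∈ I, i.natAbs ≤ k :=
    ⟨I.sup Int.natAbs, fun i hi => Finset.le_sup (f := Int.natAbs) hi⟩
  refine eventually_atTop.2 ⟨2 * k + 1, fun n hn => ?_⟩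
  set J : Finset ℤ := I.image fun i : ℤ => i + (n : ℤ) with hJ
  have hIJ : Disjoint I J := by
    rw [Finset.disjoint_left]
    intro i h1 h2
    obtain ⟨i', h3, h4⟩ := Finset.mem_image.1 h2
    have := hk i h1
    have := hk i' h3
    omega
  let ρ : (J → A) → I → A := fun u i => u ⟨(i : ℤ) + (n : ℤ), Finset.mem_image_of_mem _ i.2⟩
  have hρ : Measurable ρ := measurable_pi_lambda _ fun i => measurable_pi_apply _
  have e : (sh : (ℤ → A) → ℤ → A)^[n] ⁻¹' cylinder I B =
      (fun (a : ℤ → A) (i : J) => a i) ⁻¹' (ρ ⁻¹' B) := by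
    ext a
    have : I.restrict ((sh : (ℤ → A) → ℤ → A)^[n] a) = ρ fun i : J => a i :=
      funext fun i => Cx.skew_iter n a i
    simp only [mem_preimage, mem_cylinder, this]
  have h0 : iIndepFun (fun (i : ℤ) (ω : ℤ → A) => ω i) (Measure.infinitePi fun _ : ℤ => q) :=
    iIndepFun_infinitePi (P := fun _ : ℤ => q) (X := fun _ ω => ω) fun _ => measurable_id
  have h1 := (h0.indepFun_finset I J hIJ fun i =>
    measurable_pi_apply i).measure_inter_preimage_eq_mul B (ρ ⁻¹' B) hB (hρ hB)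
  have h2 := ((ber_mp q).iterate n).measure_preimage
    (MeasurableSet.cylinder (α := fun _ : ℤ => A) I hB).nullMeasurableSet
  rw [← e, h2] at h1
  rw [Measure.real, Measure.real, sq, ← ENNReal.toReal_mul]
  exact congrArg ENNReal.toReal h1

lemma ber_mix : Mix (sh : (ℤ → A) → ℤ → A) (Measure.infinitePi fun _ : ℤ => q) := by
  intro E hE
  set P := Measure.infinitePi fun _ : ℤ => q with hP
  rw [Metric.tendsto_nhds]
  intro ε hε
  obtain ⟨C, hC, hCE⟩ := exists_measure_symmDiff_lt_of_generateFrom_isSetRing (μ := P)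
    isSetRing_measurableCylinders ⟨{univ}, countable_singleton _, by
      rintro _ rfl
      exact univ_mem_measurableCylinders _, by simp⟩ generateFrom_measurableCylinders.symm hE
    (ENNReal.ofReal_pos.2 (show 0 < ε / 5 by positivity))
  have h1 : P.real (symmDiff C E) ≤ ε / 5 :=
    ENNReal.toReal_le_of_le_ofReal (by positivity) hCE.le
  have hCm : MeasurableSet C := MeasurableSet.of_mem_measurableCylinders hC
  obtain ⟨I, B, hB, rfl⟩ := (mem_measurableCylinders _).1 hC
  filter_upwards [ber_cyl q hB] with n hn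
  have h2 := inter_approx (ber_mp q) hE hCm n
  have h3 := abs_measureReal_sub_le_measureReal_symmDiff (μ := P) hCm.nullMeasurableSet
    hE.nullMeasurableSet
  rw [hn] at h2
  have h4 : P.real (cylinder I B) ≤ 1 := measureReal_le_one
  have h5 : P.real E ≤ 1 := measureReal_le_one
  have h6 : 0 ≤ P.real (cylinder I B) := measureReal_nonneg
  have h7 : 0 ≤ P.real E := measureReal_nonneg
  rw [Real.dist_eq]
  rw [← hP] at h2
  rw [abs_le] at h2 h3
  rw [abs_lt]
  constructor <;> nlinarith [h2.1, h2.2, h3.1, h3.2]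

variable {X : Type} [MeasurableSpace X] {f : X → X} {μ : Measure X}

theorem not_bernoulli (hf : MeasurePreserving f μ μ) (h1 : NP f μ) (h2 : ¬ Mix f μ) :
    ¬ PeriodicBernoulli f μ := by
  rintro ⟨p, hp, A, _, q, hq, φ, ψ, hφ, hψ, a1, a2, a3⟩
  have : NeZero p := ⟨hp.ne'⟩
  have hu : IsProbabilityMeasure (uniformOn (univ : Set (ZMod p))) :=
    isProbabilityMeasure_uniformOn finite_univ univ_nonempty
  rcases Nat.lt_or_ge p 2 with h | h
  · obtain rfl : p = 1 := by omega
    have e : uniformOn (univ : Set (ZMod 1)) = Measure.dirac 0 := by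
      ext s _
      rcases s.eq_empty_or_nonempty with rfl | hs
      · simp
      · rw [Subsingleton.eq_univ_of_nonempty hs, measure_univ, measure_univ]
    have hι : MeasurePreserving (fun x : ℤ → A => (x, (0 : ZMod 1)))
        (Measure.infinitePi fun _ : ℤ => q)
        ((Measure.infinitePi fun _ : ℤ => q).prod (uniformOn univ)) :=
      ⟨measurable_prodMk_right, by rw [e, Measure.prod_dirac]⟩
    refine h2 ((ber_mix q).factor (ber_mp q) (hψ.comp hι) hf.measurable ?_)
    have b1 := hψ.quasiMeasurePreserving.ae a3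
    have b2 := (hf.comp hψ).quasiMeasurePreserving.ae a1
    filter_upwards [hι.quasiMeasurePreserving.ae a2, hι.quasiMeasurePreserving.ae b1,
      hι.quasiMeasurePreserving.ae b2] with x c1 c2 c3
    simp only [Function.comp_apply] at c3 ⊢
    rw [← c3, c2, c1]
    exact congrArg ψ (Prod.ext rfl (Subsingleton.elim _ _))
  · have hs : MeasurableSet (Prod.snd ⁻¹' {0} : Set ((ℤ → A) × ZMod p)) :=
      measurable_snd (measurableSet_singleton 0)
    obtain ⟨n, hn, h3⟩ := h1 _ (hφ.measurable hs) (by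
      rw [hφ.measure_preimage hs.nullMeasurableSet, (measurePreserving_snd).measure_preimage
        (measurableSet_singleton 0).nullMeasurableSet, Ne,
        uniformOn_eq_zero_iff finite_univ]
      simp) p h
    have a4 : ∀ᵐ x ∂μ, (fun x => (φ x).2) (f x) = (fun z => z + 1) ((fun x => (φ x).2) x) := by
      filter_upwards [a3] with x hx
      exact congrArg Prod.snd hx
    refine h3 (measure_mono_null (fun x hx => ?_) (ae_iff.1 (ae_comm_iter
      (π := fun x => (φ x).2) (U := fun z => z + 1) hf a4 n)))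
    intro h4
    have h5 : (φ x).2 = 0 := hx.1
    have h6 : (φ (f^[n] x)).2 = 0 := hx.2
    simp only [h5, h6, add_right_iterate_apply, zero_add, nsmul_eq_mul, mul_one] at h4
    exact hn ((ZMod.natCast_eq_zero_iff n p).1 h4.symm)

end BerPart

section KsPart

/-! The entropy. -/

open MeasureTheory Set Filter Topology

variable {X : Type} [MeasurableSpace X] {f : X → X} {μ : Measure X}

lemma joint_le {ι κ : Type} [Fintype ι] [Fintype κ] (p : ι → κ → ℝ) (hp : ∀ i j, 0 ≤ p i j)
    (h1 : ∑ i, ∑ j, p i j = 1) : ∑ i, ∑ j, Real.negMulLog (p i j) ≤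
      ∑ i, Real.negMulLog (∑ j, p i j) + ∑ j, Real.negMulLog (∑ i, p i j) := by
  set a : ι → ℝ := fun i => ∑ j, p i j with ha
  set b : κ → ℝ := fun j => ∑ i, p i j with hb
  have hb1 : ∑ j, b j = 1 := by rw [← h1, Finset.sum_comm]
  have key : ∀ i j, Real.negMulLog (p i j) ≤
      -(p i j * Real.log (a i)) - p i j * Real.log (b j) + (a i * b j - p i j) := by
    intro i j
    have h2 : p i j ≤ a i := Finset.single_le_sum (fun j _ => hp i j) (Finset.mem_univ j)
    have h3 : p i j ≤ b j := Finset.single_le_sum (fun i _ => hp i j) (Finset.mem_univ i)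
    rcases (hp i j).eq_or_lt with h0 | h0
    · rw [← h0] at h2 h3 ⊢
      simpa using mul_nonneg h2 h3
    · have h4 : 0 < a i := h0.trans_le h2
      have h5 : 0 < b j := h0.trans_le h3
      have h6 := Real.log_le_sub_one_of_pos (div_pos (mul_pos h4 h5) h0)
      rw [Real.log_div (mul_pos h4 h5).ne' h0.ne', Real.log_mul h4.ne' h5.ne'] at h6
      have h7 := mul_le_mul_of_nonneg_left h6 h0.le
      have h8 : p i j * (a i * b j / p i j - 1) = a i * b j - p i j := by field_simp
      rw [h8] at h7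
      unfold Real.negMulLog
      nlinarith
  refine (Finset.sum_le_sum fun i _ => Finset.sum_le_sum fun j _ => key i j).trans (le_of_eq ?_)
  simp only [Finset.sum_add_distrib, Finset.sum_sub_distrib, Finset.sum_neg_distrib,
    ← Finset.sum_mul, ← Finset.mul_sum, hb1, mul_one, h1]
  rw [Finset.sum_comm (f := fun i j => p i j * Real.log (b j))]
  simp only [← Finset.sum_mul, Real.negMulLog, neg_mul, Finset.sum_neg_distrib]
  have h2 : ∑ i, ∑ j, p i j = 1 := h1
  rw [h2, sub_self, add_zero, sub_eq_add_neg]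

/-- The name of length `n`. -/
def nameOf (f : X → X) {k : ℕ} (P : X → Fin k) (n : ℕ) (x : X) : Fin n → Fin k :=
  fun i => P (f^[(i : ℕ)] x)

lemma measurable_nameOf (hf : Measurable f) {k : ℕ} {P : X → Fin k} (hP : Measurable P) (n : ℕ) :
    Measurable (nameOf f P n) :=
  measurable_pi_lambda _ fun i => hP.comp (hf.iterate i)

lemma nameEntropy_eq {k : ℕ} (P : X → Fin k) (n : ℕ) :
    nameEntropy f μ P n = ∑ w, Real.negMulLog (μ.real (nameOf f P n ⁻¹' {w})) := by
  refine Finset.sum_congr rfl fun w _ => ?_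
  congr 2
  ext x
  simp [nameOf, funext_iff]

lemma sum_inter [IsProbabilityMeasure μ] {ι : Type} [Fintype ι] [MeasurableSpace ι]
    [MeasurableSingletonClass ι] {g : X → ι} (hg : Measurable g) {A : Set X}
    (hA : MeasurableSet A) : ∑ w, μ.real (A ∩ g ⁻¹' {w}) = μ.real A := by
  have h := sum_measureReal_preimage_singleton (μ := μ.restrict A) Finset.univ (f := g)
    fun w _ => hg (measurableSet_singleton w)
  simp only [Finset.coe_univ, preimage_univ, measureReal_restrict_apply' hA, univ_inter] at h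
  simpa only [inter_comm] using h

lemma subadd [IsProbabilityMeasure μ] (hf : MeasurePreserving f μ μ) {k : ℕ} {P : X → Fin k}
    (hP : Measurable P) : Subadditive (nameEntropy f μ P) := by
  intro a b
  have h1 := measurable_nameOf hf.measurable hP a
  have h2 := (measurable_nameOf hf.measurable hP b).comp (hf.measurable.iterate a)
  have h := joint_le (fun u v => μ.real (nameOf f P a ⁻¹' {u} ∩ (nameOf f P b ∘ f^[a]) ⁻¹' {v}))
    (fun _ _ => measureReal_nonneg) (by
      simp only [sum_inter h2 (h1 (measurableSet_singleton _))]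
      have := sum_inter (μ := μ) h1 MeasurableSet.univ
      simpa using this)
  have e1 : ∀ u, ∑ v, μ.real (nameOf f P a ⁻¹' {u} ∩ (nameOf f P b ∘ f^[a]) ⁻¹' {v}) =
      μ.real (nameOf f P a ⁻¹' {u}) := fun u => sum_inter h2 (h1 (measurableSet_singleton _))
  have e2 : ∀ v, ∑ u, μ.real (nameOf f P a ⁻¹' {u} ∩ (nameOf f P b ∘ f^[a]) ⁻¹' {v}) =
      μ.real (nameOf f P b ⁻¹' {v}) := fun v => by
    simp only [inter_comm (nameOf f P a ⁻¹' _)]
    rw [sum_inter h1 (h2 (measurableSet_singleton _)), preimage_comp, Measure.real,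
      (hf.iterate a).measure_preimage
        (measurable_nameOf hf.measurable hP b (measurableSet_singleton _)).nullMeasurableSet]
    rfl
  simp only [e1, e2] at h
  rw [nameEntropy_eq, nameEntropy_eq, nameEntropy_eq]
  refine le_trans (le_of_eq ?_) h
  rw [← Fintype.sum_prod_type', ← (Fin.appendEquiv a b).sum_comp]
  refine Finset.sum_congr rfl fun w _ => ?_
  congr 2
  ext x
  simp only [mem_preimage, mem_singleton_iff, mem_inter_iff, Function.comp_apply, funext_iff,
    Fin.forall_fin_add, Fin.appendEquiv_apply, Fin.append_left, Fin.append_right, nameOf,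
    Fin.val_castAdd, Fin.val_natAdd, ← Function.iterate_add_apply, add_comm a]

lemma ks_le [IsProbabilityMeasure μ] (hf : MeasurePreserving f μ μ) {h : ℝ}
    (H : ∀ c, Cx.Ent f μ c → c ≤ h) : ksEntropy f μ ≤ h := by
  refine iSup_le fun k => iSup₂_le fun P hP => ?_
  have hs := subadd hf hP
  have hb : BddBelow (range fun n : ℕ => nameEntropy f μ P n / n) := by
    refine ⟨0, ?_⟩
    rintro _ ⟨n, rfl⟩
    exact div_nonneg (Finset.sum_nonneg fun w _ =>
      Real.negMulLog_nonneg measureReal_nonneg measureReal_le_one) (Nat.cast_nonneg n)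
  refine ((continuous_coe_real_ereal.tendsto _).comp (hs.tendsto_lim hb)).limsup_eq.trans_le ?_
  rw [EReal.coe_le_coe_iff]
  refine H _ (Cx.Ent.of_fun P (fun i => hP (measurableSet_singleton i)) fun n hn => ?_)
  exact (le_div_iff₀ (by exact_mod_cast hn)).1 (hs.lim_le_div hb hn.ne')

lemma le_ks {c : ℝ} (h : Cx.Ent f μ c) : (c : EReal) ≤ ksEntropy f μ := by
  obtain ⟨k, P, hP, hd, hu, hn⟩ := h
  have hex : ∀ x, ∃ i, x ∈ P i := fun x => mem_iUnion.1 (hu ▸ mem_univ x)
  choose Q hQ using hex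
  have hQP : ∀ x i, Q x = i ↔ x ∈ P i := fun x i =>
    ⟨fun h => h ▸ hQ x, fun hx => by
      by_contra hne
      exact Set.disjoint_left.1 (hd _ _ hne) (hQ x) hx⟩
  have hm : Measurable Q := measurable_to_countable' fun i => by
    rw [show Q ⁻¹' {i} = P i from Set.ext fun x => hQP x i]
    exact hP i
  refine le_iSup_of_le k (le_iSup₂_of_le Q hm (le_limsup_of_frequently_le (Eventually.frequently ?_)))
  filter_upwards [eventually_gt_atTop 0] with n h0
  rw [EReal.coe_le_coe_iff, le_div_iff₀ (by exact_mod_cast h0)]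
  refine (hn n h0).trans_eq (Finset.sum_congr rfl fun w _ => ?_)
  congr 3
  ext x
  simp [hQP]

/-- Positive entropy implies positive topological entropy. -/
theorem coverEntropy_pos {M : Type} [MetricSpace M] [CompactSpace M] [MeasurableSpace M]
    [BorelSpace M] {μ : Measure M} [IsProbabilityMeasure μ] {T : M → M}
    (hT : MeasurePreserving T μ μ) (h : PE T μ) : 0 < Dynamics.coverEntropy T univ := by
  by_contra h0
  refine not_PE_of_cover hT (fun δ ε θ hδ hε hθ n₀ => ?_) h
  have hU := Metric.dist_mem_uniformity (α := M) (half_pos hδ)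
  have h1 := ((Dynamics.coverEntropyEntourage_le_coverEntropy T univ hU).trans
    (not_lt.1 h0)).trans_lt (show (0 : EReal) < (ε : ℝ) by exact_mod_cast hε)
  obtain ⟨n, h2, h3⟩ := ((ExpGrowth.eventually_le_exp h1).and (eventually_ge_atTop n₀)).exists
  obtain ⟨s, h4, h5⟩ := (Dynamics.coverMincard_finite_iff T univ _ n).1
    (Dynamics.coverMincard_finite_of_isCompact_invariant isCompact_univ (mapsTo_univ T _) hU n)
  refine ⟨n, h3, s, fun j => {y | ∀ i < n, dist (T^[i] y) (T^[i] j) < δ / 2}, ?_, fun j _ => ?_,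
    ?_, fun j _ y hy y' hy' i hi => ?_⟩
  · rw [← h5, ← EReal.coe_natCast, ← EReal.coe_mul, EReal.exp_coe] at h2
    have h6 : ((s.card : ℕ) : ENNReal) ≤ ENNReal.ofReal (Real.exp (ε * n)) := by simpa using h2
    have := ENNReal.toReal_le_of_le_ofReal (Real.exp_pos _).le h6
    simpa using this
  · simp only [ofPred_forall]
    exact MeasurableSet.iInter fun i => MeasurableSet.iInter fun _ =>
      measurableSet_lt ((hT.measurable.iterate i).dist measurable_const) measurable_const
  · have : (⋃ j ∈ s, {y | ∀ i < n, dist (T^[i] y) (T^[i] j) < δ / 2}) = univ := by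
      refine eq_univ_of_forall fun y => ?_
      obtain ⟨j, hj, h6⟩ := h4 (mem_univ y)
      exact mem_iUnion₂.2 ⟨j, hj, Dynamics.mem_dynEntourage.1 h6⟩
    rw [this, compl_univ, measureReal_empty]
    exact hθ.le
  · linarith [dist_triangle_right (T^[i] y) (T^[i] y') (T^[i] j), hy i hi, hy' i hi]

end KsPart

end Pool.Agent.P.MP_1672e2_an.Cq
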