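import Pool.Agent.P.MP_1672e2_an.Cq.RankM

set_option autoImplicit false

namespace Pool.Agent.P.MP_1672e2_an.Cq

section RkEPart

/-! The rank one system: invariance, ergodicity, rigidity. -/

open MeasureTheory Set Filter Topology

lemma meas_lev (j r : ℕ) : MeasurableSet {g | ps j g = r} := measurableSet_ps j {r}

lemma pre_level {j r : ℕ} (hr : r + 1 < T j) :
    RR ⁻¹' {g | ps j g = r + 1} = {g | ps j g = r} :=
  Set.ext fun g => ps_succ_iff hr g

lemma mu_pre_level {j r : ℕ} (hr : r < T j) :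
    muR.real (RR ⁻¹' {g | ps j g = r}) = muR.real {g | ps j g = r} := by
  classical
  set F : Finset ℕ := (Finset.range (T (j + 1))).filter fun q => dn j q = r with hF
  have hm := m_pos (j + 1)
  have e : {g | ps j g = r} = ps (j + 1) ⁻¹' ↑F := by
    ext g
    simp only [hF, mem_ofPred_eq, mem_preimage, Finset.coe_filter, Finset.mem_range]
    rw [ps_dn j g]
    refine ⟨fun h => ⟨?_, h⟩, fun h => h.2⟩
    obtain ⟨P, -, -, h2, h3⟩ := dn_lt (j := j) (s := ps (j + 1) g) (by omega)
    omega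
  have h1 := sum_measureReal_preimage_singleton (μ := muR) F (f := ps (j + 1))
    fun q _ => measurableSet_ps _ _
  have h2 := sum_measureReal_preimage_singleton (μ := muR) F (f := ps (j + 1) ∘ RR)
    fun q _ => measurable_RR (measurableSet_ps _ _)
  rw [e, ← h1, ← preimage_comp, ← h2]
  refine Finset.sum_congr rfl fun q hq => ?_
  rw [hF, Finset.mem_filter, Finset.mem_range] at hq
  obtain ⟨P, -, h3, -, h4⟩ := dn_lt (j := j) (s := q) (by omega)
  obtain ⟨q', rfl⟩ : ∃ q', q = q' + 1 := ⟨q - 1, by omega⟩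
  have h5 : (ps (j + 1) ∘ RR) ⁻¹' {q' + 1} = {g | ps (j + 1) g = q'} := pre_level hq.1
  rw [h5, mu_level (by omega)]
  exact (mu_level hq.1).symm

lemma rk_mp : MeasurePreserving RR muR muR := by
  refine ⟨measurable_RR, ?_⟩
  have : IsProbabilityMeasure (muR.map RR) :=
    Measure.isProbabilityMeasure_map measurable_RR.aemeasurable
  have hl : ∀ j r, r < T j → (muR.map RR).real {g | ps j g = r} = ww j := fun j r hr => by
    rw [Measure.real, Measure.map_apply measurable_RR (meas_lev j r), ← mu_level hr,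
      ← mu_pre_level hr]
    rfl
  refine ext_of_generate_finite rkC rk_gen (fun s hs t ht _ => rk_ring.inter_mem hs ht) ?_
    (by simp)
  rintro _ ⟨j, S, rfl⟩
  have key : (muR.map RR).map (ps j) = muR.map (ps j) := by
    refine Measure.ext_of_singleton fun r => ?_
    rw [Measure.map_apply (measurable_ps j) (measurableSet_singleton r),
      Measure.map_apply (measurable_ps j) (measurableSet_singleton r),
      ← ENNReal.toReal_eq_toReal_iff' (measure_ne_top _ _) (measure_ne_top _ _)]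
    rcases lt_trichotomy r (T j) with h | rfl | h
    · exact (hl j r h).trans (mu_level h).symm
    · exact (real_top (measurable_ps j) (ps_le j) (hl j)).trans
        (real_top (measurable_ps j) (ps_le j) fun r hr => mu_level hr).symm
    · have e : ps j ⁻¹' {r} = ∅ := by
        refine eq_empty_of_forall_notMem fun g hg => ?_
        have h1 : ps j g = r := hg
        have := ps_le j g
        omega
      rw [e, measure_empty, measure_empty]
  rw [← Measure.map_apply (measurable_ps j) MeasurableSpace.measurableSet_top, key,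
    Measure.map_apply (measurable_ps j) MeasurableSpace.measurableSet_top]

lemma rk_pre {E : Set Rk} (hE : MeasurableSet E) (n : ℕ) :
    muR.real (RR^[n] ⁻¹' E) = muR.real E := by
  rw [Measure.real, (rk_mp.iterate n).measure_preimage hE.nullMeasurableSet]
  rfl

lemma sum_levels_le {A : Set Rk} (hA : MeasurableSet A) (j : ℕ) :
    ∑ r ∈ Finset.range (T j), muR.real (A ∩ {g | ps j g = r}) ≤ muR.real A := by
  rw [← measureReal_biUnion_finset (fun r _ r' _ hr => ?_) fun r _ => hA.inter (meas_lev j r)]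
  · exact measureReal_mono (iUnion₂_subset fun r _ => inter_subset_left)
  · exact Set.disjoint_left.2 fun g h1 h2 => hr (h1.2.symm.trans h2.2)

lemma le_sum_levels (A : Set Rk) (j : ℕ) :
    muR.real A ≤ ∑ r ∈ Finset.range (T j), muR.real (A ∩ {g | ps j g = r}) + (1 / 2) ^ (j + 1) := by
  have h1 : A ⊆ (⋃ r ∈ Finset.range (T j), A ∩ {g | ps j g = r}) ∪ {g | ps j g = T j} := by
    intro g hg
    rcases (ps_le j g).lt_or_eq with h | h
    · exact Or.inl (mem_iUnion₂.2 ⟨ps j g, Finset.mem_range.2 h, hg, rfl⟩)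
    · exact Or.inr h
  exact (measureReal_mono h1).trans ((measureReal_union_le _ _).trans
    (add_le_add (measureReal_biUnion_finset_le _ _) (mu_top j)))

lemma inv_levels {E : Set Rk} (hE : MeasurableSet E) (hi : RR ⁻¹' E = E) {j r : ℕ} (hr : r < T j) :
    muR.real (E ∩ {g | ps j g = r}) = muR.real (E ∩ {g | ps j g = 0}) := by
  induction r with
  | zero => rfl
  | succ r ih =>
    rw [← ih (by omega), ← rk_pre (hE.inter (meas_lev j (r + 1))) 1, Function.iterate_one,
      preimage_inter, hi, pre_level hr]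

lemma inv_small {E : Set Rk} (hE : MeasurableSet E) (hi : RR ⁻¹' E = E) {j r : ℕ} (hr : r < T j)
    {A : Set Rk} (hA : MeasurableSet A) (h : ∀ r', r' < T j →
      muR.real (E ∩ {g | ps j g = r}) ≤ muR.real (A ∩ {g | ps j g = r'})) :
    muR.real E ≤ muR.real A + (1 / 2) ^ (j + 1) := by
  refine (le_sum_levels E j).trans (add_le_add_left (le_trans ?_ (sum_levels_le hA j)) _)
  refine Finset.sum_le_sum fun r' hr' => ?_
  rw [inv_levels hE hi (Finset.mem_range.1 hr'), ← inv_levels hE hi hr]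
  exact h r' (Finset.mem_range.1 hr')

lemma rk_erg : Ergodic RR muR := by
  refine ⟨rk_mp, ⟨fun E hE hi => ?_⟩⟩
  have hi' : RR ⁻¹' Eᶜ = Eᶜ := by rw [preimage_compl, hi]
  have key : ∀ ε : ℝ, 0 < ε → min (muR.real E) (muR.real Eᶜ) ≤ 0 + ε := by
    intro ε hε
    obtain ⟨J, hJ⟩ := rk_approx muR hE (half_pos hε)
    obtain ⟨k, hk⟩ := exists_pow_lt_of_lt_one (half_pos hε) (by norm_num : (1 / 2 : ℝ) < 1)
    obtain ⟨S, hS⟩ := hJ (J + k) (by omega)
    set j := J + k
    have h1 : ((1 : ℝ) / 2) ^ (j + 1) ≤ (1 / 2) ^ k :=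
      pow_le_pow_of_le_one (by norm_num) (by norm_num) (by omega)
    have hA : MeasurableSet (symmDiff (ps j ⁻¹' S) E) := (measurableSet_ps j S).symmDiff hE
    have hin : ∀ r, r ∈ S → muR.real (Eᶜ ∩ {g | ps j g = r}) ≤
        muR.real (symmDiff (ps j ⁻¹' S) E ∩ {g | ps j g = r}) := fun r hr =>
      measureReal_mono fun g hg => ⟨Or.inl ⟨by rw [mem_preimage, hg.2]; exact hr, hg.1⟩, hg.2⟩
    have hout : ∀ r, r ∉ S → muR.real (E ∩ {g | ps j g = r}) ≤
        muR.real (symmDiff (ps j ⁻¹' S) E ∩ {g | ps j g = r}) := fun r hr =>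
      measureReal_mono fun g hg => ⟨Or.inr ⟨hg.1, by rw [mem_preimage, hg.2]; exact hr⟩, hg.2⟩
    rcases le_total (muR.real (E ∩ {g | ps j g = 0})) (muR.real (Eᶜ ∩ {g | ps j g = 0})) with h | h
    · have := inv_small hE hi (T_pos j) hA fun r hr => by
        by_cases hS : r ∈ S
        · exact (h.trans (inv_levels hE.compl hi' hr).ge).trans (hin r hS)
        · exact (inv_levels hE hi hr).ge.trans (hout r hS)
      exact (min_le_left _ _).trans (by linarith)
    · have := inv_small hE.compl hi' (T_pos j) hA fun r hr => by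
        by_cases hS : r ∈ S
        · exact (inv_levels hE.compl hi' hr).ge.trans (hin r hS)
        · exact (h.trans (inv_levels hE hi hr).ge).trans (hout r hS)
      exact (min_le_right _ _).trans (by linarith)
  have h0 := le_of_forall_pos_le_add key
  rw [eventuallyConst_set', ae_eq_empty, ae_eq_univ]
  rcases min_le_iff.1 h0 with h | h
  · exact Or.inl ((measureReal_eq_zero_iff (measure_ne_top _ _)).1
      (le_antisymm h measureReal_nonneg))
  · exact Or.inr ((measureReal_eq_zero_iff (measure_ne_top _ _)).1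
      (le_antisymm h measureReal_nonneg))

lemma rig_pt {j : ℕ} {g : Rk} (h : ps j g < T j)
    (h' : ps (j + 1) g + T j + m (j + 1) < T (j + 1)) : ps j (RR^[T j] g) = ps j g := by
  rw [ps_dn j g] at h
  obtain ⟨P, hd, h1, h2, e⟩ := dn_lt h
  rw [ps_dn j (RR^[T j] g), ps_iter (by omega), ps_dn j g]
  have := dn_mid (gr_add hd h1) (by omega) (by omega) h
  rwa [show P + T j + dn j (ps (j + 1) g) = ps (j + 1) g + T j by omega] at this

lemma rig_bad (j : ℕ) : muR.real {g | ps j (RR^[T j] g) ≠ ps j g} ≤ (1 / 2) ^ j := by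
  set F := Finset.Ico (T (j + 1) - 2 * m (j + 1)) (T (j + 1)) with hF
  have h8 := m_le_T' j
  have h64 := T_le_m j
  have h1 : {g | ps j (RR^[T j] g) ≠ ps j g} ⊆ {g | ps j g = T j} ∪ ps (j + 1) ⁻¹' ↑F := by
    intro g hg
    rcases (ps_le j g).lt_or_eq with h | h
    · right
      have h2 : ¬ ps (j + 1) g + T j + m (j + 1) < T (j + 1) := fun h' => hg (rig_pt h h')
      rw [ps_dn j g] at h
      obtain ⟨P, -, -, h3, e⟩ := dn_lt h
      rw [mem_preimage, hF, Finset.coe_Ico, mem_Ico]
      omega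
    · exact Or.inl h
  have h2 : muR.real (ps (j + 1) ⁻¹' ↑F) = 2 * m (j + 1) * ww (j + 1) := by
    rw [← sum_measureReal_preimage_singleton F fun q _ => measurableSet_ps _ _]
    refine (Finset.sum_congr (g := fun _ => ww (j + 1)) rfl fun q hq =>
      mu_level (Finset.mem_Ico.1 hq).2).trans ?_
    rw [Finset.sum_const, Nat.card_Ico, nsmul_eq_mul,
      show T (j + 1) - (T (j + 1) - 2 * m (j + 1)) = 2 * m (j + 1) by omega]
    push_cast
    rfl
  have h3 : 2 * m (j + 1) * ww (j + 1) ≤ (1 / 2) ^ (j + 1) := by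
    linarith [ww_step j, ww_le (j + 1), ww_ge j]
  have h4 := (measureReal_mono h1).trans (measureReal_union_le (μ := muR) _ _)
  have h5 : ((1 : ℝ) / 2) ^ j = 2 * (1 / 2) ^ (j + 1) := by ring
  linarith [mu_top j]

/-- Rigidity along the heights of the towers. -/
theorem rk_rigid {E : Set Rk} (hE : MeasurableSet E) {ε : ℝ} (hε : 0 < ε) :
    ∀ᶠ j in atTop, muR.real E - ε ≤ muR.real (E ∩ RR^[T j] ⁻¹' E) := by
  obtain ⟨J, hJ⟩ := rk_approx muR hE (show 0 < ε / 3 by positivity)
  obtain ⟨k, hk⟩ := exists_pow_lt_of_lt_one (show 0 < ε / 3 by positivity)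
    (by norm_num : (1 / 2 : ℝ) < 1)
  refine eventually_atTop.2 ⟨J + k, fun j hj => ?_⟩
  obtain ⟨S, hS⟩ := hJ j (by omega)
  have h1 : ((1 : ℝ) / 2) ^ j ≤ (1 / 2) ^ k :=
    pow_le_pow_of_le_one (by norm_num) (by norm_num) (by omega)
  have hA : MeasurableSet (symmDiff (ps j ⁻¹' S) E) := (measurableSet_ps j S).symmDiff hE
  have h2 : E ⊆ (E ∩ RR^[T j] ⁻¹' E) ∪ (symmDiff (ps j ⁻¹' S) E ∪
      ({g | ps j (RR^[T j] g) ≠ ps j g} ∪ RR^[T j] ⁻¹' symmDiff (ps j ⁻¹' S) E)) := by
    intro g hg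
    by_cases a : RR^[T j] g ∈ E
    · exact Or.inl ⟨hg, a⟩
    right
    by_cases b : ps j g ∈ S
    · right
      by_cases c : ps j (RR^[T j] g) = ps j g
      · exact Or.inr (Or.inl ⟨by rw [mem_preimage, c]; exact b, a⟩)
      · exact Or.inl c
    · exact Or.inl (Or.inr ⟨hg, b⟩)
  have h3 := (measureReal_mono h2).trans ((measureReal_union_le (μ := muR) _ _).trans
    (add_le_add_right ((measureReal_union_le _ _).trans
      (add_le_add_right (measureReal_union_le _ _) _)) _))
  rw [rk_pre hA] at h3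
  linarith [rig_bad j]

end RkEPart

section RkTPart

/-! Types along the rank one system. -/

open MeasureTheory Set Filter Topology

lemma gd_mono {J J' : ℕ} (hJ : J ≤ J') {g : Rk} (hg : gd ps J g) : gd ps J' g :=
  fun j hj => hg j (lt_of_le_of_lt hJ hj)

lemma gd_mod {J : ℕ} {g : Rk} (hg : gd ps J g) :
    ps J g = (ps (J + 1) g - m (J + 1)) % T J := by
  obtain ⟨h1, h2⟩ := hg (J + 1) (Nat.lt_succ_self J)
  rw [ps_dn, dn_in h1.le (by omega)]

lemma gd_lt {J : ℕ} {g : Rk} (hg : gd ps J g) : ps J g < T J := by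
  rw [gd_mod hg]
  exact Nat.mod_lt _ (T_pos J)

lemma sk_eq {J J' : ℕ} (hJ : J ≤ J') {g : Rk} (hg : gd ps J g) :
    sk J' (ps J' g) = sk J (ps J g) := by
  induction J', hJ using Nat.le_induction with
  | base => rfl
  | succ k hk ih =>
    obtain ⟨h1, h2⟩ := hg (k + 1) (Nat.lt_succ_of_le hk)
    rw [← ih, sk, if_neg (by omega), if_neg (by omega), if_neg (by omega), if_pos h2,
      ← gd_mod (gd_mono hk hg)]

lemma ty_eq {J : ℕ} {g : Rk} (hg : gd ps J g) : ty ps g = sk J (ps J g) := by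
  classical
  have hex : ∃ J, gd ps J g := ⟨J, hg⟩
  unfold ty
  rw [dif_pos hex]
  exact (sk_eq (Nat.find_min' hex hg) (Nat.find_spec hex)).symm

lemma measurableSet_gd (J : ℕ) : MeasurableSet {g | gd ps J g} := by
  have e : {g | gd ps J g} = ⋂ j, ps j ⁻¹' {s | J < j → m j < s ∧ s < T j - m j} := by
    ext g
    simp [gd]
  rw [e]
  exact MeasurableSet.iInter fun j => measurableSet_ps j _

lemma measurableSet_ty (a : Ty) : MeasurableSet {g | ty ps g = a} := by
  have e : {g | ty ps g = a} = (⋃ J, {g | gd ps J g} ∩ ps J ⁻¹' {s | sk J s = a}) ∪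
      ((⋃ J, {g | gd ps J g})ᶜ ∩ {_g | none = a}) := by
    ext g
    by_cases hex : ∃ J, gd ps J g
    · obtain ⟨J, hJ⟩ := hex
      constructor
      · intro hg
        refine Or.inl (mem_iUnion.2 ⟨J, hJ, ?_⟩)
        show sk J (ps J g) = a
        rw [← ty_eq hJ]
        exact hg
      · rintro (hg | hg)
        · obtain ⟨J', h1, h2⟩ := mem_iUnion.1 hg
          show ty ps g = a
          rw [ty_eq h1]
          exact h2
        · exact absurd (mem_iUnion.2 ⟨J, hJ⟩) hg.1
    · have e0 : ty ps g = none := by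
        unfold ty
        rw [dif_neg hex]
      constructor
      · intro hg
        refine Or.inr ⟨fun hh => ?_, ?_⟩
        · obtain ⟨J, hJ⟩ := mem_iUnion.1 hh
          exact hex ⟨J, hJ⟩
        · show none = a
          rw [← e0]
          exact hg
      · rintro (hg | hg)
        · obtain ⟨J', h1, _⟩ := mem_iUnion.1 hg
          exact absurd ⟨J', h1⟩ hex
        · show ty ps g = a
          rw [e0]
          exact hg.2
  rw [e]
  refine MeasurableSet.union (MeasurableSet.iUnion fun J => (measurableSet_gd J).inter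
    (measurableSet_ps J _)) ?_
  exact (MeasurableSet.iUnion fun J => measurableSet_gd J).compl.inter (MeasurableSet.const _)

/-- The block of level `J` around a point, seen in the higher towers. -/
lemma ps_off {J : ℕ} {g : Rk} (hg : ps J g < T J) {j : ℕ} (hj : J + 1 ≤ j) :
    ∃ P, ps j g = P + ps J g ∧ m j ≤ P ∧ P + T J + m j ≤ T j ∧
      (J + 1 < j → m j < P ∧ P + T J + m j < T j) := by
  induction j, hj using Nat.le_induction with
  | base =>
    rw [ps_dn] at hg
    obtain ⟨P, -, h1, h2, e⟩ := dn_lt hg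
    rw [← ps_dn] at e
    exact ⟨P, e, h1, by omega, fun h => by omega⟩
  | succ k hk ih =>
    obtain ⟨P, e, h1, h2, -⟩ := ih
    have hm := m_pos k
    have h3 : dn k (ps (k + 1) g) < T k := by rw [← ps_dn]; omega
    obtain ⟨P', -, h4, h5, e'⟩ := dn_lt h3
    rw [← ps_dn] at e'
    exact ⟨P' + P, by omega, by omega, by omega, fun _ => ⟨by omega, by omega⟩⟩

lemma gd_of_pos {J : ℕ} {g : Rk} (h0 : 0 < ps J g) (hg : ps J g < T J) : gd ps J g := by
  intro j hj
  obtain ⟨P, e, h1, h2, -⟩ := ps_off hg hj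
  omega

lemma gd_of_lt {J : ℕ} {g : Rk} (hg : ps J g < T J) : gd ps (J + 1) g := by
  obtain ⟨P, e, h1, h2, -⟩ := ps_off hg le_rfl
  have := m_pos (J + 1)
  exact gd_of_pos (by omega) (by omega)

lemma block_end {J : ℕ} {g : Rk} (hg : ps J g < T J) {s : ℕ} (hs : s = 0 ∨ s = T J) :
    ty ps (zp RR (-(ps J g : ℤ) + s) g) ≠ none := by
  have hg' := hg
  rw [ps_dn] at hg'
  obtain ⟨P, hd, h1, h2, e⟩ := dn_lt hg'
  rw [← ps_dn] at e
  have hm := m_pos (J + 1)
  have h3 := ps_zp (j := J + 1) (t := -(ps J g : ℤ) + s) (g := g) (by omega) (by omega) (by omega)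
  have h4 : ps (J + 1) (zp RR (-(ps J g : ℤ) + s) g) = P + s := by omega
  rw [ty_eq (J := J + 1) (gd_of_pos (by omega) (by omega)), h4]
  rcases hs with rfl | rfl
  · rw [add_zero, sk_grid hd h1 (by omega)]
    exact Option.some_ne_none _
  · rw [sk_grid (gr_add hd h1) (by omega) (by omega)]
    exact Option.some_ne_none _

lemma block_mid {J : ℕ} {g : Rk} (hg : ps J g < T J) {s : ℕ} (h0 : 0 < s) (hs : s < T J) :
    ty ps (zp RR (-(ps J g : ℤ) + s) g) = sk J s := by
  have h3 := ps_zp (j := J) (t := -(ps J g : ℤ) + s) (g := g) hg (by omega) (by omega)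
  have h4 : ps J (zp RR (-(ps J g : ℤ) + s) g) = s := by omega
  rw [ty_eq (J := J) (gd_of_pos (by omega) (by omega)), h4]

lemma rk_des {J : ℕ} {g : Rk} (hg : gd ps J g) {c : ℤ → ℕ}
    (hc : ∀ t, c t < 2 ^ bt (ty ps (zp RR t g))) :
    Des fun t => code (ty ps (zp RR t g)) (c t) := by
  refine ⟨fun t => ty ps (zp RR t g), c, fun _ => rfl, fun n => ?_⟩
  have hJ : J < max J n + 1 := Nat.lt_succ_of_le (le_max_left _ _)
  have hn : n < max J n + 1 := Nat.lt_succ_of_le (le_max_right _ _)
  obtain ⟨h1, h2⟩ := hg _ hJ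
  have h3 := lt_m (max J n + 1)
  have h4 := gd_lt (gd_mono hJ.le hg)
  have b1 := block_end h4 (Or.inl rfl)
  rw [Nat.cast_zero, add_zero] at b1
  refine ⟨max J n + 1, -(ps (max J n + 1) g : ℤ), by omega, by omega, b1,
    block_end h4 (Or.inr rfl), fun s h0 hs => ⟨block_mid h4 h0 hs, ?_⟩⟩
  rw [← block_mid h4 h0 hs]
  exact hc _

lemma ae_gd : ∀ᵐ g ∂muR, ∃ J, gd ps J g := by
  rw [ae_iff, ← measureReal_eq_zero_iff (measure_ne_top _ _)]
  refine le_antisymm (le_of_forall_pos_le_add fun ε hε => ?_) measureReal_nonneg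
  obtain ⟨k, hk⟩ := exists_pow_lt_of_lt_one hε (by norm_num : (1 / 2 : ℝ) < 1)
  have h1 : {g | ¬ ∃ J, gd ps J g} ⊆ {g | ps k g = T k} := fun g hg =>
    le_antisymm (ps_le k g) (not_lt.1 fun h => hg ⟨_, gd_of_lt h⟩)
  have h2 := (measureReal_mono h1).trans (mu_top k)
  have h3 : ((1 : ℝ) / 2) ^ (k + 1) ≤ (1 / 2) ^ k :=
    pow_le_pow_of_le_one (by norm_num) (by norm_num) (by omega)
  linarith

lemma real_gd {J r : ℕ} (h0 : 0 < r) (hr : r < T J) :
    (1 - (1 / 2) ^ (J + 1)) / T J ≤ muR.real {g | gd ps J g ∧ ps J g = r} := by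
  have e : {g | gd ps J g ∧ ps J g = r} = {g | ps J g = r} :=
    Set.ext fun g => ⟨fun h => h.2, fun h => by
      have h' : ps J g = r := h
      exact ⟨gd_of_pos (by omega) (by omega), h'⟩⟩
  rw [e, mu_level hr, div_le_iff₀ (fnum_T_cast J), mul_comm]
  exact ww_ge J

/-- The set of the times of type `none` is neither null nor conull. -/
lemma ty_none : 0 < muR.real {g | ty ps g = none} ∧ muR.real {g | ty ps g = none} < 1 := by
  have h8 := m_le_T' 0
  have h64 := T_le_m 0
  have hT := T_pos 0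
  have h1 : {g | ps (0 + 1) g = 1} ⊆ {g | ty ps g = none} := fun g hg => by
    have h : ps (0 + 1) g = 1 := hg
    show ty ps g = none
    rw [ty_eq (J := 0 + 1) (gd_of_pos (by omega) (by omega)), h]
    exact sk_none one_pos (Or.inl (by omega))
  have h2 : {g | ps (0 + 1) g = m (0 + 1)} ⊆ {g | ty ps g = none}ᶜ := fun g hg => by
    have h : ps (0 + 1) g = m (0 + 1) := hg
    show ¬ ty ps g = none
    rw [ty_eq (J := 0 + 1) (gd_of_pos (by omega) (by omega)), h,
      sk_grid (gr_self 0) le_rfl (by omega)]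
    exact Option.some_ne_none _
  have h3 := measureReal_mono (μ := muR) h1
  have h4 := measureReal_mono (μ := muR) h2
  rw [mu_level (by omega)] at h3 h4
  rw [probReal_compl_eq_one_sub (measurableSet_ty none)] at h4
  have := ww_pos (0 + 1)
  constructor <;> linarith

end RkTPart

end Pool.Agent.P.MP_1672e2_an.Cq
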