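import Pool.Agent.P.MP_1672e2_an.Cq.Tor
import Pool.Agent.P.MP_1672e2_an.Cq.RankE
import Pool.Agent.P.MP_1672e2_an.Cq.Mix

set_option autoImplicit false

namespace Pool.Agent.P.MP_1672e2_an.Cq

section UpKPart

/-! Upper bound for the entropy. -/


open MeasureTheory Set Filter Topology

lemma upk_iter (i : ℕ) (y : Om) (t : ℤ) : (sh^[i] y) t = y (t + i) := by
  induction i generalizing t with
  | zero => simp
  | succ i ih =>
    rw [Function.iterate_succ_apply', sh_apply, ih]
    congr 1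
    push_cast
    ring

lemma upk_meas (J : ℕ) (t : ℤ) : MeasurableSet {y : Om | J + 1 < (y t).1} :=
  measurableSet_lt measurable_const (measurable_fst.comp (measurable_pi_apply t))

lemma upk_eq {ν : Measure Om} (hν : MeasurePreserving sh ν ν) (J i : ℕ) :
    ν.real {y : Om | J + 1 < (y (i : ℤ)).1} = ν.real {y : Om | J + 1 < (y 0).1} := by
  have h1 : {y : Om | J + 1 < (y (i : ℤ)).1} = sh^[i] ⁻¹' {y : Om | J + 1 < (y 0).1} := by
    ext y
    simp only [mem_ofPred_eq, mem_preimage, upk_iter, zero_add]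
  rw [h1, Measure.real, Measure.real,
    (hν.iterate i).measure_preimage (upk_meas J 0).nullMeasurableSet]

lemma upk_gap {y : Om} (hy : Lang y) {J i k : ℕ} (hik : i < k) (hk : k < m (J + 1))
    (h1 : J + 1 < (y (i : ℤ)).1) : ¬ J + 1 < (y (k : ℤ)).1 := by
  rcases hy i with h | h | ⟨j, n, c, -, -, h, -, h'⟩
  · rw [h] at h1; simp at h1
  · rw [h] at h1; simp at h1
  · rw [h] at h1
    have hj : J + 1 ≤ j := by simp only at h1; omega
    have hm : m (J + 1) ≤ m j := m_strictMono.monotone hj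
    have hT := m_le_T j
    have h2 := (sk_right (T_pos j) (sk_zero j)).2.1 (k - i) (by omega) (by omega)
    have h3 := h' (k - i) (by omega) (by omega)
    rw [zero_add] at h2
    have h4 : (i : ℤ) + ((k - i : ℕ) : ℤ) = k := by omega
    rw [h2, h4] at h3
    rw [h3]
    simp [code]

lemma rare {ν : Measure Om} [IsProbabilityMeasure ν] (hν : MeasurePreserving sh ν ν)
    (hL : ∀ᵐ y ∂ν, Lang y) (J : ℕ) : ν.real {y | J + 1 < (y 0).1} ≤ 1 / m (J + 1) := by
  have hM : (0 : ℝ) < m (J + 1) := by exact_mod_cast m_pos (J + 1)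
  have hd : Set.Pairwise (↑(Finset.range (m (J + 1))) : Set ℕ)
      (Function.onFun (AEDisjoint ν) fun i : ℕ => {y : Om | J + 1 < (y (i : ℤ)).1}) := by
    intro i hi k hk hik
    have hi' : i < m (J + 1) := by simpa using hi
    have hk' : k < m (J + 1) := by simpa using hk
    refine measure_mono_null (t := {y | ¬ Lang y}) ?_ (ae_iff.1 hL)
    rintro y ⟨h1, h2⟩ hy
    rcases lt_or_gt_of_ne hik with h | h
    · exact upk_gap hy h hk' h1 h2
    · exact upk_gap hy h hi' h2 h1
  have h1 := measureReal_biUnion_finset₀ hd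
    (fun i _ => (upk_meas J (i : ℤ)).nullMeasurableSet) (fun _ _ => measure_ne_top _ _)
  simp only [upk_eq hν, Finset.sum_const, Finset.card_range, nsmul_eq_mul] at h1
  have h2 : ν.real (⋃ i ∈ Finset.range (m (J + 1)), {y : Om | J + 1 < (y (i : ℤ)).1}) ≤ 1 :=
    measureReal_le_one
  rw [le_div_iff₀ hM]
  linarith

theorem ent_le_hh {ν : Measure Om} [IsProbabilityMeasure ν] (hν : MeasurePreserving sh ν ν)
    (hL : ∀ᵐ y ∂ν, Lang y) {c : ℝ} (hc : Ent sh ν c) : c ≤ hh := by
  refine Cx.ent_le_of_words hν hh_pos.le (fun ε hε n₀ => ?_) hc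
  obtain ⟨J₀, hJ₀⟩ := exists_pow_lt_of_lt_one hε (by norm_num : (1 / 2 : ℝ) < 1)
  obtain ⟨J, hJ1, hJn, hJ⟩ : ∃ J : ℕ, 1 ≤ J ∧ n₀ ≤ J ∧ (1 / 2 : ℝ) ^ J ≤ ε :=
    ⟨J₀ + n₀ + 1, by omega, by omega,
      (pow_le_pow_of_le_one (by norm_num) (by norm_num) (by omega)).trans hJ₀.le⟩
  have hT := T_pos J
  have hT' : (0 : ℝ) < T J := by exact_mod_cast hT
  obtain ⟨S, hS, hS'⟩ := count J (2 ^ (J + 3) * T J)
  refine ⟨2 ^ (J + 3) * T J, ?_, S, hS.trans ?_, ?_⟩
  · have h1 : J + 3 < 2 ^ (J + 3) := Nat.lt_two_pow_self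
    have h2 : 2 ^ (J + 3) ≤ 2 ^ (J + 3) * T J := Nat.le_mul_of_pos_right _ hT
    omega
  · have hl0 : 0 < Real.log 2 := Real.log_pos (by norm_num)
    have hl1 : Real.log 2 ≤ 1 := by
      have := Real.log_le_sub_one_of_pos (by norm_num : (0 : ℝ) < 2)
      linarith
    rw [← Real.rpow_natCast, ← Real.rpow_add (by norm_num), Real.rpow_def_of_pos (by norm_num)]
    refine Real.exp_le_exp.2 ?_
    have hp : pJ J = (FF J : ℝ) / T J + (1 / 2) ^ (J + 2) := by
      rw [pJ, if_neg (by omega)]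
    have h1 := le_hh J
    set N : ℝ := ((2 ^ (J + 3) * T J : ℕ) : ℝ) with hN
    have hN0 : 0 ≤ N := Nat.cast_nonneg _
    have h2 : ((4 * T J : ℕ) : ℝ) = (1 / 2) ^ (J + 1) * N := by
      rw [hN]
      push_cast
      rw [one_div, inv_pow]
      field_simp
      ring
    have h3 : (1 / 2 : ℝ) ^ (J + 1) + (1 / 2) ^ (J + 2) ≤ ε := by
      have h4 : (0 : ℝ) ≤ (1 / 2) ^ J := by positivity
      rw [pow_succ, pow_succ, pow_succ]
      linarith
    have h5 : Real.log 2 * ((1 / 2 : ℝ) ^ (J + 1) + (1 / 2) ^ (J + 2)) ≤ ε := by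
      have h6 : (0 : ℝ) ≤ (1 / 2 : ℝ) ^ (J + 1) + (1 / 2) ^ (J + 2) := by positivity
      nlinarith
    rw [h2, hp]
    have h7 := mul_le_mul_of_nonneg_right (add_le_add h1 h5) hN0
    refine le_trans (le_of_eq ?_) h7
    ring
  · have hsub : {y : Om | win 0 (2 ^ (J + 3) * T J) y ∉ S} ≤ᵐ[ν]
        (⋃ i ∈ Finset.range (2 ^ (J + 3) * T J), {y : Om | J + 1 < (y (i : ℤ)).1} : Set Om) := by
      filter_upwards [hL] with y hy h
      by_contra hc'
      refine h (hS' y 0 hy fun i => ?_)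
      by_contra hi
      refine hc' (mem_iUnion₂.2 ⟨i, Finset.mem_range.2 i.2, ?_⟩)
      rw [zero_add] at hi
      exact not_le.1 hi
    have h1 : ν.real {y : Om | win 0 (2 ^ (J + 3) * T J) y ∉ S} ≤
        ν.real (⋃ i ∈ Finset.range (2 ^ (J + 3) * T J), {y : Om | J + 1 < (y (i : ℤ)).1}) :=
      ENNReal.toReal_mono (measure_ne_top _ _) (measure_mono_ae hsub)
    have h2 := measureReal_biUnion_finset_le (μ := ν) (Finset.range (2 ^ (J + 3) * T J))
      (fun i : ℕ => {y : Om | J + 1 < (y (i : ℤ)).1})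
    simp only [upk_eq hν, Finset.sum_const, Finset.card_range, nsmul_eq_mul] at h2
    have h3 := mul_le_mul_of_nonneg_left (rare hν hL J)
      (Nat.cast_nonneg (α := ℝ) (2 ^ (J + 3) * T J))
    have h4 : ((2 ^ (J + 3) * T J : ℕ) : ℝ) * (1 / m (J + 1)) ≤ (1 / 2) ^ (J + 3) := by
      have h5 : (m (J + 1) : ℝ) = 2 ^ (J + 3) * 2 ^ (J + 3) * T J + 1 := by
        rw [num_m, ← pow_add, show J + 3 + (J + 3) = 2 * J + 6 by ring]
        push_cast
        rfl
      rw [mul_one_div, div_le_iff₀ (by exact_mod_cast m_pos _), h5, one_div, inv_pow,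
        ← div_eq_inv_mul, le_div_iff₀ (by positivity)]
      push_cast
      linarith
    have h6 : (1 / 2 : ℝ) ^ (J + 3) ≤ (1 / 2) ^ J :=
      pow_le_pow_of_le_one (by norm_num) (by norm_num) (by omega)
    linarith

end UpKPart

section SkelPart

/-! The measure on designated names. -/


open MeasureTheory Set Filter Topology

lemma skel_meas {X Y A : Type*} [MeasurableSpace X] [MeasurableSpace Y] [Countable A]
    {a : X → A} (ha : ∀ b, MeasurableSet {x | a x = b}) {F : A → X → Y}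
    (hF : ∀ b, Measurable (F b)) : Measurable fun x => F (a x) x := by
  intro s hs
  have : (fun x => F (a x) x) ⁻¹' s = ⋃ b, {x | a x = b} ∩ F b ⁻¹' s := by
    ext x
    simp
  rw [this]
  exact MeasurableSet.iUnion fun b => (ha b).inter (hF b hs)

lemma skel_code_snd (a : Ty) (n : ℕ) : (code a n).2 = if a = none then 0 else 2 * n := by
  cases a with
  | none => simp [code]
  | some p =>
    simp only [code]
    split_ifs with h h' h'
    · rfl
    · simp [h]
    · exact absurd h' (by simp)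
    · rfl

lemma skel_bt_le {J r : ℕ} (hr : r < T J) : bt (sk J r) ≤ FF J :=
  Finset.single_le_sum (f := fun s => bt (sk J s)) (fun _ _ => Nat.zero_le _)
    (Finset.mem_range.2 hr)

/-- The name attached to a point of the odometer and a sequence of choices. -/
noncomputable def skelPi (p : Rk × (ℤ → ℝ)) : Om :=
  fun t => code (ty ps (zp RR t p.1)) (ix (2 ^ bt (ty ps (zp RR t p.1))) (p.2 t))

open Classical in
/-- The number of choices seen at a given level. -/
noncomputable def skelB (J : ℕ) (g : Rk) : ℕ :=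
  if gd ps J g ∧ 0 < ps J g then 2 ^ bt (sk J (ps J g)) else 1

lemma skel_measurable_ix (b : ℕ) : Measurable (ix b) := by
  have h : Measurable fun a : ℝ => (b, a) := measurable_const.prodMk measurable_id
  have h2 := Cx.measurable_ix.comp h
  exact h2

lemma skel_measurable_pi : Measurable (skelPi) := by
  refine measurable_pi_lambda _ fun t => ?_
  have h1 : Measurable fun p : Rk × (ℤ → ℝ) => zp RR t p.1 :=
    (measurable_zp measurable_RR measurable_RR_symm t).comp measurable_fst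
  have h3 : ∀ b : Ty, Measurable fun p : Rk × (ℤ → ℝ) => code b (ix (2 ^ bt b) (p.2 t)) := by
    intro b
    have h0 : Measurable fun p : Rk × (ℤ → ℝ) => p.2 t :=
      (measurable_pi_apply t).comp measurable_snd
    have h2 : Measurable fun p : Rk × (ℤ → ℝ) => ix (2 ^ bt b) (p.2 t) :=
      (skel_measurable_ix _).comp h0
    exact (measurable_of_countable (code b)).comp h2
  have h4 : ∀ b : Ty, MeasurableSet {p : Rk × (ℤ → ℝ) | ty ps (zp RR t p.1) = b} :=
    fun b => h1 (measurableSet_ty b)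
  exact skel_meas (a := fun p : Rk × (ℤ → ℝ) => ty ps (zp RR t p.1))
    (F := fun b p => code b (ix (2 ^ bt b) (p.2 t))) h4 h3

lemma skel_pi_sh (g : Rk) (ω : ℤ → ℝ) :
    skelPi (RR g, sh ω) = sh (skelPi (g, ω)) := by
  funext t
  simp only [skelPi, sh_apply, zp_succ]

lemma skel_measurable_b (J : ℕ) : Measurable (skelB J) := by
  classical
  unfold skelB
  refine Measurable.ite ?_ ?_ measurable_const
  · exact (measurableSet_gd J).inter (measurableSet_lt measurable_const (measurable_ps J))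
  · exact (measurable_of_countable fun r => 2 ^ bt (sk J r)).comp (measurable_ps J)

lemma skel_b_pos (J : ℕ) (g : Rk) : 0 < skelB J g := by
  unfold skelB
  split_ifs
  · positivity
  · exact one_pos

lemma skel_b_le (J : ℕ) (g : Rk) : skelB J g ≤ 2 ^ FF J := by
  unfold skelB
  split_ifs with hg
  · exact Nat.pow_le_pow_right (by norm_num) (skel_bt_le (gd_lt hg.1))
  · exact Nat.one_le_two_pow

/-- The choice read at time zero, truncated. -/
def skelQ (K : ℕ) (y : Om) : Fin (2 * K + 1) := ⟨min (y 0).2 (2 * K), by omega⟩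

lemma skel_measurable_Q (K : ℕ) (i : Fin (2 * K + 1)) : MeasurableSet (skelQ K ⁻¹' {i}) := by
  have h1 : Measurable fun y : Om => (y 0).2 := measurable_snd.comp (measurable_pi_apply 0)
  have : skelQ K ⁻¹' {i} = (fun y : Om => (y 0).2) ⁻¹' {n | min n (2 * K) = i.1} := by
    ext y
    simp [skelQ, Fin.ext_iff]
  rw [this]
  exact h1 (MeasurableSet.of_discrete)

lemma skel_hv (J : ℕ) (g : Rk) (ω ω' : ℤ → ℝ)
    (e : skelQ (2 ^ FF J) (skelPi (g, ω)) = skelQ (2 ^ FF J) (skelPi (g, ω'))) :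
    ix (skelB J g) (ω 0) = ix (skelB J g) (ω' 0) := by
  unfold skelB
  split_ifs with hg
  · have hty := ty_eq hg.1
    have hK : 2 ^ bt (sk J (ps J g)) ≤ 2 ^ FF J :=
      Nat.pow_le_pow_right (by norm_num) (skel_bt_le (gd_lt hg.1))
    have e' := congrArg Fin.val e
    simp only [skelQ, skelPi, zp_zero, hty, skel_code_snd] at e'
    have h1 := Cx.ix_lt (b := 2 ^ bt (sk J (ps J g))) (by positivity) (ω 0)
    have h2 := Cx.ix_lt (b := 2 ^ bt (sk J (ps J g))) (by positivity) (ω' 0)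
    by_cases ha : sk J (ps J g) = none
    · rw [ha] at h1 h2 ⊢
      simp only [bt, pow_zero] at h1 h2 ⊢
      omega
    · rw [if_neg ha, if_neg ha] at e'
      omega
  · simp only [ix, Nat.mod_one]

lemma skel_integral (J : ℕ) :
    Real.log 2 * ((∑ r ∈ Finset.Ico 1 (T J), (bt (sk J r) : ℝ)) *
      ((1 - (1 / 2) ^ (J + 1)) / T J)) ≤ ∫ g, Real.log (skelB J g) ∂muR := by
  have hm : ∀ r, MeasurableSet {g | gd ps J g ∧ ps J g = r} := fun r =>
    (measurableSet_gd J).inter (measurable_ps J (measurableSet_singleton r))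
  have e : (fun g => Real.log (skelB J g)) = fun g => ∑ r ∈ Finset.Ico 1 (T J),
      {g | gd ps J g ∧ ps J g = r}.indicator (fun _ => Real.log 2 * (bt (sk J r) : ℝ)) g := by
    funext g
    unfold skelB
    split_ifs with hg
    · rw [Finset.sum_eq_single (ps J g)]
      · rw [indicator_of_mem (by exact ⟨hg.1, rfl⟩)]
        push_cast
        rw [Real.log_pow, mul_comm]
      · intro r _ hr
        exact indicator_of_notMem (fun hh => hr hh.2.symm) _
      · intro hn
        exact absurd (Finset.mem_Ico.2 ⟨hg.2, gd_lt hg.1⟩) hn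
    · rw [Finset.sum_eq_zero]
      · simp
      · intro r hr
        refine indicator_of_notMem (fun hh => hg ⟨hh.1, ?_⟩) _
        have := (Finset.mem_Ico.1 hr).1
        have h2 := hh.2
        omega
  rw [e, integral_finsetSum _ fun r _ => (integrable_const _).indicator (hm r)]
  rw [Finset.sum_mul, Finset.mul_sum]
  refine Finset.sum_le_sum fun r hr => ?_
  rw [integral_indicator_const _ (hm r), smul_eq_mul]
  have h1 := real_gd (J := J) (r := r) (Finset.mem_Ico.1 hr).1 (Finset.mem_Ico.1 hr).2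
  have h2 : 0 ≤ Real.log 2 * (bt (sk J r) : ℝ) :=
    mul_nonneg (Real.log_nonneg (by norm_num)) (Nat.cast_nonneg _)
  calc _ = (1 - (1 / 2) ^ (J + 1)) / T J * (Real.log 2 * (bt (sk J r) : ℝ)) := by ring
    _ ≤ _ := mul_le_mul_of_nonneg_right h1 h2

lemma prod_iter (n : ℕ) (p : Rk × (ℤ → ℝ)) :
    (Prod.map RR (sh : (ℤ → ℝ) → ℤ → ℝ))^[n] p = (RR^[n] p.1, sh^[n] p.2) := by
  rw [Prod.map_iterate]
  rfl

lemma prod_mp : MeasurePreserving (Prod.map RR (sh : (ℤ → ℝ) → ℤ → ℝ)) (muR.prod PB)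
    (muR.prod PB) := rk_mp.prod Cx.measurePreserving_PB

lemma prod_mix {k n : ℕ} (hn : 2 * k + 1 ≤ n) {S U : Set (ℤ → ℝ)} (hS : MeasurableSet S)
    (hU : MeasurableSet U) (hI : Cx.prodeDep (Finset.Icc (-(k : ℤ)) k) S)
    (hJ : Cx.prodeDep (Finset.Icc (-(k : ℤ)) k) U) :
    PB (S ∩ (sh : (ℤ → ℝ) → ℤ → ℝ)^[n] ⁻¹' U) = PB S * PB U := by
  have hm := Cx.measurePreserving_PB.iterate n
  rw [← hm.measure_preimage hU.nullMeasurableSet]
  refine Cx.prode_indep (J := Finset.Icc ((n : ℤ) - k) (n + k)) ?_ hS (hm.measurable hU) hI ?_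
  · rw [Finset.disjoint_left]
    intro i h1 h2
    rw [Finset.mem_Icc] at h1 h2
    omega
  · intro x y hxy hx
    refine hJ _ _ (fun i hi => ?_) hx
    rw [Cx.prode_iter, Cx.prode_iter]
    apply hxy
    rw [Finset.mem_Icc] at hi ⊢
    omega

lemma prod_lower {B : Set (Rk × (ℤ → ℝ))} (hB : MeasurableSet B) {k n : ℕ} (hn : 2 * k + 1 ≤ n)
    (hk : ∀ g, Cx.prodeDep (Finset.Icc (-(k : ℤ)) k) (Prod.mk g ⁻¹' B)) {β : ℝ} (hβ : 0 ≤ β) :
    β ^ 2 * muR.real ({g | β ≤ PB.real (Prod.mk g ⁻¹' B)} ∩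
        RR^[n] ⁻¹' {g | β ≤ PB.real (Prod.mk g ⁻¹' B)}) ≤
      (muR.prod PB).real (B ∩ (Prod.map RR (sh : (ℤ → ℝ) → ℤ → ℝ))^[n] ⁻¹' B) := by
  have hb : Measurable fun g => PB.real (Prod.mk g ⁻¹' B) :=
    (measurable_measure_prodMk_left hB).ennreal_toReal
  have hE : MeasurableSet {g | β ≤ PB.real (Prod.mk g ⁻¹' B)} :=
    measurableSet_le measurable_const hb
  have hE' := hE.inter (measurable_RR.iterate n hE)
  have hB' := hB.inter ((prod_mp.iterate n).measurable hB)
  have h1 : ENNReal.ofReal β * ENNReal.ofReal β * muR ({g | β ≤ PB.real (Prod.mk g ⁻¹' B)} ∩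
      RR^[n] ⁻¹' {g | β ≤ PB.real (Prod.mk g ⁻¹' B)}) ≤
      (muR.prod PB) (B ∩ (Prod.map RR (sh : (ℤ → ℝ) → ℤ → ℝ))^[n] ⁻¹' B) := by
    rw [Measure.prod_apply hB', ← lintegral_indicator_const hE']
    refine lintegral_mono fun g => ?_
    by_cases hg : g ∈ {g | β ≤ PB.real (Prod.mk g ⁻¹' B)} ∩
        RR^[n] ⁻¹' {g | β ≤ PB.real (Prod.mk g ⁻¹' B)}
    swap
    · rw [indicator_of_notMem hg]
      exact zero_le
    rw [indicator_of_mem hg]
    have e : Prod.mk g ⁻¹' (B ∩ (Prod.map RR (sh : (ℤ → ℝ) → ℤ → ℝ))^[n] ⁻¹' B) =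
        Prod.mk g ⁻¹' B ∩ (sh : (ℤ → ℝ) → ℤ → ℝ)^[n] ⁻¹' (Prod.mk (RR^[n] g) ⁻¹' B) := by
      ext ω
      simp only [mem_preimage, mem_inter_iff, prod_iter]
    rw [e, prod_mix hn (measurable_prodMk_left hB) (measurable_prodMk_left hB) (hk _) (hk _)]
    exact mul_le_mul' (ENNReal.ofReal_le_of_le_toReal hg.1) (ENNReal.ofReal_le_of_le_toReal hg.2)
  have h2 := ENNReal.toReal_mono (measure_ne_top _ _) h1
  rw [ENNReal.toReal_mul, ENNReal.toReal_mul, ENNReal.toReal_ofReal hβ] at h2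
  rw [sq]
  exact h2

lemma prod_level {B : Set (Rk × (ℤ → ℝ))} (hB : MeasurableSet B) {β : ℝ} (hβ : 0 ≤ β) :
    (muR.prod PB).real B ≤ β + muR.real {g | β ≤ PB.real (Prod.mk g ⁻¹' B)} := by
  have hb : Measurable fun g => PB.real (Prod.mk g ⁻¹' B) :=
    (measurable_measure_prodMk_left hB).ennreal_toReal
  have hE : MeasurableSet {g | β ≤ PB.real (Prod.mk g ⁻¹' B)} :=
    measurableSet_le measurable_const hb
  have h1 : (muR.prod PB) B ≤ ENNReal.ofReal β + muR {g | β ≤ PB.real (Prod.mk g ⁻¹' B)} := by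
    rw [Measure.prod_apply hB]
    calc _ ≤ ∫⁻ g, (ENNReal.ofReal β +
          {g | β ≤ PB.real (Prod.mk g ⁻¹' B)}.indicator (fun _ => 1) g) ∂muR := by
          refine lintegral_mono fun g => ?_
          by_cases h : g ∈ {g | β ≤ PB.real (Prod.mk g ⁻¹' B)}
          · rw [indicator_of_mem h]
            exact prob_le_one.trans le_add_self
          · rw [indicator_of_notMem h, add_zero]
            exact (ENNReal.le_ofReal_iff_toReal_le (measure_ne_top _ _) hβ).2 (not_le.1 h).le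
      _ = _ := by
          rw [lintegral_add_left measurable_const, lintegral_const, measure_univ, mul_one,
            lintegral_indicator_const hE, one_mul]
  have h2 := ENNReal.toReal_mono (by finiteness) h1
  rw [ENNReal.toReal_add (by finiteness) (by finiteness), ENNReal.toReal_ofReal hβ] at h2
  exact h2

theorem prod_np : NP (Prod.map RR (sh : (ℤ → ℝ) → ℤ → ℝ)) (muR.prod PB) := by
  intro A hA h0 p hp
  set a := (muR.prod PB).real A with ha
  have ha0 : 0 < a := ENNReal.toReal_pos h0 (measure_ne_top _ _)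
  have ha1 : a ≤ 1 := measureReal_le_one
  obtain ⟨B, ⟨hB, k, hk⟩, hBA⟩ := Cx.prode_approx (muR.prod PB) hA
    (ENNReal.ofReal_pos.2 (show 0 < a ^ 3 / 100 by positivity))
  have h1 : (muR.prod PB).real (symmDiff B A) ≤ a ^ 3 / 100 :=
    ENNReal.toReal_le_of_le_ofReal (by positivity) hBA.le
  have h2 := abs_measureReal_sub_le_measureReal_symmDiff (μ := muR.prod PB) hB.nullMeasurableSet
    hA.nullMeasurableSet
  have h3 := prod_level hB (half_pos ha0).le
  have hE : MeasurableSet {g | a / 2 ≤ PB.real (Prod.mk g ⁻¹' B)} :=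
    measurableSet_le measurable_const (measurable_measure_prodMk_left hB).ennreal_toReal
  obtain ⟨J, hJ⟩ := eventually_atTop.1 (rk_rigid hE (show 0 < a / 8 by positivity))
  obtain ⟨j, hj1, hj2, hj3⟩ : ∃ j, J ≤ j ∧ 2 * k ≤ j ∧ ¬ p ∣ T j := by
    by_cases h : p ∣ T (J + 2 * k)
    · refine ⟨J + 2 * k + 1, by omega, by omega, fun h' => ?_⟩
      have := T_cop h h'
      omega
    · exact ⟨_, by omega, by omega, h⟩
  refine ⟨T j, hj3, fun hz => ?_⟩
  have h4 := prod_lower hB (n := T j) (by have := lt_m j; have := m_le_T j; omega) hk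
    (half_pos ha0).le
  have h5 := inter_approx prod_mp hA hB (T j)
  have h6 := hJ j hj1
  rw [(measureReal_eq_zero_iff (measure_ne_top _ _)).2 hz, sub_zero] at h5
  have h7 : a ^ 3 ≤ a := by
    calc a ^ 3 ≤ a ^ 1 := pow_le_pow_of_le_one ha0.le ha1 (by norm_num)
      _ = a := pow_one a
  have h8 := (abs_le.1 h2).1
  have h9 := (abs_le.1 h5).2
  have h10 := mul_le_mul_of_nonneg_left (show a / 4 ≤ _ from le_trans (by linarith) h6)
    (sq_nonneg (a / 2))
  have h11 : 0 < a ^ 3 := by positivity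
  nlinarith

lemma rk_return {B : Set Rk} (hB : MeasurableSet B) (h0 : 0 < muR.real B) (h1 : muR.real B < 1) :
    ¬ Tendsto (fun n => muR.real (B ∩ RR^[n] ⁻¹' B)) atTop (𝓝 (muR.real B ^ 2)) := by
  intro h
  have h2 : 0 < (muR.real B - muR.real B ^ 2) / 2 := by nlinarith
  obtain ⟨j, h3, h4⟩ := ((rk_rigid hB h2).and ((h.comp T_strictMono.tendsto_atTop).eventually
    (gt_mem_nhds (show muR.real B ^ 2 < muR.real B ^ 2 + _ from lt_add_of_pos_right _ h2)))).exists
  simp only [Function.comp_apply] at h4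
  linarith

theorem exists_measure : ∃ ν : Measure Om, IsProbabilityMeasure ν ∧ Ergodic sh ν ∧
    (∀ c, c < hh → Ent sh ν c) ∧ NP sh ν ∧ ¬ Mix sh ν ∧
    ∀ A, MeasurableSet A → (∀ y, Des y → y ∈ A) → ν Aᶜ = 0 := by
  have hs := fun J => Cx.skew rk_erg skel_measurable_pi skel_pi_sh (skel_measurable_b J)
    (skel_b_pos J) (skel_b_le J) (skelQ (2 ^ FF J)) (skel_measurable_Q _) (skel_hv J)
  have hπ : MeasurePreserving skelPi (muR.prod PB) ((muR.prod PB).map skelPi) :=
    skel_measurable_pi.measurePreserving _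
  have hc : ∀ᵐ x ∂(muR.prod PB), skelPi (Prod.map RR sh x) = sh (skelPi x) :=
    Eventually.of_forall fun x => skel_pi_sh x.1 x.2
  refine ⟨(muR.prod PB).map skelPi, (hs 0).1, (hs 0).2.1, fun c hc => ?_,
    prod_np.factor prod_mp hπ measurable_sh hc, fun hm => ?_, fun A hA hD => ?_⟩
  · obtain ⟨J, hJ⟩ := exists_level hc
    exact (hs J).2.2.mono (hJ.trans (skel_integral J))
  · have hA : MeasurableSet {y : Om | y 0 = (0, 0)} :=
      measurable_pi_apply (X := fun _ : ℤ => ℕ × ℕ) 0 (measurableSet_singleton (0, 0))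
    have e : skelPi ⁻¹' {y : Om | y 0 = (0, 0)} = Prod.fst ⁻¹' {g | ty ps g = none} := by
      ext x
      simp only [mem_preimage, mem_ofPred_eq, skelPi, zp_zero, code_eq_zero]
    have hf : MeasurePreserving Prod.fst (muR.prod PB) muR := measurePreserving_fst
    have h1 := hm _ hA
    refine rk_return (measurableSet_ty none) ty_none.1 ty_none.2 ?_
    simp only [Measure.real] at h1 ⊢
    rw [← hπ.measure_preimage hA.nullMeasurableSet, e,
      hf.measure_preimage (measurableSet_ty none).nullMeasurableSet] at h1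
    refine h1.congr fun n => ?_
    rw [factor_inter prod_mp hπ measurable_sh hc hA, e,
      factor_inter prod_mp hf measurable_RR (Eventually.of_forall fun _ => rfl)
        (measurableSet_ty none)]
  · rw [Measure.map_apply skel_measurable_pi hA.compl]
    have h1 : ∀ᵐ p ∂(muR.prod PB), ∃ J, gd ps J p.1 :=
      Measure.quasiMeasurePreserving_fst.ae ae_gd
    refine measure_mono_null (fun p hp => ?_) (ae_iff.1 h1)
    rintro ⟨J, hJ⟩
    exact hp (hD _ (rk_des hJ fun t => Cx.ix_lt (by positivity) _))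

end SkelPart

section MainPart

/-! The example. -/

open MeasureTheory Set Filter Topology

open scoped Manifold

instance : ConnectedSpace Tor :=
  inferInstanceAs (ConnectedSpace (AddCircle (40 : ℝ) × AddCircle (40 : ℝ)))

theorem main : ∃ (M : Type) (_ : MetricSpace M) (_ : CompactSpace M) (_ : ConnectedSpace M)
    (_ : ChartedSpace (EuclideanSpace ℝ (Fin 2)) M) (_ : IsManifold (𝓡 2) 1 M)
    (_ : MeasurableSpace M) (_ : BorelSpace M) (f : Diffeomorph (𝓡 2) (𝓡 2) M M 1),
    0 < Dynamics.coverEntropy f Set.univ ∧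
      ∃ μ : Measure M, PeriodMaximal f μ ∧ ¬ PeriodicBernoulli f μ := by
  obtain ⟨i1, i2, f, r, hr, hi, hs, hd⟩ := exists_torus contDiff_HH
    (fun x y => HH_per_fst y) (fun x y => HH_per_snd x) fun x x' y => HH_slope y
  refine ⟨Tor, inferInstance, inferInstance, inferInstance, i1, i2, inferInstance, inferInstance,
    f, ?_⟩
  have he : Measurable (f.toEquiv : Tor → Tor) := f.continuous.measurable
  have he' : Measurable (f.toEquiv.symm : Tor → Tor) := f.symm.continuous.measurable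
  obtain ⟨D, N, hE, hL, hD, hF⟩ := model (e := f.toEquiv) he he' hr hi hs hd
  obtain ⟨ν, hν, e1, e2, e3, e4, e5⟩ := exists_measure
  have hND := e5 _ (hE.meas_image hE.dom le_rfl) hD
  obtain ⟨μ, hμ, m1, m2, m3, m4, -⟩ := Cx.pullE hE he e1 hND
  have hae : ∀ᵐ y ∂ν, y ∈ N '' D := hND
  have hae' : ∀ᵐ x ∂μ, x ∈ D := m2
  obtain ⟨x₀, -⟩ := hae'.exists
  have : Nonempty Tor := ⟨x₀⟩
  obtain ⟨β, hβ, hinv⟩ := hE.exists_inv
  have hμD : ∀ A, μ (A ∩ D) = μ A := fun A =>
    measure_congr (by filter_upwards [hae'] with x hx using propext (and_iff_left hx))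
  have hN : MeasurePreserving N μ ν := by
    refine ⟨hE.meas, Measure.ext fun B hB => ?_⟩
    rw [Measure.map_apply hE.meas hB, ← hμD, ← m3 _ ((hE.meas hB).inter hE.dom) inter_subset_right,
      image_preimage_inter]
    exact measure_congr (by filter_upwards [hae] with x hx using propext (and_iff_left hx))
  have hβ' : MeasurePreserving β ν μ := by
    refine ⟨hβ.meas, Measure.ext fun A hA => ?_⟩
    rw [Measure.map_apply hβ.meas hA, ← hμD, ← m3 _ (hA.inter hE.dom) inter_subset_right]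
    refine measure_congr ?_
    filter_upwards [hae] with y hy
    obtain ⟨x, hx, rfl⟩ := hy
    refine propext ?_
    show β (N x) ∈ A ↔ N x ∈ N '' (A ∩ D)
    rw [hinv x hx]
    refine ⟨fun h => ⟨x, ⟨h, hx⟩, rfl⟩, ?_⟩
    rintro ⟨x', hx', e⟩
    exact hE.inj hx'.2 hx e ▸ hx'.1
  have hNP : NP f μ := e3.factor e1.toMeasurePreserving hβ' he
    (by filter_upwards [hae] with y hy using hβ.comm y hy)
  have hMix : ¬ Mix f μ := fun h => e4 (h.factor m1.toMeasurePreserving hN measurable_sh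
    (by filter_upwards [hae'] with x hx using hE.comm x hx))
  have hup : ∀ ν' : Measure Tor, IsProbabilityMeasure ν' → Ergodic f ν' → ksEntropy f ν' ≤ hh := by
    intro ν' h1 h2
    refine ks_le h2.toMeasurePreserving fun c hc => ?_
    by_cases h0 : 0 < c
    · obtain ⟨μ', k1, k2, k3, k4, -⟩ :=
        Cx.pushE hE measurable_sh h2 (hF ν' h1 h2 (Cx.PE_iff.2 ⟨c, h0, hc⟩))
      refine ent_le_hh k2.toMeasurePreserving ?_ (k4 c hc)
      have : ∀ᵐ y ∂μ', y ∈ N '' D := k3
      filter_upwards [this] with y hy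
      obtain ⟨z, hz, rfl⟩ := hy
      exact hL z hz
    · exact (not_lt.1 h0).trans hh_pos.le
  have hlo : (hh : EReal) ≤ ksEntropy f μ := by
    refine EReal.le_of_forall_lt_iff_le.1 fun c hc => ?_
    by_contra h
    obtain ⟨c', h1, h2⟩ := exists_between (EReal.coe_lt_coe_iff.1 (not_le.1 h))
    exact absurd ((le_ks (m4 c' (e2 c' h2))).trans_lt hc) (not_lt.2 (EReal.coe_le_coe h1.le))
  have hper := periods_one hNP m1.toMeasurePreserving
  refine ⟨coverEntropy_pos m1.toMeasurePreserving (Cx.PE_iff.2 ⟨hh / 2, half_pos hh_pos,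
    m4 _ (e2 _ (half_lt_self hh_pos))⟩), μ, ⟨hμ, m1,
    lt_of_lt_of_le (by exact_mod_cast hh_pos) hlo, 1, hper, le_antisymm ?_ ?_⟩,
    not_bernoulli m1.toMeasurePreserving hNP hMix⟩
  · exact le_iSup₂_of_le μ hμ (le_iSup₂_of_le m1 hper le_rfl)
  · exact iSup₂_le fun ν' h1 => iSup₂_le fun h2 _ => (hup ν' h1 h2).trans hlo

end MainPart

end Pool.Agent.P.MP_1672e2_an.Cq
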