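import Pool.Agent.P.MP_1672e2_an.Cq.Geo

set_option autoImplicit false

namespace Pool.Agent.P.MP_1672e2_an.Cq

section XiAPart

/-! Estimates for one wiggle. -/


open MeasureTheory Set Filter Topology

lemma contDiff_om (j : ℕ) (y : ℝ) : ContDiff ℝ 1 (om j y) := by
  unfold om
  fun_prop

lemma contDiff_tt (j : ℕ) (y y' : ℝ) : ContDiff ℝ 1 (tt j y y') := by
  unfold tt Af
  fun_prop

lemma isClosed_Rg (j : ℕ) (y y' : ℝ) : IsClosed (Rg j y y') :=
  (isClosed_le (contDiff_om j y).continuous.abs continuous_const).inter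
    ((isClosed_le continuous_const (contDiff_tt j y y').continuous).inter
      (isClosed_le (contDiff_tt j y y').continuous continuous_const))

lemma contDiff_xi (j : ℕ) (y y' : ℝ) : ContDiff ℝ 1 (xi j y y') :=
  ((contDiff_const.mul (contDiff_chi.comp ((contDiff_om j y).div_const _))).mul
    ((contDiff_DD _).comp (contDiff_tt j y y'))).neg

lemma xi_level_zero (y y' : ℝ) : xi 0 y y' = 0 := by
  funext p
  simp [xi, be, DD_zero]

lemma xia_sc (j : ℕ) : sc (m j) ≤ 1 := sc_one ▸ sc_anti (m_pos j)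

lemma xia_DD {j : ℕ} (hj : 1 ≤ j) (t : ℝ) :
    uu j * |DD (2 ^ be j - 1) t| ≤ 8 * (1 / 2) ^ (j + 10) * |rho j| * de' j := by
  have h1 := DD_le (2 ^ be j - 1) t
  have h2 : ((2 ^ be j - 1 : ℕ) : ℝ) ≤ 2 ^ be j := by exact_mod_cast Nat.sub_le _ _
  have h3 := mul_le_mul_of_nonneg_left (show DD (2 ^ be j - 1) t ≤ 8 * 2 ^ be j by linarith)
    (uu_pos j).le
  rw [abs_of_nonneg (DD_nonneg _ _)]
  linarith [uu_le hj]

lemma abs_xi (j : ℕ) (y y' : ℝ) (p : ℝ × ℝ) : |xi j y y' p| ≤ (1 / 2) ^ (j + 1) := by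
  rcases j.eq_zero_or_pos with rfl | hj
  · simp [xi_level_zero]
  have h1 := xia_DD hj (tt j y y' p)
  have h2 : |rho j| * de' j ≤ 1 * 1 := mul_le_mul ((abs_rho j).trans (xia_sc j))
    (by linarith [de'_le j]) (de'_pos j).le zero_le_one
  have h3 : (0 : ℝ) < (1 / 2) ^ (j + 1) := by positivity
  have h4 := mul_le_mul_of_nonneg_left (chi_le_one (om j y p / de' j))
    (mul_nonneg (uu_pos j).le (abs_nonneg (DD (2 ^ be j - 1) (tt j y y' p))))
  rw [show j + 10 = j + 1 + 9 from rfl, pow_add] at h1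
  rw [xi, abs_neg, abs_mul, abs_mul, abs_of_pos (uu_pos j), abs_of_nonneg (chi_nonneg _)]
  nlinarith

lemma xia_aff (a b c : ℝ) (p : ℝ × ℝ) : HasFDerivAt (fun p : ℝ × ℝ => a * p.1 + b * p.2 + c)
    (a • ContinuousLinearMap.fst ℝ ℝ ℝ + b • ContinuousLinearMap.snd ℝ ℝ ℝ) p :=
  ((hasFDerivAt_fst.const_mul a).add (hasFDerivAt_snd.const_mul b)).add_const c

lemma xia_fderiv (j : ℕ) (y y' : ℝ) (p v : ℝ × ℝ) : fderiv ℝ (xi j y y') p v =
    -(uu j * DD (2 ^ be j - 1) (tt j y y' p) / (rho j * de' j) * deriv chi (om j y p / de' j) *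
      (v.1 + (kap j - 1 / lam) * v.2) + chi (om j y p / de' j) *
      deriv (DD (2 ^ be j - 1)) (tt j y y' p) * (2 * kap j - ss (m j)) * v.2) := by
  have h1 : HasFDerivAt (fun p => om j y p / de' j) _ p :=
    (xia_aff (1 / (rho j * de' j)) ((kap j - 1 / lam) / (rho j * de' j))
      ((-y - kap j / 2) / (rho j * de' j)) p).congr_of_eventuallyEq
        (.of_forall fun p => by simp only [om]; ring)
  have h2 : HasFDerivAt (tt j y y') _ p :=
    (xia_aff 0 ((2 * kap j - ss (m j)) / uu j) ((Af (m j) (1 / 2) - kap j - y - y') / uu j)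
      p).congr_of_eventuallyEq (.of_forall fun p => by simp only [tt, Af]; ring)
  have h3 := (contDiff_chi.differentiable one_ne_zero _).hasDerivAt.comp_hasFDerivAt p h1
  have h4 := ((contDiff_DD (2 ^ be j - 1)).differentiable one_ne_zero
    _).hasDerivAt.comp_hasFDerivAt p h2
  have h5 : HasFDerivAt (xi j y y') _ p := ((h3.const_mul (uu j)).mul h4).neg
  have := (uu_pos j).ne'
  rw [h5.fderiv]
  simp only [neg_apply, add_apply,
    smul_apply, ContinuousLinearMap.coe_fst', ContinuousLinearMap.coe_snd',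
    smul_eq_mul, Function.comp]
  field_simp
  ring

lemma xia_main {j : ℕ} (hj : 1 ≤ j) (t w : ℝ) :
    |uu j * DD (2 ^ be j - 1) t / (rho j * de' j) * deriv chi w| ≤ (1 / 2) ^ (j + 4) := by
  have h0 : 0 < |rho j| * de' j := mul_pos (abs_pos.2 (rho_ne j)) (de'_pos j)
  have h1 : uu j * |DD (2 ^ be j - 1) t| / (|rho j| * de' j) ≤ 8 * (1 / 2) ^ (j + 10) := by
    rw [div_le_iff₀ h0, ← mul_assoc]
    exact xia_DD hj t
  have h2 := mul_le_mul h1 (abs_deriv_chi w) (abs_nonneg _) (by positivity)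
  have h3 : (0 : ℝ) < (1 / 2) ^ (j + 4) := by positivity
  rw [show j + 10 = j + 4 + 6 from rfl, pow_add] at h2
  rw [abs_mul, abs_div, abs_mul, abs_mul, abs_of_pos (uu_pos j), abs_of_pos (de'_pos j)]
  linarith

lemma fderiv_xi_fst (j : ℕ) (y y' : ℝ) (p : ℝ × ℝ) :
    |fderiv ℝ (xi j y y') p (1, 0)| ≤ (1 / 2) ^ (j + 4) := by
  rcases j.eq_zero_or_pos with rfl | hj
  · simp [xi_level_zero]
  rw [xia_fderiv]
  simp only [mul_zero, add_zero, mul_one, abs_neg]
  exact xia_main hj _ _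

lemma norm_fderiv_xi (j : ℕ) (y y' : ℝ) (p : ℝ × ℝ) :
    ‖fderiv ℝ (xi j y y') p‖ ≤ 40 * lam * (1 / 2) ^ j := by
  have hl : (1 : ℝ) ≤ lam := one_le_pow₀ one_le_two
  have h0 : (0 : ℝ) < (1 / 2) ^ j := by positivity
  rcases j.eq_zero_or_pos with rfl | hj
  · simp [xi_level_zero]
    linarith
  refine ContinuousLinearMap.opNorm_le_bound _ (by positivity) fun v => ?_
  have v1 : |v.1| ≤ ‖v‖ := norm_fst_le v
  have v2 : |v.2| ≤ ‖v‖ := norm_snd_le v
  have k1 := abs_kap j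
  have k2 := xia_sc j
  have k3 := sc_le_ss (m_pos j)
  have k4 := sc_pos (m j)
  have k5 : ss (m j) ≤ 4 * lam * (1 / 2) ^ j := (ss_le _).trans (mul_le_mul_of_nonneg_left
    (pow_le_pow_of_le_one (by norm_num) (by norm_num) (lt_m j).le) (by positivity))
  have k6 : |kap j - 1 / lam| ≤ 2 := (abs_sub _ _).trans (by
    rw [abs_of_pos (by positivity : 0 < 1 / lam)]
    linarith [(div_le_one (by positivity)).2 hl])
  have k7 : |2 * kap j - ss (m j)| ≤ 5 * lam * (1 / 2) ^ j := by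
    rw [abs_le] at k1 ⊢
    constructor <;> linarith
  have a1 : |v.1 + (kap j - 1 / lam) * v.2| ≤ 3 * ‖v‖ := (abs_add_le _ _).trans (by
    rw [abs_mul]
    linarith [mul_le_mul k6 v2 (abs_nonneg _) zero_le_two])
  have a2 := mul_le_mul (xia_main hj (tt j y y' p) (om j y p / de' j)) a1 (abs_nonneg _)
    (by positivity)
  have a3 : |chi (om j y p / de' j)| ≤ 1 := by
    rw [abs_of_nonneg (chi_nonneg _)]
    exact chi_le_one _
  have a4 := mul_le_mul (mul_le_mul (mul_le_mul a3 (abs_deriv_DD (2 ^ be j - 1) (tt j y y' p))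
    (abs_nonneg _) zero_le_one) k7 (abs_nonneg _) (by norm_num)) v2 (abs_nonneg _) (by positivity)
  have a5 := mul_le_mul_of_nonneg_right hl (mul_nonneg h0.le (norm_nonneg v))
  rw [← abs_mul] at a2
  rw [← abs_mul, ← abs_mul, ← abs_mul] at a4
  rw [pow_add] at a2
  rw [xia_fderiv, Real.norm_eq_abs, abs_neg]
  refine (abs_add_le _ _).trans ?_
  linarith [mul_nonneg h0.le (norm_nonneg v)]

end XiAPart

section XiBPart

/-! The sum of the wiggles, and the map. -/


open MeasureTheory Set Filter Topology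

lemma xib_off {j : ℕ} {y y' : ℝ} {p : ℝ × ℝ} (h : p ∉ Rg j y y') :
    ∀ᶠ q in 𝓝 p, xi j y y' q = 0 := by
  filter_upwards [(isClosed_Rg j y y').isOpen_compl.mem_nhds h] with q hq
  by_contra h0
  exact hq (xi_ne h0).2

/-- Near a point, a level has at most one wiggle. -/
lemma xib_one (j : ℕ) (p : ℝ × ℝ) :
    (∃ y y', Xj j =ᶠ[𝓝 p] xi j y y') ∨ Xj j =ᶠ[𝓝 p] fun _ => 0 := by
  classical
  rcases Nat.eq_zero_or_pos j with rfl | hj
  · right
    refine Eventually.of_forall fun q => ?_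
    show (∑ y ∈ Yset 0 ×ˢ Yset 0, xi 0 y.1 y.2 q) = 0
    refine Finset.sum_eq_zero fun y _ => ?_
    rw [xi_level_zero]
    rfl
  by_cases h : ∃ a ∈ Yset j ×ˢ Yset j, p ∈ Rg j a.1 a.2
  · obtain ⟨a, ha, hp⟩ := h
    left
    refine ⟨a.1, a.2, ?_⟩
    have h1 : ∀ᶠ q in 𝓝 p, ∀ b ∈ Yset j ×ˢ Yset j, b ≠ a → xi j b.1 b.2 q = 0 := by
      rw [Filter.eventually_all_finset]
      intro b hb
      by_cases hba : b = a
      · exact Eventually.of_forall fun _ h => absurd hba h
      · have hb' : p ∉ Rg j b.1 b.2 := fun hp' => by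
          obtain ⟨e1, e2⟩ := Rg_disj (sep j) hj (Finset.mem_product.1 hb).1
            (Finset.mem_product.1 hb).2 (Finset.mem_product.1 ha).1 (Finset.mem_product.1 ha).2
            hp' hp
          exact hba (Prod.ext e1 e2)
        filter_upwards [xib_off hb'] with q hq _ using hq
    filter_upwards [h1] with q hq
    exact Finset.sum_eq_single_of_mem a ha hq
  · right
    have h1 : ∀ᶠ q in 𝓝 p, ∀ b ∈ Yset j ×ˢ Yset j, xi j b.1 b.2 q = 0 := by
      rw [Filter.eventually_all_finset]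
      intro b hb
      exact xib_off fun hp => h ⟨b, hb, hp⟩
    filter_upwards [h1] with q hq
    exact Finset.sum_eq_zero hq

lemma xib_lam : 0 < lam := by unfold lam; positivity

lemma xib_abs (j : ℕ) (p : ℝ × ℝ) : |Xj j p| ≤ (1 / 2) ^ (j + 1) := by
  rcases xib_one j p with ⟨y, y', h⟩ | h
  · rw [h.eq_of_nhds]
    exact abs_xi j y y' p
  · rw [h.eq_of_nhds, abs_zero]
    positivity

lemma xib_fst (j : ℕ) (p : ℝ × ℝ) : |fderiv ℝ (Xj j) p (1, 0)| ≤ (1 / 2) ^ (j + 4) := by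
  rcases xib_one j p with ⟨y, y', h⟩ | h
  · rw [h.fderiv_eq]
    exact fderiv_xi_fst j y y' p
  · rw [h.fderiv_eq, fderiv_fun_const]
    show |(0 : ℝ)| ≤ _
    rw [abs_zero]
    positivity

lemma xib_norm (j : ℕ) (p : ℝ × ℝ) : ‖fderiv ℝ (Xj j) p‖ ≤ 40 * lam * (1 / 2) ^ j := by
  rcases xib_one j p with ⟨y, y', h⟩ | h
  · rw [h.fderiv_eq]
    exact norm_fderiv_xi j y y' p
  · rw [h.fderiv_eq, fderiv_fun_const]
    have := xib_lam
    show ‖(0 : ℝ × ℝ →L[ℝ] ℝ)‖ ≤ _
    rw [norm_zero]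
    positivity

lemma xib_contDiff (j : ℕ) : ContDiff ℝ 1 (Xj j) :=
  ContDiff.sum fun a _ => contDiff_xi j a.1 a.2

lemma xib_hasSum (c : ℝ) : HasSum (fun j : ℕ => c * (1 / 2 : ℝ) ^ j) (c * 2) :=
  hasSum_geometric_two.mul_left c

lemma xib_summable (p : ℝ × ℝ) : Summable fun j => Xj j p := by
  refine Summable.of_norm_bounded (xib_hasSum (1 / 2)).summable fun j => ?_
  rw [Real.norm_eq_abs, ← pow_succ']
  exact xib_abs j p

lemma contDiff_Xi : ContDiff ℝ 1 Xi := by
  have hl := xib_lam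
  refine contDiff_tsum (N := 1) (v := fun _ j => (40 * lam + 1) * (1 / 2 : ℝ) ^ j)
    xib_contDiff (fun _ _ => (xib_hasSum _).summable) fun k j x hk => ?_
  have hk' : k ≤ 1 := by exact_mod_cast hk
  have hp : (0 : ℝ) < (1 / 2) ^ j := by positivity
  rcases Nat.le_one_iff_eq_zero_or_eq_one.1 hk' with rfl | rfl
  · rw [norm_iteratedFDeriv_zero, Real.norm_eq_abs]
    refine (xib_abs j x).trans ?_
    rw [pow_succ]
    nlinarith
  · rw [norm_iteratedFDeriv_one]
    refine (xib_norm j x).trans ?_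
    nlinarith

lemma abs_Xi (p : ℝ × ℝ) : |Xi p| ≤ 1 := by
  have h := tsum_of_norm_bounded (f := fun j => Xj j p) (xib_hasSum (1 / 2)) fun j => by
    rw [Real.norm_eq_abs, ← pow_succ']
    exact xib_abs j p
  rw [Real.norm_eq_abs] at h
  exact h.trans (by norm_num)

lemma xib_lip (j : ℕ) (x x' y : ℝ) :
    |Xj j (x, y) - Xj j (x', y)| ≤ (1 / 2) ^ (j + 4) * |x - x'| := by
  have hd : ∀ t : ℝ, HasDerivAt (fun t : ℝ => Xj j (t, y)) (fderiv ℝ (Xj j) (t, y) (1, 0)) t := by
    intro t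
    have h1 : HasDerivAt (fun t : ℝ => (t, y)) ((1, 0) : ℝ × ℝ) t :=
      (hasDerivAt_id t).prodMk (hasDerivAt_const t y)
    exact (((xib_contDiff j).differentiable one_ne_zero) (t, y)).hasFDerivAt.comp_hasDerivAt t h1
  have h := convex_univ.norm_image_sub_le_of_norm_hasDerivWithin_le
    (f := fun t : ℝ => Xj j (t, y)) (f' := fun t => fderiv ℝ (Xj j) (t, y) (1, 0))
    (C := (1 / 2) ^ (j + 4)) (fun t _ => (hd t).hasDerivWithinAt)
    (fun t _ => xib_fst j (t, y)) (mem_univ x') (mem_univ x)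
  exact h

lemma Xi_lip (x x' y : ℝ) : |Xi (x, y) - Xi (x', y)| ≤ |x - x'| / 8 := by
  have e : Xi (x, y) - Xi (x', y) = ∑' j, (Xj j (x, y) - Xj j (x', y)) :=
    ((xib_summable _).tsum_sub (xib_summable _)).symm
  have h := tsum_of_norm_bounded (f := fun j => Xj j (x, y) - Xj j (x', y))
    (xib_hasSum (|x - x'| / 16)) fun j => by
      rw [Real.norm_eq_abs]
      refine (xib_lip j x x' y).trans (le_of_eq ?_)
      rw [pow_add]
      ring
  rw [Real.norm_eq_abs] at h
  rw [e]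
  exact h.trans (le_of_eq (by ring))

lemma contDiff_HH : ContDiff ℝ 1 HH :=
  ((contDiff_GG.comp contDiff_snd).sub (contDiff_al.comp contDiff_fst)).add contDiff_Xi

lemma HH_per_fst {x : ℝ} (y : ℝ) (h : -17 < x) (h' : x < -15) :
    HH (x + 40, y) = HH (x, y) - 40 := by
  have h1 : Xi (x + 40, y) = 0 :=
    Xi_eq_zero (not_act (Or.inr (Or.inl (show (1 : ℝ) ≤ x + 40 by linarith))))
  have h2 : Xi (x, y) = 0 := Xi_eq_zero (not_act (Or.inl (show x ≤ 0 by linarith)))
  show GG y - al (x + 40) + Xi (x + 40, y) = GG y - al x + Xi (x, y) - 40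
  rw [h1, h2, al_per h h']
  ring

lemma HH_per_snd (x : ℝ) {y : ℝ} (h : -17 < y) (h' : y < -15) : HH (x, y + 40) = HH (x, y) := by
  have h1 : Xi (x, y + 40) = 0 :=
    Xi_eq_zero (not_act (Or.inr (Or.inr (Or.inr (show (1 : ℝ) / 2 ≤ y + 40 by linarith)))))
  have h2 : Xi (x, y) = 0 :=
    Xi_eq_zero (not_act (Or.inr (Or.inr (Or.inl (show y ≤ 1 / 2 - 4 / 1024 by linarith)))))
  have h3 : GG (y + 40) = -9 := GG_right (by linarith)
  have h4 : GG y = -9 := GG_left (by nlinarith [av_ge])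
  show GG (y + 40) - al x + Xi (x, y + 40) = GG y - al x + Xi (x, y)
  rw [h1, h2, h3, h4]

lemma HH_slope {x x' : ℝ} (y : ℝ) (h : x ≤ x') : HH (x', y) - HH (x, y) ≤ -((x' - x) / 8) := by
  have h1 := al_slope h
  have h2 := (le_abs_self _).trans (Xi_lip x' x y)
  rw [abs_of_nonneg (sub_nonneg.2 h)] at h2
  show GG y - al x' + Xi (x', y) - (GG y - al x + Xi (x, y)) ≤ _
  linarith

lemma xib_cell (j n : ℕ) : MeasurableSet (Cell j n) := by
  have e : Cell j n = ⋃ y ∈ Yset j, ⋃ y' ∈ Yset j,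
      ({p | xi j y y' p = 0}ᶜ ∩ (fun p => ⌊(tt j y y' p + 2) / 4⌋₊) ⁻¹' {n}) := by
    ext p
    simp only [Cell, mem_ofPred_eq, mem_iUnion, mem_inter_iff, mem_compl_iff, mem_preimage,
      mem_singleton_iff, exists_prop, ne_eq]
  rw [e]
  refine Finset.measurableSet_biUnion _ fun y _ => Finset.measurableSet_biUnion _ fun y' _ => ?_
  refine MeasurableSet.inter ?_ ?_
  · exact (isClosed_eq (contDiff_xi j y y').continuous continuous_const).measurableSet.compl
  · have hm : Measurable fun p => (tt j y y' p + 2) / 4 :=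
      ((contDiff_tt j y y').continuous.measurable.add_const 2).div_const 4
    exact (Nat.measurable_floor.comp hm) (measurableSet_singleton n)

lemma xib_act : MeasurableSet {p | Act p} := by
  have e : {p | Act p} = ⋃ j, ⋃ n, Cell j n := by
    ext p
    simp only [mem_ofPred_eq, mem_iUnion]
    constructor
    · rintro ⟨j, y, hy, y', hy', h⟩
      exact ⟨j, _, y, hy, y', hy', h, rfl⟩
    · rintro ⟨j, n, y, hy, y', hy', h, _⟩
      exact ⟨j, y, hy, y', hy', h⟩
  rw [e]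
  exact MeasurableSet.iUnion fun j => MeasurableSet.iUnion fun n => xib_cell j n

lemma measurable_sym : Measurable sym := by
  refine measurable_to_countable' fun b => ?_
  have e : sym ⁻¹' {b} = ({p : ℝ × ℝ | p.2 < 1 / 4} ∩ {_p | b = (0, 0)}) ∪
      ({p : ℝ × ℝ | 1 / 4 ≤ p.2} ∩ {p | Act p}ᶜ ∩ {_p | b = (1, 0)}) ∪
      ⋃ j, ⋃ n, (Cell j n ∩ {_p | b = (j + 1, n)}) := by
    ext p
    simp only [mem_preimage, mem_singleton_iff, mem_union, mem_inter_iff, mem_ofPred_eq,
      mem_compl_iff, mem_iUnion]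
    constructor
    · rintro rfl
      rcases lt_or_ge p.2 (1 / 4) with h | h
      · exact Or.inl (Or.inl ⟨h, sym_zero h⟩)
      · by_cases ha : Act p
        · obtain ⟨j, y, hy, y', hy', h0⟩ := ha
          exact Or.inr ⟨j, _, ⟨y, hy, y', hy', h0, rfl⟩, sym_act (sep j) hy hy' h0⟩
        · exact Or.inl (Or.inr ⟨⟨h, ha⟩, sym_base h ha⟩)
    · rintro ((⟨h, rfl⟩ | ⟨⟨h, ha⟩, rfl⟩) | ⟨j, n, ⟨y, hy, y', hy', h0, rfl⟩, rfl⟩)
      · exact sym_zero h
      · exact sym_base h ha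
      · exact sym_act (sep j) hy hy' h0
  rw [e]
  refine MeasurableSet.union (MeasurableSet.union ?_ ?_) ?_
  · exact (measurableSet_lt measurable_snd measurable_const).inter (MeasurableSet.const _)
  · exact ((measurableSet_le measurable_const measurable_snd).inter xib_act.compl).inter
      (MeasurableSet.const _)
  · exact MeasurableSet.iUnion fun j => MeasurableSet.iUnion fun n =>
      (xib_cell j n).inter (MeasurableSet.const _)

end XiBPart

section OrbKPart

/-! Structure of the orbits in the core. -/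


open MeasureTheory Set Filter Topology

variable {x : ℤ → ℝ} {t : ℤ}

lemma orbk_pos {z : ℕ → ℝ} (h1 : ∀ s, z s ≤ 1)
    (h2 : ∀ s, z (s + 1) < 1 / 4 → z (s + 2) + z s = av * z (s + 1))
    (h3 : ∃ s, 1 / 4 ≤ z (s + 1)) : 0 < z 1 - z 0 / lam := by
  by_contra hc
  have hl : (4 : ℝ) < lam := by unfold lam; norm_num
  have hl0 : (0 : ℝ) < lam := by linarith
  have small : ∀ s, z (s + 1) - z s / lam ≤ 0 → z (s + 1) < 1 / 4 := by
    intro s hs
    have : z s / lam < 1 / 4 := by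
      rw [div_lt_iff₀ hl0]
      linarith [h1 s]
    linarith
  have key : ∀ s, z (s + 1) - z s / lam ≤ 0 := by
    intro s
    induction s with
    | zero => exact not_lt.1 hc
    | succ s ih =>
      have e := h2 s (small s ih)
      have e2 : z (s + 1 + 1) - z (s + 1) / lam = lam * (z (s + 1) - z s / lam) := by
        have e3 : z (s + 1 + 1) = av * z (s + 1) - z s := by rw [← e]; ring
        rw [e3]
        unfold av
        field_simp
        ring
      rw [e2]
      exact mul_nonpos_of_nonneg_of_nonpos hl0.le ih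
  obtain ⟨s, hs⟩ := h3
  exact absurd (small s (key s)) (not_lt.2 hs)

lemma Orb.zero (h : Orb x) (ht : x t < 1 / 4) : x (t + 1) + x (t - 1) = av * x t := by
  obtain ⟨h0, -, he⟩ := h t
  have hx : Xi (x (t - 1), x t) = 0 :=
    Xi_eq_zero (not_act (Or.inr (Or.inr (Or.inl (by show x t ≤ _; linarith)))))
  have h1 := (h (t + 1)).2.1
  have h2 := (h (t - 1)).2.1
  rw [hx, add_zero] at he
  have h3 : av * x t ≤ 2 := by
    by_contra hc
    have := GG_big (not_le.1 hc) (by linarith)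
    linarith
  rw [he, GG_lin h0 h3]

lemma Orb.trivial (h : Orb x) (ht : ∀ t, x t < 1 / 4) : ∀ t, x t = 0 := by
  have key : ∀ n : ℕ, ∀ t, x t ≤ (1 / 2) ^ n := by
    intro n
    induction n with
    | zero => intro t; simpa using (h t).2.1
    | succ n ih =>
      intro t
      have h1 := h.zero (ht t)
      have h2 := ih (t + 1)
      have h3 := ih (t - 1)
      have h4 := (h t).1
      have h5 := av_ge
      rw [pow_succ]
      nlinarith
  intro t
  refine le_antisymm ?_ (h t).1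
  exact ge_of_tendsto' (tendsto_pow_atTop_nhds_zero_of_lt_one (r := (1 / 2 : ℝ)) (by norm_num)
    (by norm_num)) fun n => key n t

lemma Orb.pass (h : Orb x) (h' : Rc x) (ht : 1 / 4 ≤ x t) :
    0 < 1 / 2 - x t ∧ 1 / 2 - x t < 4 / 1024 := by
  obtain ⟨h0, h1, he⟩ := h t
  have h2 := (h (t + 1)).2.1
  have h3 := (h (t - 1)).2.1
  constructor
  · by_contra hc
    have hc' : 1 / 2 ≤ x t := by linarith
    have hx : Xi (x (t - 1), x t) = 0 :=
      Xi_eq_zero (not_act (Or.inr (Or.inr (Or.inr hc'))))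
    rw [hx, add_zero] at he
    have h4 := GG_after hc'
    have h5 := orbk_pos (z := fun s : ℕ => x (t + s)) (fun s => (h _).2.1)
      (fun s hs => by
        have := h.zero hs
        have e1 : t + ((s + 1 : ℕ) : ℤ) + 1 = t + ((s + 2 : ℕ) : ℤ) := by push_cast; ring
        have e2 : t + ((s + 1 : ℕ) : ℤ) - 1 = t + (s : ℤ) := by push_cast; ring
        rw [e1, e2] at this
        exact this)
      (by
        obtain ⟨s, hs, hs'⟩ := (h' (t + 1)).1
        refine ⟨(s - (t + 1)).toNat, ?_⟩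
        have e : t + (((s - (t + 1)).toNat + 1 : ℕ) : ℤ) = s := by
          push_cast; rw [Int.toNat_of_nonneg (by omega)]; ring
        show 1 / 4 ≤ x (t + (((s - (t + 1)).toNat + 1 : ℕ) : ℤ))
        rw [e]; exact hs')
    have h6 := orbk_pos (z := fun s : ℕ => x (t - s)) (fun s => (h _).2.1)
      (fun s hs => by
        have := h.zero hs
        have e1 : t - ((s + 1 : ℕ) : ℤ) - 1 = t - ((s + 2 : ℕ) : ℤ) := by push_cast; ring
        have e2 : t - ((s + 1 : ℕ) : ℤ) + 1 = t - (s : ℤ) := by push_cast; ring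
        rw [e1, e2, add_comm] at this
        exact this)
      (by
        obtain ⟨s, hs, hs'⟩ := (h' (t - 1)).2
        refine ⟨(t - 1 - s).toNat, ?_⟩
        have e : t - (((t - 1 - s).toNat + 1 : ℕ) : ℤ) = s := by
          push_cast; rw [Int.toNat_of_nonneg (by omega)]; ring
        show 1 / 4 ≤ x (t - (((t - 1 - s).toNat + 1 : ℕ) : ℤ))
        rw [e]; exact hs')
    simp only [Nat.cast_one, Nat.cast_zero, add_zero, sub_zero] at h5 h6
    have e : 2 * x t / lam = x t / lam + x t / lam := by ring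
    linarith
  · by_contra hc
    have hc' : x t ≤ 1 / 2 - 4 / 1024 := by linarith
    have hx : Xi (x (t - 1), x t) = 0 :=
      Xi_eq_zero (not_act (Or.inr (Or.inr (Or.inl hc'))))
    rw [hx, add_zero] at he
    have h4 := av_ge
    have := GG_big (x := x t) (by nlinarith) hc'
    linarith

lemma Rc.right (h' : Rc x) (t : ℤ) :
    ∃ r : ℕ, 1 ≤ r ∧ (∀ s : ℕ, 0 < s → s < r → x (t + s) < 1 / 4) ∧ 1 / 4 ≤ x (t + r) := by
  classical
  have hex : ∃ r : ℕ, 1 ≤ r ∧ 1 / 4 ≤ x (t + r) := by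
    obtain ⟨s, hs, hs'⟩ := (h' (t + 1)).1
    refine ⟨(s - t).toNat, by omega, ?_⟩
    have e : t + ((s - t).toNat : ℤ) = s := by omega
    rw [e]; exact hs'
  refine ⟨Nat.find hex, (Nat.find_spec hex).1, fun s hs hs' => ?_, (Nat.find_spec hex).2⟩
  by_contra hc
  exact Nat.find_min hex hs' ⟨hs, not_lt.1 hc⟩

lemma Rc.left (h' : Rc x) (t : ℤ) :
    ∃ r : ℕ, 1 ≤ r ∧ (∀ s : ℕ, 0 < s → s < r → x (t - s) < 1 / 4) ∧ 1 / 4 ≤ x (t - r) := by
  classical
  have hex : ∃ r : ℕ, 1 ≤ r ∧ 1 / 4 ≤ x (t - r) := by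
    obtain ⟨s, hs, hs'⟩ := (h' (t - 1)).2
    refine ⟨(t - s).toNat, by omega, ?_⟩
    have e : t - ((t - s).toNat : ℤ) = s := by omega
    rw [e]; exact hs'
  refine ⟨Nat.find hex, (Nat.find_spec hex).1, fun s hs hs' => ?_, (Nat.find_spec hex).2⟩
  by_contra hc
  exact Nat.find_min hex hs' ⟨hs, not_lt.1 hc⟩

lemma Orb.zr_right (h : Orb x) {r : ℕ} (hr : ∀ s : ℕ, 0 < s → s < r → x (t + s) < 1 / 4) :
    ZR (fun s => x (t + s)) r := by
  intro s hs hs'
  have := h.zero (hr s hs hs')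
  have e1 : t + (s : ℤ) + 1 = t + ((s + 1 : ℕ) : ℤ) := by push_cast; ring
  have e2 : t + (s : ℤ) - 1 = t + ((s - 1 : ℕ) : ℤ) := by omega
  rw [e1, e2] at this
  exact this

lemma Orb.zr_left (h : Orb x) {r : ℕ} (hr : ∀ s : ℕ, 0 < s → s < r → x (t - s) < 1 / 4) :
    ZR (fun s => x (t - s)) r := by
  intro s hs hs'
  have := h.zero (hr s hs hs')
  have e1 : t - (s : ℤ) - 1 = t - ((s + 1 : ℕ) : ℤ) := by push_cast; ring
  have e2 : t - (s : ℤ) + 1 = t - ((s - 1 : ℕ) : ℤ) := by omega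
  rw [e1, e2, add_comm] at this
  exact this

/-- A passage where no wiggle is active follows the staircase. -/
lemma Orb.base (h : Orb x) (h' : Rc x) (ht : 1 / 4 ≤ x t) (ha : ¬ Act (x (t - 1), x t))
    {r r' : ℕ} (hr : 1 ≤ r) (h1 : ∀ s : ℕ, 0 < s → s < r → x (t + s) < 1 / 4)
    (h2 : 1 / 4 ≤ x (t + r)) (hr' : 1 ≤ r') (h3 : ∀ s : ℕ, 0 < s → s < r' → x (t - s) < 1 / 4)
    (h4 : 1 / 4 ≤ x (t - r')) : 1 / 2 - x t ∈ II (min r r') ∧
      (x (t + 1) - x t / lam) + (x (t - 1) - x t / lam) = Af (min r r') (1 / 2 - x t) := by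
  have hab : ∀ {u : ℤ}, 1 / 4 ≤ x u → |1 / 2 - x u| ≤ 5 / 1024 := by
    intro u hu
    obtain ⟨a, b⟩ := h.pass h' hu
    rw [abs_le]; constructor <;> linarith
  have b1 := (gap_band hr (h.zr_right h1) (by simpa using hab ht) (hab h2)).1
  have b2 := (gap_band hr' (h.zr_left h3) (by simpa using hab ht) (hab h4)).1
  simp only [Nat.cast_one, Nat.cast_zero, add_zero, sub_zero] at b1 b2
  obtain ⟨s1, s2⟩ := bands_sum rfl b1 b2
  obtain ⟨p1, p2⟩ := h.pass h' ht
  have he := (h t).2.2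
  rw [Xi_eq_zero ha, add_zero, GG_pass (by linarith) (by linarith)] at he
  have e : (x (t + 1) - x t / lam) + (x (t - 1) - x t / lam) = gam (1 / 2 - x t) := by
    have e' : 2 * x t / lam = x t / lam + x t / lam := by ring
    linarith
  have hk : 1 ≤ min r r' := le_min hr hr'
  rw [e] at s1 s2
  have hI := mem_II_of_gam hk s1 s2
  exact ⟨hI, by rw [e, gam_eq hk hI]⟩

lemma Orb.pos (h : Orb x) (h' : Rc x) (ht : 1 / 4 ≤ x t) : ∃ k, 1 ≤ k ∧ 1 / 2 - x t ∈ II k := by
  by_cases ha : Act (x (t - 1), x t)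
  · obtain ⟨j, -, hj, -⟩ := ha.loc
    exact ⟨m j, m_pos j, hj⟩
  · obtain ⟨r, hr, h1, h2⟩ := h'.right t
    obtain ⟨r', hr', h3, h4⟩ := h'.left t
    exact ⟨min r r', le_min hr hr', (h.base h' ht ha hr h1 h2 hr' h3 h4).1⟩

end OrbKPart

section ForcePart

/-! An active wiggle forces the two neighbouring blocks. -/


open MeasureTheory Set Filter Topology

lemma force_fwd {x : ℤ → ℝ} {t : ℤ} (h : Orb x) {j : ℕ} {c : ℕ → ℕ} {X : ℕ → ℝ} (hc : Adm j c)
    (hX : Sol j c X) (h0 : |1 / 2 - X 0| ≤ 5 / 1024) (h1 : |1 / 2 - X (T j)| ≤ 5 / 1024)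
    (e0 : X 0 = x t) (e1 : X 1 = x (t + 1)) :
    x (t + T j) = X (T j) ∧ ∀ s : ℕ, 0 < s → s < T j → nm x (t + s) = code (sk j s) (c s) := by
  have key : ∀ s : ℕ, s < T j → x (t + s) = X s ∧ x (t + s + 1) = X (s + 1) := by
    intro s
    induction s with
    | zero => exact fun _ => ⟨by simpa using e0.symm, by simpa using e1.symm⟩
    | succ s ih =>
      intro hs
      obtain ⟨a1, a2⟩ := ih (by omega)
      have v := (valid hc hX h0 h1 (Nat.succ_pos s) hs).1
      have w := (h (t + s + 1)).2.2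
      simp only [Nat.succ_eq_add_one, Nat.add_sub_cancel, add_sub_cancel_right] at v w
      rw [a1, a2] at w
      refine ⟨by rw [← a2]; congr 1; push_cast; ring, ?_⟩
      have : t + ((s + 1 : ℕ) : ℤ) + 1 = t + s + 1 + 1 := by push_cast; ring
      rw [this]; linarith
  refine ⟨?_, fun s hs hs' => ?_⟩
  · have := (key (T j - 1) (by have := T_pos j; omega)).2
    have e : T j - 1 + 1 = T j := by have := T_pos j; omega
    rw [e] at this
    rw [← this]; congr 1
    have := T_pos j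
    omega
  · rw [← (valid hc hX h0 h1 hs hs').2, ← (key s hs').1, ← (key (s - 1) (by omega)).1]
    have : t + ((s - 1 : ℕ) : ℤ) = t + s - 1 := by omega
    rw [this]; rfl

lemma force_inj {u u' v : ℝ} (h : u - Xi (u, v) = u' - Xi (u', v)) : u = u' := by
  have h1 := Xi_lip u u' v
  have h2 : Xi (u, v) - Xi (u', v) = u - u' := by linarith
  rw [h2] at h1
  have h3 := abs_nonneg (u - u')
  have h4 : |u - u'| = 0 := by linarith
  linarith [abs_eq_zero.1 h4]

lemma force_bwd {x : ℤ → ℝ} {t : ℤ} (h : Orb x) {j : ℕ} {c : ℕ → ℕ} {X : ℕ → ℝ} (hc : Adm j c)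
    (hX : Sol j c X) (h0 : |1 / 2 - X 0| ≤ 5 / 1024) (h1 : |1 / 2 - X (T j)| ≤ 5 / 1024)
    (e0 : X 0 = x t) (e1 : X 1 = x (t - 1)) :
    x (t - T j) = X (T j) ∧ ∀ s : ℕ, 0 < s → s < T j → nm x (t - s) = code (sk j s) (c s) := by
  have val : ∀ s : ℕ, 0 < s → s < T j → X (s - 1) + X (s + 1) = GG (X s) + Xi (X (s + 1), X s) ∧
      sym (X (s + 1), X s) = code (sk j s) (c s) := by
    intro s hs hs'
    have v := valid hc.rev hX.rev (by simpa using h1) (by simpa using h0) (s := T j - s)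
      (by omega) (by omega)
    have a1 : T j - (T j - s + 1) = s - 1 := by omega
    have a2 : T j - (T j - s - 1) = s + 1 := by omega
    have a3 : T j - (T j - s) = s := by omega
    simp only [a1, a2, a3] at v
    rw [sk_symm hs hs', code_swap (hc s hs hs')] at v
    exact v
  have key : ∀ s : ℕ, s < T j → x (t - s) = X s ∧ x (t - s - 1) = X (s + 1) := by
    intro s
    induction s with
    | zero => exact fun _ => ⟨by simpa using e0.symm, by simpa using e1.symm⟩
    | succ s ih =>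
      intro hs
      obtain ⟨a1, a2⟩ := ih (by omega)
      have v := (val (s + 1) (Nat.succ_pos s) hs).1
      have w := (h (t - s - 1)).2.2
      simp only [Nat.add_sub_cancel, sub_add_cancel] at v w
      rw [a1, a2] at w
      refine ⟨by rw [← a2]; congr 1; push_cast; ring, ?_⟩
      have : t - ((s + 1 : ℕ) : ℤ) - 1 = t - s - 1 - 1 := by push_cast; ring
      rw [this]
      exact force_inj (v := X (s + 1)) (by linarith)
  refine ⟨?_, fun s hs hs' => ?_⟩
  · have := (key (T j - 1) (by have := T_pos j; omega)).2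
    have e : T j - 1 + 1 = T j := by have := T_pos j; omega
    rw [e] at this
    rw [← this]; congr 1
    have := T_pos j
    omega
  · rw [← (val s hs hs').2, ← (key s hs').1, ← (key s hs').2]; rfl

theorem force {x : ℤ → ℝ} {t : ℤ} (h : Orb x) (h' : Rc x) {j : ℕ} {y y' : ℝ} (hy : y ∈ Yset j)
    (hy' : y' ∈ Yset j) (ha : xi j y y' (x (t - 1), x t) ≠ 0) :
    ∃ c c', Adm j c ∧ Adm j c' ∧ y = yv j c ∧ y' = yv j c' ∧
      (∀ s : ℕ, 0 < s → s < T j →
        nm x (t - s) = code (sk j s) (c s) ∧ nm x (t + s) = code (sk j s) (c' s)) ∧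
      1 / 4 ≤ x (t - T j) ∧ 1 / 4 ≤ x (t + T j) ∧
      (x (t + 1) - x t / lam) + (x (t - 1) - x t / lam) = Af (m j) (1 / 2 - x t) -
        uu j * DD (2 ^ be j - 1) (tt j y y' (x (t - 1), x t)) ∧
      |tt j y y' (x (t - 1), x t) - DD (2 ^ be j - 1) (tt j y y' (x (t - 1), x t))| ≤ 1 := by
  obtain ⟨c, hc, rfl⟩ := mem_Yset.1 hy
  obtain ⟨c', hc', rfl⟩ := mem_Yset.1 hy'
  obtain ⟨hj, hR⟩ := xi_ne ha
  have loc : 1 / 2 - x t ∈ II (m j) := (Rg_loc hj hy hy' hR).1
  have hb := II_bound (m_pos j) loc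
  have hr := rho_ne j
  have hr0 : 0 < |rho j| := abs_pos.2 hr
  have hu := uu_pos j
  have hd := de_le hj
  have hd0 := de_pos j
  have hd1 := de'_pos j
  have hd2 := de'_le j
  have hXi := Xi_eq (sep j) hj hy hy' hR
  obtain ⟨r1, r2, r3⟩ := hR
  set ω := om j (yv j c) (x (t - 1), x t) with hω
  set τ := tt j (yv j c) (yv j c') (x (t - 1), x t) with hτ
  set D := DD (2 ^ be j - 1) τ with hD
  have eω : rho j * ω = x (t - 1) - x t / lam - yv j c - kap j * (1 / 2 - x t) := by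
    rw [hω, om, mul_div_cancel₀ _ hr]
  have eτ : uu j * τ = Af (m j) (1 / 2 - x t) - 2 * kap j * (1 / 2 - x t) - yv j c - yv j c' := by
    rw [hτ, tt, mul_div_cancel₀ _ hu.ne']
  have ab : |1 / 2 - x t| ≤ 5 / 1024 := by rw [abs_of_pos hb.1]; linarith [hb.2]
  -- the past
  obtain ⟨X, hX, x0, x1⟩ := exists_sol j c (1 / 2 - x t) ω
  have x0' : X 0 = x t := by rw [x0]; ring
  have p1 : |1 / 2 - X (T j)| = |ω| := by rw [x1]; congr 1; ring
  have v := hX.val
  rw [x0', x1] at v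
  obtain ⟨p2, p3⟩ := force_bwd h hc hX (by rwa [x0']) (by rw [p1]; linarith) x0' (by linarith)
  have p4 : 1 / 4 ≤ x (t - T j) := by rw [p2, x1]; linarith [(abs_le.1 r1).2]
  have p5 : |ω| ≤ de j := by
    obtain ⟨k, k1, k2⟩ := h.pos h' p4
    rw [p2] at k2
    rw [← p1]
    exact II_gap hj k1 k2 (by rw [p1]; linarith)
  have p6 : chi (ω / de' j) = 1 :=
    chi_one (by rw [abs_div, abs_of_pos hd1, div_le_iff₀ hd1]; linarith)
  have law : (x (t + 1) - x t / lam) + (x (t - 1) - x t / lam) =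
      Af (m j) (1 / 2 - x t) - uu j * D := by
    have w := (h t).2.2
    rw [hXi, valid_pass (m_pos j) loc, xi, ← hω, ← hτ, ← hD, p6] at w
    have : 2 * x t / lam = x t / lam + x t / lam := by ring
    linarith
  -- the future
  set ω' := (x (t + 1) - x t / lam - yv j c' - kap j * (1 / 2 - x t)) / rho j with hω'
  have eω' : rho j * ω' = x (t + 1) - x t / lam - yv j c' - kap j * (1 / 2 - x t) := by
    rw [hω', mul_div_cancel₀ _ hr]
  have sum : rho j * (ω + ω') = uu j * (τ - D) := by linarith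
  have D0 : 0 ≤ D := DD_nonneg _ _
  have D1 : D ≤ 8 * 2 ^ be j := by
    refine (DD_le _ _).trans ?_
    have : ((2 ^ be j - 1 : ℕ) : ℝ) ≤ 2 ^ be j := by exact_mod_cast Nat.sub_le _ _
    linarith
  have B1 : (1 : ℝ) ≤ 2 ^ be j := one_le_pow₀ (by norm_num)
  have q0 : |τ - D| ≤ 16 * 2 ^ be j := abs_le.2 ⟨by linarith, by linarith⟩
  have q1 : |ω + ω'| ≤ de' j / 64 := by
    have a1 : |rho j| * |ω + ω'| = uu j * |τ - D| := by
      rw [← abs_mul, sum, abs_mul, abs_of_pos hu]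
    have a2 := uu_le hj
    have a3 : (1 / 2 : ℝ) ^ (j + 10) ≤ (1 / 2) ^ 10 :=
      pow_le_pow_of_le_one (by norm_num) (by norm_num) (by omega)
    have a4 : |rho j| * |ω + ω'| ≤ |rho j| * (de' j / 64) := by
      rw [a1]
      calc uu j * |τ - D| ≤ uu j * (16 * 2 ^ be j) := by gcongr
        _ = 16 * ((1 / 2) ^ (j + 10) * (|rho j| * de' j)) := by linarith [a2]
        _ ≤ 16 * ((1 / 2) ^ 10 * (|rho j| * de' j)) := by gcongr
        _ = |rho j| * (de' j / 64) := by ring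
    exact le_of_mul_le_mul_left a4 hr0
  have q2 : |ω'| ≤ de' j := by
    have := abs_le.1 q1
    have := abs_le.1 p5
    exact abs_le.2 ⟨by linarith, by linarith⟩
  obtain ⟨X', hX', y0, y1⟩ := exists_sol j c' (1 / 2 - x t) ω'
  have y0' : X' 0 = x t := by rw [y0]; ring
  have f1 : |1 / 2 - X' (T j)| = |ω'| := by rw [y1]; congr 1; ring
  have v' := hX'.val
  rw [y0', y1] at v'
  obtain ⟨f2, f3⟩ := force_fwd h hc' hX' (by rwa [y0']) (by rw [f1]; linarith) y0' (by linarith)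
  have f4 : 1 / 4 ≤ x (t + T j) := by rw [f2, y1]; linarith [(abs_le.1 q2).2]
  have f5 : |ω'| ≤ de j := by
    obtain ⟨k, k1, k2⟩ := h.pos h' f4
    rw [f2] at k2
    rw [← f1]
    exact II_gap hj k1 k2 (by rw [f1]; exact q2)
  refine ⟨c, c', hc, hc', rfl, rfl, fun s hs hs' => ⟨p3 s hs hs', f3 s hs hs'⟩, p4, f4, law, ?_⟩
  have a1 : uu j * |τ - D| ≤ uu j * 1 := by
    rw [← abs_of_pos hu, ← abs_mul, ← sum, abs_mul, abs_of_pos hu, uu]
    nlinarith [abs_add_le ω ω']
  exact le_of_mul_le_mul_left a1 hu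

theorem lang {x : ℤ → ℝ} (h : Orb x) (h' : Rc x) : Lang (nm x) := by
  intro t
  by_cases h0 : x t < 1 / 4
  · exact Or.inl (sym_zero h0)
  by_cases ha : Act (x (t - 1), x t)
  swap
  · exact Or.inr (Or.inl (sym_base (not_lt.1 h0) ha))
  obtain ⟨j, y, hy, y', hy', ha⟩ := ha
  obtain ⟨c, c', -, hc', -, -, e, -⟩ := force h h' hy hy' ha
  refine Or.inr (Or.inr ⟨j, _, c', (xi_ne ha).1, ?_, sym_act (sep j) hy hy' ha, hc',
    fun s hs hs' => (e s hs hs').2⟩)
  obtain ⟨-, -, -, -, -, -, -, -, -, -, b⟩ := force h h' hy hy' ha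
  have hD : DD (2 ^ be j - 1) (tt j y y' (x (t - 1), x t)) ≠ 0 := fun h2 => ha (by simp [xi, h2])
  have B1 : 1 ≤ 2 ^ be j := Nat.one_le_two_pow
  rw [Nat.floor_lt' (by omega)]
  rcases DD_branch hD b with ⟨n, -, n2, n3, -⟩ | ⟨n, n2, n3, -⟩
  · have : (n : ℝ) + 1 ≤ 2 ^ be j := by exact_mod_cast (by omega : n + 1 ≤ 2 ^ be j)
    push_cast
    linarith [(abs_le.1 n3).2]
  · have : (n : ℝ) + 1 ≤ 2 ^ be j := by exact_mod_cast (by omega : n + 1 ≤ 2 ^ be j)
    push_cast
    linarith [(abs_le.1 n3).2]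

end ForcePart

section InjPart

/-! Names determine orbits. -/


open MeasureTheory Set Filter Topology

lemma inj_nm {x : ℤ → ℝ} {t : ℤ} : nm x t = (0, 0) ↔ x t < 1 / 4 := sym_eq_zero

lemma inj_lt {x x' : ℤ → ℝ} (e : nm x = nm x') (t : ℤ) : x t < 1 / 4 ↔ x' t < 1 / 4 := by
  have h1 : nm x t = (0, 0) ↔ x t < 1 / 4 := sym_eq_zero
  have h2 : nm x' t = (0, 0) ↔ x' t < 1 / 4 := sym_eq_zero
  rw [← h1, ← h2, e]

lemma inj_gap {j r : ℕ} (hj : 1 ≤ j) {P : ℕ → Prop} (h : ∀ s, 0 < s → s < T j → (P s ↔ sk j s = none))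
    (g0 : 1 ≤ r) (g1 : ∀ s, 0 < s → s < r → P s) (g2 : ¬ P r) : r = m j := by
  obtain ⟨-, a2, a3⟩ := sk_right (T_pos j) (sk_zero j)
  have hm : m j < T j := by
    obtain ⟨i, rfl⟩ : ∃ i, j = i + 1 := ⟨j - 1, by omega⟩
    have := m_le_T' i
    have := m_pos (i + 1)
    omega
  simp only [zero_add] at a2 a3
  rcases lt_trichotomy r (m j) with h1 | h1 | h1
  · exact absurd ((h r g0 (by omega)).2 (a2 r g0 h1)) g2
  · exact h1
  · exact absurd ((h _ (m_pos j) hm).1 (g1 _ (m_pos j) h1)) (a3 hm)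

lemma inj_floor {τ : ℝ} {n : ℕ} (h : |τ - 4 * n| ≤ 1) : ⌊(τ + 2) / 4⌋₊ = n := by
  have := abs_le.1 h
  have c0 : (0 : ℝ) ≤ n := Nat.cast_nonneg _
  rw [Nat.floor_eq_iff (by linarith)]
  constructor <;> linarith

/-- Two orbits with the same name obey the same affine law at each passage. -/
lemma same_law {x x' : ℤ → ℝ} (h : Orb x) (hr : Rc x) (h' : Orb x') (hr' : Rc x')
    (e : nm x = nm x') {t : ℤ} (ht : 1 / 4 ≤ x t) {r r' : ℕ} (g0 : 1 ≤ r)
    (g1 : ∀ s : ℕ, 0 < s → s < r → x (t + s) < 1 / 4) (g2 : 1 / 4 ≤ x (t + r)) (g3 : 1 ≤ r')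
    (g4 : ∀ s : ℕ, 0 < s → s < r' → x (t - s) < 1 / 4) (g5 : 1 / 4 ≤ x (t - r')) :
    ∃ σ : ℝ, ss (min r r') ≤ |σ| ∧ σ * (x t - x' t) =
      (x (t + 1) - x' (t + 1) - (x t - x' t) / lam) +
        (x (t - 1) - x' (t - 1) - (x t - x' t) / lam) := by
  have ge : ∀ u, 1 / 4 ≤ x u → 1 / 4 ≤ x' u := fun u hu =>
    not_lt.1 fun h2 => not_lt.2 hu ((inj_lt e u).2 h2)
  have et : sym (x (t - 1), x t) = sym (x' (t - 1), x' t) := congrFun e t
  have sd : (x t - x' t) / lam = x t / lam - x' t / lam := sub_div _ _ _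
  by_cases ha : Act (x (t - 1), x t)
  · obtain ⟨j, y, hy, y', hy', ha⟩ := ha
    have hj := (xi_ne ha).1
    have s1 := sym_act (sep j) hy hy' ha
    have ha' : Act (x' (t - 1), x' t) := by
      by_contra h2
      rw [sym_base (ge t ht) h2, s1] at et
      have := congrArg Prod.fst et
      simp only at this
      omega
    obtain ⟨j', z, hz, z', hz', ha'⟩ := ha'
    rw [s1, sym_act (sep j') hz hz' ha'] at et
    obtain rfl : j = j' := by
      have := congrArg Prod.fst et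
      simp only at this
      omega
    have ef := congrArg Prod.snd et
    simp only at ef
    obtain ⟨c, c', hc, hc', rfl, rfl, n1, -, -, l1, b1⟩ := force h hr hy hy' ha
    obtain ⟨d, d', hd, hd', rfl, rfl, n2, -, -, l2, b2⟩ := force h' hr' hz hz' ha'
    have e1 : yv j d = yv j c := yv_congr fun s hs hs' => code_inj (hd s hs hs') (hc s hs hs')
      (by rw [← (n1 s hs hs').1, ← (n2 s hs hs').1, e])
    have e2 : yv j d' = yv j c' := yv_congr fun s hs hs' => code_inj (hd' s hs hs') (hc' s hs hs')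
      (by rw [← (n1 s hs hs').2, ← (n2 s hs hs').2, e])
    rw [e1, e2] at ha' ef l2 b2
    have r1 : r = m j := inj_gap hj (P := fun s : ℕ => x (t + s) < 1 / 4) (fun s hs hs' => by
      rw [← code_eq_zero (n := c' s), ← (n1 s hs hs').2]; exact inj_nm.symm) g0 g1
      (not_lt.2 g2)
    have r2 : r' = m j := inj_gap hj (P := fun s : ℕ => x (t - s) < 1 / 4) (fun s hs hs' => by
      rw [← code_eq_zero (n := c s), ← (n1 s hs hs').1]; exact inj_nm.symm) g3 g4
      (not_lt.2 g5)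
    rw [r1, r2, min_self]
    have D1 : DD (2 ^ be j - 1) (tt j (yv j c) (yv j c') (x (t - 1), x t)) ≠ 0 :=
      fun h2 => ha (by simp [xi, h2])
    have D2 : DD (2 ^ be j - 1) (tt j (yv j c) (yv j c') (x' (t - 1), x' t)) ≠ 0 :=
      fun h2 => ha' (by simp [xi, h2])
    have hu := uu_pos j
    have t1 : uu j * tt j (yv j c) (yv j c') (x (t - 1), x t) =
        Af (m j) (1 / 2 - x t) - 2 * kap j * (1 / 2 - x t) - yv j c - yv j c' := by
      rw [tt, mul_div_cancel₀ _ hu.ne']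
    have t2 : uu j * tt j (yv j c) (yv j c') (x' (t - 1), x' t) =
        Af (m j) (1 / 2 - x' t) - 2 * kap j * (1 / 2 - x' t) - yv j c - yv j c' := by
      rw [tt, mul_div_cancel₀ _ hu.ne']
    have aa' : Af (m j) (1 / 2 - x t) - Af (m j) (1 / 2 - x' t) = -ss (m j) * (x t - x' t) := by
      unfold Af; ring
    have hs := ss_pos (m j)
    rcases DD_branch D1 b1 with ⟨n, -, -, u1, u2⟩ | ⟨n, -, u1, u2⟩ <;>
      rcases DD_branch D2 b2 with ⟨n', -, -, v1, v2⟩ | ⟨n', -, v1, v2⟩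
    · rw [inj_floor (n := 2 * n) (by push_cast; convert u1 using 2; ring),
        inj_floor (n := 2 * n') (by push_cast; convert v1 using 2; ring)] at ef
      obtain rfl : n = n' := by omega
      rw [u2] at l1
      rw [v2] at l2
      exact ⟨-ss (m j), by rw [abs_neg, abs_of_pos hs], by linarith⟩
    · rw [inj_floor (n := 2 * n) (by push_cast; convert u1 using 2; ring),
        inj_floor (n := 2 * n' + 1) (by push_cast; convert v1 using 2; ring)] at ef
      omega
    · rw [inj_floor (n := 2 * n + 1) (by push_cast; convert u1 using 2; ring),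
        inj_floor (n := 2 * n') (by push_cast; convert v1 using 2; ring)] at ef
      omega
    · rw [inj_floor (n := 2 * n + 1) (by push_cast; convert u1 using 2; ring),
        inj_floor (n := 2 * n' + 1) (by push_cast; convert v1 using 2; ring)] at ef
      obtain rfl : n = n' := by omega
      rw [u2] at l1
      rw [v2] at l2
      have k1 := abs_le.1 (abs_kap j)
      have k2 := sc_le_ss (m_pos j)
      have k3 := sc_pos (m j)
      exact ⟨4 * ss (m j) - 10 * kap j, le_abs.2 (Or.inl (by linarith)), by linarith⟩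
  · have ha' : ¬ Act (x' (t - 1), x' t) := by
      rintro ⟨j, y, hy, y', hy', ha'⟩
      rw [sym_base ht ha, sym_act (sep j) hy hy' ha'] at et
      have := congrArg Prod.fst et
      have := (xi_ne ha').1
      simp only at *
      omega
    have b1 := (h.base hr ht ha g0 g1 g2 g3 g4 g5).2
    have b2 := (h'.base hr' (ge t ht) ha' g0 (fun s a b => (inj_lt e _).1 (g1 s a b)) (ge _ g2) g3
      (fun s a b => (inj_lt e _).1 (g4 s a b)) (ge _ g5)).2
    refine ⟨-ss (min r r'), by rw [abs_neg, abs_of_pos (ss_pos _)], ?_⟩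
    unfold Af at b1 b2
    linarith

theorem nm_inj {x x' : ℤ → ℝ} (h : Orb x) (hr : Rc x) (h' : Orb x') (hr' : Rc x')
    (e : nm x = nm x') : x = x' := by
  have zr : ∀ t (r : ℕ), (∀ s : ℕ, 0 < s → s < r → x (t + s) < 1 / 4) →
      ZR (fun s => x (t + s) - x' (t + s)) r := by
    intro t r g s a b
    have a1 := h.zr_right g s a b
    have a2 := h'.zr_right (fun s a b => (inj_lt e _).1 (g s a b)) s a b
    simp only at a1 a2 ⊢
    linarith
  have zl : ∀ t (r : ℕ), (∀ s : ℕ, 0 < s → s < r → x (t - s) < 1 / 4) →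
      ZR (fun s => x (t - s) - x' (t - s)) r := by
    intro t r g s a b
    have a1 := h.zr_left g s a b
    have a2 := h'.zr_left (fun s a b => (inj_lt e _).1 (g s a b)) s a b
    simp only at a1 a2 ⊢
    linarith
  have step : ∀ D : ℝ, (∀ t, 1 / 4 ≤ x t → |x t - x' t| ≤ D) →
      ∀ t, 1 / 4 ≤ x t → |x t - x' t| ≤ D / 500 := by
    intro D hD t ht
    obtain ⟨r, g0, g1, g2⟩ := hr.right t
    obtain ⟨r', g3, g4, g5⟩ := hr.left t
    obtain ⟨σ, s1, s2⟩ := same_law h hr h' hr' e ht g0 g1 g2 g3 g4 g5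
    have := gap_contr (le_min g0 g3) (min_le_left r r') (min_le_right r r') (zr t r g1)
      (zl t r' g4) (by simp) s1 (by simpa using s2) (by simpa using hD t ht) (hD _ g2) (hD _ g5)
    simpa using this
  have all : ∀ n : ℕ, ∀ t, 1 / 4 ≤ x t → |x t - x' t| ≤ (1 / 500) ^ n := by
    intro n
    induction n with
    | zero =>
      intro t _
      have := h t
      have := h' t
      rw [pow_zero, abs_le]
      constructor <;> linarith
    | succ n ih => intro t ht; rw [pow_succ]; linarith [step _ ih t ht]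
  have pass : ∀ t, 1 / 4 ≤ x t → x t = x' t := by
    intro t ht
    have l := tendsto_pow_atTop_nhds_zero_of_lt_one (r := (1 / 500 : ℝ)) (by norm_num) (by norm_num)
    have := ge_of_tendsto' l fun n => all n t ht
    linarith [abs_eq_zero.1 (le_antisymm this (abs_nonneg _))]
  funext u
  obtain ⟨t, tu, ht⟩ := (hr u).2
  have nxt : x (t + 1) = x' (t + 1) := by
    obtain ⟨r, g0, g1, g2⟩ := hr.right t
    have := gap_abs g0 (zr t r g1)
    simp only [Nat.cast_zero, add_zero, Nat.cast_one, pass t ht, pass _ g2, sub_self, zero_div,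
      abs_zero, mul_zero, sub_zero] at this
    linarith [abs_eq_zero.1 (le_antisymm this (abs_nonneg _))]
  have key : ∀ n : ℕ, x (t + n) = x' (t + n) ∧ x (t + n + 1) = x' (t + n + 1) := by
    intro n
    induction n with
    | zero => exact ⟨by simpa using pass t ht, by simpa using nxt⟩
    | succ n ih =>
      have w := (h (t + n + 1)).2.2
      have w' := (h' (t + n + 1)).2.2
      simp only [add_sub_cancel_right] at w w'
      rw [ih.1, ih.2] at w
      have : t + ((n + 1 : ℕ) : ℤ) = t + n + 1 := by push_cast; ring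
      rw [this]
      exact ⟨ih.2, by linarith⟩
  have := (key (u - t).toNat).1
  rwa [Int.toNat_of_nonneg (by omega), add_sub_cancel] at this

end InjPart

section ExistPart

/-! Designated names are realised. -/


open MeasureTheory Set Filter Topology

/-- Approximate solutions. -/
def existF (ty : ℤ → Ty) (c : ℤ → ℕ) (n : ℕ) : Set (ℤ → ℝ) :=
  {x | (∀ t, x t ∈ Icc (0 : ℝ) 1) ∧ ∀ t : ℤ, -(n : ℤ) ≤ t → t ≤ n →
    x (t + 1) + x (t - 1) = sl (ty t) * x t + ic (ty t) (c t) ∧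
      (ty t ≠ none → |1 / 2 - x t| ≤ 5 / 1024)}

lemma exist_closed (ty : ℤ → Ty) (c : ℤ → ℕ) (n : ℕ) : IsClosed (existF ty c n) := by
  have e : existF ty c n = (⋂ t : ℤ, (fun x : ℤ → ℝ => x t) ⁻¹' Icc (0 : ℝ) 1) ∩
      ⋂ t : ℤ, ⋂ (_ : -(n : ℤ) ≤ t), ⋂ (_ : t ≤ n),
        ({x : ℤ → ℝ | x (t + 1) + x (t - 1) = sl (ty t) * x t + ic (ty t) (c t)} ∩
          ⋂ (_ : ty t ≠ none), {x : ℤ → ℝ | |1 / 2 - x t| ≤ 5 / 1024}) := by
    ext x
    simp only [existF, mem_ofPred_eq, mem_inter_iff, mem_iInter, mem_preimage]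
  rw [e]
  refine (isClosed_iInter fun t => isClosed_Icc.preimage (continuous_apply t)).inter
    (isClosed_iInter fun t => isClosed_iInter fun _ => isClosed_iInter fun _ =>
      (isClosed_eq (by fun_prop) (by fun_prop)).inter
        (isClosed_iInter fun _ => isClosed_le (by fun_prop) (by fun_prop)))

lemma exist_compact (ty : ℤ → Ty) (c : ℤ → ℕ) (n : ℕ) : IsCompact (existF ty c n) := by
  refine (isCompact_univ_pi fun _ : ℤ => isCompact_Icc (a := (0 : ℝ)) (b := 1)).of_isClosed_subset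
    (exist_closed ty c n) ?_
  intro x hx t _
  exact hx.1 t

lemma exist_anti (ty : ℤ → Ty) (c : ℤ → ℕ) (n : ℕ) : existF ty c (n + 1) ⊆ existF ty c n :=
  fun _ hx => ⟨hx.1, fun t h1 h2 => hx.2 t (by push_cast; omega) (by push_cast; omega)⟩

lemma exist_nonempty {ty : ℤ → Ty} {c : ℤ → ℕ} {n J : ℕ} {τ : ℤ} (h1 : τ < -n)
    (h2 : (n : ℤ) < τ + T J)
    (h : ∀ s, 0 < s → s < T J → ty (τ + s) = sk J s ∧ c (τ + s) < 2 ^ bt (sk J s)) :
    (existF ty c n).Nonempty := by
  obtain ⟨X, hX, hX0, hX1⟩ := exists_sol J (fun s => c (τ + s)) 0 0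
  have hc : Adm J fun s => c (τ + s) := fun s h0 hs => (h s h0 hs).2
  obtain ⟨f1, f2, -⟩ := formal hc hX (by rw [hX0]; norm_num) (by rw [hX1]; norm_num)
  have hsome : ∀ s, 0 < s → s < T J → sk J s ≠ none → 0 < 1 / 2 - X s ∧ 1 / 2 - X s < 4 / 1024 := by
    intro s h0 hs hne
    obtain ⟨⟨i, i'⟩, e⟩ := Option.ne_none_iff_exists'.1 hne
    exact II_bound (m_pos _) (f2 s i i' h0 hs e).1
  have hI : ∀ s, s ≤ T J → X s ∈ Icc (0 : ℝ) 1 := by
    intro s hs
    rcases Nat.eq_zero_or_pos s with rfl | h0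
    · rw [hX0]; norm_num
    rcases hs.eq_or_lt with rfl | hs
    · rw [hX1]; norm_num
    by_cases e : sk J s = none
    · obtain ⟨a1, a2⟩ := f1 s h0 hs e
      have := av_ge
      exact ⟨a1, by nlinarith⟩
    · obtain ⟨a1, a2⟩ := hsome s h0 hs e
      exact ⟨by linarith, by linarith⟩
  refine ⟨fun t => X (min (t - τ).toNat (T J)), fun t => hI _ (min_le_right _ _), ?_⟩
  intro t ht1 ht2
  obtain ⟨s, rfl⟩ : ∃ s : ℕ, t = τ + s := ⟨(t - τ).toNat, by omega⟩
  have h0 : 0 < s := by omega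
  have hs : s < T J := by omega
  have e1 : min (τ + (s : ℤ) + 1 - τ).toNat (T J) = s + 1 := by omega
  have e2 : min (τ + (s : ℤ) - 1 - τ).toNat (T J) = s - 1 := by omega
  have e3 : min (τ + (s : ℤ) - τ).toNat (T J) = s := by omega
  simp only [e1, e2, e3, (h s h0 hs).1]
  refine ⟨hX s h0 hs, fun hne => ?_⟩
  obtain ⟨a1, a2⟩ := hsome s h0 hs hne
  rw [abs_of_pos a1]
  linarith

theorem exists_orb {y : Om} (h : Des y) : ∃ x, Orb x ∧ Rc x ∧ nm x = y := by
  obtain ⟨ty, c, hy, hb⟩ := h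
  have hne : ∀ n, (existF ty c n).Nonempty := by
    intro n
    obtain ⟨J, τ, h1, h2, -, -, h⟩ := hb n
    exact exist_nonempty h1 h2 h
  obtain ⟨x, hx⟩ := IsCompact.nonempty_iInter_of_sequence_nonempty_isCompact_isClosed
    (existF ty c) (exist_anti ty c) hne (exist_compact ty c 0) (exist_closed ty c)
  rw [mem_iInter] at hx
  have hI : ∀ t, x t ∈ Icc (0 : ℝ) 1 := (hx 0).1
  have hall : ∀ t : ℤ, x (t + 1) + x (t - 1) = sl (ty t) * x t + ic (ty t) (c t) ∧
      (ty t ≠ none → |1 / 2 - x t| ≤ 5 / 1024) := fun t =>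
    (hx t.natAbs).2 t (by omega) (by omega)
  have hval : ∀ t : ℤ, x (t + 1) + x (t - 1) = GG (x t) + Xi (x (t - 1), x t) ∧
      sym (x (t - 1), x t) = code (ty t) (c t) := by
    intro t
    obtain ⟨J, τ, h1, h2, h3, h4, h⟩ := hb t.natAbs
    obtain ⟨s, hst⟩ : ∃ s : ℕ, t = τ + s := ⟨(t - τ).toNat, by omega⟩
    have h0 : 0 < s := by omega
    have hs : s < T J := by omega
    have ea : ∀ r : ℕ, τ + ((r + 1 : ℕ) : ℤ) = τ + r + 1 := fun r => by push_cast; ring
    have eb : ∀ r : ℕ, 0 < r → τ + ((r - 1 : ℕ) : ℤ) = τ + r - 1 := fun r hr => by omega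
    have hc : Adm J fun s => c (τ + s) := fun s h0 hs => (h s h0 hs).2
    have hX : Sol J (fun s => c (τ + s)) fun s => x (τ + s) := by
      intro r hr hr'
      have := (hall (τ + r)).1
      rw [(h r hr hr').1] at this
      simp only [ea, eb r hr]
      exact this
    have key := valid hc hX (by simpa using (hall τ).2 h3) ((hall _).2 h4) h0 hs
    simp only [ea, eb s h0] at key
    rw [hst, (h s h0 hs).1]
    exact key
  refine ⟨x, fun t => ⟨(hI t).1, (hI t).2, (hval t).1⟩, fun n => ?_, ?_⟩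
  · obtain ⟨J, τ, h1, h2, h3, h4, -⟩ := hb n.natAbs
    have a1 := abs_le.1 ((hall τ).2 h3)
    have a2 := abs_le.1 ((hall _).2 h4)
    exact ⟨⟨τ + T J, by omega, by linarith [a2.2]⟩, τ, by omega, by linarith [a1.2]⟩
  · funext t
    rw [hy t]
    exact (hval t).2

end ExistPart

end Pool.Agent.P.MP_1672e2_an.Cq
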