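import Pool.Agent.P.MP_1672e2_an.Cq.Comb
import Pool.Agent.P.MP_1672e2_an.Cx.Obs

set_option autoImplicit false

namespace Pool.Agent.P.MP_1672e2_an.Cq

section RkPart

/-! The rank one system: the map. -/

open MeasureTheory Set Filter Topology

lemma dn_le (j s : ℕ) : dn j s ≤ T j := by
  unfold dn
  split_ifs
  · exact (Nat.mod_lt _ (T_pos j)).le
  · exact le_rfl

lemma dn_out {j s : ℕ} (h : s < m (j + 1) ∨ T (j + 1) ≤ s + m (j + 1)) : dn j s = T j := by
  unfold dn
  rw [if_neg (by omega)]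

lemma dn_in {j s : ℕ} (h1 : m (j + 1) ≤ s) (h2 : s + m (j + 1) < T (j + 1)) :
    dn j s = (s - m (j + 1)) % T j := by
  unfold dn
  rw [if_pos ⟨h1, h2⟩]

lemma dn_mid {j P r : ℕ} (hd : T j ∣ P - m (j + 1)) (h1 : m (j + 1) ≤ P)
    (h2 : P + m (j + 1) < T (j + 1)) (hr : r < T j) : dn j (P + r) = r := by
  have h3 := gr_step hd h1 h2
  rw [dn_in (by omega) (by omega)]
  obtain ⟨q, hq⟩ := hd
  rw [show P + r - m (j + 1) = T j * q + r by omega, Nat.mul_add_mod, Nat.mod_eq_of_lt hr]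

lemma dn_lt {j s : ℕ} (h : dn j s < T j) : ∃ P, T j ∣ P - m (j + 1) ∧ m (j + 1) ≤ P ∧
    P + m (j + 1) + T j ≤ T (j + 1) ∧ s = P + dn j s := by
  have h1 : m (j + 1) ≤ s ∧ s + m (j + 1) < T (j + 1) := by
    by_contra hc
    rw [dn_out (by omega)] at h
    omega
  rw [dn_in h1.1 h1.2]
  have e := Nat.div_add_mod (s - m (j + 1)) (T j)
  have hd : T j ∣ m (j + 1) + T j * ((s - m (j + 1)) / T j) - m (j + 1) := by
    rw [Nat.add_sub_cancel_left]
    exact Dvd.intro _ rfl
  exact ⟨m (j + 1) + T j * ((s - m (j + 1)) / T j), hd, by omega,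
    gr_step hd (by omega) (by omega), by omega⟩

lemma dn_succ {j s : ℕ} (h : dn j s + 1 < T j) : dn j (s + 1) = dn j s + 1 := by
  obtain ⟨P, hd, h1, h2, e⟩ := dn_lt (j := j) (s := s) (by omega)
  have := dn_mid hd h1 (by omega) h
  rwa [← add_assoc, ← e] at this

lemma dn_pred {j s : ℕ} (h0 : 0 < dn j s) (h : dn j s < T j) : dn j (s - 1) = dn j s - 1 := by
  obtain ⟨P, hd, h1, h2, e⟩ := dn_lt h
  have := dn_mid (r := dn j s - 1) hd h1 (by omega) (by omega)
  rwa [show P + (dn j s - 1) = s - 1 by omega] at this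

lemma dn_succ' {j s : ℕ} (h : T j ≤ dn j s + 1) : dn j (s + 1) = 0 ∨ dn j (s + 1) = T j := by
  by_contra hc
  have h1 := dn_le j (s + 1)
  have := dn_pred (j := j) (s := s + 1) (by omega) (by omega)
  rw [Nat.add_sub_cancel] at this
  omega

lemma dn_pred' {j s : ℕ} (h : dn j s = 0 ∨ dn j s = T j) : T j ≤ dn j (s - 1) + 1 := by
  by_contra hc
  rcases Nat.eq_zero_or_pos s with rfl | hs
  · rw [dn_out (Or.inl (by have := m_pos (j + 1); omega))] at hc
    omega
  · have := dn_succ (j := j) (s := s - 1) (by omega)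
    rw [Nat.sub_add_cancel hs] at this
    omega

/-- Consistent sequences of positions. -/
def Rk : Type := {x : ℕ → ℕ // ∀ j, x j = dn j (x (j + 1))}

instance : MeasurableSpace Rk :=
  inferInstanceAs (MeasurableSpace {x : ℕ → ℕ // ∀ j, x j = dn j (x (j + 1))})

/-- The position in the tower of level `j`. -/
def ps (j : ℕ) (g : Rk) : ℕ := g.1 j

lemma ps_dn (j : ℕ) (g : Rk) : ps j g = dn j (ps (j + 1) g) := g.2 j

lemma ps_le (j : ℕ) (g : Rk) : ps j g ≤ T j := by
  rw [ps_dn]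
  exact dn_le _ _

lemma rk_up (j s : ℕ) : dn j (dn (j + 1) s + 1) = dn j (dn (j + 1) (s + 1)) := by
  have hm := m_pos (j + 1)
  by_cases h : dn (j + 1) s + 1 < T (j + 1)
  · rw [dn_succ h]
  · rw [dn_out (j := j) (Or.inr (by omega))]
    rcases dn_succ' (not_lt.1 h) with e | e <;> rw [e, dn_out (j := j) (by omega)]

lemma rk_down (j s : ℕ) : dn j (dn (j + 1) s - 1) = dn j (dn (j + 1) (s - 1)) := by
  have hm := m_pos (j + 1)
  have h1 := dn_le (j + 1) s
  by_cases h : 0 < dn (j + 1) s ∧ dn (j + 1) s < T (j + 1)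
  · rw [dn_pred h.1 h.2]
  · have := dn_pred' (j := j + 1) (s := s) (by omega)
    rw [dn_out (j := j) (by omega), dn_out (j := j) (by omega)]

/-- One step up in the towers. -/
def RR : Rk ≃ Rk where
  toFun g := ⟨fun j => dn j (ps (j + 1) g + 1), fun j => by
    show dn j (ps (j + 1) g + 1) = dn j (dn (j + 1) (ps (j + 1 + 1) g + 1))
    rw [ps_dn (j + 1), rk_up]⟩
  invFun g := ⟨fun j => dn j (ps (j + 1) g - 1), fun j => by
    show dn j (ps (j + 1) g - 1) = dn j (dn (j + 1) (ps (j + 1 + 1) g - 1))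
    rw [ps_dn (j + 1), rk_down]⟩
  left_inv g := by
    refine Subtype.ext (funext fun j => ?_)
    show dn j (dn (j + 1) (ps (j + 1 + 1) g + 1) - 1) = ps j g
    rw [rk_down, Nat.add_sub_cancel, ← ps_dn, ← ps_dn]
  right_inv g := by
    refine Subtype.ext (funext fun j => ?_)
    show dn j (dn (j + 1) (ps (j + 1 + 1) g - 1) + 1) = ps j g
    rw [rk_up, ps_dn j, ps_dn (j + 1)]
    rcases Nat.eq_zero_or_pos (ps (j + 1 + 1) g) with h | h
    · have h1 := m_pos (j + 1)
      have h2 := m_strictMono (show j + 1 < j + 1 + 1 by omega)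
      rw [h, dn_out (j := j + 1) (s := 0 - 1 + 1) (Or.inl (by omega)),
        dn_out (j := j + 1) (s := 0) (Or.inl (by omega))]
    · rw [Nat.sub_add_cancel h]

lemma ps_RR (j : ℕ) (g : Rk) : ps j (RR g) = dn j (ps (j + 1) g + 1) := rfl

lemma ps_RR_symm (j : ℕ) (g : Rk) : ps j (RR.symm g) = dn j (ps (j + 1) g - 1) := rfl

lemma ps_succ {j : ℕ} {g : Rk} (h : ps j g + 1 < T j) : ps j (RR g) = ps j g + 1 := by
  rw [ps_RR, ps_dn j g, dn_succ (by rwa [← ps_dn])]

lemma ps_pred {j : ℕ} {g : Rk} (h0 : 0 < ps j g) (h : ps j g < T j) :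
    ps j (RR.symm g) = ps j g - 1 := by
  rw [ps_RR_symm, ps_dn j g, dn_pred (by rwa [← ps_dn]) (by rwa [← ps_dn])]

lemma ps_succ_iff {j r : ℕ} (hr : r + 1 < T j) (g : Rk) : ps j (RR g) = r + 1 ↔ ps j g = r := by
  constructor
  · intro h
    have := ps_pred (j := j) (g := RR g) (by omega) (by omega)
    rw [Equiv.symm_apply_apply] at this
    omega
  · intro h
    rw [ps_succ (by omega), h]

lemma ps_iter {j n : ℕ} {g : Rk} (h : ps j g + n < T j) : ps j (RR^[n] g) = ps j g + n := by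
  induction n with
  | zero => rfl
  | succ n ih =>
    have := ih (by omega)
    rw [Function.iterate_succ_apply', ps_succ (by omega), this, add_assoc]

lemma ps_iter_symm {j n : ℕ} {g : Rk} (h0 : n ≤ ps j g) (h : ps j g < T j) :
    ps j (RR.symm^[n] g) = ps j g - n := by
  induction n with
  | zero => rfl
  | succ n ih =>
    have := ih (by omega)
    rw [Function.iterate_succ_apply', ps_pred (by omega) (by omega), this]
    omega

lemma ps_zp {j : ℕ} {t : ℤ} {g : Rk} (h : ps j g < T j) (h0 : 0 ≤ ps j g + t)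
    (h1 : ps j g + t < T j) : (ps j (zp RR t g) : ℤ) = ps j g + t := by
  obtain ⟨n, rfl | rfl⟩ := t.eq_nat_or_neg
  · rw [zp_natCast, ps_iter (by omega)]
    push_cast
    rfl
  · rw [zp_neg_natCast, ps_iter_symm (by omega) h]
    omega

lemma measurable_ps (j : ℕ) : Measurable (ps j) :=
  (measurable_pi_apply j).comp measurable_subtype_coe

lemma measurableSet_ps (j : ℕ) (S : Set ℕ) : MeasurableSet (ps j ⁻¹' S) :=
  measurable_ps j MeasurableSpace.measurableSet_top

lemma measurable_RR : Measurable RR := by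
  refine Measurable.subtype_mk (measurable_pi_lambda _ fun j => ?_)
  exact (measurable_of_countable fun s : ℕ => dn j (s + 1)).comp (measurable_ps (j + 1))

lemma measurable_RR_symm : Measurable RR.symm := by
  refine Measurable.subtype_mk (measurable_pi_lambda _ fun j => ?_)
  exact (measurable_of_countable fun s : ℕ => dn j (s - 1)).comp (measurable_ps (j + 1))

lemma ps_fun {J j : ℕ} (h : J ≤ j) : ∃ F : ℕ → ℕ, ∀ g, ps J g = F (ps j g) := by
  induction j, h using Nat.le_induction with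
  | base => exact ⟨id, fun _ => rfl⟩
  | succ k _ ih =>
    obtain ⟨F, hF⟩ := ih
    exact ⟨fun s => F (dn k s), fun g => by rw [hF, ps_dn]⟩

lemma ps_lift {J j : ℕ} (h : J ≤ j) (S : Set ℕ) : ∃ S', ps J ⁻¹' S = ps j ⁻¹' S' := by
  obtain ⟨F, hF⟩ := ps_fun h
  exact ⟨F ⁻¹' S, Set.ext fun g => by simp only [mem_preimage, hF]⟩

/-- Sets read from one position. -/
def rkC : Set (Set Rk) := {C | ∃ J S, C = ps J ⁻¹' S}

lemma rk_two {A B : Set Rk} (hA : A ∈ rkC) (hB : B ∈ rkC) :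
    ∃ J S S', A = ps J ⁻¹' S ∧ B = ps J ⁻¹' S' := by
  obtain ⟨J, S, rfl⟩ := hA
  obtain ⟨J', S', rfl⟩ := hB
  obtain ⟨U, hU⟩ := ps_lift (le_max_left J J') S
  obtain ⟨U', hU'⟩ := ps_lift (le_max_right J J') S'
  exact ⟨_, U, U', hU, hU'⟩

lemma rk_ring : IsSetRing rkC where
  empty_mem := ⟨0, ∅, rfl⟩
  union_mem := by
    intro s t hs ht
    obtain ⟨J, S, S', rfl, rfl⟩ := rk_two hs ht
    exact ⟨J, S ∪ S', rfl⟩
  sdiff_mem := by
    intro s t hs ht
    obtain ⟨J, S, S', rfl, rfl⟩ := rk_two hs ht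
    exact ⟨J, S \ S', rfl⟩

lemma rk_gen : (inferInstance : MeasurableSpace Rk) = MeasurableSpace.generateFrom rkC := by
  refine le_antisymm ?_ (MeasurableSpace.generateFrom_le ?_)
  · have h : @Measurable Rk (ℕ → ℕ) (MeasurableSpace.generateFrom rkC) _ Subtype.val := by
      refine @measurable_pi_lambda _ _ _ (MeasurableSpace.generateFrom rkC) _ _ fun j => ?_
      intro S _
      exact MeasurableSpace.measurableSet_generateFrom ⟨j, S, rfl⟩
    exact measurable_iff_comap_le.1 h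
  · rintro _ ⟨J, S, rfl⟩
    exact measurableSet_ps J S

lemma rk_approx (μ : Measure Rk) [IsFiniteMeasure μ] {E : Set Rk} (hE : MeasurableSet E) {ε : ℝ}
    (hε : 0 < ε) : ∃ J, ∀ j, J ≤ j → ∃ S, μ.real (symmDiff (ps j ⁻¹' S) E) ≤ ε := by
  obtain ⟨_, ⟨J, S, rfl⟩, h⟩ := exists_measure_symmDiff_lt_of_generateFrom_isSetRing (μ := μ)
    rk_ring ⟨{univ}, countable_singleton _, by
      rintro _ rfl
      exact ⟨0, univ, rfl⟩, by simp⟩ rk_gen hE (ENNReal.ofReal_pos.2 hε)
  refine ⟨J, fun j hj => ?_⟩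
  obtain ⟨S', hS'⟩ := ps_lift hj S
  exact ⟨S', hS' ▸ ENNReal.toReal_le_of_le_ofReal hε.le h.le⟩

end RkPart

end Pool.Agent.P.MP_1672e2_an.Cq
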