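import Pool.Agent.P.MP_1672e2_an.Cq.Rank

set_option autoImplicit false

namespace Pool.Agent.P.MP_1672e2_an.Cq

section RkWPart

/-! The rank one system: the weights of the levels. -/

open MeasureTheory Set Filter Topology

/-- Unnormalised weight of a level. -/
noncomputable def va (j : ℕ) : ℝ := ∏ i ∈ Finset.range j, (NN i : ℝ)⁻¹

/-- Weight of a level of the tower `j`. -/
noncomputable def ww (j : ℕ) : ℝ := va j / ⨆ k, T k * va k

lemma NN_cast (j : ℕ) : (0 : ℝ) < NN j := Nat.cast_pos.2 (NN_pos j)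

lemma va_pos (j : ℕ) : 0 < va j := Finset.prod_pos fun i _ => inv_pos.2 (NN_cast i)

lemma va_succ (j : ℕ) : NN j * va (j + 1) = va j := by
  have := NN_cast j
  unfold va
  rw [Finset.prod_range_succ]
  field_simp

lemma va_step (j : ℕ) : T (j + 1) * va (j + 1) = T j * va j + 2 * m (j + 1) * va (j + 1) := by
  have h : (T (j + 1) : ℝ) = 2 * m (j + 1) + NN j * T j := by exact_mod_cast T_split j
  rw [h, ← va_succ j]
  ring

lemma va_gap (j : ℕ) : 2 * m (j + 1) * va (j + 1) ≤ (1 / 2) ^ (j + 2) * (T (j + 1) * va (j + 1)) := by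
  have h1 := (div_le_iff₀ (fnum_T_cast (j + 1))).1 (fnum_m_div j)
  have h2 := va_pos (j + 1)
  have h3 : ((1 : ℝ) / 2) ^ (j + 2) = 2 * (1 / 2) ^ (j + 3) := by ring
  rw [h3]
  nlinarith

lemma va_cmp {j k : ℕ} (h : j ≤ k) :
    (1 - (1 / 2) ^ (j + 1) + (1 / 2) ^ (k + 1)) * (T k * va k) ≤ T j * va j := by
  induction k, h using Nat.le_induction with
  | base => simp
  | succ k hk ih =>
    refine le_trans ?_ ih
    have h1 := va_step k
    have h2 := va_gap k
    have h3 : (0 : ℝ) ≤ T (k + 1) * va (k + 1) := (mul_pos (fnum_T_cast _) (va_pos _)).le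
    have h4 : ((1 : ℝ) / 2) ^ (k + 1) ≤ (1 / 2) ^ (j + 1) :=
      pow_le_pow_of_le_one (by norm_num) (by norm_num) (by omega)
    have h5 : ((1 : ℝ) / 2) ^ (j + 1) ≤ 1 := pow_le_one₀ (by norm_num) (by norm_num)
    have h6 : ((1 : ℝ) / 2) ^ (k + 1) = 2 * (1 / 2) ^ (k + 2) := by ring
    have h7 : (0 : ℝ) ≤ (1 / 2) ^ (k + 2) := by positivity
    have h8 : (1 - (1 / 2) ^ (k + 2)) * (T (k + 1) * va (k + 1)) ≤ T k * va k := by linarith
    refine le_trans ?_ (mul_le_mul_of_nonneg_left h8 (by linarith))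
    rw [← mul_assoc _ (1 - (1 / 2 : ℝ) ^ (k + 2))]
    refine mul_le_mul_of_nonneg_right ?_ h3
    rw [show k + 1 + 1 = k + 2 from rfl]
    nlinarith

lemma va_mono : Monotone fun k => (T k : ℝ) * va k := by
  refine monotone_nat_of_le_succ fun k => ?_
  have h1 := va_step k
  have h2 : (0 : ℝ) ≤ 2 * m (k + 1) * va (k + 1) := by have := va_pos (k + 1); positivity
  linarith

lemma va_cmp' (j k : ℕ) : (1 - (1 / 2) ^ (j + 1)) * (T k * va k) ≤ T j * va j := by
  have h3 : (0 : ℝ) ≤ T k * va k := (mul_pos (fnum_T_cast _) (va_pos _)).le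
  rcases le_total j k with h | h
  · refine le_trans (mul_le_mul_of_nonneg_right ?_ h3) (va_cmp h)
    have : (0 : ℝ) ≤ (1 / 2) ^ (k + 1) := by positivity
    linarith
  · refine le_trans ?_ (va_mono h)
    have : (0 : ℝ) ≤ (1 / 2) ^ (j + 1) := by positivity
    nlinarith

lemma va_bdd : BddAbove (range fun k => (T k : ℝ) * va k) := by
  refine ⟨2 * (T 0 * va 0), ?_⟩
  rintro _ ⟨k, rfl⟩
  have := va_cmp' 0 k
  norm_num at this ⊢
  linarith

lemma va_sup_pos : 0 < ⨆ k, (T k : ℝ) * va k :=
  (mul_pos (fnum_T_cast 0) (va_pos 0)).trans_le (le_ciSup va_bdd 0)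

lemma ww_pos (j : ℕ) : 0 < ww j := div_pos (va_pos j) va_sup_pos

lemma ww_succ (j : ℕ) : NN j * ww (j + 1) = ww j := by
  unfold ww
  rw [← mul_div_assoc, va_succ]

lemma ww_step (j : ℕ) : T (j + 1) * ww (j + 1) = T j * ww j + 2 * m (j + 1) * ww (j + 1) := by
  unfold ww
  rw [← mul_div_assoc, ← mul_div_assoc, ← mul_div_assoc, ← add_div, va_step]

lemma ww_le (j : ℕ) : T j * ww j ≤ 1 := by
  unfold ww
  rw [← mul_div_assoc, div_le_one va_sup_pos]
  exact le_ciSup va_bdd j

lemma ww_ge (j : ℕ) : 1 - (1 / 2) ^ (j + 1) ≤ T j * ww j := by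
  unfold ww
  rw [← mul_div_assoc, le_div_iff₀ va_sup_pos]
  have h : (0 : ℝ) < 1 - (1 / 2) ^ (j + 1) := by
    have : ((1 : ℝ) / 2) ^ (j + 1) < 1 := pow_lt_one₀ (by norm_num) (by norm_num) (by omega)
    linarith
  rw [mul_comm, ← le_div_iff₀ h]
  refine ciSup_le fun k => ?_
  rw [le_div_iff₀ h, mul_comm]
  exact va_cmp' j k

end RkWPart

section RkMPart

/-! The rank one system: the measure. -/

open MeasureTheory Set Filter Topology

lemma PU_floor {c : ℝ} {k : ℕ} (h : (k : ℝ) + 1 ≤ c) : PU.real {u | ⌊c * u⌋₊ = k} = 1 / c := by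
  have hk : (0 : ℝ) ≤ k := Nat.cast_nonneg k
  have hc : 0 < c := by linarith
  have e : {u | ⌊c * u⌋₊ = k} ∩ Ico 0 1 = Ico ((k : ℝ) / c) ((k + 1) / c) := by
    ext u
    simp only [mem_inter_iff, mem_ofPred_eq, mem_Ico]
    constructor
    · rintro ⟨h1, h2, -⟩
      rw [Nat.floor_eq_iff (by positivity)] at h1
      exact ⟨by rw [div_le_iff₀ hc]; linarith [h1.1], by rw [lt_div_iff₀ hc]; linarith [h1.2]⟩
    · rintro ⟨h1, h2⟩
      have h0 : 0 ≤ u := le_trans (by positivity) h1
      rw [div_le_iff₀ hc] at h1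
      rw [lt_div_iff₀ hc] at h2
      refine ⟨(Nat.floor_eq_iff (by positivity)).2 ⟨by linarith, by linarith⟩, h0, ?_⟩
      by_contra h3
      nlinarith
  rw [Measure.real, Cx.PU, Measure.restrict_apply' measurableSet_Ico, e, Real.volume_Ico,
    show ((k : ℝ) + 1) / c - k / c = 1 / c by ring, ENNReal.toReal_ofReal (by positivity)]

lemma PU_ix_eq {b i : ℕ} (h : i < b) : PU.real {u | ix b u = i} = 1 / b := by
  rw [← PU_floor (c := b) (k := i) (by exact_mod_cast h)]
  have hb : (0 : ℝ) < b := by exact_mod_cast lt_of_le_of_lt (Nat.zero_le i) h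
  rw [Measure.real, Measure.real, Cx.PU, Measure.restrict_apply' measurableSet_Ico,
    Measure.restrict_apply' measurableSet_Ico]
  congr 2
  ext u
  simp only [mem_inter_iff, mem_ofPred_eq, mem_Ico]
  refine and_congr_left fun hu => ?_
  have h3 : ⌊(b : ℝ) * u⌋₊ < b := (Nat.floor_lt (mul_nonneg hb.le hu.1)).2 (by nlinarith [hu.2])
  rw [Cx.ix, Nat.mod_eq_of_lt h3]

/-- The position of the gap number `k`. -/
def gapPos (j k : ℕ) : ℕ :=
  if k < m (j + 1) then k else if k < 2 * m (j + 1) then T (j + 1) - 2 * m (j + 1) + k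
  else T (j + 1)

/-- The random position at the next level. -/
noncomputable def up (j r : ℕ) (u : ℝ) : ℕ :=
  if r < T j then m (j + 1) + T j * ix (NN j) u + r
  else gapPos j ⌊(1 - T j * ww j) / ww (j + 1) * u⌋₊

/-- The random positions. -/
noncomputable def xs : ℕ → (ℤ → ℝ) → ℕ
  | 0, ω => if ⌊1 / ww 0 * ω 0⌋₊ = 0 then 0 else 1
  | j + 1, ω => up j (xs j ω) (ω (j + 1 : ℕ))

theorem xs_realize : True := by have := @xs.eq_def; trivial

lemma up_block {j i : ℕ} (hi : i < NN j) :
    T j ∣ m (j + 1) + T j * i - m (j + 1) ∧ m (j + 1) + T j * i + m (j + 1) + T j ≤ T (j + 1) := by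
  refine ⟨by rw [Nat.add_sub_cancel_left]; exact Dvd.intro _ rfl, ?_⟩
  have h1 := T_split j
  have h2 : T j * (i + 1) ≤ T j * NN j := Nat.mul_le_mul_left _ hi
  nlinarith

lemma dn_gapPos (j k : ℕ) : dn j (gapPos j k) = T j := by
  have := m_le_T' j
  unfold gapPos
  split_ifs <;> exact dn_out (by omega)

lemma up_le {j r : ℕ} (u : ℝ) : up j r u ≤ T (j + 1) := by
  have := m_le_T' j
  unfold up gapPos
  split_ifs
  · have := (up_block (Cx.ix_lt (NN_pos j) u)).2
    omega
  all_goals omega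

lemma dn_up {j r : ℕ} (hr : r ≤ T j) (u : ℝ) : dn j (up j r u) = r := by
  unfold up
  split_ifs with h
  · obtain ⟨h1, h2⟩ := up_block (Cx.ix_lt (NN_pos j) u)
    have := T_pos j
    exact dn_mid h1 (by omega) (by omega) h
  · rw [dn_gapPos]
    omega

lemma xs_le (j : ℕ) (ω : ℤ → ℝ) : xs j ω ≤ T j := by
  cases j with
  | zero =>
    rw [xs, T]
    split_ifs <;> omega
  | succ j => exact up_le _

lemma xs_dn (j : ℕ) (ω : ℤ → ℝ) : xs j ω = dn j (xs (j + 1) ω) := (dn_up (xs_le j ω) _).symm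

lemma measurable_fl (c : ℝ) : Measurable fun u : ℝ => ⌊c * u⌋₊ :=
  Nat.measurable_floor.comp (measurable_const.mul measurable_id)

lemma measurable_up (j : ℕ) : Measurable fun p : ℕ × ℝ => up j p.1 p.2 := by
  refine measurable_from_prod_countable_right fun r => ?_
  unfold up
  by_cases h : r < T j
  · simp only [if_pos h]
    exact (measurable_of_countable fun i : ℕ => m (j + 1) + T j * i + r).comp (Cx.skew_ix _)
  · simp only [if_neg h]
    exact (measurable_of_countable (gapPos j)).comp (measurable_fl _)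

lemma measurable_xs (j : ℕ) : Measurable (xs j) := by
  induction j with
  | zero =>
    exact (measurable_of_countable fun k : ℕ => if k = 0 then 0 else 1).comp
      ((measurable_fl _).comp (measurable_pi_apply 0))
  | succ j ih => exact (measurable_up j).comp (ih.prodMk (measurable_pi_apply _))

lemma xs_congr {j : ℕ} {ω ω' : ℤ → ℝ} (h : ∀ i ∈ Finset.Icc (0 : ℤ) j, ω i = ω' i) :
    xs j ω = xs j ω' := by
  induction j with
  | zero => rw [xs, xs, h 0 (by simp)]
  | succ j ih =>
    rw [xs, xs, ih fun i hi => h i (by rw [Finset.mem_Icc] at hi ⊢; push_cast; omega),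
      h _ (by rw [Finset.mem_Icc]; omega)]

lemma xs_indep (j r : ℕ) {U : Set ℝ} (hU : MeasurableSet U) :
    PB.real ({ω | xs j ω = r} ∩ {ω | ω (j + 1 : ℕ) ∈ U}) = PB.real {ω | xs j ω = r} * PU.real U := by
  have h1 := Cx.prode_indep (I := Finset.Icc (0 : ℤ) j) (J := {((j + 1 : ℕ) : ℤ)})
    (S := {ω | xs j ω = r}) (U := {ω | ω (j + 1 : ℕ) ∈ U})
    (by rw [Finset.disjoint_singleton_right, Finset.mem_Icc]; push_cast; omega)
    (measurable_xs j (measurableSet_singleton r)) (measurable_pi_apply _ hU)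
    (fun x y hxy hx => (xs_congr hxy).symm.trans hx)
    (fun x y hxy hx => by
      have := hxy _ (Finset.mem_singleton_self _)
      show y _ ∈ U
      rw [← this]
      exact hx)
  have h2 : PB {ω | ω (j + 1 : ℕ) ∈ U} = PU U :=
    (measurePreserving_eval_infinitePi (fun _ : ℤ => PU) ((j + 1 : ℕ) : ℤ)).measure_preimage
      hU.nullMeasurableSet
  rw [Measure.real, h1, h2, ENNReal.toReal_mul]
  rfl

/-- The mass outside a tower whose levels have equal mass. -/
lemma real_top {X : Type*} [MeasurableSpace X] {ν : Measure X} [IsProbabilityMeasure ν]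
    {φ : X → ℕ} (hφ : Measurable φ) {K : ℕ} (hK : ∀ x, φ x ≤ K) {w : ℝ}
    (hw : ∀ r, r < K → ν.real {x | φ x = r} = w) : ν.real {x | φ x = K} = 1 - K * w := by
  have h1 : ∑ r ∈ Finset.range (K + 1), ν.real (φ ⁻¹' {r}) = ν.real (φ ⁻¹' ↑(Finset.range (K + 1))) :=
    sum_measureReal_preimage_singleton _ fun r _ => hφ (measurableSet_singleton r)
  have h2 : φ ⁻¹' ↑(Finset.range (K + 1)) = univ := by
    refine eq_univ_of_forall fun x => ?_
    simpa [Nat.lt_succ_iff] using hK x
  have h3 : ∑ r ∈ Finset.range K, ν.real (φ ⁻¹' {r}) = K * w := by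
    refine (Finset.sum_congr (g := fun _ => w) rfl fun r hr =>
      hw r (Finset.mem_range.1 hr)).trans ?_
    simp
  rw [h2, probReal_univ, Finset.sum_range_succ, h3] at h1
  have h4 : ν.real {x | φ x = K} = ν.real (φ ⁻¹' {K}) := rfl
  linarith

lemma xs_level (j : ℕ) : ∀ r, r < T j → PB.real {ω | xs j ω = r} = ww j := by
  induction j with
  | zero =>
    intro r hr
    have h0 : r = 0 := by rw [T] at hr; omega
    have h1 := ww_le 0
    have h2 := ww_pos 0
    rw [T, Nat.cast_one, one_mul] at h1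
    have h3 := PU_floor (c := 1 / ww 0) (k := 0) (by
      rw [Nat.cast_zero, zero_add, le_div_iff₀ h2]; linarith)
    rw [one_div_one_div] at h3
    have h4 : PB ((fun ω : ℤ → ℝ => ω 0) ⁻¹' {u | ⌊1 / ww 0 * u⌋₊ = 0}) =
        PU {u | ⌊1 / ww 0 * u⌋₊ = 0} :=
      (measurePreserving_eval_infinitePi (fun _ : ℤ => PU) 0).measure_preimage
        (measurable_fl _ (measurableSet_singleton 0)).nullMeasurableSet
    rw [← h3, Measure.real, Measure.real, ← h4, h0]
    congr 2
    ext ω
    simp only [mem_ofPred_eq, mem_preimage, xs]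
    split_ifs with h
    · simp only [h]
    · simp only [h]
  | succ j ih =>
    intro q hq
    have hw := ww_pos (j + 1)
    by_cases h : dn j q < T j
    · obtain ⟨P, ⟨i, hi⟩, h1, h2, e⟩ := dn_lt h
      have hT := T_pos j
      have hiN : i < NN j := by
        have h3 := T_split j
        have h4 : T j * (i + 1) ≤ T j * NN j := by
          rw [mul_comm (NN j)] at h3
          rw [mul_add, mul_one]
          omega
        exact Nat.le_of_mul_le_mul_left h4 hT
      have e1 : {ω | xs (j + 1) ω = q} =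
          {ω | xs j ω = dn j q} ∩ {ω | ω (j + 1 : ℕ) ∈ {u | ix (NN j) u = i}} := by
        ext ω
        simp only [mem_inter_iff, mem_ofPred_eq]
        constructor
        · intro hω
          have h3 : xs j ω = dn j q := by rw [xs_dn, hω]
          refine ⟨h3, ?_⟩
          rw [xs, up, h3, if_pos h] at hω
          exact Nat.eq_of_mul_eq_mul_left hT (by omega)
        · rintro ⟨h3, h4⟩
          rw [xs, up, h3, if_pos h, h4]
          omega
      rw [e1, xs_indep j _ (U := {u | ix (NN j) u = i}) (Cx.skew_ix _ (measurableSet_singleton i)),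
        ih _ h, PU_ix_eq hiN, ← ww_succ j]
      have := NN_cast j
      field_simp
    · have h8 := m_le_T' j
      have hout : q < m (j + 1) ∨ T (j + 1) ≤ q + m (j + 1) := by
        by_contra hc
        exact h (by rw [dn_in (by omega) (by omega)]; exact Nat.mod_lt _ (T_pos j))
      obtain ⟨k, hk, hkq⟩ : ∃ k, k < 2 * m (j + 1) ∧ ∀ k', gapPos j k' = q ↔ k' = k := by
        rcases hout with h1 | h1
        · refine ⟨q, by omega, fun k' => ?_⟩
          unfold gapPos
          split_ifs <;> omega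
        · refine ⟨q + 2 * m (j + 1) - T (j + 1), by omega, fun k' => ?_⟩
          unfold gapPos
          split_ifs <;> omega
      have e1 : {ω | xs (j + 1) ω = q} = {ω | xs j ω = T j} ∩
          {ω | ω (j + 1 : ℕ) ∈ {u | ⌊(1 - T j * ww j) / ww (j + 1) * u⌋₊ = k}} := by
        ext ω
        simp only [mem_inter_iff, mem_ofPred_eq]
        constructor
        · intro hω
          have h3 : xs j ω = T j := by rw [xs_dn, hω, dn_out hout]
          refine ⟨h3, ?_⟩
          rw [xs, up, h3, if_neg (lt_irrefl _)] at hω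
          exact (hkq _).1 hω
        · rintro ⟨h3, h4⟩
          rw [xs, up, h3, if_neg (lt_irrefl _), h4]
          exact (hkq _).2 rfl
      have h5 : (k : ℝ) + 1 ≤ 2 * m (j + 1) := by exact_mod_cast hk
      have h6 : 2 * m (j + 1) * ww (j + 1) ≤ 1 - T j * ww j := by
        linarith [ww_step j, ww_le (j + 1)]
      have h7 : ((k : ℝ) + 1) * ww (j + 1) ≤ 1 - T j * ww j :=
        (mul_le_mul_of_nonneg_right h5 hw.le).trans h6
      have h9 : 0 < 1 - T j * ww j := lt_of_lt_of_le (by positivity) h7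
      rw [e1, xs_indep j _ (U := {u | ⌊(1 - T j * ww j) / ww (j + 1) * u⌋₊ = k})
        (measurable_fl _ (measurableSet_singleton k)), real_top (measurable_xs j) (xs_le j) ih, PU_floor ((le_div_iff₀ hw).2 h7)]
      field_simp

/-- The random point. -/
noncomputable def rkPt (ω : ℤ → ℝ) : Rk := ⟨fun j => xs j ω, fun j => xs_dn j ω⟩

lemma measurable_rkPt : Measurable rkPt :=
  Measurable.subtype_mk (measurable_pi_lambda _ measurable_xs)

/-- The invariant measure. -/
noncomputable def muR : Measure Rk := PB.map rkPt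

instance : IsProbabilityMeasure muR := Measure.isProbabilityMeasure_map measurable_rkPt.aemeasurable

lemma mu_level {j r : ℕ} (hr : r < T j) : muR.real {g | ps j g = r} = ww j := by
  rw [← xs_level j r hr, muR, Measure.real, Measure.real,
    Measure.map_apply (s := {g | ps j g = r}) measurable_rkPt (measurableSet_ps j {r})]
  rfl

lemma mu_top (j : ℕ) : muR.real {g | ps j g = T j} ≤ (1 / 2) ^ (j + 1) := by
  rw [real_top (measurable_ps j) (ps_le j) fun r hr => mu_level hr]
  linarith [ww_ge j]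

end RkMPart

end Pool.Agent.P.MP_1672e2_an.Cq
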