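import Mathlib

/-! The definitions used in the statement. -/

set_option autoImplicit false

namespace Pool.Agent.P.MP_1672e2_an.Cq

open MeasureTheory ProbabilityTheory

variable {X : Type} [MeasurableSpace X]

/-- Shannon entropy of the names of length `n` for the finite partition `P`. -/
noncomputable def nameEntropy (f : X → X) (μ : Measure X) {k : ℕ} (P : X → Fin k) (n : ℕ) : ℝ :=
  ∑ w : Fin n → Fin k, Real.negMulLog (μ.real {x | ∀ i : Fin n, P (f^[(i : ℕ)] x) = w i})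

/-- Kolmogorov-Sinai entropy. -/
noncomputable def ksEntropy (f : X → X) (μ : Measure X) : EReal :=
  ⨆ (k : ℕ) (P : X → Fin k) (_ : Measurable P),
    Filter.limsup (fun n : ℕ => ((nameEntropy f μ P n / n : ℝ) : EReal)) Filter.atTop

/-- The set of periods. -/
def periods (f : X → X) (μ : Measure X) : Set ℕ :=
  {p | 0 < p ∧ ∃ g : X → ℂ, MemLp g 2 μ ∧ ¬ g =ᵐ[μ] 0 ∧
    ∀ᵐ x ∂μ, g (f x) = Complex.exp (2 * Real.pi * Complex.I / p) * g x}

/-- Ergodic period-maximal measures. -/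
def PeriodMaximal (f : X → X) (μ : Measure X) : Prop :=
  IsProbabilityMeasure μ ∧ Ergodic f μ ∧ 0 < ksEntropy f μ ∧ ∃ p, IsGreatest (periods f μ) p ∧
    ksEntropy f μ = ⨆ (ν : Measure X) (_ : IsProbabilityMeasure ν) (_ : Ergodic f ν)
      (_ : IsGreatest (periods f ν) p), ksEntropy f ν

/-- Isomorphism of measure preserving systems. -/
def Isomorphic {Y : Type} [MeasurableSpace Y] (f : X → X) (μ : Measure X) (S : Y → Y)
    (ν : Measure Y) : Prop :=
  ∃ (φ : X → Y) (ψ : Y → X), MeasurePreserving φ μ ν ∧ MeasurePreserving ψ ν μ ∧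
    (∀ᵐ x ∂μ, ψ (φ x) = x) ∧ (∀ᵐ y ∂ν, φ (ψ y) = y) ∧ ∀ᵐ x ∂μ, φ (f x) = S (φ x)

/-- Isomorphic to the product of a Bernoulli shift with a cyclic permutation. -/
def PeriodicBernoulli (f : X → X) (μ : Measure X) : Prop :=
  ∃ p : ℕ, 0 < p ∧ ∃ (A : Type) (_ : MeasurableSpace A) (q : Measure A), IsProbabilityMeasure q ∧
    Isomorphic f μ (fun y : (ℤ → A) × ZMod p => (fun n => y.1 (n + 1), y.2 + 1))
      ((Measure.infinitePi fun _ : ℤ => q).prod (uniformOn Set.univ))

end Pool.Agent.P.MP_1672e2_an.Cq
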