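import Pool.Agent.P.MP_1672e2_an.Cq.Orb
import Pool.Agent.P.MP_1672e2_an.Ergodic

set_option autoImplicit false

namespace Pool.Agent.P.MP_1672e2_an.Cq

section TorAPart

/-! Periodic extension and inversion in the plane. -/


open MeasureTheory Set Filter Topology

/-- Index of the fundamental domain containing `x`. -/
noncomputable def toraFl (x : ℝ) : ℤ := ⌊(x + 16) / 40⌋

theorem toraFl_eq {x : ℝ} {a : ℤ} (h1 : -16 ≤ x - 40 * a) (h2 : x - 40 * a < 24) :
    toraFl x = a := by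
  unfold toraFl
  rw [Int.floor_eq_iff]
  constructor
  · rw [le_div_iff₀ (by norm_num)]; linarith
  · rw [div_lt_iff₀ (by norm_num)]; linarith

theorem toraFl_spec (x : ℝ) : -16 ≤ x - 40 * toraFl x ∧ x - 40 * toraFl x < 24 := by
  have h1 := Int.floor_le ((x + 16) / 40)
  have h2 := Int.lt_floor_add_one ((x + 16) / 40)
  rw [le_div_iff₀ (by norm_num)] at h1
  rw [div_lt_iff₀ (by norm_num)] at h2
  unfold toraFl
  constructor <;> linarith

theorem toraFl_add (x : ℝ) (n : ℤ) : toraFl (x + 40 * n) = toraFl x + n := by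
  obtain ⟨h1, h2⟩ := toraFl_spec x
  apply toraFl_eq <;> push_cast <;> linarith

theorem tora_loc1 {H : ℝ × ℝ → ℝ}
    (c1 : ∀ x y, -17 < x → x < -15 → H (x + 40, y) = H (x, y) - 40)
    (x y : ℝ) (a : ℤ) (h1 : -17 < x - 40 * a) (h2 : x - 40 * a < 24) :
    H (x - 40 * toraFl x, y) - 40 * toraFl x = H (x - 40 * a, y) - 40 * a := by
  by_cases h : -16 ≤ x - 40 * a
  · rw [toraFl_eq h h2]
  · push Not at h
    have e : toraFl x = a - 1 := by
      apply toraFl_eq <;> push_cast <;> linarith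
    rw [e]
    have := c1 (x - 40 * a) y h1 (by linarith)
    have e2 : x - 40 * ((a - 1 : ℤ) : ℝ) = x - 40 * a + 40 := by push_cast; ring
    rw [e2, this]
    push_cast
    ring

theorem tora_loc2 {H : ℝ × ℝ → ℝ}
    (c2 : ∀ x y, -17 < y → y < -15 → H (x, y + 40) = H (x, y))
    (x y : ℝ) (b : ℤ) (h1 : -17 < y - 40 * b) (h2 : y - 40 * b < 24) :
    H (x, y - 40 * toraFl y) = H (x, y - 40 * b) := by
  by_cases h : -16 ≤ y - 40 * b
  · rw [toraFl_eq h h2]
  · push Not at h
    have e : toraFl y = b - 1 := by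
      apply toraFl_eq <;> push_cast <;> linarith
    rw [e]
    have := c2 x (y - 40 * b) h1 (by linarith)
    have e2 : y - 40 * ((b - 1 : ℤ) : ℝ) = y - 40 * b + 40 := by push_cast; ring
    rw [e2, this]

theorem tora_near (x₀ : ℝ) :
    ∀ᶠ x in 𝓝 x₀, -17 < x - 40 * (toraFl x₀ : ℝ) ∧ x - 40 * (toraFl x₀ : ℝ) < 24 := by
  obtain ⟨h1, h2⟩ := toraFl_spec x₀
  have hc : Continuous fun x : ℝ => x - 40 * (toraFl x₀ : ℝ) := by fun_prop
  have : IsOpen ((fun x : ℝ => x - 40 * (toraFl x₀ : ℝ)) ⁻¹' Ioo (-17) 24) :=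
    isOpen_Ioo.preimage hc
  exact this.mem_nhds ⟨by simp only; linarith, h2⟩

/-- Periodic extension from a fundamental domain. -/
theorem exists_lift {H : ℝ × ℝ → ℝ} (hH : ContDiff ℝ 1 H)
    (c1 : ∀ x y, -17 < x → x < -15 → H (x + 40, y) = H (x, y) - 40)
    (c2 : ∀ x y, -17 < y → y < -15 → H (x, y + 40) = H (x, y))
    (hm : ∀ x x' y, x ≤ x' → H (x', y) - H (x, y) ≤ -((x' - x) / 8)) :
    ∃ Φ : ℝ × ℝ → ℝ, ContDiff ℝ 1 Φ ∧ (∀ x y (n : ℤ), Φ (x + 40 * n, y) = Φ (x, y) - 40 * n) ∧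
      (∀ x y (n : ℤ), Φ (x, y + 40 * n) = Φ (x, y)) ∧
      (∀ x x' y, x ≤ x' → Φ (x', y) - Φ (x, y) ≤ -((x' - x) / 8)) ∧
      ∀ x y, x ∈ Ico (-16 : ℝ) 24 → y ∈ Ico (-16 : ℝ) 24 → Φ (x, y) = H (x, y) := by
  let Φ : ℝ × ℝ → ℝ := fun p =>
    H (p.1 - 40 * toraFl p.1, p.2 - 40 * toraFl p.2) - 40 * toraFl p.1
  have hΦ : ∀ x y, Φ (x, y) = H (x - 40 * toraFl x, y - 40 * toraFl y) - 40 * toraFl x :=
    fun _ _ => rfl
  have hC : ContDiff ℝ 1 Φ := by
    rw [contDiff_iff_contDiffAt]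
    intro p
    have hl : ContDiff ℝ 1 fun q : ℝ × ℝ =>
        H (q.1 - 40 * (toraFl p.1 : ℝ), q.2 - 40 * (toraFl p.2 : ℝ)) - 40 * (toraFl p.1 : ℝ) := by
      apply ContDiff.sub _ contDiff_const
      exact hH.comp ((contDiff_fst.sub contDiff_const).prodMk (contDiff_snd.sub contDiff_const))
    refine hl.contDiffAt.congr_of_eventuallyEq ?_
    have e1 := (continuous_fst.tendsto p).eventually (tora_near p.1)
    have e2 := (continuous_snd.tendsto p).eventually (tora_near p.2)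
    filter_upwards [e1, e2] with q hq1 hq2
    show H (q.1 - 40 * toraFl q.1, q.2 - 40 * toraFl q.2) - 40 * toraFl q.1 = _
    rw [tora_loc1 c1 q.1 _ _ hq1.1 hq1.2, tora_loc2 c2 _ q.2 _ hq2.1 hq2.2]
  refine ⟨Φ, hC, ?_, ?_, ?_, ?_⟩
  · intro x y n
    rw [hΦ, hΦ, toraFl_add]
    have : x + 40 * (n : ℝ) - 40 * ((toraFl x + n : ℤ) : ℝ) = x - 40 * toraFl x := by
      push_cast; ring
    rw [this]
    push_cast
    ring
  · intro x y n
    rw [hΦ, hΦ, toraFl_add]
    have : y + 40 * (n : ℝ) - 40 * ((toraFl y + n : ℤ) : ℝ) = y - 40 * toraFl y := by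
      push_cast; ring
    rw [this]
  · intro x x' y hx
    have hd : Differentiable ℝ fun t : ℝ => Φ (t, y) + t / 8 := by
      have h1 : Differentiable ℝ fun t : ℝ => Φ (t, y) :=
        (hC.differentiable (by norm_num)).comp (differentiable_id.prodMk (differentiable_const y))
      exact h1.add (by fun_prop)
    have ha : Antitone fun t : ℝ => Φ (t, y) + t / 8 := by
      apply antitone_of_deriv_nonpos hd
      intro t₀
      have hloc : Antitone fun t : ℝ =>
          H (t - 40 * (toraFl t₀ : ℝ), y - 40 * toraFl y) - 40 * (toraFl t₀ : ℝ) + t / 8 := by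
        intro s s' hs
        have := hm (s - 40 * (toraFl t₀ : ℝ)) (s' - 40 * (toraFl t₀ : ℝ)) (y - 40 * toraFl y)
          (by linarith)
        simp only
        linarith
      have he : (fun t : ℝ => Φ (t, y) + t / 8) =ᶠ[𝓝 t₀] fun t : ℝ =>
          H (t - 40 * (toraFl t₀ : ℝ), y - 40 * toraFl y) - 40 * (toraFl t₀ : ℝ) + t / 8 := by
        filter_upwards [tora_near t₀] with t ht
        rw [hΦ, tora_loc1 c1 t _ _ ht.1 ht.2]
      rw [he.deriv_eq]
      exact hloc.deriv_nonpos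
    have := ha hx
    simp only at this
    linarith
  · intro x y hx hy
    have e1 : toraFl x = 0 := toraFl_eq (by simpa using hx.1) (by simpa using hx.2)
    have e2 : toraFl y = 0 := toraFl_eq (by simpa using hy.1) (by simpa using hy.2)
    rw [hΦ, e1, e2]
    simp

theorem tora_slope {Φ : ℝ × ℝ → ℝ} (h : ContDiff ℝ 1 Φ)
    (hm : ∀ x x' y, x ≤ x' → Φ (x', y) - Φ (x, y) ≤ -((x' - x) / 8)) (p : ℝ × ℝ) :
    fderiv ℝ Φ p (1, 0) ≤ -(1 / 8) := by
  have h0 : HasFDerivAt Φ (fderiv ℝ Φ p) (p.1, p.2) :=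
    ((h.differentiable (by norm_num)) p).hasFDerivAt
  have h1 : HasDerivAt (fun t : ℝ => (t, p.2)) ((1 : ℝ), (0 : ℝ)) p.1 :=
    (hasDerivAt_id p.1).prodMk (hasDerivAt_const p.1 p.2)
  have h2 : HasDerivAt (fun t : ℝ => Φ (t, p.2)) (fderiv ℝ Φ p (1, 0)) p.1 :=
    h0.comp_hasDerivAt p.1 h1
  have h3 : HasDerivAt (fun t : ℝ => Φ (t, p.2) + t / 8) (fderiv ℝ Φ p (1, 0) + 1 / 8) p.1 :=
    h2.add ((hasDerivAt_id p.1).div_const 8)
  have ha : Antitone fun t : ℝ => Φ (t, p.2) + t / 8 := by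
    intro s s' hs
    have := hm s s' p.2 hs
    simp only
    linarith
  have h4 : deriv (fun t : ℝ => Φ (t, p.2) + t / 8) p.1 ≤ 0 := ha.deriv_nonpos
  rw [h3.deriv] at h4
  linarith

/-- Fibrewise inverse. -/
theorem exists_inverse {Φ : ℝ × ℝ → ℝ} (h : ContDiff ℝ 1 Φ)
    (hm : ∀ x x' y, x ≤ x' → Φ (x', y) - Φ (x, y) ≤ -((x' - x) / 8)) :
    ∃ Θ : ℝ × ℝ → ℝ, ContDiff ℝ 1 Θ ∧ (∀ x y, Θ (y, Φ (x, y)) = x) ∧
      ∀ y z, Φ (Θ (y, z), y) = z := by
  let F : ℝ × ℝ → ℝ × ℝ := fun p => (p.2, Φ p)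
  have hF : ContDiff ℝ 1 F := contDiff_snd.prodMk h
  have hinj : Function.Injective F := by
    rintro ⟨x, y⟩ ⟨x', y'⟩ he
    simp only [F, Prod.mk.injEq] at he
    obtain ⟨rfl, he⟩ := he
    rcases le_total x x' with hx | hx
    · have := hm x x' y hx
      have : x = x' := by linarith
      rw [this]
    · have := hm x' x y hx
      have : x = x' := by linarith
      rw [this]
  have hsur : Function.Surjective F := by
    rintro ⟨y, z⟩
    have hc : Continuous fun t : ℝ => Φ (t, y) :=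
      h.continuous.comp (continuous_id.prodMk continuous_const)
    set d := |z - Φ (0, y)| with hd
    have hd0 : 0 ≤ d := abs_nonneg _
    have h1 := hm 0 (8 * d) y (by linarith)
    have h2 := hm (-(8 * d)) 0 y (by linarith)
    have h3 := le_abs_self (z - Φ (0, y))
    have h4 := neg_abs_le (z - Φ (0, y))
    have hz : z ∈ Icc (Φ (8 * d, y)) (Φ (-(8 * d), y)) := by
      constructor <;> linarith
    obtain ⟨x, -, hx⟩ := intermediate_value_Icc' (by linarith : -(8 * d) ≤ 8 * d)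
      hc.continuousOn hz
    exact ⟨(x, y), by simp only [F]; rw [show Φ (x, y) = z from hx]⟩
  have hder : ∀ p, HasFDerivAt F ((ContinuousLinearMap.snd ℝ ℝ ℝ).prod (fderiv ℝ Φ p)) p :=
    fun p => (hasFDerivAt_snd).prodMk ((h.differentiable (by norm_num)) p).hasFDerivAt
  have hLinj : ∀ p, Function.Injective
      ((ContinuousLinearMap.snd ℝ ℝ ℝ).prod (fderiv ℝ Φ p)).toLinearMap := by
    intro p
    rw [← LinearMap.ker_eq_bot, LinearMap.ker_eq_bot']
    rintro ⟨u, v⟩ he
    have he' : (v, fderiv ℝ Φ p (u, v)) = ((0 : ℝ), (0 : ℝ)) := he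
    simp only [Prod.mk.injEq] at he'
    obtain ⟨rfl, he'⟩ := he'
    have e : ((u, 0) : ℝ × ℝ) = u • ((1 : ℝ), (0 : ℝ)) := by simp
    rw [e, map_smul, smul_eq_mul] at he'
    have hs := tora_slope h hm p
    rcases mul_eq_zero.mp he' with hu | hu
    · rw [hu]; rfl
    · linarith
  let L : ℝ × ℝ → (ℝ × ℝ) ≃L[ℝ] (ℝ × ℝ) := fun p =>
    (LinearEquiv.ofInjectiveEndo _ (hLinj p)).toContinuousLinearEquiv
  have hL : ∀ p, (L p : (ℝ × ℝ) →L[ℝ] (ℝ × ℝ)) =
      (ContinuousLinearMap.snd ℝ ℝ ℝ).prod (fderiv ℝ Φ p) := by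
    intro p
    ext <;> rfl
  have hder' : ∀ p, HasFDerivAt F (L p : (ℝ × ℝ) →L[ℝ] (ℝ × ℝ)) p := by
    intro p; rw [hL]; exact hder p
  have hstrict : ∀ p, HasStrictFDerivAt F (L p : (ℝ × ℝ) →L[ℝ] (ℝ × ℝ)) p := fun p =>
    hF.contDiffAt.hasStrictFDerivAt' (hder' p) (by norm_num)
  have hopen : IsOpenMap F := isOpenMap_of_hasStrictFDerivAt_equiv hstrict
  let E : (ℝ × ℝ) ≃ₜ (ℝ × ℝ) :=
    (Equiv.ofBijective F ⟨hinj, hsur⟩).toHomeomorphOfContinuousOpen hF.continuous hopen
  have hE : ∀ p, E p = F p := fun _ => rfl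
  have hS : ContDiff ℝ 1 (E.symm : ℝ × ℝ → ℝ × ℝ) :=
    E.contDiff_symm (f₀' := L) hder' hF
  refine ⟨fun q => (E.symm q).1, contDiff_fst.comp hS, ?_, ?_⟩
  · intro x y
    have : E.symm (y, Φ (x, y)) = (x, y) := by
      rw [Homeomorph.symm_apply_eq]; rfl
    simp only [this]
  · intro y z
    have h1 : F (E.symm (y, z)) = (y, z) := E.apply_symm_apply (y, z)
    simp only [F, Prod.mk.injEq] at h1
    obtain ⟨h2, h3⟩ := h1
    have : ((E.symm (y, z)).1, y) = E.symm (y, z) := Prod.ext rfl h2.symm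
    show Φ ((E.symm (y, z)).1, y) = z
    rw [this, h3]

end TorAPart

section TorBPart

/-! The torus as a surface. -/


open MeasureTheory Set Filter Topology

open scoped Manifold

instance fact40 : Fact (0 < (40 : ℝ)) := ⟨by norm_num⟩

/-- The torus. -/
def Tor : Type := AddCircle (40 : ℝ) × AddCircle (40 : ℝ)

noncomputable instance : MetricSpace Tor :=
  inferInstanceAs (MetricSpace (AddCircle (40 : ℝ) × AddCircle (40 : ℝ)))

instance : CompactSpace Tor :=
  inferInstanceAs (CompactSpace (AddCircle (40 : ℝ) × AddCircle (40 : ℝ)))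

noncomputable instance : MeasurableSpace Tor := borel Tor

instance : BorelSpace Tor := ⟨rfl⟩

/-- The projection to the torus. -/
def mkT (p : ℝ × ℝ) : Tor := ((p.1 : AddCircle (40 : ℝ)), (p.2 : AddCircle (40 : ℝ)))

lemma torb_coe_eq {x y : ℝ} : (x : AddCircle (40 : ℝ)) = (y : AddCircle (40 : ℝ)) ↔
    ∃ a : ℤ, y = x + 40 * a := by
  rw [QuotientAddGroup.eq, AddSubgroup.mem_zmultiples_iff]
  constructor
  · rintro ⟨k, hk⟩
    refine ⟨k, ?_⟩
    rw [zsmul_eq_mul] at hk
    linarith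
  · rintro ⟨k, hk⟩
    refine ⟨k, ?_⟩
    rw [zsmul_eq_mul]
    linarith

lemma mkT_eq {p q : ℝ × ℝ} : mkT p = mkT q ↔ ∃ a b : ℤ, q = (p.1 + 40 * a, p.2 + 40 * b) := by
  constructor
  · intro h
    have h1 : (p.1 : AddCircle (40 : ℝ)) = (q.1 : AddCircle (40 : ℝ)) := congrArg Prod.fst h
    have h2 : (p.2 : AddCircle (40 : ℝ)) = (q.2 : AddCircle (40 : ℝ)) := congrArg Prod.snd h
    obtain ⟨a, ha⟩ := torb_coe_eq.1 h1
    obtain ⟨b, hb⟩ := torb_coe_eq.1 h2
    exact ⟨a, b, Prod.ext ha hb⟩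
  · rintro ⟨a, b, rfl⟩
    exact Prod.ext (torb_coe_eq.2 ⟨a, rfl⟩) (torb_coe_eq.2 ⟨b, rfl⟩)

/-- A measurable section. -/
lemma exists_rep : ∃ r : Tor → ℝ × ℝ, Measurable r ∧ (∀ z, mkT (r z) = z) ∧
    range r = Ico (-16) 24 ×ˢ Ico (-16) 24 := by
  let s : AddCircle (40 : ℝ) → ℝ := fun x => (AddCircle.equivIco (40 : ℝ) (-16) x : ℝ)
  have hs : Measurable s :=
    measurable_subtype_coe.comp (AddCircle.measurableEquivIco (40 : ℝ) (-16)).measurable
  have h1 : ∀ x, ((s x : ℝ) : AddCircle (40 : ℝ)) = x := fun x =>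
    (AddCircle.equivIco (40 : ℝ) (-16)).symm_apply_apply x
  have h2 : ∀ x, s x ∈ Ico (-16 : ℝ) 24 := fun x => by
    have := (AddCircle.equivIco (40 : ℝ) (-16) x).2
    refine ⟨this.1, ?_⟩
    have h := this.2
    show (AddCircle.equivIco (40 : ℝ) (-16) x : ℝ) < 24
    linarith
  have h3 : ∀ t : ℝ, t ∈ Ico (-16 : ℝ) 24 → s (t : AddCircle (40 : ℝ)) = t := fun t ht => by
    have ht' : t ∈ Ico (-16 : ℝ) (-16 + 40) := ⟨ht.1, by linarith [ht.2]⟩
    exact congrArg Subtype.val
      ((AddCircle.equivIco (40 : ℝ) (-16)).apply_symm_apply ⟨t, ht'⟩)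
  have c1 : Continuous fun z : Tor => (z.1 : AddCircle (40 : ℝ)) := continuous_fst
  have c2 : Continuous fun z : Tor => (z.2 : AddCircle (40 : ℝ)) := continuous_snd
  refine ⟨fun z => (s z.1, s z.2), (hs.comp c1.measurable).prodMk (hs.comp c2.measurable),
    fun z => Prod.ext (h1 z.1) (h1 z.2), ?_⟩
  ext p
  constructor
  · rintro ⟨z, rfl⟩
    exact ⟨h2 _, h2 _⟩
  · intro hp
    exact ⟨mkT p, Prod.ext (h3 _ hp.1) (h3 _ hp.2)⟩

lemma torb_local : IsLocalHomeomorph mkT := by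
  intro p
  let e : OpenPartialHomeomorph (ℝ × ℝ) Tor :=
    (AddCircle.openPartialHomeomorphCoe (40 : ℝ) (p.1 - 20)).prod
      (AddCircle.openPartialHomeomorphCoe (40 : ℝ) (p.2 - 20))
  refine ⟨e, ?_, rfl⟩
  exact ⟨⟨by linarith, by linarith⟩, ⟨by linarith, by linarith⟩⟩

lemma torb_surj : Function.Surjective mkT := by
  obtain ⟨r, -, h, -⟩ := exists_rep
  exact fun z => ⟨r z, h z⟩

/-- The coordinates of the plane. -/
noncomputable def torbL : EuclideanSpace ℝ (Fin 2) ≃L[ℝ] ℝ × ℝ :=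
  (EuclideanSpace.equiv (Fin 2) ℝ).trans (ContinuousLinearEquiv.finTwoArrow ℝ ℝ)

/-- The projection from the model space. -/
noncomputable def torbP (v : EuclideanSpace ℝ (Fin 2)) : Tor := mkT (torbL v)

lemma torbP_local : IsLocalHomeomorph torbP :=
  torb_local.comp torbL.toHomeomorph.isLocalHomeomorph

lemma torbP_surj : Function.Surjective torbP := torb_surj.comp torbL.surjective

lemma torbP_add {u v : EuclideanSpace ℝ (Fin 2)} (h : torbP u = torbP v)
    (w : EuclideanSpace ℝ (Fin 2)) : torbP w = torbP (w + (v - u)) := by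
  obtain ⟨a, b, e⟩ := mkT_eq.1 h
  refine mkT_eq.2 ⟨a, b, ?_⟩
  rw [map_add, map_sub, e]
  refine Prod.ext ?_ ?_ <;> simp

lemma torb_key {g F : EuclideanSpace ℝ (Fin 2) → EuclideanSpace ℝ (Fin 2)}
    {v : EuclideanSpace ℝ (Fin 2)} (hg : ContinuousAt g v) (hF : ContDiff ℝ 1 F)
    (h : ∀ᶠ w in 𝓝 v, torbP (g w) = torbP (F w)) : ContDiffAt ℝ 1 g v := by
  have h0 : torbP (F v) = torbP (g v) := h.self_of_nhds.symm
  let e := torbP_local.localInverseAt (g v)
  have hU : e.target ∈ 𝓝 (g v) :=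
    e.open_target.mem_nhds torbP_local.self_mem_localInverseAt_target
  have hc : ContinuousAt (fun w => F w + (g v - F v)) v :=
    (hF.continuous.add continuous_const).continuousAt
  have hU' : e.target ∈ 𝓝 ((fun w => F w + (g v - F v)) v) := by
    have : (fun w => F w + (g v - F v)) v = g v := by simp
    rw [this]
    exact hU
  have ev : g =ᶠ[𝓝 v] fun w => F w + (g v - F v) := by
    filter_upwards [h, hg hU, hc hU'] with w h1 h2 h3
    exact torbP_local.injOn_localInverseAt_target h2 h3 (h1.trans (torbP_add h0 _))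
  exact ((hF.add contDiff_const).contDiffAt).congr_of_eventuallyEq ev

/-- The atlas of local inverses of the projection. -/
@[instance_reducible]
noncomputable def torbCS : ChartedSpace (EuclideanSpace ℝ (Fin 2)) Tor where
  atlas := {e | (e.symm : EuclideanSpace ℝ (Fin 2) → Tor) = torbP}
  chartAt q := torbP_local.localInverseAt (torbP_surj q).choose
  mem_chart_source q := by
    have := torbP_local.apply_self_mem_localInverseAt_source (x := (torbP_surj q).choose)
    rwa [(torbP_surj q).choose_spec] at this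
  chart_mem_atlas q := torbP_local.localInverseAt_symm _

lemma torb_chart {e : OpenPartialHomeomorph Tor (EuclideanSpace ℝ (Fin 2))}
    (he : (e.symm : EuclideanSpace ℝ (Fin 2) → Tor) = torbP) {f : Tor → Tor}
    (hf : Continuous f) {F : EuclideanSpace ℝ (Fin 2) → EuclideanSpace ℝ (Fin 2)}
    (hF : ContDiff ℝ 1 F) (h : ∀ w, f (torbP w) = torbP (F w))
    {v : EuclideanSpace ℝ (Fin 2)} (hv : f (torbP v) ∈ e.source) :
    ContDiffAt ℝ 1 (fun w => e (f (torbP w))) v := by
  have hc : Continuous fun w => f (torbP w) := hf.comp torbP_local.continuous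
  refine torb_key (F := F) ?_ hF ?_
  · exact ContinuousAt.comp (f := fun w => f (torbP w)) (e.continuousAt hv) hc.continuousAt
  · filter_upwards [hc.continuousAt (e.open_source.mem_nhds hv)] with w hw
    rw [← h w, ← he]
    rw [← he] at hw
    exact e.left_inv hw

/-- An atlas for which maps with a `C¹` lift are `C¹`. -/
theorem exists_atlas : ∃ _ : ChartedSpace (EuclideanSpace ℝ (Fin 2)) Tor,
    IsManifold (𝓡 2) 1 Tor ∧ ∀ (f : Tor → Tor) (F : ℝ × ℝ → ℝ × ℝ), ContDiff ℝ 1 F →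
      (∀ p, f (mkT p) = mkT (F p)) → ContMDiff (𝓡 2) (𝓡 2) 1 f := by
  refine ⟨torbCS, ?_, ?_⟩
  · let _ := torbCS
    refine isManifold_of_contDiffOn _ _ _ ?_
    intro e e' he he' v hv
    have he1 : (e.symm : EuclideanSpace ℝ (Fin 2) → Tor) = torbP := he
    have he2 : (e'.symm : EuclideanSpace ℝ (Fin 2) → Tor) = torbP := he'
    have hv' : torbP v ∈ e'.source := by
      have := hv.1.2
      rw [← he1]
      simpa using this
    have key := torb_chart he2 (f := id) continuous_id (F := id) contDiff_id (fun _ => rfl) hv'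
    have : ((𝓡 2) ∘ (e.symm ≫ₕ e') ∘ (𝓡 2).symm) = fun w => e' (id (torbP w)) := by
      funext w
      simp [he1]
    rw [this]
    exact key.contDiffWithinAt
  · let _ := torbCS
    intro f F hF h x
    have hq : IsQuotientMap mkT :=
      torb_local.isOpenMap.isQuotientMap torb_local.continuous torb_surj
    have hf : Continuous f := by
      rw [hq.continuous_iff]
      have : f ∘ mkT = mkT ∘ F := funext h
      rw [this]
      exact torb_local.continuous.comp hF.continuous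
    rw [contMDiffAt_iff]
    refine ⟨hf.continuousAt, ?_⟩
    have he1 : ((chartAt (EuclideanSpace ℝ (Fin 2)) x).symm :
      EuclideanSpace ℝ (Fin 2) → Tor) = torbP := torbP_local.localInverseAt_symm _
    have he2 : ((chartAt (EuclideanSpace ℝ (Fin 2)) (f x)).symm :
      EuclideanSpace ℝ (Fin 2) → Tor) = torbP := torbP_local.localInverseAt_symm _
    have hx : torbP (chartAt (EuclideanSpace ℝ (Fin 2)) x x) = x := by
      rw [← he1]
      exact (chartAt (EuclideanSpace ℝ (Fin 2)) x).left_inv (mem_chart_source _ x)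
    have hF' : ContDiff ℝ 1 fun w => torbL.symm (F (torbL w)) :=
      torbL.symm.contDiff.comp (hF.comp torbL.contDiff)
    have key := torb_chart he2 hf hF' (fun w => by simp [torbP, h])
      (v := chartAt (EuclideanSpace ℝ (Fin 2)) x x) (by rw [hx]; exact mem_chart_source _ _)
    have e1 : (extChartAt (𝓡 2) (f x) ∘ f ∘ (extChartAt (𝓡 2) x).symm) =
        fun w => chartAt (EuclideanSpace ℝ (Fin 2)) (f x) (f (torbP w)) := by
      funext w
      simp [he1]
    have e2 : extChartAt (𝓡 2) x x = chartAt (EuclideanSpace ℝ (Fin 2)) x x := by simp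
    rw [e1, e2]
    exact key.contDiffWithinAt

end TorBPart

section TorCPart

/-! A diffeomorphism of the torus given by a second order recurrence. -/


open MeasureTheory Set Filter Topology

open scoped Manifold

theorem exists_torus {H : ℝ × ℝ → ℝ} (hH : ContDiff ℝ 1 H)
    (c1 : ∀ x y, -17 < x → x < -15 → H (x + 40, y) = H (x, y) - 40)
    (c2 : ∀ x y, -17 < y → y < -15 → H (x, y + 40) = H (x, y))
    (hm : ∀ x x' y, x ≤ x' → H (x', y) - H (x, y) ≤ -((x' - x) / 8)) :
    ∃ (_ : ChartedSpace (EuclideanSpace ℝ (Fin 2)) Tor) (_ : IsManifold (𝓡 2) 1 Tor)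
      (f : Diffeomorph (𝓡 2) (𝓡 2) Tor Tor 1) (r : Tor → ℝ × ℝ), Measurable r ∧
      Function.Injective r ∧ range r = Ico (-16) 24 ×ˢ Ico (-16) 24 ∧
      ∀ z, (r (f z)).1 = (r z).2 ∧ ∃ n : ℤ, (r (f z)).2 = H (r z) + 40 * n := by
  obtain ⟨Φ, hΦ, p1, p2, hmΦ, hΦH⟩ := exists_lift hH c1 c2 hm
  obtain ⟨Θ, hΘ, i1, i2⟩ := exists_inverse hΦ hmΦ
  obtain ⟨r, hr, hrz, hrr⟩ := exists_rep
  obtain ⟨cs, hman, hsm⟩ := exists_atlas
  have hΘp : ∀ y z (a b : ℤ), Θ (y + 40 * a, z + 40 * b) = Θ (y, z) - 40 * b := by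
    intro y z a b
    have e1 : Φ (Θ (y, z) - 40 * b, y + 40 * a) = z + 40 * b := by
      rw [p2]
      have := p1 (Θ (y, z)) y (-b)
      rw [i2] at this
      push_cast at this
      rw [show Θ (y, z) - 40 * (b : ℝ) = Θ (y, z) + 40 * (-(b : ℝ)) by ring, this]
      ring
    rw [← e1, i1]
  let f : Tor → Tor := fun z => mkT ((r z).2, Φ (r z))
  let g : Tor → Tor := fun z => mkT (Θ (r z), (r z).1)
  have hrep : ∀ p : ℝ × ℝ, ∃ a b : ℤ, r (mkT p) = (p.1 + 40 * a, p.2 + 40 * b) := fun p =>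
    mkT_eq.1 (hrz (mkT p)).symm
  have hf : ∀ p : ℝ × ℝ, f (mkT p) = mkT (p.2, Φ p) := by
    intro p
    obtain ⟨a, b, e⟩ := hrep p
    symm
    refine mkT_eq.2 ⟨b, -a, ?_⟩
    rw [e]
    refine Prod.ext rfl ?_
    show Φ (p.1 + 40 * a, p.2 + 40 * b) = Φ p + 40 * ((-a : ℤ) : ℝ)
    rw [p2, p1]
    push_cast
    ring
  have hg : ∀ p : ℝ × ℝ, g (mkT p) = mkT (Θ p, p.1) := by
    intro p
    obtain ⟨a, b, e⟩ := hrep p
    symm
    refine mkT_eq.2 ⟨-b, a, ?_⟩
    rw [e]
    refine Prod.ext ?_ rfl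
    show Θ (p.1 + 40 * a, p.2 + 40 * b) = Θ p + 40 * ((-b : ℤ) : ℝ)
    rw [hΘp]
    push_cast
    ring
  have hgf : ∀ z, g (f z) = z := by
    intro z
    show g (mkT ((r z).2, Φ (r z))) = z
    rw [hg]
    have : Θ ((r z).2, Φ (r z)) = (r z).1 := i1 (r z).1 (r z).2
    simp only [this]
    exact hrz z
  have hfg : ∀ z, f (g z) = z := by
    intro z
    show f (mkT (Θ (r z), (r z).1)) = z
    rw [hf]
    have : Φ (Θ (r z), (r z).1) = (r z).2 := i2 (r z).1 (r z).2
    simp only [this]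
    exact hrz z
  have sf : ContMDiff (𝓡 2) (𝓡 2) 1 f :=
    hsm f (fun p => (p.2, Φ p)) (contDiff_snd.prodMk hΦ) hf
  have sg : ContMDiff (𝓡 2) (𝓡 2) 1 g :=
    hsm g (fun p => (Θ p, p.1)) (hΘ.prodMk contDiff_fst) hg
  let F : Diffeomorph (𝓡 2) (𝓡 2) Tor Tor 1 :=
    { toFun := f
      invFun := g
      left_inv := hgf
      right_inv := hfg
      contMDiff_toFun := sf
      contMDiff_invFun := sg }
  have hmem : ∀ z, r z ∈ Ico (-16 : ℝ) 24 ×ˢ Ico (-16 : ℝ) 24 := fun z => by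
    rw [← hrr]; exact mem_range_self z
  refine ⟨cs, hman, F, r, hr, fun z w e => by rw [← hrz z, ← hrz w, e], hrr, fun z => ?_⟩
  obtain ⟨a, b, e⟩ := hrep ((r z).2, Φ (r z))
  have e' : r (F z) = ((r z).2 + 40 * a, Φ (r z) + 40 * b) := e
  have m1 := hmem (F z)
  have m2 := hmem z
  rw [e'] at m1
  have ha : a = 0 := by
    have h1 : (-16 : ℝ) ≤ (r z).2 + 40 * a := m1.1.1
    have h2 : (r z).2 + 40 * a < 24 := m1.1.2
    have h3 : (-16 : ℝ) ≤ (r z).2 := m2.2.1
    have h4 : (r z).2 < 24 := m2.2.2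
    have h5 : (a : ℝ) < 1 := by linarith
    have h6 : (-1 : ℝ) < a := by linarith
    have h7 : a < 1 := by exact_mod_cast h5
    have h8 : -1 < a := by exact_mod_cast h6
    omega
  refine ⟨?_, b, ?_⟩
  · rw [e', ha]; simp
  · rw [e']
    have := hΦH (r z).1 (r z).2 m2.1 m2.2
    show Φ (r z) + 40 * b = H (r z) + 40 * b
    rw [show Φ (r z) = H (r z) from this]

end TorCPart

section GlobPart

/-! Global dynamics. -/


open MeasureTheory Set Filter Topology

variable {x : ℤ → ℝ} {t : ℤ}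

lemma glob_zero (u : ℤ → ℝ) (k : ℤ) (B : ℝ) (hB : ∀ t, |u t| ≤ B)
    (h : ∀ t, 2 * |u t| ≤ |u (t + k)|) (t : ℤ) : u t = 0 := by
  have key : ∀ n : ℕ, ∀ t, |u t| ≤ B * (1 / 2) ^ n := by
    intro n
    induction n with
    | zero => simpa using hB
    | succ n ih =>
      intro t
      have h1 := h t
      have h2 := ih (t + k)
      rw [pow_succ]
      linarith
  have hl : Tendsto (fun n : ℕ => B * (1 / 2 : ℝ) ^ n) atTop (𝓝 (B * 0)) :=
    (tendsto_pow_atTop_nhds_zero_of_lt_one (by norm_num) (by norm_num)).const_mul B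
  have := ge_of_tendsto' hl fun n => key n t
  rw [mul_zero] at this
  exact abs_nonpos_iff.1 this

lemma glob_const (P : ℤ → Prop) (h : ∀ t, P (t + 1) ↔ P t) (s t : ℤ) (hs : P s) : P t := by
  have key : ∀ n : ℤ, P n ↔ P 0 := by
    intro n
    induction n using Int.induction_on with
    | zero => rfl
    | succ n ih => rw [h, ih]
    | pred n ih => rw [← ih, ← h (-(n : ℤ) - 1), sub_add_cancel]
  exact (key t).2 ((key s).1 hs)

lemma glob_Xi {a b : ℝ} (h : b ≤ 0 ∨ 1 ≤ b) : Xi (a, b) = 0 := by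
  refine Xi_eq_zero (not_act ?_)
  rcases h with h | h
  · exact Or.inr (Or.inr (Or.inl (by show b ≤ _; linarith)))
  · exact Or.inr (Or.inr (Or.inr (by show _ ≤ b; linarith)))

lemma glob_av {a : ℝ} (h : a ≤ -7 / 2) : av * a ≤ -10 := by
  have := av_ge
  nlinarith

lemma glob_neg {a : ℝ} (h : av * a ≤ -10) : a < 0 := by
  have := av_ge
  by_contra hc
  push Not at hc
  nlinarith

lemma glob_al_mono {a b : ℝ} (h : a ≤ b) : al a ≤ al b := by
  have := al_slope h
  linarith

lemma GOrb.fwd0 (h : GOrb x) (ht : x (t - 1) ≤ 16) :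
    x (t + 1) = HH (x (t - 1), x t) ∧ x (t + 1) ≤ 16 := by
  obtain ⟨_, _, n, hn⟩ := h t
  obtain ⟨h1, h2, _⟩ := h (t + 1)
  have h3 := (h (t - 1)).1
  have h4 := abs_le.1 (abs_al (x := x (t - 1)) (abs_le.2 ⟨h3, ht⟩))
  have h5 := GG_bound (x t)
  have h6 := abs_le.1 (abs_Xi (x (t - 1), x t))
  have h7 : HH (x (t - 1), x t) = GG (x t) - al (x (t - 1)) + Xi (x (t - 1), x t) := rfl
  have h8 : (-1 : ℝ) < n := by linarith [h4.1, h5.2, h6.2]
  have h9 : (n : ℝ) < 1 := by linarith [h4.2, h5.1, h6.1]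
  have h10 : n = 0 := by
    have a : (-1 : ℤ) < n := by exact_mod_cast h8
    have b : n < (1 : ℤ) := by exact_mod_cast h9
    omega
  rw [h10] at hn
  simp only [Int.cast_zero, mul_zero, add_zero] at hn
  exact ⟨hn, by linarith [h4.1, h5.2, h6.2]⟩

/-- The step when the nonlinearity is saturated. -/
lemma glob_sat (h : GOrb x) (ht : x (t - 1) ≤ 16) (h' : av * x t ≤ -10 ∨ 1 ≤ x t) :
    x (t + 1) = -9 - al (x (t - 1)) ∧ x (t + 1) ≤ -7 / 2 := by
  have h1 := (h.fwd0 ht).1
  have h4 := abs_le.1 (abs_al (x := x (t - 1)) (abs_le.2 ⟨(h (t - 1)).1, ht⟩))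
  have h7 : HH (x (t - 1), x t) = GG (x t) - al (x (t - 1)) + Xi (x (t - 1), x t) := rfl
  have h2 : GG (x t) = -9 := h'.elim GG_left GG_right
  have h3 : Xi (x (t - 1), x t) = 0 :=
    glob_Xi (h'.elim (fun a => Or.inl (glob_neg a).le) Or.inr)
  constructor
  · linarith
  · linarith [h4.1]

/-- The step on the left of the saddle. -/
lemma glob_lin (h : GOrb x) (ht : x (t - 1) ≤ 16) (h1 : -10 ≤ av * x t) (h2 : x t ≤ 0) :
    x (t + 1) + al (x (t - 1)) ≤ 3 * x t := by
  have h3 := (h.fwd0 ht).1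
  have h7 : HH (x (t - 1), x t) = GG (x t) - al (x (t - 1)) + Xi (x (t - 1), x t) := rfl
  have h4 := GG_neg h1 h2
  have h5 : Xi (x (t - 1), x t) = 0 := glob_Xi (Or.inl h2)
  linarith

lemma glob_dbl (h : GOrb x) (ht : x (t - 1) ≤ 16) (h1 : -10 ≤ av * x t) (h2 : x t ≤ 0)
    (h3 : x t ≤ x (t - 1)) : x (t + 1) ≤ 2 * x t := by
  have h4 := glob_lin h ht h1 h2
  have h5 := glob_al_mono h3
  have h6 := le_al h2
  linarith

lemma GOrb.fwd1 (h : GOrb x) (ht : (x (t - 1), x t) ∈ N1) : (x t, x (t + 1)) ∈ N1 := by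
  obtain ⟨h1, h2, h3⟩ := ht
  simp only at h1 h2 h3
  by_cases h4 : av * x t ≤ -10
  · have h5 := (glob_sat h h1 (Or.inl h4)).2
    exact ⟨by show x t ≤ 16; linarith, by show x (t + 1) < 0; linarith, Or.inr (glob_av h5)⟩
  · have h5 := glob_dbl h h1 (not_le.1 h4).le h2.le (h3.resolve_right h4)
    exact ⟨by show x t ≤ 16; linarith, by show x (t + 1) < 0; linarith,
      Or.inl (by show x (t + 1) ≤ x t; linarith)⟩

lemma GOrb.fwd2 (h : GOrb x) (ht : (x (t - 1), x t) ∈ N2) : (x t, x (t + 1)) ∈ N2 := by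
  obtain ⟨h1, h2⟩ := ht
  simp only at h1 h2
  have h3 := glob_neg h2
  exact ⟨by show x t ≤ 16; linarith, glob_av (glob_sat h h1 (Or.inl h2)).2⟩

lemma glob_al_aff {a : ℝ} (h : 87 / 5 ≤ a) (h' : a ≤ 39 / 2) :
    al a = a / 4 + 3 / 2 + 27 * (5 / 4 * ((a - 16) / 7 - 1 / 10)) := by
  rw [al_pos (by linarith), Psi_mid (by linarith) (by linarith)]

lemma glob_per (h : GOrb x) (h0 : ∀ t, x (t + 1) ≤ 16 → x (t - 1) ≤ 16)
    (H : ∀ s, 16 < x s ∨ x s ≤ -7 / 2) (t : ℤ) : x (t + 2) = x t := by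
  have hsat : ∀ s, av * x s ≤ -10 ∨ 1 ≤ x s := fun s =>
    (H s).elim (fun a => Or.inr (by linarith)) fun a => Or.inl (glob_av a)
  have hup : ∀ s, 16 < x s → 16 < x (s + 2) := by
    intro s hs
    by_contra hc
    have := h0 (s + 1) (by rw [show s + 1 + 1 = s + 2 by ring]; exact not_lt.1 hc)
    rw [add_sub_cancel_right] at this
    linarith
  have hlow : ∀ s, x s ≤ 16 → x (s + 2) = -15 / 2 - x s / 4 ∧ x (s + 2) ≤ 16 := by
    intro s hs
    have h1 := glob_sat (t := s + 1) h (by rw [add_sub_cancel_right]; exact hs) (hsat _)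
    rw [add_sub_cancel_right, show s + 1 + 1 = s + 2 by ring] at h1
    have h2 : x s ≤ -7 / 2 := (H s).resolve_left (not_lt.2 hs)
    rw [al_neg (by linarith)] at h1
    exact ⟨by linarith [h1.1], by linarith [h1.2]⟩
  have hdown : ∀ s, x (s + 2) ≤ 16 → x s ≤ 16 := fun s hs =>
    not_lt.1 fun hc => absurd (hup s hc) (not_lt.2 hs)
  have hbig : ∀ s, 16 < x s → x (s + 2) = 31 - al (x s) := by
    intro s hs
    obtain ⟨_, _, n, hn⟩ := h (s + 1)
    rw [add_sub_cancel_right, show s + 1 + 1 = s + 2 by ring] at hn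
    have h7 : HH (x s, x (s + 1)) = GG (x (s + 1)) - al (x s) + Xi (x s, x (s + 1)) := rfl
    have h2 : GG (x (s + 1)) = -9 := (hsat _).elim GG_left GG_right
    have h3 : Xi (x s, x (s + 1)) = 0 :=
      Xi_eq_zero (not_act (Or.inr (Or.inl (by show 1 ≤ x s; linarith))))
    have h4 := al_pos (x := x s) (by linarith)
    have h5 := Psi_nonneg ((x s - 16) / 7)
    have h6 := Psi_le_one ((x s - 16) / 7)
    have h8 := hup s hs
    have h9 := (h (s + 2)).2.1
    have h10 := (h s).2.1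
    have a1 : (0 : ℝ) < n := by linarith
    have a2 : (n : ℝ) < 2 := by linarith
    have a3 : n = 1 := by
      have a : (0 : ℤ) < n := by exact_mod_cast a1
      have b : n < (2 : ℤ) := by exact_mod_cast a2
      omega
    rw [a3] at hn
    simp only [Int.cast_one, mul_one] at hn
    linarith
  have hlt : ∀ s, 16 < x s → x s ≤ 39 / 2 := by
    intro s hs
    by_contra hc
    have h1 := glob_al_mono (not_le.1 hc).le
    rw [glob_al_aff (by norm_num) le_rfl] at h1
    have h2 := hbig s hs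
    have h3 := hup s hs
    linarith
  have hgt : ∀ s, 16 < x s → 87 / 5 ≤ x s := by
    intro s hs
    by_contra hc
    have h1 := glob_al_mono (not_le.1 hc).le
    rw [glob_al_aff le_rfl (by norm_num)] at h1
    have h2 := hbig s hs
    have h3 := hlt _ (hup s hs)
    linarith
  have hB : ∀ s, |x (s + 2) - x s| ≤ 40 := fun s => by
    have a := h s
    have b := h (s + 2)
    exact abs_le.2 ⟨by linarith [a.2.1, b.1], by linarith [a.1, b.2.1]⟩
  by_cases ht : 16 < x t
  · have := glob_zero (fun s => if 16 < x s then x (s + 2) - x s else 0) 2 40 (fun s => by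
      split_ifs
      · exact hB s
      · norm_num) (fun s => by
      by_cases hs : 16 < x s
      · have hs' := hup s hs
        simp only [if_pos hs, if_pos hs']
        have h1 := hbig s hs
        have h2 := hbig _ hs'
        rw [glob_al_aff (hgt s hs) (hlt s hs)] at h1
        rw [glob_al_aff (hgt _ hs') (hlt _ hs')] at h2
        have e : x (s + 2 + 2) - x (s + 2) = -(71 / 14) * (x (s + 2) - x s) := by linarith
        rw [e, abs_mul, abs_neg, abs_of_pos (by norm_num : (0 : ℝ) < 71 / 14)]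
        nlinarith [abs_nonneg (x (s + 2) - x s)]
      · simp only [if_neg hs, abs_zero, mul_zero]
        exact abs_nonneg _) t
    simp only [if_pos ht] at this
    linarith
  · have := glob_zero (fun s => if 16 < x s then 0 else x (s + 2) - x s) (-2) 40 (fun s => by
      split_ifs
      · norm_num
      · exact hB s) (fun s => by
      by_cases hs : 16 < x s
      · simp only [if_pos hs, abs_zero, mul_zero]
        exact abs_nonneg _
      · have e0 : s + -2 + 2 = s := by ring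
        have hs' : x (s + -2) ≤ 16 := hdown _ (by rw [e0]; exact not_lt.1 hs)
        simp only [if_neg hs, if_neg (not_lt.2 hs')]
        have h1 := (hlow s (not_lt.1 hs)).1
        have h2 := (hlow _ hs').1
        rw [e0] at h2 ⊢
        have e : x s - x (s + -2) = -4 * (x (s + 2) - x s) := by linarith
        rw [e, abs_mul, abs_neg, abs_of_pos (by norm_num : (0 : ℝ) < 4)]
        nlinarith [abs_nonneg (x (s + 2) - x s)]) t
    simp only [if_neg ht] at this
    linarith

lemma glob_orb (h : GOrb x) (h' : ∀ t, 0 ≤ x t ∧ x t ≤ 1) : Orb x := by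
  intro t
  refine ⟨(h' t).1, (h' t).2, ?_⟩
  have a := h' (t - 1)
  have h1 := (h.fwd0 (t := t) (by linarith [a.2])).1
  have h7 : HH (x (t - 1), x t) = GG (x t) - al (x (t - 1)) + Xi (x (t - 1), x t) := rfl
  rw [al_mid (abs_le.2 ⟨by linarith [a.1], a.2⟩)] at h7
  linarith

/-- Orbits that do not cross the boundaries of the trapping regions are periodic or in the core. -/
theorem GOrb.cases (h : GOrb x) (h0 : ∀ t, x (t + 1) ≤ 16 → x (t - 1) ≤ 16)
    (h1 : ∀ t, (x t, x (t + 1)) ∈ N1 → (x (t - 1), x t) ∈ N1)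
    (h2 : ∀ t, (x t, x (t + 1)) ∈ N2 → (x (t - 1), x t) ∈ N2) :
    (∀ t, x (t + 2) = x t) ∨ Orb x := by
  have hB : ∀ s, |x s| ≤ 24 := fun s =>
    abs_le.2 ⟨by linarith [(h s).1], (h s).2.1.le⟩
  by_cases hbig : ∃ s, 16 < x s
  · obtain ⟨s0, hs0⟩ := hbig
    have hiff : ∀ t, 16 < x (t + 1) ↔ 16 < x (t - 1) := fun t =>
      ⟨fun a => not_le.1 fun b => absurd (h.fwd0 b).2 (not_le.2 a),
        fun a => not_le.1 fun b => absurd (h0 t b) (not_le.2 a)⟩
    have hQ : ∀ t, 16 < x (t - 1) ∨ 16 < x t := fun t =>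
      glob_const (fun t => 16 < x (t - 1) ∨ 16 < x t)
        (fun t => by
          show (16 < x (t + 1 - 1) ∨ 16 < x (t + 1)) ↔ _
          rw [add_sub_cancel_right, hiff, or_comm]) s0 t (Or.inr hs0)
    refine Or.inl (glob_per h h0 fun s => ?_)
    by_cases hs : 16 < x s
    · exact Or.inl hs
    · right
      have a := (hQ s).resolve_right hs
      have b := h0 (s - 1) (by rw [sub_add_cancel]; exact not_lt.1 hs)
      have c := (glob_sat (t := s - 1) h b (Or.inr (by linarith))).2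
      rwa [sub_add_cancel] at c
  push Not at hbig
  by_cases hN2 : ∃ s, (x (s - 1), x s) ∈ N2
  · obtain ⟨s0, hs0⟩ := hN2
    have hQ : ∀ t, (x (t - 1), x t) ∈ N2 := fun t =>
      glob_const (fun t => (x (t - 1), x t) ∈ N2)
        (fun t => by
          show (x (t + 1 - 1), x (t + 1)) ∈ N2 ↔ _
          rw [add_sub_cancel_right]
          exact ⟨h2 t, h.fwd2⟩) s0 t hs0
    refine Or.inl (glob_per h h0 fun s => Or.inr ?_)
    have c := (glob_sat (t := s - 1) h (hbig _) (Or.inl (hQ (s - 1)).2)).2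
    rwa [sub_add_cancel] at c
  have hav : ∀ s, -10 < av * x s := fun s =>
    not_le.1 fun hc => hN2 ⟨s, hbig _, hc⟩
  by_cases hN1 : ∃ s, (x (s - 1), x s) ∈ N1
  · exfalso
    obtain ⟨s0, hs0⟩ := hN1
    have hQ : ∀ t, (x (t - 1), x t) ∈ N1 := fun t =>
      glob_const (fun t => (x (t - 1), x t) ∈ N1)
        (fun t => by
          show (x (t + 1 - 1), x (t + 1)) ∈ N1 ↔ _
          rw [add_sub_cancel_right]
          exact ⟨h1 t, h.fwd1⟩) s0 t hs0
    have hneg : ∀ s, x s < 0 := fun s => (hQ s).2.1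
    have := glob_zero x 1 24 hB (fun s => by
      have a : x s ≤ x (s - 1) := (hQ s).2.2.resolve_right (not_le.2 (hav s))
      have b := glob_dbl h (hbig _) (hav s).le (hneg s).le a
      rw [abs_of_neg (hneg s), abs_of_neg (hneg _)]
      linarith) 0
    exact (hneg 0).ne this
  have hdec : ∀ s, x s < 0 → x (s - 1) < x s := fun s hs =>
    not_le.1 fun hc => hN1 ⟨s, hbig _, hs, Or.inl hc⟩
  have hpos : ∀ s, 0 ≤ x s := by
    intro s
    by_contra hc
    have hc := not_le.1 hc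
    have := glob_zero (fun s => if x (s + 1) < 0 then x s else 0) (-1) 24 (fun s => by
      split_ifs
      · exact hB s
      · norm_num) (fun s => by
      by_cases hs : x (s + 1) < 0
      · have a := hdec _ hs
        rw [add_sub_cancel_right] at a
        have a' : x s < 0 := a.trans hs
        have b := hdec _ a'
        have e0 : s + -1 + 1 = s := by ring
        have e1 : s + -1 = s - 1 := by ring
        simp only [if_pos hs, e0, if_pos a']
        rw [e1]
        have c := glob_lin h (hbig (s - 1)) (hav s).le a'.le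
        have d : -1 ≤ x (s - 1) := by
          have := hav (s - 1)
          have := av_ge
          nlinarith
        rw [al_mid (abs_le.2 ⟨d, by linarith⟩)] at c
        rw [abs_of_neg a', abs_of_neg (b.trans a')]
        linarith
      · simp only [if_neg hs, abs_zero, mul_zero]
        exact abs_nonneg _) (s - 1)
    simp only [sub_add_cancel, if_pos hc] at this
    have := hdec s hc
    linarith
  refine Or.inr (glob_orb h fun s => ⟨hpos s, ?_⟩)
  by_contra hc
  have a := (glob_sat (t := s) h (hbig _) (Or.inr (not_le.1 hc).le)).2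
  have b := hpos (s + 1)
  linarith

lemma Orb.gorb (h : Orb x) : GOrb x := by
  intro t
  obtain ⟨h1, h2, h3⟩ := h t
  obtain ⟨h4, h5, _⟩ := h (t - 1)
  refine ⟨by linarith, by linarith, 0, ?_⟩
  have h7 : HH (x (t - 1), x t) = GG (x t) - al (x (t - 1)) + Xi (x (t - 1), x t) := rfl
  rw [al_mid (abs_le.2 ⟨by linarith, h5⟩)] at h7
  simp only [Int.cast_zero, mul_zero, add_zero]
  linarith

lemma GOrb.orb (h : GOrb x) (h' : ∀ t, 0 ≤ x t ∧ x t ≤ 1) : Orb x := glob_orb h h'

end GlobPart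

section ModelPart

/-! The symbolic model of the map. -/


open MeasureTheory Set Filter Topology

lemma ae_no_cross {M : Type*} [MeasurableSpace M] {e : M ≃ M} {ν : Measure M}
    [IsProbabilityMeasure ν] (he : MeasurePreserving e ν ν) (he' : Measurable e.symm) {A : Set M}
    (hA : MeasurableSet A) (n : ℕ) (h : ∀ z ∈ A, zp e n z ∈ A) :
    ∀ᵐ z ∂ν, ∀ t : ℤ, zp e (t + n) z ∈ A → zp e t z ∈ A := by
  have hn := measurePreserving_zp he' he n
  have hm : MeasurableSet (zp e n ⁻¹' A \ A) := (hn.measurable hA).diff hA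
  have h0 : ν (zp e n ⁻¹' A \ A) = 0 := by
    have hs : A ⊆ zp e n ⁻¹' A := h
    rw [measure_sdiff hs hA.nullMeasurableSet (measure_ne_top _ _),
      hn.measure_preimage hA.nullMeasurableSet, tsub_self]
  rw [ae_all_iff]
  intro t
  have h1 : ν (zp e t ⁻¹' (zp e n ⁻¹' A \ A)) = 0 := by
    rw [(measurePreserving_zp he' he t).measure_preimage hm.nullMeasurableSet, h0]
  filter_upwards [measure_eq_zero_iff_ae_notMem.1 h1] with z hz h2
  by_contra h3
  refine hz ⟨?_, h3⟩
  rw [mem_preimage, ← zp_add, add_comm]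
  exact h2

/-- The orbit of a point, read in the fundamental domain. -/
def modelX {M : Type*} (e : M ≃ M) (r : M → ℝ × ℝ) (z : M) (t : ℤ) : ℝ := (r (zp e t z)).2

section

variable {M : Type*} {e : M ≃ M} {r : M → ℝ × ℝ}

lemma model_r (hd : ∀ z, (r (e z)).1 = (r z).2 ∧ ∃ n : ℤ, (r (e z)).2 = HH (r z) + 40 * n)
    (z : M) (t : ℤ) : r (zp e t z) = (modelX e r z (t - 1), modelX e r z t) := by
  refine Prod.ext ?_ rfl
  have h := (hd (zp e (t - 1) z)).1
  rw [← zp_succ', sub_add_cancel] at h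
  exact h

lemma model_apply (z : M) (t : ℤ) : modelX e r (e z) t = modelX e r z (t + 1) := by
  unfold modelX
  rw [zp_succ]

lemma model_gorb (hs : range r = Ico (-16) 24 ×ˢ Ico (-16) 24)
    (hd : ∀ z, (r (e z)).1 = (r z).2 ∧ ∃ n : ℤ, (r (e z)).2 = HH (r z) + 40 * n) (z : M) :
    GOrb (modelX e r z) := by
  intro t
  have h1 : r (zp e t z) ∈ Ico (-16 : ℝ) 24 ×ˢ Ico (-16 : ℝ) 24 := hs ▸ mem_range_self _
  obtain ⟨n, hn⟩ := (hd (zp e t z)).2
  refine ⟨h1.2.1, h1.2.2, n, ?_⟩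
  rw [← zp_succ', model_r hd z t] at hn
  exact hn

lemma model_per (hi : Function.Injective r)
    (hd : ∀ z, (r (e z)).1 = (r z).2 ∧ ∃ n : ℤ, (r (e z)).2 = HH (r z) + 40 * n) {z : M}
    (h : ∀ t, modelX e r z (t + 2) = modelX e r z t) : e^[2] z = z := by
  apply hi
  have h1 := model_r hd z ((2 : ℕ) : ℤ)
  have h2 := model_r hd z 0
  rw [zp_natCast] at h1
  rw [zp_zero] at h2
  rw [h1, h2, ← h (0 - 1), ← h 0]
  norm_num

lemma model_onto (hi : Function.Injective r) (hs : range r = Ico (-16) 24 ×ˢ Ico (-16) 24)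
    (hd : ∀ z, (r (e z)).1 = (r z).2 ∧ ∃ n : ℤ, (r (e z)).2 = HH (r z) + 40 * n) {x : ℤ → ℝ}
    (hx : GOrb x) : ∃ z, modelX e r z = x := by
  have h1 : ∀ t, ∃ z, r z = (x (t - 1), x t) := fun t => by
    have : (x (t - 1), x t) ∈ range r := by
      rw [hs]
      exact ⟨⟨(hx (t - 1)).1, (hx (t - 1)).2.1⟩, (hx t).1, (hx t).2.1⟩
    exact this
  choose Z hZ using h1
  have h2 : ∀ t, e (Z t) = Z (t + 1) := fun t => by
    apply hi
    obtain ⟨h3, n, h4⟩ := hd (Z t)
    obtain ⟨n', h5⟩ := (hx t).2.2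
    have h6 : r (e (Z t)) ∈ Ico (-16 : ℝ) 24 ×ˢ Ico (-16 : ℝ) 24 := hs ▸ mem_range_self _
    have h7 := h6.2.1
    have h8 := h6.2.2
    have h9 := (hx (t + 1)).1
    have h10 := (hx (t + 1)).2.1
    rw [hZ t] at h3 h4
    have h11 : n < n' + 1 := by
      have : (n : ℝ) < n' + 1 := by linarith
      exact_mod_cast this
    have h12 : n' < n + 1 := by
      have : (n' : ℝ) < n + 1 := by linarith
      exact_mod_cast this
    have h13 : n = n' := by omega
    rw [hZ (t + 1), add_sub_cancel_right]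
    refine Prod.ext h3 ?_
    rw [h4, h13]
    exact h5.symm
  have h3 : ∀ t, zp e t (Z 0) = Z t := fun t => by
    induction t using Int.induction_on with
    | zero => simp
    | succ k ih => rw [zp_succ', ih, h2]
    | pred k ih =>
      apply e.injective
      rw [← zp_succ', h2, sub_add_cancel, ih]
  refine ⟨Z 0, funext fun t => ?_⟩
  unfold modelX
  rw [h3, hZ]

end

lemma model_meas_N1 : MeasurableSet N1 :=
  (measurableSet_le measurable_fst measurable_const).inter
    ((measurableSet_lt measurable_snd measurable_const).inter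
      ((measurableSet_le measurable_snd measurable_fst).union
        (measurableSet_le (measurable_snd.const_mul av) measurable_const)))

lemma model_meas_N2 : MeasurableSet N2 :=
  (measurableSet_le measurable_fst measurable_const).inter
    (measurableSet_le (measurable_snd.const_mul av) measurable_const)

lemma model_ae {M : Type*} [MeasurableSpace M] {e : M ≃ M} (he' : Measurable e.symm)
    {r : M → ℝ × ℝ} (hr : Measurable r) (hs : range r = Ico (-16) 24 ×ˢ Ico (-16) 24)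
    (hd : ∀ z, (r (e z)).1 = (r z).2 ∧ ∃ n : ℤ, (r (e z)).2 = HH (r z) + 40 * n)
    {ν : Measure M} [IsProbabilityMeasure ν] (hν : MeasurePreserving e ν ν) :
    ∀ᵐ z ∂ν, (∀ t, modelX e r z (t + 2) = modelX e r z t) ∨ Orb (modelX e r z) := by
  have hone : ∀ {Q : Set (ℝ × ℝ)}, MeasurableSet Q →
      (∀ x, GOrb x → (x (0 - 1), x 0) ∈ Q → (x 0, x (0 + 1)) ∈ Q) →
      ∀ᵐ z ∂ν, ∀ t, (modelX e r z t, modelX e r z (t + 1)) ∈ Q →
        (modelX e r z (t - 1), modelX e r z t) ∈ Q := by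
    intro Q hQ h
    have h1 := ae_no_cross hν he' (hr hQ) 1 fun z hz => by
      have h2 := model_r hd z 0
      rw [zp_zero] at h2
      rw [mem_preimage, h2] at hz
      rw [mem_preimage, model_r hd]
      simpa using h _ (model_gorb hs hd z) hz
    filter_upwards [h1] with z hz t ht
    have h2 := hz t
    rw [mem_preimage, mem_preimage, model_r hd, model_r hd] at h2
    exact h2 (by simpa using ht)
  have h0 := ae_no_cross hν he' (A := {z | (r z).1 ≤ 16})
    (measurableSet_le hr.fst measurable_const) 2 fun z hz => by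
      have h2 := model_r hd z 0
      rw [zp_zero] at h2
      have h3 : (r z).1 ≤ 16 := hz
      rw [h2] at h3
      have h4 := ((model_gorb hs hd z).fwd0 (t := 0) h3).2
      show (r (zp e ((2 : ℕ) : ℤ) z)).1 ≤ 16
      rw [model_r hd]
      simpa using h4
  filter_upwards [h0, hone model_meas_N1 fun x hx => hx.fwd1,
    hone model_meas_N2 fun x hx => hx.fwd2] with z hz0 hz1 hz2
  refine (model_gorb hs hd z).cases (fun t ht => ?_) hz1 hz2
  have h2 : (r (zp e (t + (2 : ℕ)) z)).1 ≤ 16 → (r (zp e t z)).1 ≤ 16 := hz0 t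
  rw [model_r hd, model_r hd, show t + ((2 : ℕ) : ℤ) - 1 = t + 1 by push_cast; ring] at h2
  exact h2 ht

theorem model {M : Type*} [MeasurableSpace M] [StandardBorelSpace M] {e : M ≃ M}
    (he : Measurable e) (he' : Measurable e.symm) {r : M → ℝ × ℝ} (hr : Measurable r)
    (hi : Function.Injective r) (hs : range r = Ico (-16) 24 ×ˢ Ico (-16) 24)
    (hd : ∀ z, (r (e z)).1 = (r z).2 ∧ ∃ n : ℤ, (r (e z)).2 = HH (r z) + 40 * n) :
    ∃ (D : Set M) (N : M → Om), Emb e sh D N ∧ (∀ z ∈ D, Lang (N z)) ∧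
      (∀ y, Des y → y ∈ N '' D) ∧
      ∀ ν : Measure M, IsProbabilityMeasure ν → Ergodic e ν → PE e ν → ν Dᶜ = 0 := by
  have hX : ∀ t, Measurable fun z => modelX e r z t := fun t =>
    hr.snd.comp (measurable_zp he he' t)
  have hB : MeasurableSet {z | 1 / 4 ≤ (r z).2} := measurableSet_le measurable_const hr.snd
  have hO : ∀ z, (∀ t, 0 ≤ modelX e r z t ∧ modelX e r z t ≤ 1) → Orb (modelX e r z) :=
    fun z hz => (model_gorb hs hd z).orb hz
  refine ⟨{z | ∀ t, 0 ≤ modelX e r z t ∧ modelX e r z t ≤ 1} ∩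
    {z | Recur e {z | 1 / 4 ≤ (r z).2} z}, fun z => nm (modelX e r z), ⟨?_, ?_, ?_, ?_, ?_⟩,
    fun z hz => lang (hO z hz.1) hz.2, fun y hy => ?_, fun ν hν hE hP => ?_⟩
  · exact measurable_pi_lambda _ fun t => measurable_sym.comp ((hX (t - 1)).prodMk (hX t))
  · refine MeasurableSet.inter ?_ (measurableSet_Recur he he' hB)
    simp only [ofPred_forall]
    exact MeasurableSet.iInter fun t => (measurableSet_le measurable_const (hX t)).inter
      (measurableSet_le (hX t) measurable_const)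
  · intro z
    refine and_congr ⟨fun h t => ?_, fun h t => ?_⟩ Recur_apply
    · have := h (t - 1)
      rwa [model_apply, sub_add_cancel] at this
    · rw [model_apply]
      exact h _
  · intro z hz z' hz' h
    have h1 := nm_inj (hO z hz.1) hz.2 (hO z' hz'.1) hz'.2 h
    have h2 := model_r hd z 0
    have h3 := model_r hd z' 0
    rw [zp_zero] at h2 h3
    apply hi
    rw [h2, h3, h1]
  · intro z _
    funext t
    simp only [nm, sh_apply, model_apply, sub_add_cancel, add_sub_cancel_right]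
  · obtain ⟨x, h1, h2, rfl⟩ := exists_orb hy
    obtain ⟨z, rfl⟩ := model_onto hi hs hd h1.gorb
    exact ⟨z, ⟨fun t => ⟨(h1 t).1, (h1 t).2.1⟩, h2⟩, rfl⟩
  · have h1 := model_ae he' hr hs hd hE.toMeasurePreserving
    have h2 := measure_eq_zero_iff_ae_notMem.1 (PE.aper hE hP)
    have h3 : ∀ᵐ z ∂ν, Orb (modelX e r z) ∧ ¬ ∀ t, modelX e r z (t + 2) = modelX e r z t := by
      filter_upwards [h1, h2] with z hz1 hz2
      have h4 : ¬ ∀ t, modelX e r z (t + 2) = modelX e r z t := fun h =>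
        hz2 ⟨2, by norm_num, model_per hi hd h⟩
      exact ⟨hz1.resolve_left h4, h4⟩
    have h4 : ν {z | 1 / 4 ≤ (r z).2} ≠ 0 := by
      intro h0
      have h5 : ∀ᵐ z ∂ν, ∀ t : ℤ, zp e t z ∉ {z | 1 / 4 ≤ (r z).2} := by
        rw [ae_all_iff]
        intro t
        refine (measure_eq_zero_iff_ae_notMem (s := zp e t ⁻¹' {z | 1 / 4 ≤ (r z).2})).1 ?_
        rw [(measurePreserving_zp he' hE.toMeasurePreserving t).measure_preimage
          hB.nullMeasurableSet, h0]
      obtain ⟨z, ⟨h6, h7⟩, h8⟩ := (h3.and h5).exists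
      have h9 := h6.trivial fun t => not_le.1 (h8 t)
      exact h7 fun t => by rw [h9, h9]
    have h5 : ∀ᵐ z ∂ν, z ∈ {z | Recur e {z | 1 / 4 ≤ (r z).2} z} := ae_recur hE he' hB h4
    refine mem_ae_iff.1 ?_
    filter_upwards [h3, h5] with z hz hz'
    exact ⟨fun t => ⟨(hz.1 t).1, (hz.1 t).2.1⟩, hz'⟩

end ModelPart

end Pool.Agent.P.MP_1672e2_an.Cq
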